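import Pool.Agent.H74A.Mellin

set_option autoImplicit false
set_option linter.unusedSectionVars false
set_option linter.unusedVariables false

/-! # The functional equation on a region, and roots -/

namespace Pool.Agent.H74A

open MvPolynomial MeasureTheory Filter Topology Complex
open Pool.Agent.Y230.AR (SerG exists_serG)
open Pool.Agent.H628R4.TP (weylS IsBFunction)

variable {σ : Type} [Fintype σ] [DecidableEq σ]

theorem integrableOn_succ {K Ω : Set (σ → ℝ)} (hK : IsCompact K) (hΩ : MeasurableSet Ω)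
    {F : (σ → ℝ) → ℝ} (hFc : Continuous F) (hpos : ∀ x ∈ Ω, 0 < F x) (s t : ℝ) (hst : s ≤ t)
    (hI : IntegrableOn (fun x => F x ^ s) (Ω ∩ K)) : IntegrableOn (fun x => F x ^ t) (Ω ∩ K) := by
  obtain ⟨M, hM⟩ := hK.exists_bound_of_continuousOn (f := F) hFc.continuousOn
  have h1 : IntegrableOn (fun x => F x ^ (t - s) * F x ^ s) (Ω ∩ K) := by
    refine Integrable.bdd_mul (c := |M| ^ (t - s)) hI
      (hFc.measurable.pow_const _).aestronglyMeasurable ?_
    filter_upwards [ae_restrict_mem (hΩ.inter hK.measurableSet)] with x hx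
    rw [Real.norm_eq_abs, abs_of_nonneg (Real.rpow_nonneg (hpos x hx.1).le _)]
    refine Real.rpow_le_rpow (hpos x hx.1).le ?_ (sub_nonneg.2 hst)
    have := hM x hx.2
    rw [Real.norm_eq_abs, abs_of_pos (hpos x hx.1)] at this
    exact this.trans (le_abs_self M)
  refine h1.congr_fun (fun x hx => ?_) (hΩ.inter hK.measurableSet)
  simp only
  rw [← Real.rpow_add (hpos x hx.1), sub_add_cancel]

/-- **The functional equation on a region.** -/
theorem ident {f : MvPolynomial σ ℂ} {Ω : Set (σ → ℝ)} (h : Bdry f Ω)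
    {K : Set (σ → ℝ)} (hK : IsCompact K) {F : (σ → ℝ) → ℝ} (hF : ∀ x, ev f x = (F x : ℂ))
    (hpos : ∀ x ∈ Ω, 0 < F x) {b : Polynomial ℂ} (hb : IsBFunction f b)
    {φ : (σ → ℝ) → ℂ} (hφ : Test K φ) :
    ∃ (S : Finset ℕ) (ψ : ℕ → (σ → ℝ) → ℂ), (∀ m, Test K (ψ m)) ∧
      ∀ s : ℝ, IntegrableOn (fun x => F x ^ s) (Ω ∩ K) →
        b.eval (s : ℂ) * ∫ x in Ω, ((F x ^ s : ℝ) : ℂ) * φ x =
          ∑ m ∈ S, (s : ℂ) ^ m * ∫ x in Ω, ((F x ^ (s + 1) : ℝ) : ℂ) * ψ m x := by
  obtain ⟨P, hP⟩ := hb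
  have hFc : Continuous F := by
    have h0 : F = fun x => (ev f x).re := by
      funext x
      rw [hF, Complex.ofReal_re]
    rw [h0]
    exact Complex.continuous_re.comp (continuous_ev f)
  have hΩ := h.1.measurableSet
  choose k hk1 hk2 using fun m => adj h hK (P m : Module.End ℂ (MvPolynomial σ ℂ)) (P m).2
  choose ψ hψ1 hψ2 using fun m => hk2 m φ hφ
  refine ⟨P.support, ψ, hψ1, fun s hs => ?_⟩
  set N : ℕ := max (P.support.sup k) (⌈s⌉₊ + 1) with hN
  have hNk : ∀ m ∈ P.support, k m ≤ N := fun m hm => (Finset.le_sup hm).trans (le_max_left _ _)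
  have hNs : s < N := by
    have h1 : s ≤ ⌈s⌉₊ := Nat.le_ceil s
    have h2 : ((⌈s⌉₊ + 1 : ℕ) : ℝ) ≤ N := by exact_mod_cast le_max_right _ _
    push_cast at h2
    linarith
  -- the equation at the integers
  have e1 : ∀ n : ℕ, N ≤ n → b.eval (n : ℂ) * ∫ x in Ω, (F x : ℂ) ^ n * φ x =
      ∑ m ∈ P.support, (n : ℂ) ^ m * ∫ x in Ω, (F x : ℂ) ^ (n + 1) * ψ m x := by
    intro n hn
    have h1 := hP n
    rw [Finsupp.sum] at h1
    have h2 : ∀ x, b.eval (n : ℂ) * ((F x : ℂ) ^ n * φ x) = ∑ m ∈ P.support, (n : ℂ) ^ m *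
        (ev ((P m : Module.End ℂ (MvPolynomial σ ℂ)) (f ^ (n + 1))) x * φ x) := by
      intro x
      have h3 : ev (C (b.eval (n : ℂ)) * f ^ n) x * φ x = ev (∑ m ∈ P.support,
          ((n : ℂ) ^ m) • (P m : Module.End ℂ (MvPolynomial σ ℂ)) (f ^ (n + 1))) x * φ x := by
        rw [h1]
      rw [ev_mul, ev_C, ev_pow, hF] at h3
      rw [← mul_assoc, h3]
      unfold ev
      rw [map_sum, Finset.sum_mul]
      refine Finset.sum_congr rfl fun m _ => ?_
      rw [smul_eval]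
      ring
    rw [← integral_const_mul]
    simp only [h2]
    rw [integral_finsetSum]
    · refine Finset.sum_congr rfl fun m hm => ?_
      rw [integral_const_mul, hψ2 m _ (pow_dvd_pow f ((hNk m hm).trans (hn.trans (Nat.le_succ n))))]
      congr 1
      refine integral_congr_ae (Eventually.of_forall fun x => ?_)
      simp only [ev_pow, hF]
    · intro m _
      exact ((integrable_mul hK (continuous_ev _) hφ).integrableOn).const_mul _
  -- the exponential sums
  obtain ⟨T, hT⟩ := exists_serG (b.comp (Polynomial.X + Polynomial.C (N : ℂ)))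
  choose U hU using fun m : ℕ => exists_serG ((Polynomial.X + Polynomial.C (N : ℂ)) ^ m)
  have e2 : ∀ τ : ℝ, ∫ x in Ω, ker T N F τ x * φ x =
      ∑ m ∈ P.support, ∫ x in Ω, ker (U m) (N + 1) F τ x * ψ m x := by
    intro τ
    have h1 := hasSum_ker hK hΩ hFc hT N τ hφ
    have h2 : HasSum (fun n : ℕ => ∑ m ∈ P.support, (-(τ : ℂ)) ^ n / (n.factorial : ℂ) *
        (((Polynomial.X + Polynomial.C (N : ℂ)) ^ m).eval (n : ℂ) *
          ∫ x in Ω, (F x : ℂ) ^ (N + 1 + n) * ψ m x))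
        (∑ m ∈ P.support, ∫ x in Ω, ker (U m) (N + 1) F τ x * ψ m x) :=
      hasSum_sum fun m _ => hasSum_ker hK hΩ hFc (hU m) (N + 1) τ (hψ1 m)
    refine h1.unique ?_
    refine h2.congr_fun fun n => ?_
    rw [← Finset.mul_sum]
    congr 1
    have h3 := e1 (N + n) (Nat.le_add_right _ _)
    simp only [Polynomial.eval_comp, Polynomial.eval_add, Polynomial.eval_X, Polynomial.eval_C,
      Polynomial.eval_pow]
    have h4 : (n : ℂ) + (N : ℂ) = ((N + n : ℕ) : ℂ) := by push_cast; ring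
    rw [h4, h3]
    refine Finset.sum_congr rfl fun m _ => ?_
    have h5 : N + 1 + n = N + n + 1 := by ring
    rw [h5]
  -- the Mellin transforms
  set a : ℝ := N - s with ha
  have ha0 : 0 < a := by rw [ha]; linarith
  have hNa : (N : ℝ) - a = s := by rw [ha]; ring
  have hNa1 : ((N + 1 : ℕ) : ℝ) - a = s + 1 := by rw [ha]; push_cast; ring
  have hs1 := integrableOn_succ hK hΩ hFc hpos s (s + 1) (by linarith) hs
  obtain ⟨-, m2⟩ := mellin hK hΩ hFc hpos hT N a ha0 hφ (by rw [hNa]; exact hs)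
  have m3 := fun m => mellin hK hΩ hFc hpos (hU m) (N + 1) a ha0 (hψ1 m)
    (by rw [hNa1]; exact hs1)
  simp only [e2, Finset.mul_sum] at m2
  rw [integral_finsetSum _ (fun m _ => (m3 m).1), Finset.sum_congr rfl fun m _ => (m3 m).2] at m2
  simp only [hNa, hNa1, Polynomial.eval_comp, Polynomial.eval_add, Polynomial.eval_X,
    Polynomial.eval_C, Polynomial.eval_pow] at m2
  have h6 : -(a : ℂ) + (N : ℂ) = (s : ℂ) := by rw [ha]; push_cast; ring
  rw [h6] at m2
  have hΓ : (Real.Gamma a : ℂ) ≠ 0 := by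
    exact_mod_cast (Real.Gamma_pos_of_pos ha0).ne'
  apply mul_left_cancel₀ hΓ
  rw [Finset.mul_sum]
  calc _ = b.eval (s : ℂ) * ((Real.Gamma a : ℂ) * ∫ x in Ω, ((F x ^ s : ℝ) : ℂ) * φ x) := by ring
    _ = _ := m2.symm
    _ = _ := Finset.sum_congr rfl fun m _ => by ring

/-- **Roots from real integrals.** -/
theorem root_real {f : MvPolynomial σ ℂ} {Ω : Set (σ → ℝ)} (h : Bdry f Ω)
    {K : Set (σ → ℝ)} (hK : IsCompact K) {F : (σ → ℝ) → ℝ} (hF : ∀ x, ev f x = (F x : ℂ))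
    (hpos : ∀ x ∈ Ω, 0 < F x) {b : Polynomial ℂ} (hb : IsBFunction f b)
    {ρ : (σ → ℝ) → ℝ} (hρ : Test K (fun x => (ρ x : ℂ))) (s₀ : ℝ)
    (hI : ∀ s, s₀ < s → IntegrableOn (fun x => F x ^ s) (Ω ∩ K))
    (hdiv : ∀ M δ : ℝ, 0 < δ → ∃ s, s₀ < s ∧ s < s₀ + δ ∧ M ≤ ∫ x in Ω, F x ^ s * ρ x) :
    b.eval (s₀ : ℂ) = 0 := by
  obtain ⟨S, ψ, hψ, hid⟩ := ident h hK hF hpos hb hρ
  have hFc : Continuous F := by
    have h0 : F = fun x => (ev f x).re := by
      funext x
      rw [hF, Complex.ofReal_re]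
    rw [h0]
    exact Complex.continuous_re.comp (continuous_ev f)
  have hΩ := h.1.measurableSet
  obtain ⟨M, hM⟩ := hK.exists_bound_of_continuousOn (f := F) hFc.continuousOn
  have hψb : ∀ m, ∃ B : ℝ, 0 ≤ B ∧ ∀ x, ‖ψ m x‖ ≤ B := by
    intro m
    obtain ⟨B, hB⟩ := ((hψ m).compact hK).exists_bound_of_continuous (hψ m).1.continuous
    exact ⟨max B 0, le_max_right _ _, fun x => (hB x).trans (le_max_left _ _)⟩
  choose B hB0 hB using hψb
  set J : ℝ := ∫ x in Ω ∩ K, (max 1 |M|) * F x ^ (s₀ + 1 / 2) with hJ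
  have hJ0 : 0 ≤ J := by
    refine setIntegral_nonneg (hΩ.inter hK.measurableSet) fun x hx => ?_
    have := Real.rpow_nonneg (hpos x hx.1).le (s₀ + 1 / 2)
    positivity
  set Cc : ℝ := ∑ m ∈ S, (|s₀| + 1) ^ m * (B m * J) with hCc
  have hCc0 : 0 ≤ Cc := Finset.sum_nonneg fun m _ => by
    have := hB0 m
    positivity
  have key : ∀ s, s₀ < s → s < s₀ + 1 / 2 → ‖b.eval (s : ℂ)‖ * ∫ x in Ω, F x ^ s * ρ x ≤ Cc := by
    intro s hs1 hs2
    have h1 := hid s (hI s hs1)
    have h2 : ∫ x in Ω, ((F x ^ s : ℝ) : ℂ) * (ρ x : ℂ) = ((∫ x in Ω, F x ^ s * ρ x : ℝ) : ℂ) := by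
      rw [← integral_complex_ofReal]
      refine integral_congr_ae (Eventually.of_forall fun x => ?_)
      simp only [Complex.ofReal_mul]
    rw [h2] at h1
    calc _ ≤ ‖b.eval (s : ℂ)‖ * |∫ x in Ω, F x ^ s * ρ x| :=
          mul_le_mul_of_nonneg_left (le_abs_self _) (norm_nonneg _)
      _ = ‖b.eval (s : ℂ) * ((∫ x in Ω, F x ^ s * ρ x : ℝ) : ℂ)‖ := by
          rw [norm_mul, Complex.norm_real, Real.norm_eq_abs]
      _ = ‖∑ m ∈ S, (s : ℂ) ^ m * ∫ x in Ω, ((F x ^ (s + 1) : ℝ) : ℂ) * ψ m x‖ := by rw [h1]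
      _ ≤ ∑ m ∈ S, ‖(s : ℂ) ^ m * ∫ x in Ω, ((F x ^ (s + 1) : ℝ) : ℂ) * ψ m x‖ := norm_sum_le _ _
      _ ≤ Cc := by
          refine Finset.sum_le_sum fun m _ => ?_
          rw [norm_mul, norm_pow, Complex.norm_real, Real.norm_eq_abs]
          refine mul_le_mul ?_ ?_ (norm_nonneg _) (by positivity)
          · refine pow_le_pow_left₀ (abs_nonneg _) ?_ _
            have h3 : |s| = |s₀ + (s - s₀)| := by rw [add_sub_cancel]
            have h4 : |s - s₀| ≤ 1 := by
              rw [abs_of_pos (by linarith)]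
              linarith
            rw [h3]
            exact (abs_add_le _ _).trans (by linarith)
          · have h3 : ∫ x in Ω, ((F x ^ (s + 1) : ℝ) : ℂ) * ψ m x =
                ∫ x in Ω ∩ K, ((F x ^ (s + 1) : ℝ) : ℂ) * ψ m x := by
              refine setIntegral_eq_of_subset_of_forall_sdiff_eq_zero hΩ Set.inter_subset_left ?_
              intro x hx
              have hx2 : x ∉ K := fun h' => hx.2 ⟨hx.1, h'⟩
              rw [(hψ m).zero hx2, mul_zero]
            rw [h3, hJ, ← integral_const_mul]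
            refine norm_integral_le_of_norm_le ?_ ?_
            · exact (((hI (s₀ + 1 / 2) (by linarith)).const_mul _).const_mul _)
            · filter_upwards [ae_restrict_mem (hΩ.inter hK.measurableSet)] with x hx
              have hx0 := hpos x hx.1
              have hxM : F x ≤ max 1 |M| := by
                have := hM x hx.2
                rw [Real.norm_eq_abs, abs_of_pos hx0] at this
                exact (this.trans (le_abs_self M)).trans (le_max_right _ _)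
              rw [norm_mul, Complex.norm_real, Real.norm_eq_abs,
                abs_of_nonneg (Real.rpow_nonneg hx0.le _), mul_comm]
              refine mul_le_mul (hB m x) ?_ (Real.rpow_nonneg hx0.le _) (hB0 m)
              have h5 : s + 1 = (s - s₀ + 1 / 2) + (s₀ + 1 / 2) := by ring
              rw [h5, Real.rpow_add hx0]
              refine mul_le_mul_of_nonneg_right ?_ (Real.rpow_nonneg hx0.le _)
              calc F x ^ (s - s₀ + 1 / 2) ≤ (max 1 |M|) ^ (s - s₀ + 1 / 2) :=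
                    Real.rpow_le_rpow hx0.le hxM (by linarith)
                _ ≤ (max 1 |M|) ^ (1 : ℝ) :=
                    Real.rpow_le_rpow_of_exponent_le (le_max_left _ _) (by linarith)
                _ = _ := Real.rpow_one _
  by_contra hne
  have hβ : 0 < ‖b.eval (s₀ : ℂ)‖ := norm_pos_iff.2 hne
  have hcont : Continuous fun s : ℝ => ‖b.eval (s : ℂ)‖ :=
    (b.continuous.comp Complex.continuous_ofReal).norm
  have h1 : ∀ᶠ s : ℝ in 𝓝 s₀, ‖b.eval (s₀ : ℂ)‖ / 2 < ‖b.eval (s : ℂ)‖ :=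
    hcont.continuousAt.eventually (lt_mem_nhds (by linarith))
  obtain ⟨δ, hδ, h2⟩ := Metric.eventually_nhds_iff.1 h1
  obtain ⟨s, hs1, hs2, hs3⟩ := hdiv (2 * Cc / ‖b.eval (s₀ : ℂ)‖ + 1) (min δ (1 / 2))
    (lt_min hδ (by norm_num))
  have h3 := key s hs1 (lt_of_lt_of_le hs2 (by linarith [min_le_right δ (1 / 2)]))
  have h4 := h2 (y := s) (by
    rw [Real.dist_eq, abs_of_pos (by linarith)]
    linarith [min_le_left δ (1 / 2)])
  have h5 : ‖b.eval (s₀ : ℂ)‖ / 2 * (2 * Cc / ‖b.eval (s₀ : ℂ)‖ + 1) ≤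
      ‖b.eval (s : ℂ)‖ * ∫ x in Ω, F x ^ s * ρ x := by
    refine mul_le_mul h4.le hs3 ?_ (norm_nonneg _)
    positivity
  have h6 : ‖b.eval (s₀ : ℂ)‖ / 2 * (2 * Cc / ‖b.eval (s₀ : ℂ)‖ + 1) =
      Cc + ‖b.eval (s₀ : ℂ)‖ / 2 := by
    field_simp
  linarith

end Pool.Agent.H74A
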