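import Pool.Agent.H628R4.TP.Defs

set_option autoImplicit false
set_option linter.unusedSectionVars false
set_option linter.unusedVariables false

/-! # Integration by parts on a region bounded by the real zeros of a polynomial -/

namespace Pool.Agent.H74A

open MvPolynomial MeasureTheory Filter Topology Asymptotics
open Pool.Agent.H628R4.TP (weylS IsBFunction)

variable {σ : Type} [Fintype σ] [DecidableEq σ]

/-- the value of a complex polynomial at a real point -/
noncomputable def ev (g : MvPolynomial σ ℂ) (x : σ → ℝ) : ℂ := eval (fun i => (x i : ℂ)) g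

/-- The real derivative of a polynomial function. -/
noncomputable def dR (g : MvPolynomial σ ℂ) (x : σ → ℝ) : (σ → ℝ) →L[ℝ] ℂ :=
  ∑ i, (ContinuousLinearMap.proj (R := ℝ) (φ := fun _ : σ => ℝ) i).smulRight (ev (pderiv i g) x)

theorem dR_apply (g : MvPolynomial σ ℂ) (x v : σ → ℝ) :
    dR g x v = ∑ i, (v i : ℂ) * ev (pderiv i g) x := by
  rw [dR, sum_apply]
  refine Finset.sum_congr rfl fun i _ => ?_
  rw [ContinuousLinearMap.smulRight_apply, ContinuousLinearMap.proj_apply, Complex.real_smul]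

theorem ev_add (g h : MvPolynomial σ ℂ) (x : σ → ℝ) : ev (g + h) x = ev g x + ev h x := map_add _ _ _

theorem ev_mul (g h : MvPolynomial σ ℂ) (x : σ → ℝ) : ev (g * h) x = ev g x * ev h x := map_mul _ _ _

theorem ev_pow (g : MvPolynomial σ ℂ) (n : ℕ) (x : σ → ℝ) : ev (g ^ n) x = ev g x ^ n := map_pow _ _ _

theorem ev_C (a : ℂ) (x : σ → ℝ) : ev (C a : MvPolynomial σ ℂ) x = a := eval_C _

theorem ev_X (i : σ) (x : σ → ℝ) : ev (X i : MvPolynomial σ ℂ) x = (x i : ℂ) := eval_X _

theorem hasFDerivAt_ev (g : MvPolynomial σ ℂ) (x : σ → ℝ) :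
    HasFDerivAt (fun x : σ → ℝ => ev g x) (dR g x) x := by
  induction g using MvPolynomial.induction_on with
  | C a =>
    have h : dR (C a : MvPolynomial σ ℂ) x = 0 := by
      ext v
      rw [dR_apply]
      simp [ev]
    rw [h]
    simp only [ev_C]
    exact hasFDerivAt_const a x
  | add p q hp hq =>
    have h := hp.add hq
    have h1 : dR (p + q) x = dR p x + dR q x := by
      ext v
      rw [add_apply, dR_apply, dR_apply, dR_apply, ← Finset.sum_add_distrib]
      refine Finset.sum_congr rfl fun i _ => ?_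
      rw [map_add, ev_add, mul_add]
    rw [h1]
    refine h.congr_of_eventuallyEq ?_
    filter_upwards with y
    rw [ev_add]
    rfl
  | mul_X p n hp =>
    have hX : HasFDerivAt (fun x : σ → ℝ => ((x n : ℝ) : ℂ))
        ((ContinuousLinearMap.proj (R := ℝ) (φ := fun _ : σ => ℝ) n).smulRight (1 : ℂ)) x := by
      have h0 := (ContinuousLinearMap.proj (R := ℝ) (φ := fun _ : σ => ℝ) n).hasFDerivAt (x := x)
      have h1 := Complex.ofRealCLM.hasFDerivAt.comp x h0
      refine h1.congr_fderiv ?_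
      ext v
      simp
    have h := hp.mul hX
    have h1 : dR (p * X n) x =
        ev p x • ((ContinuousLinearMap.proj (R := ℝ) (φ := fun _ : σ => ℝ) n).smulRight (1 : ℂ)) +
        ((x n : ℝ) : ℂ) • dR p x := by
      ext v
      rw [add_apply, dR_apply, smul_apply,
        smul_apply, dR_apply, ContinuousLinearMap.smulRight_apply,
        ContinuousLinearMap.proj_apply, smul_eq_mul,
        smul_eq_mul, Finset.mul_sum]
      have h2 : ∀ i, (v i : ℂ) * ev (pderiv i (p * X n)) x =
          (if i = n then ev p x * v n else 0) + x n * ((v i : ℂ) * ev (pderiv i p) x) := by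
        intro i
        rw [Derivation.leibniz, pderiv_X, ev_add, smul_eq_mul, ev_mul,
          smul_eq_mul, ev_mul, ev_X]
        by_cases h : i = n
        · subst h
          simp [ev]
          ring
        · rw [if_neg h, Pi.single_eq_of_ne (Ne.symm h)]
          simp [ev]
          ring
      rw [Finset.sum_congr rfl fun i _ => h2 i, Finset.sum_add_distrib]
      congr 1
      rw [Finset.sum_ite_eq' Finset.univ n, if_pos (Finset.mem_univ n)]
      simp
    rw [h1]
    refine h.congr_of_eventuallyEq ?_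
    filter_upwards with y
    rw [ev_mul, ev_X]
    rfl

theorem continuous_ev (g : MvPolynomial σ ℂ) : Continuous fun x : σ → ℝ => ev g x :=
  continuous_iff_continuousAt.2 fun x => (hasFDerivAt_ev g x).continuousAt

theorem dR_single (g : MvPolynomial σ ℂ) (x : σ → ℝ) (i : σ) :
    dR g x (Pi.single i 1) = ev (pderiv i g) x := by
  rw [dR_apply, Finset.sum_eq_single i]
  · simp
  · intro j _ hj
    simp [Pi.single_eq_of_ne hj]
  · intro h; exact absurd (Finset.mem_univ i) h

/-- Test functions with support in `K`. -/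
def Test (K : Set (σ → ℝ)) (φ : (σ → ℝ) → ℂ) : Prop :=
  ContDiff ℝ ((⊤ : ℕ∞) : WithTop ℕ∞) φ ∧ tsupport φ ⊆ K

theorem Test.fderiv {K : Set (σ → ℝ)} {φ : (σ → ℝ) → ℂ} (hφ : Test K φ) (v : σ → ℝ) :
    Test K (fun x => fderiv ℝ φ x v) := by
  refine ⟨(hφ.1.fderiv_right (m := ((⊤ : ℕ∞) : WithTop ℕ∞)) (by simp)).clm_apply contDiff_const, ?_⟩
  refine subset_trans ?_ hφ.2
  refine subset_trans ?_ (tsupport_fderiv_subset ℝ (f := φ))
  exact closure_mono fun x hx => by
    rw [Function.mem_support] at hx ⊢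
    intro h0
    apply hx
    rw [h0]
    rfl

theorem Test.add {K : Set (σ → ℝ)} {φ ψ : (σ → ℝ) → ℂ} (hφ : Test K φ) (hψ : Test K ψ) :
    Test K (fun x => φ x + ψ x) :=
  ⟨hφ.1.add hψ.1, (tsupport_add φ ψ).trans (Set.union_subset hφ.2 hψ.2)⟩

theorem Test.mul {K : Set (σ → ℝ)} {φ G : (σ → ℝ) → ℂ} (hφ : Test K φ)
    (hG : ContDiff ℝ ((⊤ : ℕ∞) : WithTop ℕ∞) G) :
    Test K (fun x => G x * φ x) :=
  ⟨hG.mul hφ.1, (tsupport_mul_subset_right (f := G) (g := φ)).trans hφ.2⟩

theorem Test.const_mul {K : Set (σ → ℝ)} {φ : (σ → ℝ) → ℂ} (hφ : Test K φ) (c : ℂ) :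
    Test K (fun x => c * φ x) := hφ.mul contDiff_const

theorem Test.compact {K : Set (σ → ℝ)} (hK : IsCompact K) {φ : (σ → ℝ) → ℂ} (hφ : Test K φ) :
    HasCompactSupport φ := hK.of_isClosed_subset (isClosed_tsupport φ) hφ.2

theorem Test.zero {K : Set (σ → ℝ)} {φ : (σ → ℝ) → ℂ} (hφ : Test K φ) {x : σ → ℝ} (hx : x ∉ K) :
    φ x = 0 := by
  by_contra h
  exact hx (hφ.2 (subset_tsupport φ h))

theorem integrable_mul {K : Set (σ → ℝ)} (hK : IsCompact K) {G φ : (σ → ℝ) → ℂ}
    (hG : Continuous G) (hφ : Test K φ) :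
    Integrable (fun x => G x * φ x) :=
  Continuous.integrable_of_hasCompactSupport (hG.mul hφ.1.continuous)
    ((hφ.compact hK).mul_left (f := G))

/-- `f` vanishes on the boundary of the open set `Ω` -/
def Bdry (f : MvPolynomial σ ℂ) (Ω : Set (σ → ℝ)) : Prop :=
  IsOpen Ω ∧ ∀ x ∈ frontier Ω, ev f x = 0

theorem hasFDerivAt_ind {f : MvPolynomial σ ℂ} {Ω : Set (σ → ℝ)} (h : Bdry f Ω)
    (g : MvPolynomial σ ℂ) (hg : f ^ 2 ∣ g) (x : σ → ℝ) :
    HasFDerivAt (Ω.indicator (ev g)) (Ω.indicator (dR g) x) x := by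
  classical
  by_cases hx : x ∈ Ω
  · rw [Set.indicator_of_mem hx]
    refine (hasFDerivAt_ev g x).congr_of_eventuallyEq ?_
    filter_upwards [h.1.mem_nhds hx] with y hy
    rw [Set.indicator_of_mem hy]
  · rw [Set.indicator_of_notMem hx]
    by_cases hx2 : x ∈ closure Ω
    · have hf : ev f x = 0 := h.2 x ⟨hx2, fun h' => hx (interior_subset h')⟩
      obtain ⟨k, rfl⟩ := hg
      rw [hasFDerivAt_iff_isLittleO]
      have h0 : Ω.indicator (ev (f ^ 2 * k)) x = 0 := Set.indicator_of_notMem hx _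
      simp only [h0, sub_zero, zero_apply]
      have h1 : (fun y => ev f y) =O[𝓝 x] fun y => y - x := by
        have h2 := (hasFDerivAt_ev f x).isBigO_sub
        simpa [hf] using h2
      have h2 : (fun y => ev f y * (ev f y * ev k y)) =o[𝓝 x] fun y => y - x := by
        have h3 : (fun y => ev f y * ev k y) =o[𝓝 x] fun _ => (1 : ℝ) := by
          rw [isLittleO_one_iff]
          have h4 : Continuous fun y => ev f y * ev k y := (continuous_ev f).mul (continuous_ev k)
          have h5 := h4.tendsto x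
          rwa [hf, zero_mul] at h5
        have h6 := h1.norm_right.mul_isLittleO h3
        simp only [mul_one] at h6
        exact h6.of_norm_right
      refine IsBigO.trans_isLittleO (IsBigO.of_bound 1 (Eventually.of_forall fun y => ?_)) h2
      rw [one_mul]
      by_cases hy : y ∈ Ω
      · rw [Set.indicator_of_mem hy, ev_mul, ev_pow, sq, mul_assoc]
      · rw [Set.indicator_of_notMem hy, norm_zero]
        exact norm_nonneg _
    · refine (hasFDerivAt_const (0 : ℂ) x).congr_of_eventuallyEq ?_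
      filter_upwards [isClosed_closure.isOpen_compl.mem_nhds hx2] with y hy
      exact Set.indicator_of_notMem (fun h' => hy (subset_closure h')) _

/-- Integration by parts. -/
theorem int_parts {f : MvPolynomial σ ℂ} {Ω : Set (σ → ℝ)} (h : Bdry f Ω)
    {K : Set (σ → ℝ)} (hK : IsCompact K)
    (g : MvPolynomial σ ℂ) (hg : f ^ 2 ∣ g) {φ : (σ → ℝ) → ℂ} (hφ : Test K φ) (i : σ) :
    ∫ x in Ω, ev (pderiv i g) x * φ x = ∫ x in Ω, ev g x * (-1 * fderiv ℝ φ x (Pi.single i 1)) := by
  have hd : Differentiable ℝ φ := hφ.1.differentiable (by simp)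
  have hfd := hφ.fderiv (Pi.single i 1)
  have hm := h.1.measurableSet
  have e1 : ∀ ψ : (σ → ℝ) → ℂ, ∀ G : (σ → ℝ) → ℂ, ∫ x in Ω, G x * ψ x =
      ∫ x, Ω.indicator G x * ψ x := by
    intro ψ G
    rw [← integral_indicator hm]
    refine integral_congr_ae (Eventually.of_forall fun x => ?_)
    simp only [Set.indicator_mul_left]
  rw [e1, e1]
  have h1 : ∀ x, fderiv ℝ (Ω.indicator (ev g)) x (Pi.single i 1) =
      Ω.indicator (ev (pderiv i g)) x := by
    intro x
    rw [(hasFDerivAt_ind h g hg x).fderiv]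
    by_cases hx : x ∈ Ω
    · rw [Set.indicator_of_mem hx, Set.indicator_of_mem hx, dR_single]
    · rw [Set.indicator_of_notMem hx, Set.indicator_of_notMem hx]
      rfl
  have i1 : ∀ (k : MvPolynomial σ ℂ) (ψ : (σ → ℝ) → ℂ), Test K ψ →
      Integrable (fun x => Ω.indicator (ev k) x * ψ x) := by
    intro k ψ hψ
    have h2 := (integrable_mul hK (continuous_ev k) hψ).indicator hm
    refine h2.congr (Eventually.of_forall fun x => ?_)
    simp only [Set.indicator_mul_left]
  have key := integral_mul_fderiv_eq_neg_fderiv_mul_of_integrable (𝕜 := ℂ) (μ := volume)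
    (f := Ω.indicator (ev g)) (g := φ) (v := Pi.single i 1) (by simpa only [h1] using i1 _ _ hφ)
    (i1 _ _ hfd) (i1 _ _ hφ) (fun x _ => (hasFDerivAt_ind h g hg x).differentiableAt)
    (fun x _ => hd x)
  simp only [h1] at key
  have e2 : ∀ x, Ω.indicator (ev g) x * (-1 * fderiv ℝ φ x (Pi.single i 1)) =
      -(Ω.indicator (ev g) x * fderiv ℝ φ x (Pi.single i 1)) := by intro x; ring
  simp only [e2]
  rw [integral_neg, key, neg_neg]

/-- **The adjoint action.** -/
theorem adj {f : MvPolynomial σ ℂ} {Ω : Set (σ → ℝ)} (h : Bdry f Ω)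
    {K : Set (σ → ℝ)} (hK : IsCompact K) (Q : Module.End ℂ (MvPolynomial σ ℂ))
    (hQ : Q ∈ weylS σ) : ∃ k : ℕ, (∀ n g, f ^ (n + k) ∣ g → f ^ n ∣ Q g) ∧
      ∀ φ : (σ → ℝ) → ℂ, Test K φ → ∃ ψ : (σ → ℝ) → ℂ, Test K ψ ∧
      ∀ g : MvPolynomial σ ℂ, f ^ k ∣ g →
        ∫ x in Ω, ev (Q g) x * φ x = ∫ x in Ω, ev g x * ψ x := by
  induction hQ using Algebra.adjoin_induction with
  | mem Q hQ =>
    rcases hQ with ⟨i, rfl⟩ | ⟨i, rfl⟩
    · refine ⟨0, fun n g hg => ?_, fun φ hφ => ⟨fun x => (x i : ℂ) * φ x, hφ.mul ?_, fun g hg => ?_⟩⟩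
      · exact hg.mul_left _
      · exact Complex.ofRealCLM.contDiff.comp
          (ContinuousLinearMap.proj (R := ℝ) (φ := fun _ : σ => ℝ) i).contDiff
      · refine integral_congr_ae (Filter.Eventually.of_forall fun x => ?_)
        simp only [LinearMap.mulLeft_apply, ev_mul, ev_X]
        ring
    · refine ⟨2, fun n g hg => ?_, fun φ hφ => ⟨fun x => -1 * fderiv ℝ φ x (Pi.single i 1),
        (hφ.fderiv _).const_mul _, fun g hg => ?_⟩⟩
      · obtain ⟨k, rfl⟩ := hg
        change f ^ n ∣ pderiv i (f ^ (n + 2) * k)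
        rw [Derivation.leibniz, Derivation.leibniz_pow]
        simp only [smul_eq_mul, nsmul_eq_mul]
        refine dvd_add ?_ ?_
        · rw [pow_add]
          exact (Dvd.intro _ rfl).mul_right _
        · refine Dvd.dvd.mul_left ?_ _
          refine Dvd.dvd.mul_left ?_ _
          have : n + 2 - 1 = n + 1 := by omega
          rw [this]
          exact (pow_dvd_pow f (Nat.le_succ n)).mul_right _
      · exact int_parts h hK g hg hφ i
  | algebraMap r =>
    refine ⟨0, fun n g hg => ?_, fun φ hφ => ⟨fun x => r * φ x, hφ.const_mul _, fun g hg => ?_⟩⟩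
    · rw [Module.algebraMap_end_apply]
      exact dvd_smul_of_dvd r hg
    · refine integral_congr_ae (Filter.Eventually.of_forall fun x => ?_)
      simp only [Module.algebraMap_end_apply, smul_eq_C_mul, ev_mul, ev_C]
      ring
  | add Q R _ _ hQ hR =>
    obtain ⟨k, hk1, hk2⟩ := hQ
    obtain ⟨m, hm1, hm2⟩ := hR
    refine ⟨max k m, fun n g hg => ?_, fun φ hφ => ?_⟩
    · have h1 : f ^ (n + k) ∣ g := (pow_dvd_pow f (by omega)).trans hg
      have h2 : f ^ (n + m) ∣ g := (pow_dvd_pow f (by omega)).trans hg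
      exact dvd_add (hk1 n g h1) (hm1 n g h2)
    · obtain ⟨ψ, h1, h2⟩ := hk2 φ hφ
      obtain ⟨χ, h3, h4⟩ := hm2 φ hφ
      refine ⟨fun x => ψ x + χ x, h1.add h3, fun g hg => ?_⟩
      have h5 := h2 g ((pow_dvd_pow f (le_max_left _ _)).trans hg)
      have h6 := h4 g ((pow_dvd_pow f (le_max_right _ _)).trans hg)
      have e1 : ∀ x, ev ((Q + R) g) x * φ x = ev (Q g) x * φ x + ev (R g) x * φ x := by
        intro x
        rw [LinearMap.add_apply, ev_add, add_mul]
      have e2 : ∀ x, ev g x * (ψ x + χ x) = ev g x * ψ x + ev g x * χ x := fun x => mul_add _ _ _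
      simp only [e1, e2]
      rw [integral_add, integral_add, h5, h6]
      · exact (integrable_mul hK (continuous_ev _) h1).integrableOn
      · exact (integrable_mul hK (continuous_ev _) h3).integrableOn
      · exact (integrable_mul hK (continuous_ev _) hφ).integrableOn
      · exact (integrable_mul hK (continuous_ev _) hφ).integrableOn
  | mul Q R _ _ hQ hR =>
    obtain ⟨k, hk1, hk2⟩ := hQ
    obtain ⟨m, hm1, hm2⟩ := hR
    refine ⟨k + m, fun n g hg => ?_, fun φ hφ => ?_⟩
    · rw [← add_assoc] at hg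
      exact hk1 n _ (hm1 (n + k) g hg)
    · obtain ⟨ψ, h1, h2⟩ := hk2 φ hφ
      obtain ⟨χ, h3, h4⟩ := hm2 ψ h1
      refine ⟨χ, h3, fun g hg => ?_⟩
      have h5 : f ^ m ∣ g := (pow_dvd_pow f (Nat.le_add_left _ _)).trans hg
      have h6 : f ^ k ∣ R g := hm1 k g hg
      rw [Module.End.mul_apply, h2 (R g) h6, h4 g h5]

end Pool.Agent.H74A
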