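import Pool.Agent.H74A.Cid

set_option autoImplicit false
set_option linter.unusedSectionVars false
set_option linter.unusedVariables false

/-! # Roots from poles of the analytic continuation -/

namespace Pool.Agent.H74C

open MvPolynomial MeasureTheory Filter Topology Complex
open Pool.Agent.Y230.AR (Test gh continuous_gh integrable_mul adj continuous_ev)
open Pool.Agent.H628R4.TP (weylS IsBFunction)
open Pool.Agent.H74A (hol_int)

variable {σ : Type} [Fintype σ] [DecidableEq σ]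

theorem cpow_norm {N : ℝ} (hN : 0 < N) (s : ℂ) : ‖(N : ℂ) ^ s‖ = N ^ s.re :=
  Complex.norm_cpow_eq_rpow_re_of_pos hN s

theorem rpow_le_max {N M p q r : ℝ} (hN : 0 < N) (hM : N ≤ M) (hpq : p ≤ q) (hr : q - p ≤ r) :
    N ^ q ≤ (max 1 M) ^ r * N ^ p := by
  have h1 : N ^ q = N ^ (q - p) * N ^ p := by
    rw [← Real.rpow_add hN]; congr 1; ring
  rw [h1]
  refine mul_le_mul_of_nonneg_right ?_ (Real.rpow_nonneg hN.le _)
  calc N ^ (q - p) ≤ (max 1 M) ^ (q - p) :=
        Real.rpow_le_rpow hN.le (hM.trans (le_max_right _ _)) (by linarith)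
    _ ≤ (max 1 M) ^ r := Real.rpow_le_rpow_of_exponent_le (le_max_left _ _) hr

/-- the right hand side of the functional equation is holomorphic for `Re s > s₁ - 1/2`, if the
powers `|f| ^ (2 t)`, `s₁ < t < 0`, are integrable -/
theorem G_hol {K : Set (σ → ℂ)} (hK : IsCompact K) (f : MvPolynomial σ ℂ)
    (hpos : ∀ᵐ x ∂(volume.restrict K), 0 < Nm f x) {ψ : (σ → ℂ) → ℂ} (hψ : Test K ψ) {s₁ : ℝ}
    (hs₁ : s₁ < 0) (hint : ∀ t : ℝ, s₁ < t → t < 0 → IntegrableOn (fun x => Nm f x ^ t) K) :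
    DifferentiableOn ℂ (fun s : ℂ => ∫ x in K, (Nm f x : ℂ) ^ s * (eval x f * ψ x))
      {s | s₁ - 1 / 2 < s.re} := by
  have hU : IsOpen {s : ℂ | s₁ - 1 / 2 < s.re} := isOpen_lt continuous_const Complex.continuous_re
  obtain ⟨M, hM⟩ := hK.exists_bound_of_continuousOn (f := Nm f) (continuous_Nm f).continuousOn
  obtain ⟨B, hB0, hB⟩ := tbound hK hψ
  have hKm := hK.measurableSet
  refine hol_int hU _ ?_ ?_ ?_
  · filter_upwards [hpos] with x hx
    have h0 : (Nm f x : ℂ) ≠ 0 := Complex.ofReal_ne_zero.2 hx.ne'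
    intro s _
    exact (((differentiableAt_id.const_cpow (Or.inl h0)).mul_const _)).differentiableWithinAt
  · intro s _
    have h1 : Measurable fun x => (Nm f x : ℂ) ^ s :=
      (Complex.measurable_ofReal.comp (continuous_Nm f).measurable).pow_const s
    exact (h1.mul ((continuous_ev f).mul hψ.1.continuous).measurable).aestronglyMeasurable
  · intro s hs
    have hs' : s₁ - 1 / 2 < s.re := hs
    set ε : ℝ := (s.re + 1 / 2 - s₁) / 2 with hε
    have hε0 : 0 < ε := by rw [hε]; linarith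
    set t : ℝ := min (s.re + 1 / 2 - ε) (s₁ / 2) with ht
    have ht1 : s₁ < t := by
      rw [ht]
      exact lt_min (by rw [hε]; linarith) (by linarith)
    have ht0 : t < 0 := (min_le_right _ _).trans_lt (by linarith)
    have htε : t ≤ s.re + 1 / 2 - ε := min_le_left _ _
    refine ⟨ε, hε0, ?_, fun x => (max 1 M) ^ (s.re + ε + 1 / 2 - t) * Nm f x ^ t * B, ?_, ?_⟩
    · intro z hz
      rw [Metric.mem_ball, Complex.dist_eq] at hz
      have := (abs_le.1 (Complex.abs_re_le_norm (z - s))).1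
      rw [Complex.sub_re] at this
      change s₁ - 1 / 2 < z.re
      rw [hε] at hz
      linarith
    · exact (((hint t ht1 ht0).const_mul _).mul_const _)
    · filter_upwards [hpos, ae_restrict_mem hKm] with x hx hxK z hz
      have h2 := hM x hxK
      rw [Real.norm_eq_abs, abs_of_pos hx] at h2
      rw [Metric.mem_ball, Complex.dist_eq] at hz
      have hz1 := abs_le.1 ((Complex.abs_re_le_norm (z - s)).trans hz.le)
      rw [Complex.sub_re] at hz1
      rw [norm_mul, cpow_norm hx, norm_mul]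
      have h3 : ‖eval x f‖ = Nm f x ^ (1 / 2 : ℝ) := by
        unfold Nm
        rw [← Real.sqrt_eq_rpow, Real.sqrt_sq (norm_nonneg _)]
      rw [h3, ← mul_assoc, ← Real.rpow_add hx]
      refine mul_le_mul ?_ (hB x) (norm_nonneg _) (by positivity)
      exact rpow_le_max (p := t) (q := z.re + 1 / 2) hx h2 (by linarith) (by linarith)

/-- **Roots from poles of the analytic continuation.** -/
theorem root_cont {K : Set (σ → ℂ)} (hK : IsCompact K) (f : MvPolynomial σ ℂ)
    (hpos : ∀ᵐ x ∂(volume.restrict K), 0 < Nm f x) (b : Polynomial ℂ)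
    (hb : IsBFunction f b) {φ : (σ → ℂ) → ℂ} (hφ : Test K φ) (s₀ s₁ : ℝ) (h0 : s₁ - 1 / 2 < s₀)
    (h01 : s₀ < s₁) (h1 : s₁ < 0) (w A Q : ℂ → ℂ)
    (hw : Differentiable ℂ w) (hw0 : w s₀ ≠ 0)
    (hA : DifferentiableOn ℂ A {s | s₀ < s.re ∧ s.re < 0})
    (hQ : DifferentiableOn ℂ Q {s | s₀ < s.re ∧ s.re < 0})
    (hI : ∀ s : ℝ, s₁ < s → s < 0 → IntegrableOn (fun x => Nm f x ^ s) K ∧
      w s * ∫ x in K, ((Nm f x ^ s : ℝ) : ℂ) * φ x = A s - w s * Q s)
    (CA δ : ℝ) (hδ : 0 < δ) (hAb : ∀ s : ℝ, s₀ < s → s < s₀ + δ → ‖A s‖ ≤ CA)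
    (hdiv : ∀ M δ : ℝ, 0 < δ → ∃ s : ℝ, s₀ < s ∧ s < s₀ + δ ∧ M ≤ ‖Q s‖) :
    b.eval (s₀ : ℂ) = 0 := by
  obtain ⟨S, ψ, hψ, hid⟩ := cident hK f hpos b hb hφ
  set G : ℂ → ℂ := fun s => ∑ m ∈ S, s ^ m * ∫ x in K, (Nm f x : ℂ) ^ s * (eval x f * ψ m x)
    with hG
  have hGd : DifferentiableOn ℂ G {s | s₁ - 1 / 2 < s.re} := by
    refine DifferentiableOn.fun_sum fun m _ => ?_
    exact (differentiableOn_pow m).mul (G_hol hK f hpos (hψ m) h1 fun t ht1 ht2 => (hI t ht1 ht2).1)
  have hUo : IsOpen {s : ℂ | s₀ < s.re ∧ s.re < 0} :=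
    (isOpen_lt continuous_const Complex.continuous_re).inter
      (isOpen_lt Complex.continuous_re continuous_const)
  have hUc : IsPreconnected {s : ℂ | s₀ < s.re ∧ s.re < 0} := by
    have h2 : {s : ℂ | s₀ < s.re ∧ s.re < 0} = Complex.reLm ⁻¹' (Set.Ioo s₀ 0) := by
      ext s
      simp
    rw [h2]
    exact ((convex_Ioo s₀ 0).is_linear_preimage Complex.reLm.isLinear).isPreconnected
  have hGs : ∀ s : ℝ, ∑ m ∈ S, (s : ℂ) ^ m *
      ∫ x in K, ((Nm f x ^ s : ℝ) : ℂ) * (eval x f * ψ m x) = G s := by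
    intro s
    rw [hG]
    refine Finset.sum_congr rfl fun m _ => ?_
    congr 1
    refine integral_congr_ae (Eventually.of_forall fun x => ?_)
    simp only
    rw [Complex.ofReal_cpow (Nm_nonneg f x)]
  have hL : DifferentiableOn ℂ (fun s => w s * G s) {s | s₀ < s.re ∧ s.re < 0} :=
    hw.differentiableOn.mul (hGd.mono fun s hs => lt_trans h0 hs.1)
  have hR : DifferentiableOn ℂ (fun s => b.eval s * (A s - w s * Q s))
      {s | s₀ < s.re ∧ s.re < 0} :=
    b.differentiable.differentiableOn.mul (hA.sub (hw.differentiableOn.mul hQ))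
  set z₀ : ℝ := s₁ / 2 with hz₀
  have heq : Set.EqOn (fun s => w s * G s) (fun s => b.eval s * (A s - w s * Q s))
      {s | s₀ < s.re ∧ s.re < 0} := by
    refine (hL.analyticOnNhd hUo).eqOn_of_preconnected_of_frequently_eq (hR.analyticOnNhd hUo)
      hUc (z₀ := (z₀ : ℂ)) ?_ ?_
    · constructor
      · rw [Complex.ofReal_re, hz₀]; linarith
      · rw [Complex.ofReal_re, hz₀]; linarith
    · have h2 : Tendsto (fun n : ℕ => ((z₀ + (-z₀) / 2 / (n + 1) : ℝ) : ℂ)) atTop
          (𝓝[≠] (z₀ : ℂ)) := by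
        rw [tendsto_nhdsWithin_iff]
        constructor
        · have h4 : Tendsto (fun n : ℕ => z₀ + (-z₀) / 2 * (1 / ((n : ℝ) + 1))) atTop
              (𝓝 (z₀ + (-z₀) / 2 * 0)) :=
            (tendsto_one_div_add_atTop_nhds_zero_nat.const_mul _).const_add _
          rw [mul_zero, add_zero] at h4
          have h5 := (Complex.continuous_ofReal.tendsto z₀).comp h4
          refine h5.congr fun n => ?_
          simp only [Function.comp_apply]
          congr 1
          ring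
        · refine Eventually.of_forall fun n => ?_
          rw [Set.mem_compl_iff, Set.mem_singleton_iff, Complex.ofReal_inj]
          have h6 : 0 < (-z₀) / 2 / ((n : ℝ) + 1) := by
            have : 0 < -z₀ := by rw [hz₀]; linarith
            positivity
          linarith
      refine h2.frequently (Frequently.of_forall fun n => ?_)
      have hz0 : 0 < -z₀ := by rw [hz₀]; linarith
      have hn : (1 : ℝ) ≤ (n : ℝ) + 1 := by
        have : (0 : ℝ) ≤ n := Nat.cast_nonneg n
        linarith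
      have h6 : 0 < (-z₀) / 2 / ((n : ℝ) + 1) := by positivity
      have h7 : (-z₀) / 2 / ((n : ℝ) + 1) ≤ (-z₀) / 2 := by
        calc (-z₀) / 2 / ((n : ℝ) + 1) ≤ (-z₀) / 2 / 1 := by gcongr
          _ = _ := by ring
      set t : ℝ := z₀ + (-z₀) / 2 / (n + 1) with ht
      have ht1 : s₁ < t := by rw [ht]; rw [hz₀] at h6 ⊢; linarith
      have ht2 : t < 0 := by rw [ht]; linarith
      obtain ⟨i1, i2⟩ := hI t ht1 ht2
      have i3 := hid t ht2 i1
      rw [hGs t] at i3
      change w t * G t = b.eval (t : ℂ) * (A t - w t * Q t)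
      rw [← i2, ← i3]
      ring
  by_contra hne
  -- bounds near `s₀`
  have hGcont : ContinuousAt (fun s : ℝ => G s) s₀ := by
    have h2 : ContinuousAt G (s₀ : ℂ) := by
      refine (hGd.differentiableAt ?_).continuousAt
      exact (isOpen_lt continuous_const Complex.continuous_re).mem_nhds (by
        change s₁ - 1 / 2 < (s₀ : ℂ).re
        rwa [Complex.ofReal_re])
    exact ContinuousAt.comp (g := G) (f := fun s : ℝ => (s : ℂ)) h2
      Complex.continuous_ofReal.continuousAt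
  have e1 : ∀ᶠ s : ℝ in 𝓝 s₀, ‖G s‖ < ‖G s₀‖ + 1 :=
    hGcont.norm.eventually (gt_mem_nhds (by linarith))
  have hwc : ContinuousAt (fun s : ℝ => ‖w s‖) s₀ :=
    (hw.continuous.comp Complex.continuous_ofReal).norm.continuousAt
  have hw1 : 0 < ‖w s₀‖ := norm_pos_iff.2 hw0
  have e2 : ∀ᶠ s : ℝ in 𝓝 s₀, ‖w s₀‖ / 2 < ‖w s‖ := hwc.eventually (lt_mem_nhds (by linarith))
  have hbc : ContinuousAt (fun s : ℝ => ‖b.eval (s : ℂ)‖) s₀ :=
    (b.continuous.comp Complex.continuous_ofReal).norm.continuousAt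
  have hb1 : 0 < ‖b.eval (s₀ : ℂ)‖ := norm_pos_iff.2 hne
  have e3 : ∀ᶠ s : ℝ in 𝓝 s₀, ‖b.eval (s₀ : ℂ)‖ / 2 < ‖b.eval (s : ℂ)‖ :=
    hbc.eventually (lt_mem_nhds (by linarith))
  obtain ⟨δ', hδ', hall⟩ := Metric.eventually_nhds_iff.1 (e1.and (e2.and e3))
  set CC : ℝ := CA / (‖w s₀‖ / 2) + (‖G s₀‖ + 1) / (‖b.eval (s₀ : ℂ)‖ / 2) with hCC
  obtain ⟨s, hs1, hs2, hs3⟩ := hdiv (CC + 1) (min (min δ δ') (s₁ - s₀))
    (lt_min (lt_min hδ hδ') (by linarith))
  have hs4 : s < s₁ := by
    have := min_le_right (min δ δ') (s₁ - s₀)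
    linarith
  have hs5 : s < s₀ + δ := by
    have := (min_le_left (min δ δ') (s₁ - s₀)).trans (min_le_left _ _)
    linarith
  have hs6 : s < s₀ + δ' := by
    have := (min_le_left (min δ δ') (s₁ - s₀)).trans (min_le_right _ _)
    linarith
  obtain ⟨a1, a2, a3⟩ := hall (y := s) (by
    rw [Real.dist_eq, abs_of_pos (by linarith)]; linarith)
  have h2 := heq (x := (s : ℂ)) ⟨by rw [Complex.ofReal_re]; exact hs1, by
    rw [Complex.ofReal_re]; linarith⟩
  simp only at h2
  have hws : w s ≠ 0 := norm_pos_iff.1 (lt_trans (by positivity) a2)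
  have hbs : b.eval (s : ℂ) ≠ 0 := norm_pos_iff.1 (lt_trans (by positivity) a3)
  have h3 : Q s = A s / w s - G s / b.eval (s : ℂ) := by
    have h5 : A s / w s - G s / b.eval (s : ℂ) =
        (b.eval (s : ℂ) * A s - w s * G s) / (w s * b.eval (s : ℂ)) := by
      rw [div_sub_div _ _ hws hbs]
      ring
    rw [h5, eq_div_iff (mul_ne_zero hws hbs)]
    linear_combination h2
  have h4 : ‖Q s‖ ≤ CC := by
    rw [h3, hCC]
    refine (norm_sub_le _ _).trans (add_le_add ?_ ?_)
    · rw [norm_div]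
      refine div_le_div₀ ((norm_nonneg _).trans (hAb s hs1 hs5)) (hAb s hs1 hs5) (by positivity) a2.le
    · rw [norm_div]
      refine div_le_div₀ (by positivity) a1.le (by positivity) a3.le
  linarith

end Pool.Agent.H74C
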