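import Mathlib

set_option autoImplicit false
set_option linter.unusedSectionVars false
set_option linter.unusedVariables false

/-! # Continuity of the symmetric functions of the zeros -/

namespace Pool.Agent.H74A

open Polynomial Topology Filter

/-- the polynomial with the zeros `r i` -/
noncomputable def pr {k : ℕ} (r : Fin k → ℂ) : ℂ[X] := ∏ i, (X - C (r i))

theorem pr_monic {k : ℕ} (r : Fin k → ℂ) : (pr r).Monic := monic_prod_of_monic _ _ fun i _ => monic_X_sub_C _

theorem pr_natDegree {k : ℕ} (r : Fin k → ℂ) : (pr r).natDegree = k := by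
  rw [pr, natDegree_prod_of_monic _ _ fun i _ => monic_X_sub_C _]
  simp

theorem pr_roots {k : ℕ} (r : Fin k → ℂ) : (pr r).roots = Finset.univ.val.map r := by
  have h : pr r = ((Finset.univ.val.map r).map fun a => X - C a).prod := by
    rw [Multiset.map_map, pr]
    rfl
  rw [h, roots_multiset_prod_X_sub_C]

theorem coeff_cont {ι : Type} [DecidableEq ι] (s : Finset ι) (n : ℕ) :
    Continuous fun r : ι → ℂ => (∏ i ∈ s, (X - C (r i)) : ℂ[X]).coeff n := by
  induction s using Finset.induction_on generalizing n with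
  | empty => simpa using continuous_const
  | insert a s ha ih =>
    have h : ∀ r : ι → ℂ, (∏ i ∈ insert a s, (X - C (r i)) : ℂ[X]).coeff n =
        (if n = 0 then 0 else (∏ i ∈ s, (X - C (r i)) : ℂ[X]).coeff (n - 1)) -
          r a * (∏ i ∈ s, (X - C (r i)) : ℂ[X]).coeff n := by
      intro r
      rw [Finset.prod_insert ha, sub_mul, coeff_sub, coeff_C_mul]
      congr 1
      cases n with
      | zero => simp
      | succ n => simp
    simp only [h]
    by_cases hn : n = 0
    · simp only [hn, if_true]
      exact continuous_const.sub ((continuous_apply a).mul (ih 0))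
    · simp only [hn, if_false]
      exact (ih (n - 1)).sub ((continuous_apply a).mul (ih n))

/-- the coefficients as functions of the zeros -/
noncomputable def cf {k : ℕ} (r : Fin k → ℂ) : Fin k → ℂ := fun j => (pr r).coeff j

theorem cf_cont (k : ℕ) : Continuous (cf (k := k)) :=
  continuous_pi fun j => coeff_cont Finset.univ j

theorem pr_eq_of_cf {k : ℕ} {r r' : Fin k → ℂ} (h : cf r = cf r') : pr r = pr r' := by
  ext n
  rcases lt_trichotomy n k with hn | hn | hn
  · exact congrFun h ⟨n, hn⟩
  · have h1 := (pr_monic r).coeff_natDegree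
    have h2 := (pr_monic r').coeff_natDegree
    rw [pr_natDegree] at h1 h2
    rw [hn, h1, h2]
  · rw [coeff_eq_zero_of_natDegree_lt (by rw [pr_natDegree]; exact hn),
      coeff_eq_zero_of_natDegree_lt (by rw [pr_natDegree]; exact hn)]

theorem exists_fn (m : Multiset ℂ) (k : ℕ) (hk : m.card = k) :
    ∃ r : Fin k → ℂ, Finset.univ.val.map r = m := by
  subst hk
  induction m using Quotient.inductionOn with
  | h l =>
    refine ⟨fun i => l.get (Fin.cast (by simp) i), ?_⟩
    rw [Fin.univ_val_map]
    congr 1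
    simp

theorem exists_roots (P : ℂ[X]) : ∃ r : Fin P.natDegree → ℂ, P = C P.leadingCoeff * pr r := by
  have h1 : P.roots.card = P.natDegree := (splits_iff_card_roots.1 (IsAlgClosed.splits P))
  obtain ⟨r, hr⟩ := exists_fn P.roots P.natDegree h1
  refine ⟨r, ?_⟩
  have h2 := (IsAlgClosed.splits P).eq_prod_roots
  rw [← hr, Multiset.map_map] at h2
  exact h2

theorem cf_surj (k : ℕ) : Function.Surjective (cf (k := k)) := by
  intro c
  set P : ℂ[X] := X ^ k + ∑ j : Fin k, C (c j) * X ^ (j : ℕ) with hP
  have hlt : (∑ j : Fin k, C (c j) * X ^ (j : ℕ)).degree < (k : WithBot ℕ) :=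
    degree_sum_fin_lt c
  have hm : P.Monic := monic_X_pow_add hlt
  have hd : P.natDegree = k := by
    apply natDegree_eq_of_degree_eq_some
    rw [hP, degree_add_eq_left_of_degree_lt (by rw [degree_X_pow]; exact hlt), degree_X_pow]
  have hr0 := exists_roots P
  simp only [hm.leadingCoeff, C_1, one_mul] at hr0
  rw [hd] at hr0
  obtain ⟨r, hr⟩ := hr0
  refine ⟨r, ?_⟩
  funext j
  rw [cf, ← hr]
  conv_lhs => rw [hP]
  rw [coeff_add, coeff_X_pow, if_neg (by omega), zero_add, finsetSum_coeff,
    Finset.sum_eq_single j]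
  · simp
  · intro i _ hij
    rw [coeff_C_mul, coeff_X_pow, if_neg (fun h => hij (Fin.ext h.symm)), mul_zero]
  · intro h; exact absurd (Finset.mem_univ j) h

theorem cf_bound {k : ℕ} (r : Fin k → ℂ) (i : Fin k) : ‖r i‖ ≤ ‖cf r‖ + 1 := by
  have hne : pr r ≠ 0 := (pr_monic r).ne_zero
  have hroot : (pr r).IsRoot (r i) := by
    rw [IsRoot, pr, eval_prod]
    exact Finset.prod_eq_zero (Finset.mem_univ i) (by simp)
  have h1 := hroot.norm_lt_cauchyBound hne
  have h2 : ‖r i‖ ≤ ((pr r).cauchyBound : ℝ) := by exact_mod_cast h1.le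
  refine h2.trans ?_
  rw [cauchyBound, (pr_monic r).leadingCoeff]
  push_cast
  rw [norm_one, div_one]
  refine add_le_add ?_ le_rfl
  rw [← coe_nnnorm, NNReal.coe_le_coe]
  refine Finset.sup_le fun j hj => ?_
  rw [pr_natDegree, Finset.mem_range] at hj
  exact nnnorm_le_pi_nnnorm (cf r) ⟨j, hj⟩

theorem cf_proper (k : ℕ) : IsProperMap (cf (k := k)) := by
  rw [isProperMap_iff_isCompact_preimage]
  refine ⟨cf_cont k, fun K hK => ?_⟩
  refine Metric.isCompact_of_isClosed_isBounded (hK.isClosed.preimage (cf_cont k)) ?_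
  obtain ⟨B, hB⟩ := hK.isBounded.exists_norm_le
  rw [isBounded_iff_forall_norm_le]
  refine ⟨|B| + 1, fun r hr => ?_⟩
  rw [pi_norm_le_iff_of_nonneg (by positivity)]
  intro i
  refine (cf_bound r i).trans (add_le_add ?_ le_rfl)
  exact (hB _ hr).trans (le_abs_self B)

/-- **Symmetric functions of the zeros depend continuously on the coefficients.** -/
theorem sym_cont {X E : Type} [TopologicalSpace X] [TopologicalSpace E] [AddCommMonoid E]
    [ContinuousAdd E] {k : ℕ} (r : X → Fin k → ℂ)
    (h : ∀ j : Fin k, Continuous fun x => (pr (r x)).coeff j) (T : ℂ → E) (hT : Continuous T) :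
    Continuous fun x => ∑ i, T (r x i) := by
  have hq : IsQuotientMap (cf (k := k)) :=
    (cf_proper k).isClosedMap.isQuotientMap (cf_cont k) (cf_surj k)
  set Φ : (Fin k → ℂ) → E := fun r => ∑ i, T (r i) with hΦ
  have hΦc : Continuous Φ := continuous_finsetSum _ fun i _ => hT.comp (continuous_apply i)
  have hsym : ∀ r r' : Fin k → ℂ, cf r = cf r' → Φ r = Φ r' := by
    intro r r' h
    have h1 := pr_eq_of_cf h
    have h2 : Finset.univ.val.map r = Finset.univ.val.map r' := by
      rw [← pr_roots, ← pr_roots, h1]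
    have h3 : ∀ r : Fin k → ℂ, Φ r = ((Finset.univ.val.map r).map T).sum := by
      intro r
      rw [Multiset.map_map, hΦ]
      rfl
    rw [h3, h3, h2]
  choose g hg using cf_surj k
  have h1 : (fun c => Φ (g c)) ∘ cf = Φ := by
    funext r
    exact hsym _ _ (hg _)
  have h2 : Continuous fun c => Φ (g c) := by
    rw [hq.continuous_iff, h1]
    exact hΦc
  have h3 : (fun x => ∑ i, T (r x i)) = (fun c => Φ (g c)) ∘ fun x => cf (r x) := by
    funext x
    exact (hsym _ _ (hg _)).symm
  rw [h3]
  exact h2.comp (continuous_pi fun j => h j)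

end Pool.Agent.H74A
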