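import Pool.Agent.H74A.Fib4
import Pool.Agent.H74A.Sym
import Pool.Agent.H74A.Cont

set_option autoImplicit false
set_option linter.unusedSectionVars false
set_option linter.unusedVariables false

/-! # Forms as polynomials in the first variable -/

namespace Pool.Agent.H74C

open MvPolynomial MeasureTheory Filter Topology Complex
open Pool.Agent.H74A (pr pr_roots exists_roots cf cf_bound)

theorem eval_hom {σ : Type} [Fintype σ] (q : MvPolynomial σ ℂ) (d : ℕ)
    (hq : q.IsHomogeneous d) (a : ℂ) (y : σ → ℂ) :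
    MvPolynomial.eval (fun i => a * y i) q = a ^ d * MvPolynomial.eval y q := by
  rw [MvPolynomial.eval_eq', MvPolynomial.eval_eq', Finset.mul_sum]
  refine Finset.sum_congr rfl fun m hm => ?_
  have h1 : ∏ i, (a * y i) ^ m i = a ^ d * ∏ i, y i ^ m i := by
    simp only [mul_pow]
    rw [Finset.prod_mul_distrib, Finset.prod_pow_eq_pow_sum]
    congr 2
    have h2 := hq (MvPolynomial.mem_support_iff.1 hm)
    rw [Finsupp.weight_apply, Finsupp.sum_fintype _ _ (by simp)] at h2
    simpa using h2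
  rw [h1]
  ring

theorem eval_smul_hom {σ : Type} [Fintype σ] (q : MvPolynomial σ ℂ) (d : ℕ)
    (hq : q.IsHomogeneous d) (t : ℝ) (y : σ → ℂ) :
    MvPolynomial.eval (t • y) q = (t : ℂ) ^ d * MvPolynomial.eval y q := by
  rw [← eval_hom q d hq]
  congr 2

theorem zeros_null (n : ℕ) : ∀ P : MvPolynomial (Fin n) ℂ, P ≠ 0 →
    volume {y : Fin n → ℂ | MvPolynomial.eval y P = 0} = 0 := by
  induction n with
  | zero =>
    intro P hP
    have : {y : Fin 0 → ℂ | MvPolynomial.eval y P = 0} = ∅ := by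
      ext y
      simp only [Set.mem_ofPred_eq, Set.mem_empty_iff_false, iff_false]
      intro h
      apply hP
      apply MvPolynomial.funext
      intro z
      have : z = y := Subsingleton.elim _ _
      rw [this, h, map_zero]
    rw [this, measure_empty]
  | succ n ih =>
    intro P hP
    set f := MvPolynomial.finSuccEquiv ℂ n P with hf
    have hf0 : f ≠ 0 := by
      rw [hf]; exact (map_ne_zero_iff _ (MvPolynomial.finSuccEquiv ℂ n).injective).2 hP
    obtain ⟨m, hm⟩ : ∃ m, f.coeff m ≠ 0 := by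
      by_contra hcon
      push Not at hcon
      exact hf0 (Polynomial.ext (by simpa using hcon))
    have hnull := ih (f.coeff m) hm
    set S := {y : Fin (n + 1) → ℂ | MvPolynomial.eval y P = 0} with hS
    set S' := {z : ℂ × (Fin n → ℂ) | MvPolynomial.eval (Fin.cons z.1 z.2 : Fin (n + 1) → ℂ) P = 0}
      with hS'
    have hcont : Continuous (fun z : ℂ × (Fin n → ℂ) =>
        MvPolynomial.eval (Fin.cons z.1 z.2 : Fin (n + 1) → ℂ) P) := by
      refine (MvPolynomial.continuous_eval P).comp ?_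
      refine continuous_pi ?_
      intro i
      refine Fin.cases ?_ (fun i => ?_) i
      · simp only [Fin.cons_zero]; fun_prop
      · simp only [Fin.cons_succ]; fun_prop
    have hmeas : MeasurableSet S' := (isClosed_singleton.preimage hcont).measurableSet
    have hpre : S = (MeasurableEquiv.piFinSuccAbove (fun _ => ℂ) 0) ⁻¹' S' := by
      ext y
      simp only [hS, hS', Set.mem_ofPred_eq, Set.mem_preimage]
      have : (Fin.cons ((MeasurableEquiv.piFinSuccAbove (fun _ => ℂ) 0) y).1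
          ((MeasurableEquiv.piFinSuccAbove (fun _ => ℂ) 0) y).2 : Fin (n + 1) → ℂ) = y := by
        funext j
        refine Fin.cases ?_ (fun j => ?_) j
        · rfl
        · rfl
      rw [this]
    rw [hpre, (volume_preserving_piFinSuccAbove (fun _ => ℂ) 0).measure_preimage_equiv]
    have hswap : volume S' = (volume : Measure ((Fin n → ℂ) × ℂ)) (Prod.swap ⁻¹' S') := by
      have := (Measure.measurePreserving_swap (μ := (volume : Measure (Fin n → ℂ)))
        (ν := (volume : Measure ℂ))).measure_preimage hmeas.nullMeasurableSet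
      exact this.symm
    rw [hswap, Measure.volume_eq_prod, Measure.measure_prod_null (measurable_swap hmeas)]
    have hae : ∀ᵐ y : Fin n → ℂ, y ∉ {y : Fin n → ℂ |
        MvPolynomial.eval y (f.coeff m) = 0} := measure_eq_zero_iff_ae_notMem.1 hnull
    filter_upwards [hae] with y hy
    have hy' : MvPolynomial.eval y (f.coeff m) ≠ 0 := hy
    have hmap : f.map (MvPolynomial.eval y) ≠ 0 := by
      intro h0
      apply hy'
      have := congrArg (fun q => Polynomial.coeff q m) h0
      simpa [Polynomial.coeff_map] using this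
    have hfin : (Prod.mk y ⁻¹' (Prod.swap ⁻¹' S')).Finite := by
      refine Set.Finite.subset (Polynomial.rootSet_finite (f.map (MvPolynomial.eval y)) ℂ) ?_
      intro a ha
      rw [Polynomial.mem_rootSet]
      refine ⟨hmap, ?_⟩
      have h1 := MvPolynomial.eval_eq_eval_mv_eval' y a P
      rw [Polynomial.coe_aeval_eq_eval, ← h1]
      exact ha
    exact hfin.measure_zero volume

theorem ae_eval_ne {n : ℕ} (P : MvPolynomial (Fin n) ℂ) (hP : P ≠ 0) :
    ∀ᵐ y : Fin n → ℂ, eval y P ≠ 0 :=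
  measure_eq_zero_iff_ae_notMem.1 (zeros_null n P hP)

/-- a form of degree `k + m` of degree `k` in the first variable -/
structure Dat {n : ℕ} (k m : ℕ) (f : MvPolynomial (Fin (n + 1)) ℂ) : Prop where
  k0 : 0 < k
  hom : f.IsHomogeneous (k + m)
  deg : (finSuccEquiv ℂ n f).natDegree = k

/-- the leading coefficient -/
noncomputable def lc {n : ℕ} (f : MvPolynomial (Fin (n + 1)) ℂ) : MvPolynomial (Fin n) ℂ :=
  (finSuccEquiv ℂ n f).leadingCoeff

/-- the value of the leading coefficient -/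
noncomputable def la {n : ℕ} (f : MvPolynomial (Fin (n + 1)) ℂ) (x : Fin n → ℂ) : ℂ := eval x (lc f)

section

variable {n k m : ℕ} {f : MvPolynomial (Fin (n + 1)) ℂ}

theorem Dat.lc_ne (h : Dat k m f) : lc f ≠ 0 := by
  unfold lc
  rw [Polynomial.leadingCoeff_ne_zero]
  intro h0
  have := h.deg
  rw [h0, Polynomial.natDegree_zero] at this
  exact h.k0.ne this

theorem Dat.f_ne (h : Dat k m f) : f ≠ 0 := by
  intro h0
  have := h.deg
  rw [h0, map_zero, Polynomial.natDegree_zero] at this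
  exact h.k0.ne this

theorem Dat.coeff_hom (h : Dat k m f) (j : ℕ) (hj : j ≤ k) :
    ((finSuccEquiv ℂ n f).coeff j).IsHomogeneous (k - j + m) :=
  h.hom.finSuccEquiv_coeff_isHomogeneous j (k - j + m) (by omega)

theorem Dat.lc_hom (h : Dat k m f) : (lc f).IsHomogeneous m := by
  have := h.coeff_hom k le_rfl
  unfold lc Polynomial.leadingCoeff
  rw [h.deg]
  simpa using this

theorem Dat.la_smul (h : Dat k m f) (t : ℝ) (x : Fin n → ℂ) :
    la f (t • x) = (t : ℂ) ^ m * la f x := eval_smul_hom _ _ h.lc_hom t x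

theorem continuous_la (f : MvPolynomial (Fin (n + 1)) ℂ) : Continuous (la f) :=
  MvPolynomial.continuous_eval _

theorem Dat.ae_la (h : Dat k m f) : ∀ᵐ x : Fin n → ℂ, la f x ≠ 0 := ae_eval_ne _ h.lc_ne

theorem Dat.exists_rt (h : Dat k m f) : ∃ r : (Fin n → ℂ) → Fin k → ℂ, ∀ x, la f x ≠ 0 →
    (finSuccEquiv ℂ n f).map (eval x) = Polynomial.C (la f x) * pr (r x) := by
  have : ∀ x : Fin n → ℂ, ∃ r : Fin k → ℂ, la f x ≠ 0 →
    (finSuccEquiv ℂ n f).map (eval x) = Polynomial.C (la f x) * pr r := by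
    intro x
    by_cases hx : la f x = 0
    · exact ⟨0, fun h => absurd hx h⟩
    · have h1 : ((finSuccEquiv ℂ n f).map (eval x)).natDegree = k := by
        rw [Polynomial.natDegree_map_of_leadingCoeff_ne_zero _ hx, h.deg]
      have h2 : ((finSuccEquiv ℂ n f).map (eval x)).leadingCoeff = la f x := by
        rw [Polynomial.leadingCoeff_map_of_leadingCoeff_ne_zero _ hx]
        rfl
      have h3 := exists_roots ((finSuccEquiv ℂ n f).map (eval x))
      rw [h1, h2] at h3
      obtain ⟨r, hr⟩ := h3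
      exact ⟨r, fun _ => hr⟩
  choose r hr using this
  exact ⟨r, hr⟩

/-- the function which gives the zeros -/
def IsRt (k : ℕ) (f : MvPolynomial (Fin (n + 1)) ℂ) (r : (Fin n → ℂ) → Fin k → ℂ) : Prop :=
  ∀ x, la f x ≠ 0 → (finSuccEquiv ℂ n f).map (eval x) = Polynomial.C (la f x) * pr (r x)

theorem pr_eval {k : ℕ} (r : Fin k → ℂ) (z : ℂ) : (pr r).eval z = ∏ i, (z - r i) := by
  unfold pr
  rw [Polynomial.eval_prod]
  simp

theorem IsRt.eval {r : (Fin n → ℂ) → Fin k → ℂ} (hr : IsRt k f r) {x : Fin n → ℂ}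
    (hx : la f x ≠ 0) (z : ℂ) :
    MvPolynomial.eval (Fin.cons z x : Fin (n + 1) → ℂ) f = la f x * ∏ i, (z - r x i) := by
  rw [MvPolynomial.eval_eq_eval_mv_eval', hr x hx, Polynomial.eval_mul, Polynomial.eval_C, pr_eval]

theorem IsRt.coeff {r : (Fin n → ℂ) → Fin k → ℂ} (hr : IsRt k f r) {x : Fin n → ℂ}
    (hx : la f x ≠ 0) (j : ℕ) :
    MvPolynomial.eval x ((finSuccEquiv ℂ n f).coeff j) = la f x * (pr (r x)).coeff j := by
  rw [← Polynomial.coeff_C_mul, ← hr x hx, Polynomial.coeff_map]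

theorem cons_smul (t : ℝ) (z : ℂ) (x : Fin n → ℂ) :
    (Fin.cons (t * z) (t • x) : Fin (n + 1) → ℂ) = t • (Fin.cons z x : Fin (n + 1) → ℂ) := by
  funext j
  refine Fin.cases ?_ (fun j => ?_) j
  · simp
  · simp

theorem IsRt.scale (h : Dat k m f) {r : (Fin n → ℂ) → Fin k → ℂ} (hr : IsRt k f r)
    {x : Fin n → ℂ} (hx : la f x ≠ 0) {t : ℝ} (ht : 0 < t) :
    pr (r (t • x)) = pr (fun i => t * r x i) := by
  have htc : (t : ℂ) ≠ 0 := Complex.ofReal_ne_zero.2 ht.ne'
  have hx' : la f (t • x) ≠ 0 := by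
    rw [h.la_smul]
    exact mul_ne_zero (pow_ne_zero _ htc) hx
  refine Polynomial.funext fun w => ?_
  rw [pr_eval, pr_eval]
  have h1 := hr.eval hx' w
  have h2 := hr.eval hx (w / t)
  have h3 : (Fin.cons w (t • x) : Fin (n + 1) → ℂ) = t • (Fin.cons (w / t) x : Fin (n + 1) → ℂ) := by
    rw [← cons_smul]
    congr 1
    field_simp
  rw [h3, eval_smul_hom _ _ h.hom, h2, h.la_smul] at h1
  have h4 : ∏ i, (w - t * r x i) = (t : ℂ) ^ k * ∏ i, (w / t - r x i) := by
    have : ∀ i, w - t * r x i = t * (w / t - r x i) := by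
      intro i
      field_simp
    simp only [this]
    rw [Finset.prod_mul_distrib, Finset.prod_const, Finset.card_univ, Fintype.card_fin]
  rw [h4]
  have h5 : (t : ℂ) ^ m * la f x ≠ 0 := mul_ne_zero (pow_ne_zero _ htc) hx
  apply mul_left_cancel₀ h5
  rw [← h1, pow_add]
  ring

/-- the bound for the zeros -/
theorem IsRt.bound (h : Dat k m f) {r : (Fin n → ℂ) → Fin k → ℂ} (hr : IsRt k f r) :
    ∃ C : ℝ, 0 < C ∧ ∀ x, la f x ≠ 0 → x ≠ 0 → ∀ i,
      ‖r x i‖ ≤ C * (‖x‖ ^ (m + 1) / ‖la f x‖) := by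
  have hcomp : IsCompact (Metric.sphere (0 : Fin n → ℂ) 1) := isCompact_sphere 0 1
  obtain ⟨M', hM'⟩ := hcomp.exists_bound_of_continuousOn (f := la f) (continuous_la f).continuousOn
  have hM0 : ∀ j : Fin k, ∃ M, ∀ x ∈ Metric.sphere (0 : Fin n → ℂ) 1,
      ‖MvPolynomial.eval x ((finSuccEquiv ℂ n f).coeff j)‖ ≤ M := fun j =>
    hcomp.exists_bound_of_continuousOn
      (f := fun x => MvPolynomial.eval x ((finSuccEquiv ℂ n f).coeff j))
      (MvPolynomial.continuous_eval _).continuousOn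
  choose M hM using hM0
  set B : ℝ := ∑ j, |M j| with hB
  have hB0 : 0 ≤ B := Finset.sum_nonneg fun j _ => abs_nonneg _
  refine ⟨B + |M'| + 1, by positivity, fun x hx hx0 i => ?_⟩
  have ht : 0 < ‖x‖ := norm_pos_iff.2 hx0
  set t : ℝ := ‖x‖ with htt
  set u : Fin n → ℂ := t⁻¹ • x with hu
  have hxu : t • u = x := by
    rw [hu, smul_smul, mul_inv_cancel₀ ht.ne', one_smul]
  have hu1 : u ∈ Metric.sphere (0 : Fin n → ℂ) 1 := by
    rw [mem_sphere_zero_iff_norm, hu, norm_smul, norm_inv, Real.norm_eq_abs, abs_of_pos ht,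
      ← htt, inv_mul_cancel₀ ht.ne']
  have hau : la f x = (t : ℂ) ^ m * la f u := by rw [← h.la_smul, hxu]
  have hu0 : la f u ≠ 0 := by
    intro h0
    rw [h0, mul_zero] at hau
    exact hx hau
  have hsc := hr.scale h hu0 ht
  rw [hxu] at hsc
  have h1 : ∏ j, (r x i - t * r u j) = 0 := by
    have h2 := congrArg (Polynomial.eval (r x i)) hsc
    rw [pr_eval, pr_eval] at h2
    rw [← h2]
    exact Finset.prod_eq_zero (Finset.mem_univ i) (sub_self _)
  obtain ⟨j, -, hj⟩ := Finset.prod_eq_zero_iff.1 h1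
  rw [sub_eq_zero] at hj
  have hpu : 0 < ‖la f u‖ := norm_pos_iff.2 hu0
  have hcf : ‖cf (r u)‖ ≤ B / ‖la f u‖ := by
    rw [pi_norm_le_iff_of_nonneg (by positivity)]
    intro l
    have h2 := hr.coeff hu0 (l : ℕ)
    have h3 : cf (r u) l = MvPolynomial.eval u ((finSuccEquiv ℂ n f).coeff l) / la f u := by
      rw [h2, mul_div_cancel_left₀ _ hu0]
      rfl
    rw [h3, norm_div]
    refine div_le_div_of_nonneg_right ?_ hpu.le
    refine (hM l u hu1).trans ((le_abs_self _).trans ?_)
    exact Finset.single_le_sum (f := fun j => |M j|) (fun j _ => abs_nonneg _) (Finset.mem_univ l)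
  have h4 : ‖r u j‖ ≤ (B + |M'| + 1) / ‖la f u‖ := by
    refine (cf_bound (r u) j).trans ?_
    have h5 : ‖la f u‖ ≤ |M'| := (hM' u hu1).trans (le_abs_self _)
    have h6 : (1 : ℝ) ≤ (|M'| + 1) / ‖la f u‖ := by
      rw [le_div_iff₀ hpu]
      linarith
    calc ‖cf (r u)‖ + 1 ≤ B / ‖la f u‖ + (|M'| + 1) / ‖la f u‖ := add_le_add hcf h6
      _ = _ := by rw [← add_div, add_assoc]
  rw [hj, norm_mul, Complex.norm_real, Real.norm_eq_abs, abs_of_pos ht, hau, norm_mul, norm_pow,
    Complex.norm_real, Real.norm_eq_abs, abs_of_pos ht]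
  calc t * ‖r u j‖ ≤ t * ((B + |M'| + 1) / ‖la f u‖) := by gcongr
    _ = _ := by
      rw [pow_succ]
      have h7 : t ^ m ≠ 0 := (pow_pos ht m).ne'
      field_simp

end

/-- symmetric functions -/
theorem sum_of_pr {k : ℕ} {E : Type} [AddCommMonoid E] {r r' : Fin k → ℂ} (h : pr r = pr r')
    (T : ℂ → E) : ∑ i, T (r i) = ∑ i, T (r' i) := by
  have h2 : Finset.univ.val.map r = Finset.univ.val.map r' := by
    rw [← pr_roots, ← pr_roots, h]
  have h3 := congrArg (fun m => (m.map T).sum) h2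
  simp only [Multiset.map_map] at h3
  exact h3

theorem prod_of_pr {k : ℕ} {E : Type} [CommMonoid E] {r r' : Fin k → ℂ} (h : pr r = pr r')
    (T : ℂ → E) : ∏ i, T (r i) = ∏ i, T (r' i) := by
  have h2 : Finset.univ.val.map r = Finset.univ.val.map r' := by
    rw [← pr_roots, ← pr_roots, h]
  have h3 := congrArg (fun m => (m.map T).prod) h2
  simp only [Multiset.map_map] at h3
  exact h3

theorem qr_congr {k : ℕ} {r r' : Fin k → ℂ} (h : pr r = pr r') (s : ℝ) (z : ℂ) :
    qr k s r z = qr k s r' z := by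
  unfold qr
  rw [sum_of_pr h (fun w => ‖z - w‖ ^ (2 * k * s)), prod_of_pr h (fun w => ‖z - w‖ ^ (2 * s))]

theorem DR_congr {k : ℕ} {r r' : Fin k → ℂ} (h : pr r = pr r') (η : ℂ → ℝ) (s : ℝ) :
    DR η k s r = DR η k s r' := by
  unfold DR
  simp only [qr_congr h]

end Pool.Agent.H74C
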