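import Pool.Agent.H74A.CDefs
import Pool.Agent.H74A.Base

set_option autoImplicit false
set_option linter.unusedSectionVars false
set_option linter.unusedVariables false

/-! # Divisibility by the equations of smooth cones -/

namespace Pool.Agent.H74S

open MvPolynomial MeasureTheory Filter Topology Complex
open Pool.Agent.H74D Pool.Agent.H74C

/-- a polynomial in at least two variables which does not vanish outside of the origin is
constant -/
theorem const_of_ne {n : ℕ} (p : MvPolynomial (Fin (n + 2)) ℂ)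
    (h : ∀ x : Fin (n + 2) → ℂ, x ≠ 0 → eval x p ≠ 0) : ∃ c : ℂ, c ≠ 0 ∧ p = C c := by
  set x₀ : Fin (n + 2) → ℂ := Pi.single 0 1 with hx₀
  have hx0 : x₀ ≠ 0 := by
    intro h0
    have := congrFun h0 0
    rw [hx₀, Pi.single_eq_same] at this
    exact one_ne_zero this
  refine ⟨eval x₀ p, h x₀ hx0, ?_⟩
  by_contra hne
  have hq : p - C (eval x₀ p) ≠ 0 := sub_ne_zero.2 hne
  obtain ⟨x₁, hx1, hx2⟩ := ((ae_eval_ne _ hq).and
    (ae_eval_ne (X 1 : MvPolynomial (Fin (n + 2)) ℂ) (X_ne_zero 1))).exists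
  rw [eval_X] at hx2
  rw [map_sub, eval_C, sub_ne_zero] at hx1
  -- the restriction to the line
  set P : Polynomial ℂ := aeval (fun i => Polynomial.C (x₀ i) +
    Polynomial.C (x₁ i - x₀ i) * Polynomial.X) p with hP
  have hPe : ∀ τ : ℂ, P.eval τ = eval (x₀ + τ • (x₁ - x₀)) p := by
    intro τ
    have h1 : ((Polynomial.evalRingHom τ).comp (aeval (fun i => Polynomial.C (x₀ i) +
        Polynomial.C (x₁ i - x₀ i) * Polynomial.X) :
          MvPolynomial (Fin (n + 2)) ℂ →ₐ[ℂ] Polynomial ℂ).toRingHom) =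
        eval (x₀ + τ • (x₁ - x₀)) := by
      refine MvPolynomial.ringHom_ext (fun a => ?_) (fun i => ?_)
      · simp
      · simp [mul_comm]
    exact RingHom.congr_fun h1 p
  have hroot : ∀ τ : ℂ, P.eval τ ≠ 0 := by
    intro τ
    rw [hPe]
    refine h _ fun h0 => ?_
    have h1 := congrFun h0 1
    have h2 : x₀ 1 = 0 := by
      rw [hx₀, Pi.single_eq_of_ne (by
        intro h3
        have := congrArg Fin.val h3
        simp at this)]
    simp only [Pi.add_apply, Pi.smul_apply, Pi.sub_apply, h2, sub_zero, zero_add, smul_eq_mul,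
      Pi.zero_apply] at h1
    rcases mul_eq_zero.1 h1 with h3 | h3
    · rw [h3, zero_smul, add_zero] at h0
      exact hx0 h0
    · exact hx2 h3
  have hdeg : P.degree = 0 := by
    by_contra hd
    obtain ⟨τ, hτ⟩ := IsAlgClosed.exists_root P hd
    exact hroot τ hτ
  obtain ⟨a, ha⟩ := Polynomial.natDegree_eq_zero.1 (Polynomial.natDegree_eq_of_degree_eq_some hdeg)
  have e0 := hPe 0
  have e1 := hPe 1
  rw [← ha, Polynomial.eval_C, zero_smul, add_zero] at e0
  rw [← ha, Polynomial.eval_C, one_smul, add_sub_cancel] at e1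
  exact hx1 (by rw [← e1, ← e0])

theorem smooth_ne {n : ℕ} (a : MvPolynomial (Fin (n + 1)) ℂ) (ha : SmoothCone a) : a ≠ 0 := by
  rintro rfl
  obtain ⟨i, hi⟩ := ha (Pi.single 0 1) (by
    intro h0
    have := congrFun h0 0
    rw [Pi.single_eq_same] at this
    exact one_ne_zero this) (by rw [map_zero])
  rw [map_zero, map_zero] at hi
  exact hi rfl

theorem smooth_squarefree {n : ℕ} (a : MvPolynomial (Fin (n + 2)) ℂ) (ha : SmoothCone a) :
    Squarefree a := by
  rintro p ⟨q, hq⟩
  by_cases h : ∃ x : Fin (n + 2) → ℂ, x ≠ 0 ∧ eval x p = 0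
  · exfalso
    obtain ⟨x, hx, hp⟩ := h
    obtain ⟨i, hi⟩ := ha x hx (by rw [hq, map_mul, map_mul, hp, zero_mul, zero_mul])
    apply hi
    rw [hq]
    simp only [Derivation.leibniz, smul_eq_mul, map_add, map_mul, hp]
    ring
  · push Not at h
    obtain ⟨c, hc, rfl⟩ := const_of_ne p h
    exact (isUnit_iff_ne_zero.2 hc).map C

/-- **Divisibility.** -/
theorem dvd_of_smooth {n : ℕ} (a c : MvPolynomial (Fin (n + 2)) ℂ) (ha : SmoothCone a)
    (h : ∀ x : Fin (n + 2) → ℂ, eval x a = 0 → eval x c = 0) : a ∣ c := by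
  have h1 : c ∈ vanishingIdeal ℂ (zeroLocus ℂ (Ideal.span {a})) := by
    rw [mem_vanishingIdeal_iff]
    intro x hx
    rw [mem_zeroLocus_iff] at hx
    have h2 := hx a (Ideal.mem_span_singleton_self a)
    exact h x h2
  rw [vanishingIdeal_zeroLocus_eq_radical] at h1
  obtain ⟨r, hr⟩ := h1
  rw [Ideal.mem_span_singleton] at hr
  rcases Nat.eq_zero_or_pos r with h0 | h0
  · rw [h0, pow_zero] at hr
    exact hr.trans (one_dvd c)
  · exact ((smooth_squarefree a ha).dvd_pow_iff_dvd h0.ne').1 hr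

end Pool.Agent.H74S
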