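import Pool.Agent.W574.SM.Defs

set_option autoImplicit false

/-! # Cones with a log canonical vertex or with a point of high multiplicity: definitions -/

namespace Pool.Agent.H74D

open MvPolynomial MeasureTheory

/-- For forms `g_j` in `x_0, ..., x_(N-1)`: the function `(∑ |g_j| ^ 2) ^ (-c)` is locally integrable
on `ℂ ^ N` outside of the origin, for all `c` with `0 ≤ c < c₀`. (By homogeneity it suffices to look
at the shell `1/2 ≤ |x| ≤ 1`.) In other words, the log canonical threshold of the subscheme of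
projective space defined by the `g_j` is at least `c₀`, at every point. -/
def LctGe {N : ℕ} {ι : Type} [Fintype ι] (g : ι → MvPolynomial (Fin N) ℂ) (c₀ : ℝ) : Prop :=
  ∀ c : ℝ, 0 ≤ c → c < c₀ → IntegrableOn (fun x : Fin N → ℂ => (∑ j, ‖eval x (g j)‖ ^ 2) ^ (-c))
    {x | 1 / 2 ≤ ‖x‖ ∧ ‖x‖ ≤ 1}

/-- The substitution `x_i ↦ ∑_j A_{ij} x_j`. -/
noncomputable def linSub {σ : Type} [Fintype σ] (A : Matrix σ σ ℂ) :
    MvPolynomial σ ℂ →ₐ[ℂ] MvPolynomial σ ℂ :=
  aeval fun i => ∑ j, C (A i j) * X j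

/-- The form `f` of degree `d` in `x_0, ..., x_n`, `n ≥ 1`, has a **heavy point**: after a linear change
of the coordinates (with the matrix `A`) the degree `k` of `f` in `x_0` satisfies `1 ≤ k` and
`k (n + 1) < d`, so that the point `P = (1 : 0 : ... : 0)` has the multiplicity
`m = d - k > n d / (n + 1)`. The leading coefficient `a(x_1, ..., x_n)` of `f`, as a polynomial in
`x_0`, is the equation of the tangent cone at `P`, and its log canonical threshold outside of the
origin is at least `1 - (k - 1) (n + 1) / d`. Moreover some line through `P`, not in the tangent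
cone, meets `f = 0` in two different points `z₁ ≠ z₂` outside of `P`; or `k = 1` and some line
through `P` in the tangent cone is not contained in `f = 0`. -/
def HeavyPoint {n : ℕ} (d : ℕ) (f : MvPolynomial (Fin (n + 1)) ℂ) : Prop :=
  0 < n ∧ ∃ (A B : Matrix (Fin (n + 1)) (Fin (n + 1)) ℂ) (k : ℕ), A * B = 1 ∧ B * A = 1 ∧
    1 ≤ k ∧ k * (n + 1) < d ∧ (finSuccEquiv ℂ n (linSub A f)).natDegree = k ∧
    LctGe (fun _ : Fin 1 => (finSuccEquiv ℂ n (linSub A f)).leadingCoeff)
      (1 - ((k : ℝ) - 1) * ((n : ℝ) + 1) / d) ∧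
    ((∃ (x : Fin n → ℂ) (z₁ z₂ : ℂ), z₁ ≠ z₂ ∧
        eval x (finSuccEquiv ℂ n (linSub A f)).leadingCoeff ≠ 0 ∧
        eval (Fin.cons z₁ x : Fin (n + 1) → ℂ) (linSub A f) = 0 ∧
        eval (Fin.cons z₂ x : Fin (n + 1) → ℂ) (linSub A f) = 0) ∨
      (k = 1 ∧ ∃ (x : Fin n → ℂ) (z : ℂ),
        eval x (finSuccEquiv ℂ n (linSub A f)).leadingCoeff = 0 ∧
        eval (Fin.cons z x : Fin (n + 1) → ℂ) (linSub A f) ≠ 0))

/-- The form `g` has no singular zeros outside of the origin (the projective hypersurface `g = 0`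
is smooth or empty). -/
def SmoothCone {N : ℕ} (g : MvPolynomial (Fin N) ℂ) : Prop :=
  ∀ x : Fin N → ℂ, x ≠ 0 → eval x g = 0 → ∃ i, eval x (pderiv i g) ≠ 0

/-- The projective hypersurface `f = 0` of degree `d ≥ n + 1` in the projective space of dimension
`n ≥ 2` has only **ordinary** singularities of multiplicity larger than `d / (n + 1)`; the
singularities of smaller multiplicity are arbitrary. That is, for every point `P` there are linear
coordinates in which `P` is the point `(1 : 0 : ... : 0)`, and such that, if `k` is the degree of `f`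
in `x_0` and `a(x_1, ..., x_n)` the leading coefficient of `f` as a polynomial in `x_0`, the form `a`
has no singular zeros outside of the origin (`a = 0` is the tangent cone at `P`; for `n = 2` this
means that the curve has different tangents at `P`; the condition holds at the smooth points and at
the points outside of the hypersurface), or the multiplicity `d - k` of `P` is at most
`d / (n + 1)`. We also ask that `f` is not of the form `(x_0 + l) ^ k g`, where `k ≥ 0` and `l` and
`g` are polynomials in `x_1, ..., x_n`, in any linear coordinates. -/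
def OrdinaryAbove {n : ℕ} (d : ℕ) (f : MvPolynomial (Fin (n + 1)) ℂ) : Prop :=
  2 ≤ n ∧ n + 1 ≤ d ∧
    (∀ P : Fin (n + 1) → ℂ, P ≠ 0 → ∃ A B : Matrix (Fin (n + 1)) (Fin (n + 1)) ℂ,
      A * B = 1 ∧ B * A = 1 ∧ (∀ i, A i 0 = P i) ∧
      (SmoothCone (finSuccEquiv ℂ n (linSub A f)).leadingCoeff ∨
        (n + 1) * (d - (finSuccEquiv ℂ n (linSub A f)).natDegree) ≤ d)) ∧
    ¬ ∃ (A B : Matrix (Fin (n + 1)) (Fin (n + 1)) ℂ) (k : ℕ) (l g : MvPolynomial (Fin n) ℂ),
      A * B = 1 ∧ B * A = 1 ∧ linSub A f = (X 0 + rename Fin.succ l) ^ k * rename Fin.succ g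

/-- The form `f` of degree `d` in `x_0, ..., x_n` has a **light real region**: after a linear change
of the coordinates it has real coefficients, and there is a nonempty open cone `Ω` in `ℝ ^ (n + 1)`
such that `f` is positive on `Ω` and zero on the boundary of `Ω`, and such that `f ^ (-c)` is
integrable on `Ω` near the points of its closure other than the origin, for all `c < (n + 1) / d`. -/
def LightRegion {n : ℕ} (d : ℕ) (f : MvPolynomial (Fin (n + 1)) ℂ) : Prop :=
  ∃ (A B : Matrix (Fin (n + 1)) (Fin (n + 1)) ℂ) (F : MvPolynomial (Fin (n + 1)) ℝ)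
    (Ω : Set (Fin (n + 1) → ℝ)), A * B = 1 ∧ B * A = 1 ∧
    linSub A f = map (algebraMap ℝ ℂ) F ∧ IsOpen Ω ∧ Ω.Nonempty ∧
    (∀ t : ℝ, 0 < t → ∀ x ∈ Ω, t • x ∈ Ω) ∧ (∀ x ∈ Ω, 0 < eval x F) ∧
    (∀ x ∈ frontier Ω, eval x F = 0) ∧
    ∀ c : ℝ, 0 ≤ c → c < ((n : ℝ) + 1) / d →
      IntegrableOn (fun x : Fin (n + 1) → ℝ => eval x F ^ (-c)) (Ω ∩ {x | 1 / 2 ≤ ‖x‖ ∧ ‖x‖ ≤ 1})

end Pool.Agent.H74D
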