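import Mathlib

set_option autoImplicit false
set_option linter.unusedSectionVars false
set_option linter.unusedVariables false

/-! # Holomorphic dependence of integrals on a parameter -/

namespace Pool.Agent.H74A

open MeasureTheory Filter Topology

/-- Integrals of holomorphic functions are holomorphic. -/
theorem hol_int {α : Type} [MeasurableSpace α] {μ : Measure α} {U : Set ℂ} (hU : IsOpen U)
    (H : ℂ → α → ℂ) (hH : ∀ᵐ a ∂μ, DifferentiableOn ℂ (fun s => H s a) U)
    (hm : ∀ s ∈ U, AEStronglyMeasurable (H s) μ)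
    (hb : ∀ s ∈ U, ∃ ε > 0, Metric.ball s ε ⊆ U ∧ ∃ B : α → ℝ, Integrable B μ ∧
      ∀ᵐ a ∂μ, ∀ s' ∈ Metric.ball s ε, ‖H s' a‖ ≤ B a) :
    DifferentiableOn ℂ (fun s => ∫ a, H s a ∂μ) U := by
  intro s hs
  obtain ⟨ε, hε, hεU, B, hB, hBb⟩ := hb s hs
  have hε4 : 0 < ε / 4 := by positivity
  have hd : ∀ᵐ a ∂μ, ∀ x ∈ Metric.ball s (ε / 4), ‖deriv (fun s => H s a) x‖ ≤ B a / (ε / 4) := by
    filter_upwards [hH, hBb] with a ha1 ha2 x hx
    refine Complex.norm_deriv_le_of_forall_mem_sphere_norm_le hε4 ?_ ?_
    · have hsub : Metric.closedBall x (ε / 4) ⊆ U := by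
        refine subset_trans ?_ hεU
        intro y hy
        rw [Metric.mem_ball] at *
        rw [Metric.mem_closedBall] at hy
        linarith [dist_triangle y x s]
      exact (ha1.mono hsub).diffContOnCl_ball (U := Metric.closedBall x (ε / 4)) subset_rfl
    · intro z hz
      refine ha2 z ?_
      rw [Metric.mem_sphere] at hz
      rw [Metric.mem_ball] at *
      linarith [dist_triangle z x s]
  have hderm : AEStronglyMeasurable (fun a => deriv (fun s => H s a) s) μ := by
    have hlim : ∀ᵐ a ∂μ, Tendsto (fun n : ℕ => ((ε / 2 / (n + 1) : ℝ) : ℂ)⁻¹ *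
        (H (s + ((ε / 2 / (n + 1) : ℝ) : ℂ)) a - H s a)) atTop (𝓝 (deriv (fun s => H s a) s)) := by
      filter_upwards [hH] with a ha
      have h1 : HasDerivAt (fun s => H s a) (deriv (fun s => H s a) s) s :=
        ((ha s hs).differentiableAt (hU.mem_nhds hs)).hasDerivAt
      have h2 := h1.tendsto_slope_zero
      have h3 : Tendsto (fun n : ℕ => ((ε / 2 / (n + 1) : ℝ) : ℂ)) atTop (𝓝[≠] 0) := by
        rw [tendsto_nhdsWithin_iff]
        constructor
        · have h4 : Tendsto (fun n : ℕ => ε / 2 * (1 / ((n : ℝ) + 1))) atTop (𝓝 (ε / 2 * 0)) :=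
            tendsto_one_div_add_atTop_nhds_zero_nat.const_mul _
          rw [mul_zero] at h4
          have h5 := (Complex.continuous_ofReal.tendsto 0).comp h4
          rw [Complex.ofReal_zero] at h5
          refine h5.congr fun n => ?_
          simp only [Function.comp_apply]
          congr 1
          ring
        · refine Eventually.of_forall fun n => ?_
          rw [Set.mem_compl_iff, Set.mem_singleton_iff, Complex.ofReal_eq_zero]
          positivity
      have h4 := h2.comp h3
      refine h4.congr fun n => ?_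
      simp only [Function.comp_apply, smul_eq_mul]
    refine aestronglyMeasurable_of_tendsto_ae atTop (fun n : ℕ => ?_) hlim
    have hmem : s + ((ε / 2 / (n + 1) : ℝ) : ℂ) ∈ U := by
      refine hεU ?_
      rw [Metric.mem_ball, dist_self_add_left, Complex.norm_real, Real.norm_eq_abs,
        abs_of_pos (by positivity)]
      have hn : (1 : ℝ) ≤ (n : ℝ) + 1 := by
        have : (0 : ℝ) ≤ n := Nat.cast_nonneg n
        linarith
      calc ε / 2 / ((n : ℝ) + 1) ≤ ε / 2 / 1 := by gcongr
        _ < ε := by linarith
    exact ((hm _ hmem).sub (hm s hs)).const_mul _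
  have hint : Integrable (H s) μ := by
    refine hB.mono' (hm s hs) ?_
    filter_upwards [hBb] with a ha
    exact ha s (Metric.mem_ball_self hε)
  have hmain := hasDerivAt_integral_of_dominated_loc_of_deriv_le (μ := μ) (F := H) (x₀ := s)
    (F' := fun s a => deriv (fun s => H s a) s) (s := Metric.ball s (ε / 4))
    (bound := fun a => B a / (ε / 4)) (Metric.ball_mem_nhds s hε4) ?_ hint hderm hd
    (hB.div_const _) ?_
  · exact hmain.2.differentiableAt.differentiableWithinAt
  · filter_upwards [hU.mem_nhds hs] with x hx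
    exact hm x hx
  · filter_upwards [hH] with a ha x hx
    have hxU : x ∈ U := hεU (by
      rw [Metric.mem_ball] at *
      linarith)
    exact ((ha x hxU).differentiableAt (hU.mem_nhds hxU)).hasDerivAt

end Pool.Agent.H74A
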