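import Pool.Agent.H74A.Mom
import Pool.Agent.H74A.Hol
import Pool.Agent.Y230.AR.Mult

set_option autoImplicit false
set_option linter.unusedSectionVars false
set_option linter.unusedVariables false

/-! # The functional equation and the integrals `∫ |f| ^ (2 s) φ`, analytically continued -/

namespace Pool.Agent.H74C

open MvPolynomial MeasureTheory Filter Topology Complex
open Pool.Agent.Y230.AR (Test gh continuous_gh integrable_mul adj continuous_ev)
open Pool.Agent.H628R4.TP (weylS IsBFunction)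

variable {σ : Type} [Fintype σ] [DecidableEq σ]

/-- `|f| ^ 2` -/
noncomputable def Nm (f : MvPolynomial σ ℂ) (x : σ → ℂ) : ℝ := ‖eval x f‖ ^ 2

theorem Nm_nonneg (f : MvPolynomial σ ℂ) (x : σ → ℂ) : 0 ≤ Nm f x := by unfold Nm; positivity

theorem continuous_Nm (f : MvPolynomial σ ℂ) : Continuous (Nm f) :=
  ((continuous_ev f).norm.pow 2)

theorem ofReal_Nm (f : MvPolynomial σ ℂ) (x : σ → ℂ) :
    (Nm f x : ℂ) = eval x f * (starRingEnd ℂ) (eval x f) := by
  rw [Nm, Complex.mul_conj, Complex.normSq_eq_norm_sq]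

theorem gh_pow (f : MvPolynomial σ ℂ) (n : ℕ) (x : σ → ℂ) :
    gh (f ^ n) (f ^ n) x = (Nm f x : ℂ) ^ n := by
  rw [ofReal_Nm, gh, map_pow, map_pow, mul_pow]

theorem gh_pow_succ (f : MvPolynomial σ ℂ) (n : ℕ) (x : σ → ℂ) :
    gh (f ^ (n + 1)) (f ^ n) x = (Nm f x : ℂ) ^ n * eval x f := by
  rw [ofReal_Nm, gh, map_pow, map_pow, map_pow, mul_pow, pow_succ]
  ring

theorem tzero {K : Set (σ → ℂ)} {φ : (σ → ℂ) → ℂ} (hφ : Test K φ) {x : σ → ℂ} (hx : x ∉ K) :
    φ x = 0 := by
  by_contra h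
  exact hx (hφ.2 (subset_tsupport φ h))

theorem tbound {K : Set (σ → ℂ)} (hK : IsCompact K) {φ : (σ → ℂ) → ℂ} (hφ : Test K φ) :
    ∃ B : ℝ, 0 ≤ B ∧ ∀ x, ‖φ x‖ ≤ B := by
  have h2 : HasCompactSupport φ := hK.of_isClosed_subset (isClosed_tsupport _) hφ.2
  obtain ⟨B, hB⟩ := h2.exists_bound_of_continuous hφ.1.continuous
  exact ⟨max B 0, le_max_right _ _, fun x => (hB x).trans (le_max_left _ _)⟩

theorem int_res {K : Set (σ → ℂ)} {φ : (σ → ℂ) → ℂ} (hφ : Test K φ) (hK : MeasurableSet K)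
    (G : (σ → ℂ) → ℂ) : ∫ x, G x * φ x = ∫ x in K, G x * φ x := by
  refine (setIntegral_eq_integral_of_forall_compl_eq_zero fun x hx => ?_).symm
  rw [tzero hφ hx, mul_zero]

/-- **The functional equation, for real exponents.** -/
theorem cident {K : Set (σ → ℂ)} (hK : IsCompact K) (f : MvPolynomial σ ℂ)
    (hpos : ∀ᵐ x ∂(volume.restrict K), 0 < Nm f x) (b : Polynomial ℂ)
    (hb : IsBFunction f b) {φ : (σ → ℂ) → ℂ} (hφ : Test K φ) :
    ∃ (S : Finset ℕ) (ψ : ℕ → (σ → ℂ) → ℂ), (∀ m, Test K (ψ m)) ∧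
      ∀ s : ℝ, s < 0 → IntegrableOn (fun x => Nm f x ^ s) K →
        b.eval (s : ℂ) * ∫ x in K, ((Nm f x ^ s : ℝ) : ℂ) * φ x =
          ∑ m ∈ S, (s : ℂ) ^ m * ∫ x in K, ((Nm f x ^ s : ℝ) : ℂ) * (eval x f * ψ m x) := by
  obtain ⟨P, hP⟩ := hb
  choose ψ hψ1 hψ2 using fun m => adj hK (P m : Module.End ℂ (MvPolynomial σ ℂ)) (P m).2 φ hφ
  refine ⟨P.support, ψ, hψ1, fun s hs hI => ?_⟩
  have hKm := hK.measurableSet
  have hfin : IsFiniteMeasure (volume.restrict K) := ⟨by
    rw [Measure.restrict_apply_univ]; exact hK.measure_lt_top⟩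
  obtain ⟨M, hM⟩ := hK.exists_bound_of_continuousOn (f := Nm f) (continuous_Nm f).continuousOn
  obtain ⟨M', hM'⟩ := hK.exists_bound_of_continuousOn (f := fun x => eval x f)
    (continuous_ev f).continuousOn
  have hφi : Integrable φ (volume.restrict K) := by
    have := integrable_mul hK (G := fun _ => 1) continuous_const hφ.1.continuous hφ.2
    simpa using this.restrict (s := K)
  have hψc : ∀ m, Continuous fun x => eval x f * ψ m x := fun m =>
    (continuous_ev f).mul (hψ1 m).1.continuous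
  have hψi : ∀ m, Integrable (fun x => eval x f * ψ m x) (volume.restrict K) := fun m =>
    (integrable_mul hK (continuous_ev f) (hψ1 m).1.continuous (hψ1 m).2).restrict
  obtain ⟨Bφ, hBφ0, hBφ⟩ := tbound hK hφ
  choose Bψ hBψ0 hBψ using fun m => tbound hK (hψ1 m)
  refine Pool.Agent.H74A.M.mom_ident (μ := volume.restrict K) (F := Nm f) (continuous_Nm f).measurable hpos
    (M := M) ?_ b P.support φ (fun m x => eval x f * ψ m x) hφi hψi ?_ s hs ?_ ?_
  · filter_upwards [ae_restrict_mem hKm] with x hx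
    exact hM x hx
  · intro n
    have h1 := hP n
    rw [Finsupp.sum] at h1
    have e1 : ∫ x in K, (Nm f x : ℂ) ^ n * φ x = ∫ x, gh (f ^ n) (f ^ n) x * φ x := by
      rw [← int_res hφ hKm]
      simp only [gh_pow]
    have e2 : ∀ m, ∫ x in K, (Nm f x : ℂ) ^ n * (eval x f * ψ m x) =
        ∫ x, gh ((P m : Module.End ℂ (MvPolynomial σ ℂ)) (f ^ (n + 1))) (f ^ n) x * φ x := by
      intro m
      rw [hψ2 m, int_res (hψ1 m) hKm]
      refine integral_congr_ae (Eventually.of_forall fun x => ?_)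
      simp only [gh_pow_succ]
      ring
    rw [e1, ← integral_const_mul]
    simp only [e2, ← integral_const_mul]
    rw [← integral_finsetSum]
    · refine integral_congr_ae (Eventually.of_forall fun x => ?_)
      simp only
      have h2 : gh (C (b.eval (n : ℂ)) * f ^ n) (f ^ n) x =
          gh (∑ m ∈ P.support, ((n : ℂ) ^ m) • (P m : Module.End ℂ (MvPolynomial σ ℂ))
            (f ^ (n + 1))) (f ^ n) x := by rw [h1]
      have h3 : gh (C (b.eval (n : ℂ)) * f ^ n) (f ^ n) x =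
          b.eval (n : ℂ) * gh (f ^ n) (f ^ n) x := by
        simp only [gh, map_mul, eval_C]
        ring
      have h4 : gh (∑ m ∈ P.support, ((n : ℂ) ^ m) • (P m : Module.End ℂ (MvPolynomial σ ℂ))
            (f ^ (n + 1))) (f ^ n) x = ∑ m ∈ P.support, (n : ℂ) ^ m *
            gh ((P m : Module.End ℂ (MvPolynomial σ ℂ)) (f ^ (n + 1))) (f ^ n) x := by
        simp only [gh, map_sum, Finset.sum_mul, smul_eval, mul_assoc]
      rw [h3, h4] at h2
      rw [← mul_assoc, h2, Finset.sum_mul]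
      exact Finset.sum_congr rfl fun m _ => by ring
    · intro m _
      exact (integrable_mul hK (continuous_gh _ _) hφ.1.continuous hφ.2).const_mul _
  · refine Integrable.bdd_mul (c := Bφ) hI hφ.1.continuous.norm.aestronglyMeasurable ?_
    exact Eventually.of_forall fun x => by rw [norm_norm]; exact hBφ x
  · intro m
    refine Integrable.bdd_mul (c := M' * Bψ m) hI (hψc m).norm.aestronglyMeasurable ?_
    filter_upwards [ae_restrict_mem hKm] with x hx
    rw [norm_norm, norm_mul]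
    exact mul_le_mul (hM' x hx) (hBψ m x) (norm_nonneg _) ((norm_nonneg _).trans (hM' x hx))

end Pool.Agent.H74C
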