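import Mathlib

set_option autoImplicit false
set_option linter.unusedSectionVars false
set_option linter.unusedVariables false

/-! # Integrals over the complex line -/

namespace Pool.Agent.H74C

open MeasureTheory Filter Topology Complex Metric

theorem pow_ball {p ρ : ℝ} (hp : -2 < p) (hρ : 0 ≤ ρ) :
    IntegrableOn (fun z : ℂ => ‖z‖ ^ p) (ball 0 ρ) ∧
      ∫ z in ball (0 : ℂ) ρ, ‖z‖ ^ p = 2 * Real.pi * ρ ^ (p + 2) / (p + 2) := by
  have hI : IntegrableOn (fun y : ℝ => y ^ (p + 1)) (Set.Ioo 0 ρ) := by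
    have h1 := (intervalIntegral.intervalIntegrable_rpow' (a := 0) (b := ρ) (r := p + 1)
      (by linarith))
    exact (intervalIntegrable_iff_integrableOn_Ioo_of_le hρ).1 h1
  constructor
  · rw [integrableOn_fun_norm_addHaar volume (f := fun y : ℝ => y ^ p) (r := ρ)]
    refine hI.congr_fun (fun y hy => ?_) measurableSet_Ioo
    simp only [Complex.finrank_real_complex, smul_eq_mul]
    rw [Real.rpow_add hy.1]
    norm_num
    ring
  · have h1 : ∫ z in ball (0 : ℂ) ρ, ‖z‖ ^ p =
        ∫ z : ℂ, (fun y : ℝ => (Set.Iio ρ).indicator (fun y => y ^ p) y) ‖z‖ := by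
      rw [← integral_indicator measurableSet_ball]
      refine integral_congr_ae (Eventually.of_forall fun z => ?_)
      simp only
      by_cases hz : z ∈ ball (0 : ℂ) ρ
      · rw [Set.indicator_of_mem hz, Set.indicator_of_mem]
        rwa [mem_ball_zero_iff] at hz
      · rw [Set.indicator_of_notMem hz, Set.indicator_of_notMem]
        rw [mem_ball_zero_iff] at hz
        exact hz
    rw [h1, integral_fun_norm_addHaar]
    have h2 : ∫ y in Set.Ioi (0 : ℝ), y ^ (Module.finrank ℝ ℂ - 1) •
        (Set.Iio ρ).indicator (fun y => y ^ p) y = ∫ y in Set.Ioo (0 : ℝ) ρ, y ^ (p + 1) := by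
      have h3 : Set.Ioo (0 : ℝ) ρ = Set.Ioi 0 ∩ Set.Iio ρ := rfl
      rw [h3, ← setIntegral_indicator measurableSet_Iio]
      refine setIntegral_congr_fun measurableSet_Ioi fun y hy => ?_
      simp only [Complex.finrank_real_complex, smul_eq_mul]
      by_cases hy2 : y ∈ Set.Iio ρ
      · rw [Set.indicator_of_mem hy2, Set.indicator_of_mem hy2, Real.rpow_add hy]
        norm_num
        ring
      · rw [Set.indicator_of_notMem hy2, Set.indicator_of_notMem hy2, mul_zero]
    rw [h2, ← integral_Ioc_eq_integral_Ioo, ← intervalIntegral.integral_of_le hρ,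
      integral_rpow (Or.inl (by linarith)), Real.zero_rpow (by linarith), sub_zero]
    have h4 : (volume : Measure ℂ).real (ball 0 1) = Real.pi := by
      rw [Measure.real, Complex.volume_ball]
      simp
    rw [h4, Complex.finrank_real_complex]
    simp only [nsmul_eq_mul, smul_eq_mul]
    have h5 : p + 1 + 1 = p + 2 := by ring
    rw [h5]
    push_cast
    ring

theorem pow_out {p ρ : ℝ} (hp : p < -2) (hρ : 0 < ρ) :
    IntegrableOn (fun z : ℂ => ‖z‖ ^ p) (ball 0 ρ)ᶜ ∧
      ∫ z in (ball (0 : ℂ) ρ)ᶜ, ‖z‖ ^ p = 2 * Real.pi * ρ ^ (p + 2) / (-(p + 2)) := by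
  have hI : IntegrableOn (fun y : ℝ => y ^ (p + 1)) (Set.Ici ρ) :=
    (integrableOn_Ici_iff_integrableOn_Ioi (by simp)).2
      (integrableOn_Ioi_rpow_of_lt (by linarith) hρ)
  have e1 : ((ball (0 : ℂ) ρ)ᶜ).indicator (fun z : ℂ => ‖z‖ ^ p) =
      fun z : ℂ => (fun y : ℝ => (Set.Ici ρ).indicator (fun y => y ^ p) y) ‖z‖ := by
    funext z
    by_cases hz : z ∈ (ball (0 : ℂ) ρ)ᶜ
    · rw [Set.indicator_of_mem hz]
      simp only
      rw [Set.indicator_of_mem]
      rw [Set.mem_compl_iff, mem_ball_zero_iff, not_lt] at hz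
      exact hz
    · rw [Set.indicator_of_notMem hz]
      simp only
      rw [Set.indicator_of_notMem]
      rw [Set.mem_compl_iff, mem_ball_zero_iff, not_lt] at hz
      exact hz
  have e2 : ∀ y ∈ Set.Ioi (0 : ℝ), y ^ (Module.finrank ℝ ℂ - 1) •
      (Set.Ici ρ).indicator (fun y => y ^ p) y =
      (Set.Ici ρ).indicator (fun y => y ^ (p + 1)) y := by
    intro y hy
    simp only [Complex.finrank_real_complex, smul_eq_mul]
    by_cases hy2 : y ∈ Set.Ici ρ
    · rw [Set.indicator_of_mem hy2, Set.indicator_of_mem hy2, Real.rpow_add hy]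
      norm_num
      ring
    · rw [Set.indicator_of_notMem hy2, Set.indicator_of_notMem hy2, mul_zero]
  have hsub : Set.Ioi (0 : ℝ) ∩ Set.Ici ρ = Set.Ici ρ := by
    ext y
    simp only [Set.mem_inter_iff, Set.mem_Ioi, Set.mem_Ici]
    constructor
    · exact fun h => h.2
    · exact fun h => ⟨lt_of_lt_of_le hρ h, h⟩
  constructor
  · rw [← integrable_indicator_iff measurableSet_ball.compl, e1,
      integrable_fun_norm_addHaar volume (f := fun y : ℝ => (Set.Ici ρ).indicator (fun y => y ^ p) y),
      integrableOn_congr_fun e2 measurableSet_Ioi]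
    exact (hI.integrable_indicator measurableSet_Ici).integrableOn
  · rw [← integral_indicator measurableSet_ball.compl, e1,
      integral_fun_norm_addHaar volume (fun y : ℝ => (Set.Ici ρ).indicator (fun y => y ^ p) y),
      setIntegral_congr_fun measurableSet_Ioi e2, setIntegral_indicator measurableSet_Ici, hsub,
      integral_Ici_eq_integral_Ioi, integral_Ioi_rpow_of_lt (by linarith) hρ]
    have h4 : (volume : Measure ℂ).real (ball 0 1) = Real.pi := by
      rw [Measure.real, Complex.volume_ball]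
      simp
    rw [h4, Complex.finrank_real_complex]
    simp only [nsmul_eq_mul, smul_eq_mul]
    have h5 : p + 1 + 1 = p + 2 := by ring
    rw [h5]
    push_cast
    rw [div_neg]
    ring

theorem shift_int {p ρ : ℝ} (hp : -2 < p) (hρ : 0 ≤ ρ) (r : ℂ) :
    IntegrableOn (fun z : ℂ => ‖z - r‖ ^ p) (ball r ρ) ∧
      ∫ z in ball r ρ, ‖z - r‖ ^ p = 2 * Real.pi * ρ ^ (p + 2) / (p + 2) := by
  have hmp := measurePreserving_sub_right (volume : Measure ℂ) r
  have hpre : (fun z : ℂ => z - r) ⁻¹' ball 0 ρ = ball r ρ := by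
    ext z
    simp [mem_ball, dist_eq_norm]
  have hemb : MeasurableEmbedding (fun z : ℂ => z - r) := (Homeomorph.subRight r).measurableEmbedding
  obtain ⟨h1, h2⟩ := pow_ball (p := p) hp hρ
  constructor
  · have h3 := (hmp.integrableOn_comp_preimage hemb (f := fun z : ℂ => ‖z‖ ^ p)
      (s := ball 0 ρ)).2 h1
    rwa [hpre] at h3
  · have h3 := hmp.setIntegral_preimage_emb hemb (fun z : ℂ => ‖z‖ ^ p) (ball 0 ρ)
    rw [hpre] at h3
    rw [h3, h2]

/-- the constant -/
noncomputable def cB (p : ℝ) : ℝ := 2 * Real.pi / (p + 2) + Real.pi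

theorem cB_nonneg {p : ℝ} (hp : -2 < p) : 0 ≤ cB p := by
  unfold cB
  have := Real.pi_pos
  have : 0 < p + 2 := by linarith
  positivity

theorem int_shift {p : ℝ} (hp : -2 < p) (hp0 : p ≤ 0) (r : ℂ) :
    IntegrableOn (fun z : ℂ => ‖z - r‖ ^ p) (ball 0 1) ∧
      ∫ z in ball (0 : ℂ) 1, ‖z - r‖ ^ p ≤ cB p := by
  have h0 : IntegrableOn (fun z : ℂ => ‖z - r‖ ^ p) (ball 0 1) := by
    refine (shift_int (p := p) (ρ := 1 + ‖r‖) hp (by positivity) r).1.mono_set ?_
    intro z hz
    rw [mem_ball_zero_iff] at hz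
    rw [mem_ball, dist_eq_norm]
    exact (norm_sub_le _ _).trans_lt (by linarith)
  refine ⟨h0, ?_⟩
  obtain ⟨h1, h2⟩ := shift_int (p := p) (ρ := 1) hp zero_le_one r
  have h3 : ∀ z : ℂ, ‖z - r‖ ^ p ≤ (ball r 1).indicator (fun z => ‖z - r‖ ^ p) z + 1 := by
    intro z
    by_cases hz : z ∈ ball r 1
    · rw [Set.indicator_of_mem hz]
      linarith
    · rw [Set.indicator_of_notMem hz, zero_add]
      rw [mem_ball, dist_eq_norm, not_lt] at hz
      exact Real.rpow_le_one_of_one_le_of_nonpos hz hp0
  have hi : IntegrableOn (fun z => (ball r 1).indicator (fun z => ‖z - r‖ ^ p) z + 1)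
      (ball (0 : ℂ) 1) := by
    refine Integrable.add ((h1.integrable_indicator measurableSet_ball).integrableOn) ?_
    exact integrableOn_const (by
      rw [Complex.volume_ball]
      exact (ENNReal.mul_lt_top (by simp) ENNReal.coe_lt_top).ne)
  calc ∫ z in ball (0 : ℂ) 1, ‖z - r‖ ^ p ≤
      ∫ z in ball (0 : ℂ) 1, ((ball r 1).indicator (fun z => ‖z - r‖ ^ p) z + 1) :=
        integral_mono h0 hi h3
    _ = (∫ z in ball (0 : ℂ) 1, (ball r 1).indicator (fun z => ‖z - r‖ ^ p) z) +
        ∫ z in ball (0 : ℂ) 1, (1 : ℝ) := by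
        refine integral_add ((h1.integrable_indicator measurableSet_ball).integrableOn) ?_
        exact integrableOn_const (by
          rw [Complex.volume_ball]
          exact (ENNReal.mul_lt_top (by simp) ENNReal.coe_lt_top).ne)
    _ ≤ cB p := by
        unfold cB
        refine add_le_add ?_ ?_
        · rw [setIntegral_indicator measurableSet_ball]
          refine (setIntegral_mono_set h1 ?_ ?_).trans ?_
          · exact Eventually.of_forall fun z => Real.rpow_nonneg (norm_nonneg _) _
          · exact (Set.inter_subset_right).eventuallyLE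
          · rw [h2, Real.one_rpow, mul_one]
        · rw [setIntegral_const, smul_eq_mul, mul_one, Measure.real, Complex.volume_ball]
          simp

end Pool.Agent.H74C
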