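import Pool.Agent.H74A.Fib

set_option autoImplicit false
set_option linter.unusedSectionVars false
set_option linter.unusedVariables false

/-! # The difference between the arithmetic and the geometric mean -/

namespace Pool.Agent.H74C

open MeasureTheory Filter Topology Complex Metric

/-- cut off functions -/
structure Cut (η : ℂ → ℝ) : Prop where
  cont : Continuous η
  nonneg : ∀ z, 0 ≤ η z
  le_one : ∀ z, η z ≤ 1
  zero : ∀ z, 1 ≤ ‖z‖ → η z = 0

/-- arithmetic mean minus geometric mean -/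
noncomputable def qd (k : ℕ) (s : ℂ) (r : Fin k → ℂ) (z : ℂ) : ℂ :=
  (1 / (k : ℂ)) * ∑ i, (‖z - r i‖ : ℂ) ^ (2 * k * s) - ∏ i, (‖z - r i‖ : ℂ) ^ (2 * s)

/-- the real version -/
noncomputable def qr (k : ℕ) (s : ℝ) (r : Fin k → ℂ) (z : ℂ) : ℝ :=
  (1 / (k : ℝ)) * ∑ i, ‖z - r i‖ ^ (2 * k * s) - ∏ i, ‖z - r i‖ ^ (2 * s)

theorem qd_ofReal (k : ℕ) (s : ℝ) (r : Fin k → ℂ) (z : ℂ) : qd k s r z = (qr k s r z : ℂ) := by
  unfold qd qr
  push_cast
  congr 1
  · congr 1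
    refine Finset.sum_congr rfl fun i _ => ?_
    rw [Complex.ofReal_cpow (norm_nonneg _)]
    push_cast
    rfl
  · refine Finset.prod_congr rfl fun i _ => ?_
    rw [Complex.ofReal_cpow (norm_nonneg _)]
    push_cast
    rfl

theorem amgm {k : ℕ} (hk : 0 < k) (s : ℝ) (r : Fin k → ℂ) (z : ℂ) :
    ∏ i, ‖z - r i‖ ^ (2 * s) ≤ (1 / (k : ℝ)) * ∑ i, ‖z - r i‖ ^ (2 * k * s) := by
  have hk' : (0 : ℝ) < k := by exact_mod_cast hk
  have h := Real.geom_mean_le_arith_mean_weighted Finset.univ (fun _ : Fin k => 1 / (k : ℝ))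
    (fun i => ‖z - r i‖ ^ (2 * k * s)) (fun i _ => by positivity)
    (by rw [Finset.sum_const, Finset.card_univ, Fintype.card_fin, nsmul_eq_mul]; field_simp)
    (fun i _ => Real.rpow_nonneg (norm_nonneg _) _)
  rw [← Finset.mul_sum] at h
  refine le_trans (le_of_eq ?_) h
  refine Finset.prod_congr rfl fun i _ => ?_
  rw [← Real.rpow_mul (norm_nonneg _)]
  congr 1
  field_simp

theorem qr_nonneg {k : ℕ} (hk : 0 < k) (s : ℝ) (r : Fin k → ℂ) (z : ℂ) : 0 ≤ qr k s r z :=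
  sub_nonneg.2 (amgm hk s r z)

/-- the dominating function -/
noncomputable def bd (k : ℕ) (σ : ℝ) (r : Fin k → ℂ) (z : ℂ) : ℝ :=
  2 * ((1 / (k : ℝ)) * ∑ i, ‖z - r i‖ ^ (2 * k * σ))

theorem cpn {x : ℝ} (hx : 0 < x) (c : ℂ) : ‖(x : ℂ) ^ c‖ = x ^ c.re :=
  Complex.norm_cpow_eq_rpow_re_of_pos hx c

theorem re_mul2k (k : ℕ) (s : ℂ) : (2 * k * s).re = 2 * k * s.re := by
  have : (2 * (k : ℂ) * s) = ((2 * k : ℝ) : ℂ) * s := by push_cast; ring
  rw [this, Complex.re_ofReal_mul]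

theorem re_mul2 (s : ℂ) : (2 * s).re = 2 * s.re := by
  have : (2 * s) = ((2 : ℝ) : ℂ) * s := by push_cast; ring
  rw [this, Complex.re_ofReal_mul]

theorem qd_norm1 {k : ℕ} (hk : 0 < k) (s : ℂ) (r : Fin k → ℂ) (z : ℂ) (hz : ∀ i, z ≠ r i) :
    ‖qd k s r z‖ ≤ bd k s.re r z := by
  have hp : ∀ i, 0 < ‖z - r i‖ := fun i => norm_pos_iff.2 (sub_ne_zero.2 (hz i))
  unfold qd bd
  rw [two_mul ((1 / (k : ℝ)) * _)]
  refine (norm_sub_le _ _).trans (add_le_add ?_ ?_)
  · rw [norm_mul]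
    have h1 : ‖(1 / (k : ℂ))‖ = 1 / (k : ℝ) := by
      rw [norm_div, norm_one, Complex.norm_natCast]
    rw [h1]
    refine mul_le_mul_of_nonneg_left ?_ (by positivity)
    refine (norm_sum_le _ _).trans (le_of_eq ?_)
    refine Finset.sum_congr rfl fun i _ => ?_
    rw [cpn (hp i), re_mul2k]
  · rw [norm_prod]
    refine le_trans (le_of_eq ?_) (amgm hk s.re r z)
    refine Finset.prod_congr rfl fun i _ => ?_
    rw [cpn (hp i), re_mul2]

theorem exp2 (x : ℂ) : ‖exp x - 1 - x‖ ≤ ‖x‖ ^ 2 * Real.exp ‖x‖ := by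
  have h := Complex.norm_exp_sub_sum_le_norm_mul_exp x 2
  rw [Finset.sum_range_succ, Finset.sum_range_one] at h
  simp only [pow_zero, Nat.factorial_zero, Nat.cast_one, div_one, pow_one, Nat.factorial_one] at h
  rwa [← sub_sub] at h

theorem log_bound {t δ : ℝ} (hδ0 : 0 ≤ δ) (hδ : δ ≤ 1 / 2) (h1 : 1 - δ ≤ t) (h2 : t ≤ 1 + δ) :
    |Real.log t| ≤ 2 * δ := by
  have ht : 0 < t := by linarith
  rw [abs_le]
  constructor
  · have h3 := Real.one_sub_inv_le_log_of_pos ht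
    have h4 : t⁻¹ ≤ 1 + 2 * δ := by
      rw [inv_le_comm₀ ht (by linarith)]
      refine le_trans ?_ h1
      rw [inv_le_iff_one_le_mul₀ (by linarith)]
      nlinarith
    linarith
  · have h3 := Real.log_le_sub_one_of_pos ht
    linarith

/-- the constant -/
noncomputable def c2 (k : ℕ) (Λ : ℝ) : ℝ := 2 * (4 * k * Λ) ^ 2 * Real.exp (2 * k * Λ)

theorem c2_nonneg (k : ℕ) (Λ : ℝ) : 0 ≤ c2 k Λ := by unfold c2; positivity

theorem qd_norm2 {k : ℕ} (hk : 0 < k) (s : ℂ) {Λ : ℝ} (hs : ‖s‖ ≤ Λ) (r : Fin k → ℂ) {R : ℝ}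
    (hR : 0 < R) (hr : ∀ i, ‖r i‖ ≤ R) (z : ℂ) (hz : 2 * R ≤ ‖z‖) :
    ‖qd k s r z‖ ≤ c2 k Λ * (R ^ 2 * ‖z‖ ^ (2 * k * s.re - 2)) := by
  have hk' : (0 : ℝ) < k := by exact_mod_cast hk
  have hkc : (k : ℂ) ≠ 0 := Nat.cast_ne_zero.2 hk.ne'
  have hΛ : 0 ≤ Λ := (norm_nonneg _).trans hs
  set L : ℝ := ‖z‖ with hL
  have hL0 : 0 < L := by linarith
  have hδ : R / L ≤ 1 / 2 := by
    rw [div_le_iff₀ hL0]; linarith
  have hδ0 : 0 ≤ R / L := by positivity
  set u : Fin k → ℝ := fun i => Real.log (‖z - r i‖ / L) with hu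
  have hpos : ∀ i, 0 < ‖z - r i‖ := by
    intro i
    have := norm_sub_norm_le z (r i)
    have := hr i
    linarith
  have hub : ∀ i, |u i| ≤ 2 * (R / L) := by
    intro i
    refine log_bound hδ0 hδ ?_ ?_
    · rw [le_div_iff₀ hL0, sub_mul, one_mul, div_mul_cancel₀ _ hL0.ne']
      have := norm_sub_norm_le z (r i)
      have := hr i
      linarith
    · rw [div_le_iff₀ hL0, add_mul, one_mul, div_mul_cancel₀ _ hL0.ne']
      have := norm_sub_le z (r i)
      have := hr i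
      linarith
  have hlog : ∀ i, Real.log ‖z - r i‖ = Real.log L + u i := by
    intro i
    rw [hu]
    simp only
    rw [Real.log_div (hpos i).ne' hL0.ne']
    ring
  have hcp : ∀ (c : ℂ) i, (‖z - r i‖ : ℂ) ^ c = exp (c * Real.log L) * exp (c * u i) := by
    intro c i
    rw [Complex.cpow_def_of_ne_zero (Complex.ofReal_ne_zero.2 (hpos i).ne'),
      ← Complex.ofReal_log (hpos i).le, hlog, ← Complex.exp_add]
    congr 1
    push_cast
    ring
  have e1 : qd k s r z = exp (2 * k * s * Real.log L) *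
      ((1 / (k : ℂ)) * ∑ i, exp (2 * k * s * u i) - exp (2 * s * ∑ i, (u i : ℂ))) := by
    unfold qd
    simp only [hcp]
    rw [← Finset.mul_sum, Finset.prod_mul_distrib, Finset.prod_const, Finset.card_univ,
      Fintype.card_fin, ← Complex.exp_nat_mul, ← Complex.exp_sum, ← Finset.mul_sum]
    have e2 : (k : ℂ) * (2 * s * Real.log L) = 2 * k * s * Real.log L := by ring
    rw [e2]
    ring
  have e3 : (1 / (k : ℂ)) * ∑ i, exp (2 * k * s * u i) - exp (2 * s * ∑ i, (u i : ℂ)) =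
      (1 / (k : ℂ)) * ∑ i, (exp (2 * k * s * u i) - 1 - 2 * k * s * u i) -
        (exp (2 * s * ∑ i, (u i : ℂ)) - 1 - 2 * s * ∑ i, (u i : ℂ)) := by
    rw [Finset.sum_sub_distrib, Finset.sum_sub_distrib, ← Finset.mul_sum]
    simp only [Finset.sum_const, Finset.card_univ, Fintype.card_fin, nsmul_eq_mul, mul_one]
    field_simp
    ring
  set w : ℝ := 4 * k * Λ * (R / L) with hw
  have hw0 : 0 ≤ w := by positivity
  have hw1 : w ≤ 2 * k * Λ := by
    rw [hw]
    have : 4 * (k : ℝ) * Λ * (R / L) ≤ 4 * k * Λ * (1 / 2) := by gcongr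
    linarith
  have hx : ∀ x : ℂ, ‖x‖ ≤ w → ‖exp x - 1 - x‖ ≤ w ^ 2 * Real.exp (2 * k * Λ) := by
    intro x hx
    refine (exp2 x).trans ?_
    gcongr
    exact hx.trans hw1
  have hv : ∀ i, ‖(2 * k * s * u i : ℂ)‖ ≤ w := by
    intro i
    rw [norm_mul, norm_mul, norm_mul, Complex.norm_natCast, Complex.norm_real, Real.norm_eq_abs]
    have h2 : ‖(2 : ℂ)‖ = 2 := by simp
    rw [h2, hw]
    calc 2 * (k : ℝ) * ‖s‖ * |u i| ≤ 2 * k * Λ * (2 * (R / L)) := by
          gcongr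
          exact hub i
      _ = _ := by ring
  have hv2 : ‖(2 * s * ∑ i, (u i : ℂ))‖ ≤ w := by
    rw [norm_mul, norm_mul]
    have h2 : ‖(2 : ℂ)‖ = 2 := by simp
    have h3 : ‖∑ i, (u i : ℂ)‖ ≤ k * (2 * (R / L)) := by
      refine (norm_sum_le _ _).trans ?_
      refine (Finset.sum_le_sum fun i _ => (by
        rw [Complex.norm_real]; exact hub i : ‖(u i : ℂ)‖ ≤ 2 * (R / L))).trans ?_
      rw [Finset.sum_const, Finset.card_univ, Fintype.card_fin, nsmul_eq_mul]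
    rw [h2, hw]
    calc 2 * ‖s‖ * ‖∑ i, (u i : ℂ)‖ ≤ 2 * Λ * (k * (2 * (R / L))) := by gcongr
      _ = _ := by ring
  have e4 : ‖(1 / (k : ℂ)) * ∑ i, (exp (2 * k * s * u i) - 1 - 2 * k * s * u i) -
        (exp (2 * s * ∑ i, (u i : ℂ)) - 1 - 2 * s * ∑ i, (u i : ℂ))‖ ≤
      2 * (w ^ 2 * Real.exp (2 * k * Λ)) := by
    rw [two_mul (w ^ 2 * Real.exp (2 * k * Λ))]
    refine (norm_sub_le _ _).trans (add_le_add ?_ (hx _ hv2))
    rw [norm_mul]
    have h1 : ‖(1 / (k : ℂ))‖ = 1 / (k : ℝ) := by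
      rw [norm_div, norm_one, Complex.norm_natCast]
    rw [h1]
    have h2 : ‖∑ i, (exp (2 * k * s * u i) - 1 - 2 * k * s * u i)‖ ≤
        k * (w ^ 2 * Real.exp (2 * k * Λ)) := by
      refine (norm_sum_le _ _).trans ((Finset.sum_le_sum fun i _ => hx _ (hv i)).trans ?_)
      rw [Finset.sum_const, Finset.card_univ, Fintype.card_fin, nsmul_eq_mul]
    calc 1 / (k : ℝ) * _ ≤ 1 / (k : ℝ) * (k * (w ^ 2 * Real.exp (2 * k * Λ))) := by gcongr
      _ = _ := by field_simp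
  have e5 : ‖exp (2 * k * s * Real.log L)‖ = L ^ (2 * k * s.re) := by
    rw [Complex.norm_exp]
    have : (2 * k * s * Real.log L : ℂ).re = Real.log L * (2 * k * s.re) := by
      have h : (2 * k * s * Real.log L : ℂ) = ((2 * k * Real.log L : ℝ) : ℂ) * s := by
        push_cast; ring
      rw [h, Complex.re_ofReal_mul]
      ring
    rw [this, Real.rpow_def_of_pos hL0]
  rw [e1, e3, norm_mul, e5]
  have e6 : L ^ (2 * k * s.re - 2) = L ^ (2 * k * s.re) / L ^ 2 := by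
    rw [Real.rpow_sub hL0]
    norm_num
  rw [e6]
  calc L ^ (2 * k * s.re) * _ ≤ L ^ (2 * k * s.re) * (2 * (w ^ 2 * Real.exp (2 * k * Λ))) := by
        gcongr
    _ = _ := by
        rw [hw, c2]
        field_simp

theorem qd_meas (k : ℕ) (s : ℂ) (r : Fin k → ℂ) : Measurable (qd k s r) := by
  unfold qd
  fun_prop

theorem ae_ne (k : ℕ) (r : Fin k → ℂ) : ∀ᵐ z : ℂ, ∀ i, z ≠ r i := by
  rw [ae_all_iff]
  intro i
  have : (volume : Measure ℂ) {r i} = 0 := measure_singleton _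
  exact compl_mem_ae_iff.2 this

theorem bd_int {k : ℕ} (hk : 0 < k) {σ : ℝ} (h1 : -1 / (k : ℝ) < σ) (h2 : σ ≤ 0)
    (r : Fin k → ℂ) : IntegrableOn (bd k σ r) (ball 0 1) ∧
      ∫ z in ball (0 : ℂ) 1, bd k σ r z ≤ 2 * cB (2 * k * σ) := by
  have hk' : (0 : ℝ) < k := by exact_mod_cast hk
  have hp : -2 < 2 * k * σ := by
    rw [div_lt_iff₀ hk'] at h1
    linarith
  have hp0 : 2 * k * σ ≤ 0 := mul_nonpos_of_nonneg_of_nonpos (by positivity) h2
  have hi := fun i => int_shift hp hp0 (r i)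
  constructor
  · exact ((integrable_finsetSum _ fun i _ => (hi i).1).const_mul _).const_mul _
  · unfold bd
    rw [integral_const_mul, integral_const_mul, integral_finsetSum _ fun i _ => (hi i).1]
    refine mul_le_mul_of_nonneg_left ?_ (by norm_num)
    calc 1 / (k : ℝ) * _ ≤ 1 / (k : ℝ) * ∑ i : Fin k, cB (2 * k * σ) := by
          gcongr with i _
          exact (hi i).2
      _ = _ := by
          rw [Finset.sum_const, Finset.card_univ, Fintype.card_fin, nsmul_eq_mul]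
          field_simp

theorem cB_anti {p q : ℝ} (hp : -2 < p) (hpq : p ≤ q) : cB q ≤ cB p := by
  unfold cB
  have := Real.pi_pos
  have h1 : 0 < p + 2 := by linarith
  gcongr

/-- The function `D`. -/
noncomputable def Dk (η : ℂ → ℝ) (k : ℕ) (s : ℂ) (r : Fin k → ℂ) : ℂ := ∫ z, (η z : ℂ) * qd k s r z

theorem eta_qd_int {η : ℂ → ℝ} (hη : Cut η) {k : ℕ} (hk : 0 < k) {s : ℂ}
    (h1 : -1 / (k : ℝ) < s.re) (h2 : s.re ≤ 0) (r : Fin k → ℂ) :
    Integrable (fun z => (η z : ℂ) * qd k s r z) ∧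
      ∀ᵐ z : ℂ, ‖(η z : ℂ) * qd k s r z‖ ≤ (ball 0 1).indicator (bd k s.re r) z := by
  have hb : ∀ᵐ z : ℂ, ‖(η z : ℂ) * qd k s r z‖ ≤ (ball 0 1).indicator (bd k s.re r) z := by
    filter_upwards [ae_ne k r] with z hz
    by_cases hz1 : z ∈ ball (0 : ℂ) 1
    · rw [Set.indicator_of_mem hz1, norm_mul, Complex.norm_real, Real.norm_eq_abs,
        abs_of_nonneg (hη.nonneg z)]
      calc _ ≤ 1 * bd k s.re r z := mul_le_mul (hη.le_one z) (qd_norm1 hk s r z hz)
            (norm_nonneg _) zero_le_one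
        _ = _ := one_mul _
    · rw [Set.indicator_of_notMem hz1, hη.zero z (by
        rw [mem_ball_zero_iff, not_lt] at hz1; exact hz1)]
      simp
  refine ⟨?_, hb⟩
  refine (((bd_int hk h1 h2 r).1.integrable_indicator measurableSet_ball)).mono' ?_ hb
  exact ((Complex.measurable_ofReal.comp hη.cont.measurable).mul (qd_meas k s r)).aestronglyMeasurable

/-- **The estimate of `D`.** -/
theorem Dk_bound {η : ℂ → ℝ} (hη : Cut η) {k : ℕ} (hk : 0 < k) {σ₁ σ₂ Λ : ℝ}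
    (h1 : -1 / (k : ℝ) < σ₁) (h12 : σ₁ ≤ σ₂) (h2 : σ₂ < 0) (hΛ : 0 ≤ Λ) :
    ∃ C : ℝ, 0 ≤ C ∧ ∀ s : ℂ, σ₁ ≤ s.re → s.re ≤ σ₂ → ‖s‖ ≤ Λ → ∀ (R : ℝ), 0 < R →
      ∀ r : Fin k → ℂ, (∀ i, ‖r i‖ ≤ R) → ∀ τ : ℝ, 0 ≤ τ → τ ≤ 2 + 2 * k * σ₁ →
      ‖Dk η k s r‖ ≤ C * R ^ τ := by
  have hk' : (0 : ℝ) < k := by exact_mod_cast hk
  have hp : -2 < 2 * k * σ₁ := by
    rw [div_lt_iff₀ hk'] at h1
    linarith
  have hπ := Real.pi_pos
  set A1 : ℝ := 2 * (2 * Real.pi * 9 / (2 * k * σ₁ + 2)) with hA1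
  set A2 : ℝ := c2 k Λ * (2 * Real.pi / (-(2 * k * σ₂))) with hA2
  set A3 : ℝ := 4 * (2 * cB (2 * k * σ₁)) with hA3
  have hA10 : 0 ≤ A1 := by
    have : 0 < 2 * k * σ₁ + 2 := by linarith
    positivity
  have hA20 : 0 ≤ A2 := by
    have : 0 < -(2 * k * σ₂) := by
      have := mul_neg_of_pos_of_neg (by positivity : (0 : ℝ) < 2 * k) h2
      linarith
    have := c2_nonneg k Λ
    positivity
  have hA30 : 0 ≤ A3 := by
    have := cB_nonneg hp
    positivity
  refine ⟨A1 + A2 + A3, by positivity, fun s hs1 hs2 hsΛ R hR r hr τ hτ0 hτ1 => ?_⟩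
  have hsr1 : -1 / (k : ℝ) < s.re := lt_of_lt_of_le h1 hs1
  have hsr2 : s.re ≤ 0 := hs2.trans h2.le
  have hps : -2 < 2 * k * s.re := by
    rw [div_lt_iff₀ hk'] at hsr1
    linarith
  have hmono : 2 * (k : ℝ) * σ₁ ≤ 2 * k * s.re := by gcongr
  have hmono2 : 2 * (k : ℝ) * s.re ≤ 2 * k * σ₂ := by gcongr
  have hneg2 : 2 * (k : ℝ) * σ₂ < 0 := mul_neg_of_pos_of_neg (by positivity) h2
  obtain ⟨i1, i2⟩ := eta_qd_int hη hk hsr1 hsr2 r
  obtain ⟨b1, b2⟩ := bd_int hk hsr1 hsr2 r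
  by_cases hR2 : R < 1 / 2
  · -- small `R`
    set g : ℂ → ℝ := fun z => (ball 0 (2 * R)).indicator (bd k s.re r) z +
      ((ball 0 (2 * R))ᶜ).indicator (fun z => c2 k Λ * (R ^ 2 * ‖z‖ ^ (2 * k * s.re - 2))) z with hg
    have hlt : ∀ i, IntegrableOn (fun z : ℂ => ‖z - r i‖ ^ (2 * k * s.re)) (ball 0 (2 * R)) ∧
        ∫ z in ball (0 : ℂ) (2 * R), ‖z - r i‖ ^ (2 * k * s.re) ≤
          2 * Real.pi * 9 / (2 * k * σ₁ + 2) * R ^ τ := by
      intro i
      obtain ⟨j1, j2⟩ := shift_int (p := 2 * k * s.re) (ρ := 3 * R) hps (by positivity) (r i)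
      have hsub : ball (0 : ℂ) (2 * R) ⊆ ball (r i) (3 * R) := by
        intro z hz
        rw [mem_ball_zero_iff] at hz
        rw [mem_ball, dist_eq_norm]
        exact (norm_sub_le _ _).trans_lt (by linarith [hr i])
      refine ⟨j1.mono_set hsub, ?_⟩
      refine (setIntegral_mono_set j1 (Eventually.of_forall fun z =>
        Real.rpow_nonneg (norm_nonneg _) _) hsub.eventuallyLE).trans ?_
      rw [j2]
      have h3 : (3 * R) ^ (2 * k * s.re + 2) ≤ 9 * R ^ τ := by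
        rw [Real.mul_rpow (by norm_num) hR.le]
        refine mul_le_mul ?_ ?_ (Real.rpow_nonneg hR.le _) (by norm_num)
        · calc (3 : ℝ) ^ (2 * k * s.re + 2) ≤ 3 ^ (2 : ℝ) :=
                Real.rpow_le_rpow_of_exponent_le (by norm_num) (by linarith)
            _ = 9 := by norm_num
        · exact Real.rpow_le_rpow_of_exponent_ge hR (by linarith) (by linarith)
      have h4 : 0 < 2 * k * σ₁ + 2 := by linarith
      have h5 : 0 < 2 * k * s.re + 2 := by linarith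
      calc 2 * Real.pi * (3 * R) ^ (2 * k * s.re + 2) / (2 * k * s.re + 2) ≤
          2 * Real.pi * (9 * R ^ τ) / (2 * k * s.re + 2) := by gcongr
        _ ≤ 2 * Real.pi * (9 * R ^ τ) / (2 * k * σ₁ + 2) := by gcongr
        _ = _ := by ring
    obtain ⟨o1, o2⟩ := pow_out (p := 2 * k * s.re - 2) (ρ := 2 * R) (by linarith) (by positivity)
    have hgi1 : Integrable ((ball 0 (2 * R)).indicator (bd k s.re r)) := by
      rw [integrable_indicator_iff measurableSet_ball]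
      exact ((integrable_finsetSum _ fun i _ => (hlt i).1).const_mul _).const_mul _
    have hgi2 : Integrable (((ball (0 : ℂ) (2 * R))ᶜ).indicator
        (fun z => c2 k Λ * (R ^ 2 * ‖z‖ ^ (2 * k * s.re - 2)))) := by
      rw [integrable_indicator_iff measurableSet_ball.compl]
      exact (o1.const_mul _).const_mul _
    have hle : ∀ᵐ z : ℂ, ‖(η z : ℂ) * qd k s r z‖ ≤ g z := by
      filter_upwards [ae_ne k r] with z hz
      have hη1 : ‖(η z : ℂ) * qd k s r z‖ ≤ ‖qd k s r z‖ := by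
        rw [norm_mul, Complex.norm_real, Real.norm_eq_abs, abs_of_nonneg (hη.nonneg z)]
        exact mul_le_of_le_one_left (norm_nonneg _) (hη.le_one z)
      refine hη1.trans ?_
      rw [hg]
      simp only
      by_cases hz2 : z ∈ ball (0 : ℂ) (2 * R)
      · rw [Set.indicator_of_mem hz2, Set.indicator_of_notMem (by simpa using hz2), add_zero]
        exact qd_norm1 hk s r z hz
      · rw [Set.indicator_of_notMem hz2, Set.indicator_of_mem (by simpa using hz2), zero_add]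
        refine qd_norm2 hk s hsΛ r hR hr z ?_
        rw [mem_ball_zero_iff, not_lt] at hz2
        exact hz2
    unfold Dk
    refine (norm_integral_le_of_norm_le (hgi1.add hgi2) hle).trans ?_
    rw [integral_add' hgi1 hgi2, integral_indicator measurableSet_ball,
      integral_indicator measurableSet_ball.compl]
    have g1 : ∫ z in ball (0 : ℂ) (2 * R), bd k s.re r z ≤ A1 * R ^ τ := by
      unfold bd
      rw [integral_const_mul, integral_const_mul, integral_finsetSum _ fun i _ => (hlt i).1, hA1,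
        mul_assoc 2 (2 * Real.pi * 9 / (2 * k * σ₁ + 2)) (R ^ τ)]
      refine mul_le_mul_of_nonneg_left ?_ (by norm_num)
      calc 1 / (k : ℝ) * _ ≤ 1 / (k : ℝ) *
            ∑ i : Fin k, 2 * Real.pi * 9 / (2 * k * σ₁ + 2) * R ^ τ := by
            gcongr with i _
            exact (hlt i).2
        _ = _ := by
            rw [Finset.sum_const, Finset.card_univ, Fintype.card_fin, nsmul_eq_mul, one_div,
              inv_mul_cancel_left₀ hk'.ne']
    have g2 : ∫ z in (ball (0 : ℂ) (2 * R))ᶜ, c2 k Λ * (R ^ 2 * ‖z‖ ^ (2 * k * s.re - 2)) ≤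
        A2 * R ^ τ := by
      rw [integral_const_mul, integral_const_mul, o2, hA2, mul_assoc (c2 k Λ)]
      refine mul_le_mul_of_nonneg_left ?_ (c2_nonneg k Λ)
      have h6 : 2 * k * s.re - 2 + 2 = 2 * k * s.re := by ring
      rw [h6]
      have h7 : 0 < -(2 * k * σ₂) := by linarith
      have h8 : 0 < -(2 * k * s.re) := by linarith
      have h9 : (2 * R) ^ (2 * k * s.re) ≤ R ^ (2 * k * s.re) := by
        rw [Real.mul_rpow (by norm_num) hR.le]
        refine mul_le_of_le_one_left (Real.rpow_nonneg hR.le _) ?_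
        exact Real.rpow_le_one_of_one_le_of_nonpos (by norm_num) (by linarith)
      have h10 : R ^ 2 * R ^ (2 * k * s.re) ≤ R ^ τ := by
        have : R ^ 2 * R ^ (2 * k * s.re) = R ^ (2 + 2 * k * s.re) := by
          rw [Real.rpow_add hR]
          norm_num
        rw [this]
        exact Real.rpow_le_rpow_of_exponent_ge hR (by linarith) (by linarith)
      calc R ^ 2 * (2 * Real.pi * (2 * R) ^ (2 * k * s.re) / -(2 * k * s.re)) ≤
          R ^ 2 * (2 * Real.pi * R ^ (2 * k * s.re) / -(2 * k * σ₂)) := by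
            gcongr
        _ = (2 * Real.pi / -(2 * k * σ₂)) * (R ^ 2 * R ^ (2 * k * s.re)) := by ring
        _ ≤ _ := by gcongr
    have hR0 : 0 ≤ R ^ τ := Real.rpow_nonneg hR.le _
    have : 0 ≤ A3 * R ^ τ := by positivity
    calc _ ≤ A1 * R ^ τ + A2 * R ^ τ := add_le_add g1 g2
      _ ≤ _ := by nlinarith
  · -- large `R`
    push Not at hR2
    have h3 : ‖Dk η k s r‖ ≤ 2 * cB (2 * k * σ₁) := by
      unfold Dk
      refine (norm_integral_le_of_norm_le (b1.integrable_indicator measurableSet_ball) i2).trans ?_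
      rw [integral_indicator measurableSet_ball]
      refine b2.trans ?_
      have := cB_anti hp hmono
      linarith
    have h4 : (1 : ℝ) / 4 ≤ R ^ τ := by
      have hτ2 : τ ≤ 2 := by
        have : 2 * (k : ℝ) * σ₁ < 0 := lt_of_le_of_lt (hmono.trans hmono2) hneg2
        linarith
      calc (1 : ℝ) / 4 = (1 / 2) ^ (2 : ℝ) := by norm_num
        _ ≤ (1 / 2) ^ τ := Real.rpow_le_rpow_of_exponent_ge (by norm_num) (by norm_num) hτ2
        _ ≤ R ^ τ := Real.rpow_le_rpow (by norm_num) hR2 hτ0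
    have h5 : 0 ≤ cB (2 * k * σ₁) := cB_nonneg hp
    calc ‖Dk η k s r‖ ≤ 2 * cB (2 * k * σ₁) := h3
      _ = A3 * (1 / 4) := by rw [hA3]; ring
      _ ≤ A3 * R ^ τ := by gcongr
      _ ≤ _ := by
        have : 0 ≤ R ^ τ := Real.rpow_nonneg hR.le _
        nlinarith [mul_nonneg hA10 this, mul_nonneg hA20 this]

end Pool.Agent.H74C
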