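import Pool.Agent.H74A.Fib2
import Pool.Agent.H74A.Hol

set_option autoImplicit false
set_option linter.unusedSectionVars false
set_option linter.unusedVariables false

/-! # The potentials -/

namespace Pool.Agent.H74C

open MeasureTheory Filter Topology Complex Metric
open Pool.Agent.H74A (hol_int)

/-- the potential -/
noncomputable def Pk (η : ℂ → ℝ) (k : ℕ) (s : ℂ) (r : ℂ) : ℂ := ∫ z, (η z : ℂ) * (‖z - r‖ : ℂ) ^ (2 * k * s)

theorem ae_ne1 (r : ℂ) : ∀ᵐ z : ℂ, z ≠ r := by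
  have : (volume : Measure ℂ) {r} = 0 := measure_singleton _
  exact compl_mem_ae_iff.2 this

theorem pwr_le {x p q : ℝ} (hx : 0 < x) (hpq : p ≤ q) (hq : q ≤ 0) : x ^ q ≤ x ^ p + 1 := by
  by_cases h : x ≤ 1
  · have := Real.rpow_le_rpow_of_exponent_ge hx h hpq
    linarith
  · push Not at h
    have h1 := Real.rpow_le_one_of_one_le_of_nonpos h.le hq
    have h2 := Real.rpow_nonneg hx.le p
    linarith

theorem ball_fin (ρ : ℝ) : (volume : Measure ℂ) (ball 0 ρ) ≠ ⊤ := by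
  rw [Complex.volume_ball]
  exact (ENNReal.mul_lt_top (ENNReal.pow_lt_top ENNReal.ofReal_lt_top) ENNReal.coe_lt_top).ne

theorem Pk_int {η : ℂ → ℝ} (hη : Cut η) {k : ℕ} (hk : 0 < k) {s : ℂ} {σ₁ : ℝ}
    (h0 : -1 / (k : ℝ) < σ₁) (h1 : σ₁ ≤ s.re) (h2 : s.re ≤ 0) (r : ℂ) :
    Integrable (fun z => (η z : ℂ) * (‖z - r‖ : ℂ) ^ (2 * k * s)) ∧
      (∀ᵐ z : ℂ, ‖(η z : ℂ) * (‖z - r‖ : ℂ) ^ (2 * k * s)‖ ≤
        (ball 0 1).indicator (fun z => ‖z - r‖ ^ (2 * k * s.re)) z) ∧
      (∀ᵐ z : ℂ, ‖(η z : ℂ) * (‖z - r‖ : ℂ) ^ (2 * k * s)‖ ≤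
        (ball 0 1).indicator (fun z => ‖z - r‖ ^ (2 * k * σ₁) + 1) z) ∧
      Integrable ((ball 0 1).indicator (fun z : ℂ => ‖z - r‖ ^ (2 * k * σ₁) + 1)) ∧
      ‖Pk η k s r‖ ≤ cB (2 * k * σ₁) := by
  have hk' : (0 : ℝ) < k := by exact_mod_cast hk
  have hp : -2 < 2 * k * σ₁ := by
    rw [div_lt_iff₀ hk'] at h0
    linarith
  have hmono : 2 * (k : ℝ) * σ₁ ≤ 2 * k * s.re := by gcongr
  have hp' : -2 < 2 * k * s.re := lt_of_lt_of_le hp hmono
  have hp0 : 2 * (k : ℝ) * s.re ≤ 0 := mul_nonpos_of_nonneg_of_nonpos (by positivity) h2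
  have hb : ∀ᵐ z : ℂ, ‖(η z : ℂ) * (‖z - r‖ : ℂ) ^ (2 * k * s)‖ ≤
      (ball 0 1).indicator (fun z => ‖z - r‖ ^ (2 * k * s.re)) z := by
    filter_upwards [ae_ne1 r] with z hz
    by_cases hz1 : z ∈ ball (0 : ℂ) 1
    · rw [Set.indicator_of_mem hz1, norm_mul, Complex.norm_real, Real.norm_eq_abs,
        abs_of_nonneg (hη.nonneg z), cpn (norm_pos_iff.2 (sub_ne_zero.2 hz)), re_mul2k]
      exact mul_le_of_le_one_left (Real.rpow_nonneg (norm_nonneg _) _) (hη.le_one z)
    · rw [Set.indicator_of_notMem hz1, hη.zero z (by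
        rw [mem_ball_zero_iff, not_lt] at hz1; exact hz1)]
      simp
  have hi := int_shift hp' hp0 r
  have hi1 := int_shift hp (hmono.trans hp0) r
  have hm : AEStronglyMeasurable (fun z => (η z : ℂ) * (‖z - r‖ : ℂ) ^ (2 * k * s)) := by
    have h3 := (Complex.measurable_ofReal.comp hη.cont.measurable)
    exact (h3.mul (by fun_prop)).aestronglyMeasurable
  have hI := (hi.1.integrable_indicator measurableSet_ball).mono' hm hb
  refine ⟨hI, hb, ?_, ?_, ?_⟩
  · filter_upwards [hb, ae_ne1 r] with z hz hz2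
    refine hz.trans ?_
    by_cases hz1 : z ∈ ball (0 : ℂ) 1
    · rw [Set.indicator_of_mem hz1, Set.indicator_of_mem hz1]
      exact pwr_le (norm_pos_iff.2 (sub_ne_zero.2 hz2)) hmono hp0
    · rw [Set.indicator_of_notMem hz1, Set.indicator_of_notMem hz1]
  · rw [integrable_indicator_iff measurableSet_ball]
    exact hi1.1.add (integrableOn_const (ball_fin 1))
  · unfold Pk
    refine (norm_integral_le_of_norm_le (hi.1.integrable_indicator measurableSet_ball) hb).trans ?_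
    rw [integral_indicator measurableSet_ball]
    exact hi.2.trans (cB_anti hp hmono)

theorem strip_open (a b : ℝ) : IsOpen {s : ℂ | a < s.re ∧ s.re < b} :=
  (isOpen_lt continuous_const Complex.continuous_re).inter
    (isOpen_lt Complex.continuous_re continuous_const)

theorem strip_ball {a b : ℝ} {s : ℂ} (hs : s ∈ {s : ℂ | a < s.re ∧ s.re < b}) :
    ∃ ε > 0, ball s ε ⊆ {s : ℂ | a < s.re ∧ s.re < b} ∧ ∃ σ₁ σ₂ : ℝ, a < σ₁ ∧ σ₁ ≤ σ₂ ∧ σ₂ < b ∧
      ∀ s' ∈ ball s ε, σ₁ ≤ s'.re ∧ s'.re ≤ σ₂ ∧ ‖s'‖ ≤ ‖s‖ + ε := by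
  obtain ⟨h1, h2⟩ := hs
  set ε : ℝ := min (s.re - a) (b - s.re) / 2 with hε
  have hm : 0 < min (s.re - a) (b - s.re) := lt_min (by linarith) (by linarith)
  have hε0 : 0 < ε := by rw [hε]; linarith
  have e1 : ε ≤ (s.re - a) / 2 := by
    rw [hε]; linarith [min_le_left (s.re - a) (b - s.re)]
  have e2 : ε ≤ (b - s.re) / 2 := by
    rw [hε]; linarith [min_le_right (s.re - a) (b - s.re)]
  have key : ∀ s' ∈ ball s ε, s.re - ε ≤ s'.re ∧ s'.re ≤ s.re + ε ∧ ‖s'‖ ≤ ‖s‖ + ε := by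
    intro z hz
    rw [mem_ball, Complex.dist_eq] at hz
    have h3 := abs_le.1 (Complex.abs_re_le_norm (z - s))
    rw [Complex.sub_re] at h3
    refine ⟨by linarith [h3.1], by linarith [h3.2], ?_⟩
    have := norm_add_le s (z - s)
    rw [add_sub_cancel] at this
    linarith
  refine ⟨ε, hε0, ?_, s.re - ε, s.re + ε, by linarith, by linarith, by linarith, key⟩
  intro z hz
  obtain ⟨h3, h4, -⟩ := key z hz
  exact ⟨by linarith, by linarith⟩

theorem Pk_hol {η : ℂ → ℝ} (hη : Cut η) {k : ℕ} (hk : 0 < k) (r : ℂ) :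
    DifferentiableOn ℂ (fun s => Pk η k s r) {s : ℂ | -1 / (k : ℝ) < s.re ∧ s.re < 0} := by
  refine hol_int (strip_open _ _) _ ?_ ?_ ?_
  · filter_upwards [ae_ne1 r] with z hz
    have h0 : ((‖z - r‖ : ℝ) : ℂ) ≠ 0 :=
      Complex.ofReal_ne_zero.2 (norm_pos_iff.2 (sub_ne_zero.2 hz)).ne'
    intro s _
    refine DifferentiableAt.differentiableWithinAt ?_
    exact ((differentiableAt_id.const_mul _).const_cpow (Or.inl h0)).const_mul _
  · intro s hs
    exact (Pk_int hη hk hs.1 le_rfl hs.2.le r).1.aestronglyMeasurable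
  · intro s hs
    obtain ⟨ε, hε, hsub, σ₁, σ₂, h1, h2, h3, h4⟩ := strip_ball hs
    refine ⟨ε, hε, hsub, _, (Pk_int hη hk (s := (σ₁ : ℂ)) h1 (by simp)
      (by rw [Complex.ofReal_re]; linarith) r).2.2.2.1, ?_⟩
    have hk' : (0 : ℝ) < k := by exact_mod_cast hk
    filter_upwards [ae_ne1 r] with z hz s' hs'
    obtain ⟨a1, a2, -⟩ := h4 s' hs'
    by_cases hz1 : z ∈ ball (0 : ℂ) 1
    · rw [Set.indicator_of_mem hz1, norm_mul, Complex.norm_real, Real.norm_eq_abs,
        abs_of_nonneg (hη.nonneg z), cpn (norm_pos_iff.2 (sub_ne_zero.2 hz)), re_mul2k]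
      refine (mul_le_of_le_one_left (Real.rpow_nonneg (norm_nonneg _) _) (hη.le_one z)).trans ?_
      refine pwr_le (norm_pos_iff.2 (sub_ne_zero.2 hz)) (by gcongr) ?_
      exact mul_nonpos_of_nonneg_of_nonpos (by positivity) (by linarith)
    · rw [Set.indicator_of_notMem hz1, hη.zero z (by
        rw [mem_ball_zero_iff, not_lt] at hz1; exact hz1)]
      simp

theorem Dk_hol {η : ℂ → ℝ} (hη : Cut η) {k : ℕ} (hk : 0 < k) (r : Fin k → ℂ) :
    DifferentiableOn ℂ (fun s => Dk η k s r) {s : ℂ | -1 / (k : ℝ) < s.re ∧ s.re < 0} := by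
  have hk' : (0 : ℝ) < k := by exact_mod_cast hk
  refine hol_int (strip_open _ _) _ ?_ ?_ ?_
  · filter_upwards [ae_ne k r] with z hz
    have h0 : ∀ i, ((‖z - r i‖ : ℝ) : ℂ) ≠ 0 := fun i =>
      Complex.ofReal_ne_zero.2 (norm_pos_iff.2 (sub_ne_zero.2 (hz i))).ne'
    intro s _
    refine DifferentiableAt.differentiableWithinAt ?_
    unfold qd
    refine DifferentiableAt.const_mul (DifferentiableAt.sub ?_ ?_) _
    · refine DifferentiableAt.const_mul (DifferentiableAt.fun_sum fun i _ => ?_) _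
      exact ((differentiableAt_id.const_mul _).const_cpow (Or.inl (h0 i)))
    · refine DifferentiableAt.fun_finsetProd fun i _ => ?_
      exact ((differentiableAt_id.const_mul _).const_cpow (Or.inl (h0 i)))
  · intro s hs
    exact (eta_qd_int hη hk hs.1 hs.2.le r).1.aestronglyMeasurable
  · intro s hs
    obtain ⟨ε, hε, hsub, σ₁, σ₂, h1, h2, h3, h4⟩ := strip_ball hs
    refine ⟨ε, hε, hsub, (ball 0 1).indicator (fun z => 2 * ((1 / (k : ℝ)) *
      ∑ i, (‖z - r i‖ ^ (2 * k * σ₁) + 1))), ?_, ?_⟩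
    · rw [integrable_indicator_iff measurableSet_ball]
      refine ((integrable_finsetSum _ fun i _ => ?_).const_mul _).const_mul _
      have := (Pk_int hη hk (s := (σ₁ : ℂ)) h1 (by simp)
        (by rw [Complex.ofReal_re]; linarith) (r i)).2.2.2.1
      rwa [integrable_indicator_iff measurableSet_ball] at this
    · filter_upwards [ae_ne k r] with z hz s' hs'
      obtain ⟨a1, a2, -⟩ := h4 s' hs'
      by_cases hz1 : z ∈ ball (0 : ℂ) 1
      · rw [Set.indicator_of_mem hz1, norm_mul, Complex.norm_real, Real.norm_eq_abs,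
          abs_of_nonneg (hη.nonneg z)]
        refine (mul_le_of_le_one_left (norm_nonneg _) (hη.le_one z)).trans ?_
        refine (qd_norm1 hk s' r z hz).trans ?_
        unfold bd
        gcongr with i _
        refine pwr_le (norm_pos_iff.2 (sub_ne_zero.2 (hz i))) (by gcongr) ?_
        exact mul_nonpos_of_nonneg_of_nonpos (by positivity) (by linarith)
      · rw [Set.indicator_of_notMem hz1, hη.zero z (by
          rw [mem_ball_zero_iff, not_lt] at hz1; exact hz1)]
        simp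

/-- continuity of the potential -/
theorem Pk_cont {η : ℂ → ℝ} (hη : Cut η) {k : ℕ} (hk : 0 < k) {s : ℂ}
    (h1 : -1 / (k : ℝ) < s.re) (h2 : s.re ≤ 0) : Continuous fun r => Pk η k s r := by
  have hk' : (0 : ℝ) < k := by exact_mod_cast hk
  have hp : -2 < 2 * k * s.re := by
    rw [div_lt_iff₀ hk'] at h1
    linarith
  have e1 : ∀ r, Pk η k s r = ∫ w, (η (w + r) : ℂ) * (‖w‖ : ℂ) ^ (2 * k * s) := by
    intro r
    unfold Pk
    rw [← integral_add_right_eq_self (fun z => (η z : ℂ) * (‖z - r‖ : ℂ) ^ (2 * k * s)) r]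
    simp
  simp only [e1]
  rw [continuous_iff_continuousAt]
  intro r₀
  refine continuousAt_of_dominated (bound := fun w => (ball (0 : ℂ) (‖r₀‖ + 2)).indicator
    (fun w => ‖w‖ ^ (2 * k * s.re)) w) ?_ ?_ ?_ ?_
  · filter_upwards with r
    have h3 := (Complex.measurable_ofReal.comp (hη.cont.comp
      (continuous_add_right r)).measurable)
    exact (h3.mul (by fun_prop)).aestronglyMeasurable
  · filter_upwards [ball_mem_nhds r₀ zero_lt_one] with r hr
    filter_upwards [ae_ne1 0] with w hw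
    rw [mem_ball, dist_eq_norm] at hr
    by_cases hw1 : w ∈ ball (0 : ℂ) (‖r₀‖ + 2)
    · rw [Set.indicator_of_mem hw1, norm_mul, Complex.norm_real, Real.norm_eq_abs,
        abs_of_nonneg (hη.nonneg _), cpn (norm_pos_iff.2 hw), re_mul2k]
      exact mul_le_of_le_one_left (Real.rpow_nonneg (norm_nonneg _) _) (hη.le_one _)
    · rw [Set.indicator_of_notMem hw1, hη.zero (w + r)]
      · simp
      · rw [mem_ball_zero_iff, not_lt] at hw1
        have h4 : ‖w‖ ≤ ‖w + r‖ + ‖r‖ := by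
          have := norm_sub_le (w + r) r
          rwa [add_sub_cancel_right] at this
        have h5 : ‖r‖ ≤ ‖r₀‖ + 1 := by
          have := norm_add_le (r - r₀) r₀
          rw [sub_add_cancel] at this
          linarith
        linarith
  · exact (pow_ball hp (by positivity)).1.integrable_indicator measurableSet_ball
  · filter_upwards with w
    have h3 : Continuous fun r => (η (w + r) : ℂ) :=
      Complex.continuous_ofReal.comp (hη.cont.comp (continuous_const.add continuous_id))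
    exact (h3.mul continuous_const).continuousAt

/-- smooth cut off functions -/
structure SCut (η : ℂ → ℝ) : Prop extends Cut η where
  smooth : ContDiff ℝ ((⊤ : ℕ∞) : WithTop ℕ∞) η
  even : ∀ z, η (-z) = η z
  one : ∀ z, ‖z‖ ≤ 1 / 2 → η z = 1

theorem exists_scut : ∃ η : ℂ → ℝ, SCut η := by
  set b : ContDiffBump (0 : ℂ) := ⟨1 / 2, 1, by norm_num, by norm_num⟩ with hb
  refine ⟨b, ?_⟩
  refine ⟨⟨b.continuous, fun z => ContDiffBump.nonneg b, fun z => ContDiffBump.le_one b, ?_⟩,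
    b.contDiff, fun z => ContDiffBump.neg b z, ?_⟩
  · intro z hz
    refine b.zero_of_le_dist ?_
    rw [dist_zero_right]
    exact hz
  · intro z hz
    refine b.one_of_mem_closedBall ?_
    rw [mem_closedBall, dist_zero_right]
    exact hz

theorem Cut.supp {η : ℂ → ℝ} (hη : Cut η) : HasCompactSupport η := by
  refine HasCompactSupport.intro (isCompact_closedBall (0 : ℂ) 1) fun z hz => hη.zero z ?_
  rw [mem_closedBall, dist_zero_right, not_le] at hz
  exact hz.le

theorem second_diff {η : ℂ → ℝ} (hη : SCut η) : ∃ L : ℝ, 0 ≤ L ∧ ∀ w r : ℂ,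
    |η (w + r) + η (w - r) - 2 * η w| ≤ L * ‖r‖ ^ 2 := by
  have h1 : ContDiff ℝ 1 (fderiv ℝ η) := hη.smooth.fderiv_right (by norm_cast)
  have h2 : HasCompactSupport (fderiv ℝ η) := hη.toCut.supp.fderiv ℝ
  obtain ⟨Cc, hC⟩ := h1.lipschitzWith_of_hasCompactSupport h2 (by norm_num)
  refine ⟨2 * Cc, by positivity, fun w r => ?_⟩
  set h : ℝ → ℝ := fun t => η (w + t • r) + η (w - t • r) with hh
  have hd : Differentiable ℝ η := hη.smooth.differentiable (by simp)
  have hder : ∀ t : ℝ, HasDerivAt h (fderiv ℝ η (w + t • r) r - fderiv ℝ η (w - t • r) r) t := by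
    intro t
    have a1 : HasDerivAt (fun t : ℝ => w + t • r) r t := by
      simpa using ((hasDerivAt_id t).smul_const r).const_add w
    have a2 : HasDerivAt (fun t : ℝ => w - t • r) (-r) t := by
      simpa using ((hasDerivAt_id t).smul_const r).const_sub w
    have b1 := (hd (w + t • r)).hasFDerivAt.comp_hasDerivAt t a1
    have b2 := (hd (w - t • r)).hasFDerivAt.comp_hasDerivAt t a2
    have b3 := b1.add b2
    refine b3.congr_deriv ?_
    rw [map_neg]
    ring
  have hbound : ∀ t ∈ Set.Ico (0 : ℝ) 1, ‖deriv h t‖ ≤ 2 * Cc * ‖r‖ ^ 2 := by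
    intro t ht
    rw [(hder t).deriv, ← ContinuousLinearMap.sub_apply]
    refine (ContinuousLinearMap.le_opNorm _ _).trans ?_
    have h3 := hC.dist_le_mul (w + t • r) (w - t • r)
    rw [dist_eq_norm, dist_eq_norm] at h3
    have h4 : w + t • r - (w - t • r) = (2 * t) • r := by
      rw [two_mul, add_smul]; abel
    rw [h4, norm_smul, Real.norm_eq_abs, abs_of_nonneg (by linarith [ht.1])] at h3
    calc _ ≤ (Cc * (2 * t * ‖r‖)) * ‖r‖ := mul_le_mul_of_nonneg_right h3 (norm_nonneg _)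
      _ ≤ (Cc * (2 * 1 * ‖r‖)) * ‖r‖ := by
          have := ht.2.le
          gcongr
      _ = _ := by ring
  have hdh : DifferentiableOn ℝ h (Set.Icc 0 1) := fun t _ =>
    (hder t).differentiableAt.differentiableWithinAt
  have h5 := norm_image_sub_le_of_norm_deriv_le_segment_01' (f := h) (C := 2 * Cc * ‖r‖ ^ 2)
    (f' := fun t => deriv h t) (fun t _ => ((hder t).differentiableAt.hasDerivAt).hasDerivWithinAt)
    hbound
  rw [hh] at h5
  simp only [one_smul, zero_smul, add_zero, sub_zero] at h5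
  rw [Real.norm_eq_abs] at h5
  have h6 : η (w + r) + η (w - r) - 2 * η w = η (w + r) + η (w - r) - (η w + η w) := by ring
  rw [h6]
  exact h5

/-- **The estimate of the potential.** -/
theorem Pk_bound {η : ℂ → ℝ} (hη : SCut η) {k : ℕ} (hk : 0 < k) {σ₁ : ℝ}
    (h0 : -1 / (k : ℝ) < σ₁) : ∃ C : ℝ, 0 ≤ C ∧ ∀ s : ℂ, σ₁ ≤ s.re → s.re ≤ 0 →
      ∀ r : ℂ, ∀ R : ℝ, ‖r‖ ≤ R → ∀ τ : ℝ, 0 ≤ τ → τ ≤ 2 →
      ‖Pk η k s r - Pk η k s 0‖ ≤ C * R ^ τ := by
  have hk' : (0 : ℝ) < k := by exact_mod_cast hk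
  have hp : -2 < 2 * k * σ₁ := by
    rw [div_lt_iff₀ hk'] at h0
    linarith
  obtain ⟨L, hL0, hL⟩ := second_diff hη
  have hπ := Real.pi_pos
  set C1 : ℝ := 2 * cB (2 * k * σ₁) with hC1
  set C2 : ℝ := L * (2 * Real.pi * 4 / (2 * k * σ₁ + 2)) with hC2
  have hC10 : 0 ≤ C1 := by
    have := cB_nonneg hp
    positivity
  have hC20 : 0 ≤ C2 := by
    have : 0 < 2 * k * σ₁ + 2 := by linarith
    positivity
  refine ⟨C1 + C2, by positivity, fun s hs1 hs2 r R hrR τ hτ0 hτ2 => ?_⟩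
  have hR0 : 0 ≤ R := (norm_nonneg _).trans hrR
  have hmono : 2 * (k : ℝ) * σ₁ ≤ 2 * k * s.re := by gcongr
  have hp' : -2 < 2 * k * s.re := lt_of_lt_of_le hp hmono
  have hp0 : 2 * (k : ℝ) * s.re ≤ 0 := mul_nonpos_of_nonneg_of_nonpos (by positivity) hs2
  by_cases hr1 : ‖r‖ ≤ 1
  · have e1 : ∀ r, Pk η k s r = ∫ w, (η (w + r) : ℂ) * (‖w‖ : ℂ) ^ (2 * k * s) := by
      intro r
      unfold Pk
      rw [← integral_add_right_eq_self (fun z => (η z : ℂ) * (‖z - r‖ : ℂ) ^ (2 * k * s)) r]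
      simp
    have e2 : ∀ r, Pk η k s r = ∫ w, (η (w - r) : ℂ) * (‖w‖ : ℂ) ^ (2 * k * s) := by
      intro r
      rw [e1, ← integral_neg_eq_self (fun w => (η (w + r) : ℂ) * (‖w‖ : ℂ) ^ (2 * k * s))]
      refine integral_congr_ae (Eventually.of_forall fun w => ?_)
      simp only
      rw [norm_neg, show -w + r = -(w - r) by ring, hη.even]
    have i1 : ∀ r, Integrable (fun w => (η (w + r) : ℂ) * (‖w‖ : ℂ) ^ (2 * k * s)) := by
      intro r
      have := (Pk_int hη.toCut hk h0 hs1 hs2 r).1.comp_add_right r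
      refine this.congr (Eventually.of_forall fun w => ?_)
      simp
    have e3 : 2 * (Pk η k s r - Pk η k s 0) =
        ∫ w, ((η (w + r) + η (w - r) - 2 * η w : ℝ) : ℂ) * (‖w‖ : ℂ) ^ (2 * k * s) := by
      have f1 := e1 r
      have f2 := e2 r
      have f3 := e1 0
      have i2 : Integrable (fun w => (η (w - r) : ℂ) * (‖w‖ : ℂ) ^ (2 * k * s)) := by
        have := i1 (-r)
        simpa [sub_eq_add_neg] using this
      have i3 := i1 0
      have f4 : 2 * (Pk η k s r - Pk η k s 0) = Pk η k s r + Pk η k s r - 2 * Pk η k s 0 := by ring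
      rw [f4]
      nth_rw 1 [f1]
      nth_rw 1 [f2]
      have i4 : Integrable (fun w => (η (w + r) : ℂ) * (‖w‖ : ℂ) ^ (2 * k * s) +
          (η (w - r) : ℂ) * (‖w‖ : ℂ) ^ (2 * k * s)) := (i1 r).add i2
      rw [f3, ← integral_add (i1 r) i2, ← integral_const_mul,
        ← integral_sub i4 (i3.const_mul 2)]
      refine integral_congr_ae (Eventually.of_forall fun w => ?_)
      simp only [add_zero]
      push_cast
      ring
    have hb : ∀ᵐ w : ℂ, ‖((η (w + r) + η (w - r) - 2 * η w : ℝ) : ℂ) *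
        (‖w‖ : ℂ) ^ (2 * k * s)‖ ≤ (ball 0 2).indicator
          (fun w => L * ‖r‖ ^ 2 * ‖w‖ ^ (2 * k * s.re)) w := by
      filter_upwards [ae_ne1 0] with w hw
      by_cases hw1 : w ∈ ball (0 : ℂ) 2
      · rw [Set.indicator_of_mem hw1, norm_mul, Complex.norm_real, Real.norm_eq_abs,
          cpn (norm_pos_iff.2 hw), re_mul2k]
        exact mul_le_mul_of_nonneg_right (hL w r) (Real.rpow_nonneg (norm_nonneg _) _)
      · rw [mem_ball_zero_iff, not_lt] at hw1
        have g1 : η (w + r) = 0 := hη.zero _ (by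
          have := norm_sub_le (w + r) r
          rw [add_sub_cancel_right] at this
          linarith)
        have g2 : η (w - r) = 0 := hη.zero _ (by
          have := norm_add_le (w - r) r
          rw [sub_add_cancel] at this
          linarith)
        have g3 : η w = 0 := hη.zero _ (by linarith)
        rw [Set.indicator_of_notMem (by rw [mem_ball_zero_iff, not_lt]; exact hw1), g1, g2, g3]
        simp
    obtain ⟨j1, j2⟩ := pow_ball (p := 2 * k * s.re) (ρ := 2) hp' (by norm_num)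
    have h7 : ‖2 * (Pk η k s r - Pk η k s 0)‖ ≤ C2 * ‖r‖ ^ 2 := by
      rw [e3]
      have j3 : IntegrableOn (fun w : ℂ => L * ‖r‖ ^ 2 * ‖w‖ ^ (2 * k * s.re)) (ball 0 2) :=
        j1.const_mul (L * ‖r‖ ^ 2)
      refine (norm_integral_le_of_norm_le (j3.integrable_indicator
        measurableSet_ball) hb).trans ?_
      rw [integral_indicator measurableSet_ball, integral_const_mul, j2, hC2]
      have h8 : (2 : ℝ) ^ (2 * k * s.re + 2) ≤ 4 := by
        calc (2 : ℝ) ^ (2 * k * s.re + 2) ≤ 2 ^ (2 : ℝ) :=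
              Real.rpow_le_rpow_of_exponent_le (by norm_num) (by linarith)
          _ = 4 := by norm_num
      have h4 : 0 < 2 * k * σ₁ + 2 := by linarith
      have h5 : 0 < 2 * k * s.re + 2 := by linarith
      calc L * ‖r‖ ^ 2 * (2 * Real.pi * 2 ^ (2 * k * s.re + 2) / (2 * k * s.re + 2)) ≤
          L * ‖r‖ ^ 2 * (2 * Real.pi * 4 / (2 * k * s.re + 2)) := by gcongr
        _ ≤ L * ‖r‖ ^ 2 * (2 * Real.pi * 4 / (2 * k * σ₁ + 2)) := by gcongr
        _ = _ := by ring
    rw [norm_mul] at h7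
    have h8 : ‖(2 : ℂ)‖ = 2 := by simp
    rw [h8] at h7
    have h9 : ‖Pk η k s r - Pk η k s 0‖ ≤ C2 * ‖r‖ ^ 2 := by
      have := norm_nonneg (Pk η k s r - Pk η k s 0)
      linarith
    refine h9.trans ?_
    have h10 : ‖r‖ ^ 2 ≤ R ^ τ := by
      by_cases hr0 : ‖r‖ = 0
      · rw [hr0]
        have := Real.rpow_nonneg hR0 τ
        simpa using this
      · have hrp : 0 < ‖r‖ := lt_of_le_of_ne (norm_nonneg _) (Ne.symm hr0)
        calc ‖r‖ ^ 2 = ‖r‖ ^ (2 : ℝ) := by norm_num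
          _ ≤ ‖r‖ ^ τ := Real.rpow_le_rpow_of_exponent_ge hrp hr1 hτ2
          _ ≤ R ^ τ := Real.rpow_le_rpow (norm_nonneg _) hrR hτ0
    have := Real.rpow_nonneg hR0 τ
    nlinarith [mul_nonneg hC10 this]
  · push Not at hr1
    have h3 := (Pk_int hη.toCut hk h0 hs1 hs2 r).2.2.2.2
    have h4 := (Pk_int hη.toCut hk h0 hs1 hs2 0).2.2.2.2
    have h5 : 1 ≤ R ^ τ := Real.one_le_rpow (by linarith) hτ0
    calc ‖Pk η k s r - Pk η k s 0‖ ≤ C1 := by
          refine (norm_sub_le _ _).trans ?_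
          rw [hC1]
          linarith
      _ ≤ C1 * R ^ τ := le_mul_of_one_le_right hC10 h5
      _ ≤ _ := by nlinarith [mul_nonneg hC20 (by linarith : (0 : ℝ) ≤ R ^ τ)]

end Pool.Agent.H74C
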