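import Pool.Agent.H74A.Fib3

set_option autoImplicit false
set_option linter.unusedSectionVars false
set_option linter.unusedVariables false

/-! # The function `H` of the zeros -/

namespace Pool.Agent.H74C

open MeasureTheory Filter Topology Complex Metric
open Pool.Agent.H74A (hol_int)

/-- radially decreasing smooth cut off functions -/
structure RCut (η : ℂ → ℝ) : Prop extends SCut η where
  anti : ∀ z w, ‖z‖ ≤ ‖w‖ → η w ≤ η z
  zero' : ∀ z, 3 / 4 ≤ ‖z‖ → η z = 0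

theorem exists_rcut : ∃ η : ℂ → ℝ, RCut η := by
  set η : ℂ → ℝ := fun z => Real.smoothTransition ((9 - 16 * ‖z‖ ^ 2) / 5) with hη
  have hsm : ContDiff ℝ ((⊤ : ℕ∞) : WithTop ℕ∞) η := by
    have h1 : ContDiff ℝ ((⊤ : ℕ∞) : WithTop ℕ∞) fun z : ℂ => (9 - 16 * ‖z‖ ^ 2) / 5 :=
      (contDiff_const.sub (contDiff_const.mul (contDiff_norm_sq ℝ))).div_const _
    exact (Real.smoothTransition.contDiff (n := ⊤)).comp h1
  have hz : ∀ z : ℂ, 3 / 4 ≤ ‖z‖ → η z = 0 := by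
    intro z hz
    refine Real.smoothTransition.zero_of_nonpos ?_
    have : (3 / 4 : ℝ) ^ 2 ≤ ‖z‖ ^ 2 := by gcongr
    have h2 : (3 / 4 : ℝ) ^ 2 = 9 / 16 := by norm_num
    rw [h2] at this
    apply div_nonpos_of_nonpos_of_nonneg <;> linarith
  refine ⟨η, ⟨⟨⟨hsm.continuous, fun z => Real.smoothTransition.nonneg _,
    fun z => Real.smoothTransition.le_one _, fun z h => hz z (by linarith)⟩, hsm,
    fun z => by simp only [hη, norm_neg], ?_⟩, ?_, hz⟩⟩
  · intro z hz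
    refine Real.smoothTransition.one_of_one_le ?_
    have : ‖z‖ ^ 2 ≤ (1 / 2 : ℝ) ^ 2 := by gcongr
    have h2 : (1 / 2 : ℝ) ^ 2 = 1 / 4 := by norm_num
    rw [h2] at this
    rw [le_div_iff₀ (by norm_num)]
    linarith
  · intro z w hzw
    refine Real.smoothTransition.monotone ?_
    have : ‖z‖ ^ 2 ≤ ‖w‖ ^ 2 := by gcongr
    apply div_le_div_of_nonneg_right _ (by norm_num)
    linarith

/-- The correlation inequality. -/
theorem corr {η : ℂ → ℝ} (hη : RCut η) {p : ℝ} (hp : -2 < p) (hp0 : p ≤ 0) (r : ℂ) :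
    ∫ z, η z * ‖z - r‖ ^ p ≤ ∫ z, η z * ‖z - 0‖ ^ p := by
  have hint : ∀ r : ℂ, Integrable fun z => η z * ‖z - r‖ ^ p := by
    intro r
    refine ((int_shift hp hp0 r).1.integrable_indicator measurableSet_ball).mono' ?_ ?_
    · exact (hη.cont.measurable.mul (by fun_prop)).aestronglyMeasurable
    · filter_upwards with z
      by_cases hz1 : z ∈ ball (0 : ℂ) 1
      · rw [Set.indicator_of_mem hz1, norm_mul, Real.norm_eq_abs, abs_of_nonneg (hη.nonneg z),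
          Real.norm_eq_abs, abs_of_nonneg (Real.rpow_nonneg (norm_nonneg _) _)]
        exact mul_le_of_le_one_left (Real.rpow_nonneg (norm_nonneg _) _) (hη.le_one z)
      · rw [Set.indicator_of_notMem hz1, hη.zero z (by
          rw [mem_ball_zero_iff, not_lt] at hz1; exact hz1)]
        simp
  have e3 : ∫ z, η (z - r) * ‖z - r‖ ^ p = ∫ z, η z * ‖z - 0‖ ^ p := by
    rw [integral_sub_right_eq_self (fun z => η z * ‖z‖ ^ p) r]
    simp
  have i3 : Integrable fun z => η (z - r) * ‖z - r‖ ^ p := by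
    have := (hint 0).comp_sub_right r
    simpa using this
  have e4 : ∫ z, η (z - r) * ‖z‖ ^ p = ∫ z, η z * ‖z - r‖ ^ p := by
    have h1 : ∫ z, η (z - r) * ‖z‖ ^ p = ∫ z, η z * ‖z + r‖ ^ p := by
      rw [← integral_sub_right_eq_self (fun z => η z * ‖z + r‖ ^ p) r]
      simp
    rw [h1, ← integral_neg_eq_self (fun z => η z * ‖z + r‖ ^ p)]
    refine integral_congr_ae (Eventually.of_forall fun z => ?_)
    simp only
    rw [hη.even, show -z + r = -(z - r) by ring, norm_neg]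
  have i4 : Integrable fun z => η (z - r) * ‖z‖ ^ p := by
    have := (hint (-r)).comp_sub_right r
    refine this.congr (Eventually.of_forall fun z => ?_)
    simp
  have key : ∫ z, ((η z * ‖z - r‖ ^ p) + (η (z - r) * ‖z‖ ^ p)) ≤
      ∫ z, ((η z * ‖z - 0‖ ^ p) + (η (z - r) * ‖z - r‖ ^ p)) := by
    refine integral_mono_ae ((hint r).add i4) ((hint 0).add i3) ?_
    filter_upwards [ae_ne1 0, ae_ne1 r] with z h0 hr
    have p0 : 0 < ‖z‖ := norm_pos_iff.2 h0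
    have p1 : 0 < ‖z - r‖ := norm_pos_iff.2 (sub_ne_zero.2 hr)
    simp only [sub_zero]
    have h : 0 ≤ (η z - η (z - r)) * (‖z‖ ^ p - ‖z - r‖ ^ p) := by
      rcases le_total ‖z‖ ‖z - r‖ with h | h
      · refine mul_nonneg (sub_nonneg.2 (hη.anti _ _ h)) (sub_nonneg.2 ?_)
        exact Real.rpow_le_rpow_of_nonpos p0 h hp0
      · refine mul_nonneg_of_nonpos_of_nonpos (sub_nonpos.2 (hη.anti _ _ h)) (sub_nonpos.2 ?_)
        exact Real.rpow_le_rpow_of_nonpos p1 h hp0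
    nlinarith
  rw [integral_add (hint r) i4, integral_add (hint 0) i3, e3, e4] at key
  linarith

/-- the geometric mean -/
noncomputable def Gk (η : ℂ → ℝ) (k : ℕ) (s : ℂ) (r : Fin k → ℂ) : ℂ :=
  ∫ z, (η z : ℂ) * ∏ i, (‖z - r i‖ : ℂ) ^ (2 * s)

/-- the function `H` -/
noncomputable def Hk (η : ℂ → ℝ) (k : ℕ) (s : ℂ) (r : Fin k → ℂ) : ℂ := Pk η k s 0 - Gk η k s r

theorem Gk_eq {η : ℂ → ℝ} (hη : Cut η) {k : ℕ} (hk : 0 < k) {s : ℂ}
    (h1 : -1 / (k : ℝ) < s.re) (h2 : s.re ≤ 0) (r : Fin k → ℂ) :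
    Integrable (fun z => (η z : ℂ) * ∏ i, (‖z - r i‖ : ℂ) ^ (2 * s)) ∧
    Gk η k s r = (1 / (k : ℂ)) * ∑ i, Pk η k s (r i) - Dk η k s r := by
  have i1 := fun i => (Pk_int hη hk h1 le_rfl h2 (r i)).1
  have i2 := (eta_qd_int hη hk h1 h2 r).1
  have i3 : Integrable fun z => (1 / (k : ℂ)) * ∑ i, (η z : ℂ) * (‖z - r i‖ : ℂ) ^ (2 * k * s) :=
    (integrable_finsetSum _ fun i _ => i1 i).const_mul _
  have e : ∀ z : ℂ, (1 / (k : ℂ)) * (∑ i, (η z : ℂ) * (‖z - r i‖ : ℂ) ^ (2 * k * s)) -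
      (η z : ℂ) * qd k s r z = (η z : ℂ) * ∏ i, (‖z - r i‖ : ℂ) ^ (2 * s) := by
    intro z
    unfold qd
    rw [← Finset.mul_sum]
    ring
  constructor
  · exact (i3.sub i2).congr (Eventually.of_forall e)
  · unfold Gk Pk Dk
    rw [← integral_finsetSum _ fun i _ => i1 i, ← integral_const_mul, ← integral_sub i3 i2]
    exact integral_congr_ae (Eventually.of_forall fun z => (e z).symm)

theorem Hk_eq {η : ℂ → ℝ} (hη : Cut η) {k : ℕ} (hk : 0 < k) {s : ℂ}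
    (h1 : -1 / (k : ℝ) < s.re) (h2 : s.re ≤ 0) (r : Fin k → ℂ) :
    Hk η k s r = Dk η k s r - (1 / (k : ℂ)) * ∑ i, (Pk η k s (r i) - Pk η k s 0) := by
  have hkc : (k : ℂ) ≠ 0 := Nat.cast_ne_zero.2 hk.ne'
  unfold Hk
  rw [(Gk_eq hη hk h1 h2 r).2, Finset.sum_sub_distrib, Finset.sum_const, Finset.card_univ,
    Fintype.card_fin, nsmul_eq_mul]
  field_simp
  ring

/-- **The estimate of `H`.** -/
theorem Hk_bound {η : ℂ → ℝ} (hη : SCut η) {k : ℕ} (hk : 0 < k) {σ₁ σ₂ Λ : ℝ}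
    (h1 : -1 / (k : ℝ) < σ₁) (h12 : σ₁ ≤ σ₂) (h2 : σ₂ < 0) (hΛ : 0 ≤ Λ) :
    ∃ C : ℝ, 0 ≤ C ∧ ∀ s : ℂ, σ₁ ≤ s.re → s.re ≤ σ₂ → ‖s‖ ≤ Λ → ∀ (R : ℝ), 0 < R →
      ∀ r : Fin k → ℂ, (∀ i, ‖r i‖ ≤ R) → ∀ τ : ℝ, 0 ≤ τ → τ ≤ 2 + 2 * k * σ₁ →
      ‖Hk η k s r‖ ≤ C * R ^ τ := by
  have hk' : (0 : ℝ) < k := by exact_mod_cast hk
  obtain ⟨C1, hC1, hb1⟩ := Dk_bound hη.toCut hk h1 h12 h2 hΛ
  obtain ⟨C2, hC2, hb2⟩ := Pk_bound hη hk h1
  refine ⟨C1 + C2, by positivity, fun s hs1 hs2 hsΛ R hR r hr τ hτ0 hτ1 => ?_⟩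
  have hτ2 : τ ≤ 2 := by
    have : 2 * (k : ℝ) * σ₁ ≤ 0 := mul_nonpos_of_nonneg_of_nonpos (by positivity) (by linarith)
    linarith
  rw [Hk_eq hη.toCut hk (lt_of_lt_of_le h1 hs1) (by linarith) r, add_mul]
  refine (norm_sub_le _ _).trans (add_le_add (hb1 s hs1 hs2 hsΛ R hR r hr τ hτ0 hτ1) ?_)
  rw [norm_mul]
  have h3 : ‖(1 / (k : ℂ))‖ = 1 / (k : ℝ) := by
    rw [norm_div, norm_one, Complex.norm_natCast]
  rw [h3]
  have h4 : ‖∑ i, (Pk η k s (r i) - Pk η k s 0)‖ ≤ k * (C2 * R ^ τ) := by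
    refine (norm_sum_le _ _).trans ((Finset.sum_le_sum fun i _ =>
      hb2 s hs1 (by linarith) (r i) R (hr i) τ hτ0 hτ2).trans ?_)
    rw [Finset.sum_const, Finset.card_univ, Fintype.card_fin, nsmul_eq_mul]
  calc 1 / (k : ℝ) * _ ≤ 1 / (k : ℝ) * (k * (C2 * R ^ τ)) := by gcongr
    _ = _ := by field_simp

theorem Hk_hol {η : ℂ → ℝ} (hη : Cut η) {k : ℕ} (hk : 0 < k) (r : Fin k → ℂ) :
    DifferentiableOn ℂ (fun s => Hk η k s r) {s : ℂ | -1 / (k : ℝ) < s.re ∧ s.re < 0} := by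
  have h1 : DifferentiableOn ℂ (fun s => Dk η k s r -
      (1 / (k : ℂ)) * ∑ i, (Pk η k s (r i) - Pk η k s 0))
      {s : ℂ | -1 / (k : ℝ) < s.re ∧ s.re < 0} := by
    refine (Dk_hol hη hk r).sub (DifferentiableOn.const_mul (DifferentiableOn.fun_sum fun i _ => ?_) _)
    exact (Pk_hol hη hk (r i)).sub (Pk_hol hη hk 0)
  exact h1.congr fun s hs => Hk_eq hη hk hs.1 hs.2.le r

/-- the real version of `D` -/
noncomputable def DR (η : ℂ → ℝ) (k : ℕ) (s : ℝ) (r : Fin k → ℂ) : ℝ := ∫ z, η z * qr k s r z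

theorem Dk_ofReal (η : ℂ → ℝ) (k : ℕ) (s : ℝ) (r : Fin k → ℂ) :
    Dk η k s r = (DR η k s r : ℂ) := by
  unfold Dk DR
  rw [← integral_complex_ofReal]
  refine integral_congr_ae (Eventually.of_forall fun z => ?_)
  simp only
  rw [qd_ofReal]
  push_cast
  rfl

theorem Pk_ofReal (η : ℂ → ℝ) (k : ℕ) (s : ℝ) (r : ℂ) :
    Pk η k s r = ((∫ z, η z * ‖z - r‖ ^ (2 * k * s) : ℝ) : ℂ) := by
  unfold Pk
  rw [← integral_complex_ofReal]
  refine integral_congr_ae (Eventually.of_forall fun z => ?_)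
  simp only
  push_cast
  rw [Complex.ofReal_cpow (norm_nonneg _)]
  push_cast
  rfl

/-- the real version of `H` -/
noncomputable def HR (η : ℂ → ℝ) (k : ℕ) (s : ℝ) (r : Fin k → ℂ) : ℝ := (Hk η k s r).re

theorem Hk_ofReal {η : ℂ → ℝ} (hη : RCut η) {k : ℕ} (hk : 0 < k) {s : ℝ}
    (h1 : -1 / (k : ℝ) < s) (h2 : s ≤ 0) (r : Fin k → ℂ) :
    Hk η k s r = (HR η k s r : ℂ) ∧ DR η k s r ≤ HR η k s r := by
  have hk' : (0 : ℝ) < k := by exact_mod_cast hk
  have hp : -2 < 2 * k * s := by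
    rw [div_lt_iff₀ hk'] at h1
    linarith
  have hp0 : 2 * (k : ℝ) * s ≤ 0 := mul_nonpos_of_nonneg_of_nonpos (by positivity) h2
  have e := Hk_eq hη.toCut hk (s := (s : ℂ)) (by simpa using h1) (by simpa using h2) r
  simp only [Dk_ofReal, Pk_ofReal] at e
  have e2 : Hk η k s r = ((DR η k s r - (1 / (k : ℝ)) *
      ∑ i, ((∫ z, η z * ‖z - r i‖ ^ (2 * k * s)) - ∫ z, η z * ‖z - 0‖ ^ (2 * k * s)) : ℝ) : ℂ) := by
    rw [e]
    push_cast
    rfl
  have e3 : HR η k s r = DR η k s r - (1 / (k : ℝ)) *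
      ∑ i, ((∫ z, η z * ‖z - r i‖ ^ (2 * k * s)) - ∫ z, η z * ‖z - 0‖ ^ (2 * k * s)) := by
    unfold HR
    rw [e2, Complex.ofReal_re]
  constructor
  · rw [e2, e3]
  · rw [e3]
    have : ∑ i, ((∫ z, η z * ‖z - r i‖ ^ (2 * k * s)) - ∫ z, η z * ‖z - 0‖ ^ (2 * k * s)) ≤ 0 :=
      Finset.sum_nonpos fun i _ => sub_nonpos.2 (corr hη hp hp0 (r i))
    have h3 : (1 / (k : ℝ)) *
      ∑ i, ((∫ z, η z * ‖z - r i‖ ^ (2 * k * s)) - ∫ z, η z * ‖z - 0‖ ^ (2 * k * s)) ≤ 0 :=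
      mul_nonpos_of_nonneg_of_nonpos (by positivity) this
    linarith

theorem DR_nonneg {η : ℂ → ℝ} (hη : Cut η) {k : ℕ} (hk : 0 < k) (s : ℝ) (r : Fin k → ℂ) :
    0 ≤ DR η k s r :=
  integral_nonneg fun z => mul_nonneg (hη.nonneg z) (qr_nonneg hk s r z)

/-- the part near the origin -/
noncomputable def Ek (k : ℕ) (s : ℝ) (r : Fin k → ℂ) : ℝ := ∫ z in ball (0 : ℂ) (1 / 2), qr k s r z

theorem Ek_nonneg {k : ℕ} (hk : 0 < k) (s : ℝ) (r : Fin k → ℂ) : 0 ≤ Ek k s r :=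
  integral_nonneg fun z => qr_nonneg hk s r z

theorem eta_qr_int {η : ℂ → ℝ} (hη : Cut η) {k : ℕ} (hk : 0 < k) {s : ℝ}
    (h1 : -1 / (k : ℝ) < s) (h2 : s ≤ 0) (r : Fin k → ℂ) :
    Integrable (fun z => η z * qr k s r z) := by
  have h := (eta_qd_int hη hk (s := (s : ℂ)) (by simpa using h1) (by simpa using h2) r).1.re
  refine h.congr (Eventually.of_forall fun z => ?_)
  simp only [qd_ofReal]
  rw [← Complex.ofReal_mul]
  simp

theorem qr_int {k : ℕ} (hk : 0 < k) {s : ℝ} (h1 : -1 / (k : ℝ) < s) (h2 : s ≤ 0)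
    (r : Fin k → ℂ) : IntegrableOn (qr k s r) (ball 0 (1 / 2)) := by
  obtain ⟨η, hη⟩ := exists_rcut
  refine ((eta_qr_int hη.toCut hk h1 h2 r).integrableOn (s := ball 0 (1 / 2))).congr_fun ?_
    measurableSet_ball
  intro z hz
  simp only
  rw [hη.one z (by rw [mem_ball_zero_iff] at hz; exact hz.le), one_mul]

/-- the behaviour under scaling -/
theorem DR_scale {η : ℂ → ℝ} (hη : SCut η) {k : ℕ} (hk : 0 < k) {s : ℝ}
    (h1 : -1 / (k : ℝ) < s) (h2 : s ≤ 0) (r : Fin k → ℂ) {t : ℝ} (ht : 0 < t) (ht1 : t ≤ 1) :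
    t ^ (2 + 2 * k * s) * Ek k s r ≤ DR η k s (fun i => t * r i) := by
  have hI := eta_qr_int hη.toCut hk h1 h2 (fun i => t * r i)
  have hscale : ∀ w : ℂ, qr k s (fun i => t * r i) (t • w) = t ^ (2 * k * s) * qr k s r w := by
    intro w
    unfold qr
    have e : ∀ i, ‖t • w - t * r i‖ = t * ‖w - r i‖ := by
      intro i
      rw [Complex.real_smul, ← mul_sub, norm_mul, Complex.norm_real, Real.norm_eq_abs,
        abs_of_pos ht]
    simp only [e]
    have e1 : ∀ (i : Fin k) (p : ℝ), (t * ‖w - r i‖) ^ p = t ^ p * ‖w - r i‖ ^ p := fun i p =>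
      Real.mul_rpow ht.le (norm_nonneg _)
    simp only [e1]
    rw [← Finset.mul_sum, Finset.prod_mul_distrib, Finset.prod_const, Finset.card_univ,
      Fintype.card_fin, ← Real.rpow_mul_natCast ht.le]
    have e2 : 2 * s * (k : ℝ) = 2 * k * s := by ring
    rw [e2]
    ring
  have e4 : ∫ z in ball (0 : ℂ) (1 / 2), qr k s (fun i => t * r i) (t • z) =
      (t ^ 2)⁻¹ * ∫ z in ball (0 : ℂ) (t * (1 / 2)), qr k s (fun i => t * r i) z := by
    have h := Measure.setIntegral_comp_smul_of_pos (volume : Measure ℂ)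
      (fun z => qr k s (fun i => t * r i) z) (ball (0 : ℂ) (1 / 2)) ht
    rw [Complex.finrank_real_complex, _root_.smul_ball ht.ne', smul_zero, Real.norm_eq_abs,
      abs_of_pos ht, smul_eq_mul] at h
    exact h
  have e5 : ∫ z in ball (0 : ℂ) (t * (1 / 2)), qr k s (fun i => t * r i) z =
      t ^ (2 + 2 * k * s) * Ek k s r := by
    have h3 : ∫ z in ball (0 : ℂ) (1 / 2), qr k s (fun i => t * r i) (t • z) =
        t ^ (2 * k * s) * Ek k s r := by
      simp only [hscale]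
      rw [integral_const_mul]
      rfl
    rw [h3] at e4
    have h4 : t ^ (2 + 2 * k * s) = t ^ 2 * t ^ (2 * k * s) := by
      rw [Real.rpow_add ht]
      norm_num
    rw [h4, mul_assoc, e4, ← mul_assoc, mul_inv_cancel₀ (by positivity), one_mul]
  rw [← e5]
  have e6 : ∫ z in ball (0 : ℂ) (t * (1 / 2)), qr k s (fun i => t * r i) z =
      ∫ z in ball (0 : ℂ) (t * (1 / 2)), η z * qr k s (fun i => t * r i) z := by
    refine setIntegral_congr_fun measurableSet_ball fun z hz => ?_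
    rw [hη.one z, one_mul]
    rw [mem_ball_zero_iff] at hz
    nlinarith
  rw [e6]
  exact setIntegral_le_integral hI (Eventually.of_forall fun z =>
    mul_nonneg (hη.nonneg z) (qr_nonneg hk s _ z))

theorem eq_of_dist {a b : ℂ} (h : ∀ w ∈ ball (0 : ℂ) (1 / 2), ‖w - a‖ = ‖w - b‖) : a = b := by
  by_contra hne
  have h0 : ‖a‖ = ‖b‖ := by
    have := h 0 (mem_ball_self (by norm_num))
    simpa using this
  have hd : 0 < ‖a - b‖ := norm_pos_iff.2 (sub_ne_zero.2 hne)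
  set ε : ℝ := 1 / (4 * ‖a - b‖) with hε
  have hε0 : 0 < ε := by positivity
  have h1 := h (ε • (a - b)) (by
    rw [mem_ball_zero_iff, norm_smul, Real.norm_eq_abs, abs_of_pos hε0, hε]
    field_simp
    norm_num)
  have h2 := norm_sub_sq_real (ε • (a - b)) a
  have h3 := norm_sub_sq_real (ε • (a - b)) b
  rw [h1] at h2
  rw [real_inner_smul_left] at h2 h3
  have h4 : inner ℝ (a - b) a - inner ℝ (a - b) b = ‖a - b‖ ^ 2 := by
    rw [← inner_sub_right, real_inner_self_eq_norm_sq]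
  have h5 : ε * ‖a - b‖ ^ 2 = 0 := by
    rw [← h4]
    rw [h0] at h2
    linarith
  have : 0 < ε * ‖a - b‖ ^ 2 := by positivity
  linarith

theorem Ek_pos {k : ℕ} (hk : 0 < k) {s : ℝ} (h1 : -1 / (k : ℝ) < s) (h2 : s < 0)
    (r : Fin k → ℂ) (h : Ek k s r = 0) : ∀ i j, r i = r j := by
  have hk' : (0 : ℝ) < k := by exact_mod_cast hk
  have hI := qr_int hk h1 h2.le r
  unfold Ek at h
  rw [setIntegral_eq_zero_iff_of_nonneg_ae (Eventually.of_forall fun z => qr_nonneg hk s r z) hI] at h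
  intro i j
  refine eq_of_dist ?_
  have h3 : (fun w => ‖w - r i‖) =ᵐ[volume.restrict (ball (0 : ℂ) (1 / 2))]
      fun w => ‖w - r j‖ := by
    filter_upwards [h] with w hw
    have hw' : ∏ i, ‖w - r i‖ ^ (2 * s) = (1 / (k : ℝ)) * ∑ i, ‖w - r i‖ ^ (2 * k * s) := by
      have : qr k s r w = 0 := hw
      unfold qr at this
      linarith
    have h4 := (Real.geom_mean_eq_arith_mean_weighted_iff_of_pos Finset.univ
      (fun _ : Fin k => 1 / (k : ℝ)) (fun i => ‖w - r i‖ ^ (2 * k * s)) (fun i _ => by positivity)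
      (by rw [Finset.sum_const, Finset.card_univ, Fintype.card_fin, nsmul_eq_mul]; field_simp)
      (fun i _ => Real.rpow_nonneg (norm_nonneg _) _)).1 (by
        rw [← Finset.mul_sum, ← hw']
        refine Finset.prod_congr rfl fun i _ => ?_
        rw [← Real.rpow_mul (norm_nonneg _)]
        congr 1
        field_simp) i (Finset.mem_univ _) j (Finset.mem_univ _)
    have hne : 2 * (k : ℝ) * s ≠ 0 := by
      have : 2 * (k : ℝ) * s < 0 := mul_neg_of_pos_of_neg (by positivity) h2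
      exact this.ne
    exact (Real.rpow_left_inj (norm_nonneg _) (norm_nonneg _) hne).1 h4
  exact Measure.eqOn_open_of_ae_eq h3 isOpen_ball (by fun_prop) (by fun_prop)

end Pool.Agent.H74C
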