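import Pool.Agent.H74A.Neg1

set_option autoImplicit false
set_option linter.unusedSectionVars false
set_option linter.unusedVariables false

/-! # Fubini -/

namespace Pool.Agent.H74C

open MvPolynomial MeasureTheory Filter Topology Complex Metric
open Pool.Agent.H74A (pr pr_roots exists_roots cf cf_bound hol_int sym_cont)
open Pool.Agent.Y230.AR (Test)

/-- cut off functions of the other variables -/
structure XCut {n : ℕ} (χ : (Fin n → ℂ) → ℝ) : Prop where
  smooth : ContDiff ℝ ((⊤ : ℕ∞) : WithTop ℕ∞) χ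
  nonneg : ∀ x, 0 ≤ χ x
  le_one : ∀ x, χ x ≤ 1
  one : ∀ x, ‖x‖ ≤ 1 / 2 → χ x = 1
  zero : ∀ x, 3 / 4 ≤ ‖x‖ → χ x = 0

theorem exists_xcut (n : ℕ) : ∃ χ : (Fin n → ℂ) → ℝ, XCut χ := by
  set b : ContDiffBump (0 : Fin n → ℂ) := ⟨1 / 2, 3 / 4, by norm_num, by norm_num⟩ with hb
  refine ⟨b, b.contDiff, fun x => ContDiffBump.nonneg b, fun x => ContDiffBump.le_one b, ?_, ?_⟩
  · intro x hx
    refine b.one_of_mem_closedBall ?_
    rw [mem_closedBall, dist_zero_right]
    exact hx
  · intro x hx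
    refine b.zero_of_le_dist ?_
    rw [dist_zero_right]
    exact hx

/-- the measurable equivalence -/
noncomputable def Psi (n : ℕ) : ((Fin n → ℂ) × ℂ) ≃ᵐ (Fin (n + 1) → ℂ) :=
  MeasurableEquiv.prodComm.trans (MeasurableEquiv.piFinSuccAbove (fun _ => ℂ) 0).symm

theorem Psi_apply {n : ℕ} (p : (Fin n → ℂ) × ℂ) : Psi n p = Fin.cons p.2 p.1 := by
  obtain ⟨x, z⟩ := p
  change (MeasurableEquiv.piFinSuccAbove (fun _ => ℂ) 0).symm (z, x) = _
  rw [MeasurableEquiv.symm_apply_eq]
  rfl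

theorem Psi_mp (n : ℕ) : MeasurePreserving (Psi n) volume volume := by
  have h1 := (volume_preserving_piFinSuccAbove (fun _ : Fin (n + 1) => ℂ) 0).symm
  have h2 := Measure.measurePreserving_swap (μ := (volume : Measure (Fin n → ℂ)))
    (ν := (volume : Measure ℂ))
  exact h1.comp h2

/-- the test function -/
noncomputable def phi {n : ℕ} (χ : (Fin n → ℂ) → ℝ) (η : ℂ → ℝ) (v : Fin (n + 1) → ℂ) : ℂ :=
  (χ (Fin.tail v) : ℂ) * (η (v 0) : ℂ)

/-- the compact set -/
def Kb (n : ℕ) : Set (Fin (n + 1) → ℂ) := closedBall 0 (3 / 4)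

theorem Kb_compact (n : ℕ) : IsCompact (Kb n) := isCompact_closedBall _ _

theorem phi_test {n : ℕ} {χ : (Fin n → ℂ) → ℝ} (hχ : XCut χ) {η : ℂ → ℝ} (hη : RCut η) :
    Test (Kb n) (phi χ η) := by
  constructor
  · unfold phi
    have h1 : ContDiff ℝ ((⊤ : ℕ∞) : WithTop ℕ∞) fun v : Fin (n + 1) → ℂ => Fin.tail v := by
      rw [contDiff_pi]
      intro i
      exact contDiff_apply ℝ ℂ i.succ
    have h2 : ContDiff ℝ ((⊤ : ℕ∞) : WithTop ℕ∞) fun v : Fin (n + 1) → ℂ => v 0 :=
      contDiff_apply ℝ ℂ 0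
    exact (Complex.ofRealCLM.contDiff.comp (hχ.smooth.comp h1)).mul
      (Complex.ofRealCLM.contDiff.comp (hη.smooth.comp h2))
  · refine closure_minimal ?_ isClosed_closedBall
    intro v hv
    rw [Function.mem_support] at hv
    change v ∈ closedBall (0 : Fin (n + 1) → ℂ) (3 / 4)
    rw [mem_closedBall_zero_iff, pi_norm_le_iff_of_nonneg (by norm_num)]
    intro i
    by_contra hcon
    push Not at hcon
    apply hv
    unfold phi
    induction i using Fin.cases with
    | zero => rw [hη.zero' _ hcon.le]; simp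
    | succ i =>
      have h1 : ‖v i.succ‖ ≤ ‖Fin.tail v‖ := norm_le_pi_norm (Fin.tail v) i
      rw [hχ.zero _ (by linarith)]
      simp

section

variable {n k m : ℕ} {f : MvPolynomial (Fin (n + 1)) ℂ}

theorem Psi_pre (n : ℕ) : Psi n ⁻¹' Kb n = (closedBall (0 : Fin n → ℂ) (3 / 4)) ×ˢ
    (closedBall (0 : ℂ) (3 / 4)) := by
  ext p
  rw [Set.mem_preimage, Psi_apply]
  change (Fin.cons p.2 p.1 : Fin (n + 1) → ℂ) ∈ closedBall (0 : Fin (n + 1) → ℂ) (3 / 4) ↔ _
  rw [Set.mem_prod, mem_closedBall_zero_iff, mem_closedBall_zero_iff, mem_closedBall_zero_iff,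
    pi_norm_le_iff_of_nonneg (by norm_num), pi_norm_le_iff_of_nonneg (by norm_num)]
  constructor
  · intro h
    refine ⟨fun i => ?_, ?_⟩
    · simpa using h i.succ
    · simpa using h 0
  · rintro ⟨h1, h2⟩ i
    refine Fin.cases ?_ (fun i => ?_) i
    · simpa using h2
    · simpa using h1 i

theorem Nm_real (f : MvPolynomial (Fin (n + 1)) ℂ) (s : ℝ) (v : Fin (n + 1) → ℂ) :
    ((Nm f v ^ s : ℝ) : ℂ) = (Nm f v : ℂ) ^ (s : ℂ) := Complex.ofReal_cpow (Nm_nonneg f v) s

theorem inner_bound {r : (Fin n → ℂ) → Fin k → ℂ} (hr : IsRt k f r) (hk : 0 < k) {s : ℝ}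
    (h1 : -1 / (k : ℝ) < s) (h2 : s ≤ 0) {x : Fin n → ℂ} (hx : la f x ≠ 0) :
    IntegrableOn (fun z => Nm f (Fin.cons z x) ^ s) (ball 0 1) ∧
      ∫ z in ball (0 : ℂ) 1, Nm f (Fin.cons z x) ^ s ≤ cB (2 * k * s) * Na f x ^ s := by
  have hk' : (0 : ℝ) < k := by exact_mod_cast hk
  have hp : -2 < 2 * k * s := by
    rw [div_lt_iff₀ hk'] at h1
    linarith
  have hp0 : 2 * (k : ℝ) * s ≤ 0 := mul_nonpos_of_nonneg_of_nonpos (by positivity) h2
  have hN : 0 ≤ Na f x ^ s := Real.rpow_nonneg (Na_nonneg f x) s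
  have hi := fun i => int_shift hp hp0 (r x i)
  have hb : ∀ z : ℂ, Nm f (Fin.cons z x) ^ s ≤
      Na f x ^ s * ((1 / (k : ℝ)) * ∑ i, ‖z - r x i‖ ^ (2 * k * s)) := by
    intro z
    rw [hr.Nm_cons hx, Real.mul_rpow (Na_nonneg f x) (Finset.prod_nonneg fun i _ => by positivity),
      ← Real.finsetProd_rpow _ _ (fun i _ => by positivity)]
    refine mul_le_mul_of_nonneg_left (le_trans (le_of_eq ?_) (amgm hk s (r x) z)) hN
    refine Finset.prod_congr rfl fun i _ => ?_
    rw [← Real.rpow_natCast, ← Real.rpow_mul (norm_nonneg _)]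
    norm_num
  have hI : IntegrableOn (fun z => Na f x ^ s * ((1 / (k : ℝ)) * ∑ i, ‖z - r x i‖ ^ (2 * k * s)))
      (ball 0 1) := ((integrable_finsetSum _ fun i _ => (hi i).1).const_mul _).const_mul _
  have hmeas : Measurable fun z : ℂ => Nm f (Fin.cons z x) ^ s := by
    have h3 : Continuous fun z : ℂ => (Fin.cons z x : Fin (n + 1) → ℂ) :=
      continuous_cons.comp (continuous_const.prodMk continuous_id)
    exact ((continuous_Nm f).comp h3).measurable.pow_const s
  have hint : IntegrableOn (fun z => Nm f (Fin.cons z x) ^ s) (ball 0 1) := by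
    refine hI.mono' hmeas.aestronglyMeasurable (Eventually.of_forall fun z => ?_)
    rw [Real.norm_eq_abs, abs_of_nonneg (Real.rpow_nonneg (Nm_nonneg f _) s)]
    exact hb z
  refine ⟨hint, ?_⟩
  refine (integral_mono hint hI hb).trans ?_
  rw [integral_const_mul, integral_const_mul, integral_finsetSum _ fun i _ => (hi i).1, mul_comm]
  refine mul_le_mul_of_nonneg_right ?_ hN
  calc 1 / (k : ℝ) * _ ≤ 1 / (k : ℝ) * ∑ i : Fin k, cB (2 * k * s) := by
        gcongr with i _
        exact (hi i).2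
    _ = _ := by
        rw [Finset.sum_const, Finset.card_univ, Fintype.card_fin, nsmul_eq_mul]
        field_simp

/-- integrability of the powers -/
theorem Dat.Nm_int (h : Dat k m f) {s : ℝ} (h1 : -1 / (k : ℝ) < s) (h2 : s ≤ 0)
    (hint : IntegrableOn (fun x => Na f x ^ s) (closedBall 0 1)) :
    IntegrableOn (fun v => Nm f v ^ s) (Kb n) := by
  obtain ⟨r, hr⟩ := h.exists_rt
  have hr' : IsRt k f r := hr
  have hp : -2 < 2 * k * s := by
    have hk' : (0 : ℝ) < k := by exact_mod_cast h.k0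
    rw [div_lt_iff₀ hk'] at h1
    linarith
  rw [← (Psi_mp n).integrableOn_comp_preimage (Psi n).measurableEmbedding, Psi_pre]
  have hres : (volume : Measure ((Fin n → ℂ) × ℂ)).restrict
      ((closedBall (0 : Fin n → ℂ) (3 / 4)) ×ˢ (closedBall (0 : ℂ) (3 / 4))) =
      ((volume : Measure (Fin n → ℂ)).restrict (closedBall 0 (3 / 4))).prod
        ((volume : Measure ℂ).restrict (closedBall 0 (3 / 4))) := by
    rw [Measure.volume_eq_prod, Measure.prod_restrict]
  have hF : Measurable ((fun v => Nm f v ^ s) ∘ (Psi n)) :=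
    ((continuous_Nm f).measurable.pow_const s).comp (Psi n).measurable
  have hball : closedBall (0 : ℂ) (3 / 4) ⊆ ball 0 1 := closedBall_subset_ball (by norm_num)
  have hball2 : closedBall (0 : Fin n → ℂ) (3 / 4) ⊆ closedBall 0 1 :=
    closedBall_subset_closedBall (by norm_num)
  unfold IntegrableOn
  rw [hres, integrable_prod_iff hF.aestronglyMeasurable]
  constructor
  · refine ae_restrict_of_ae ?_
    filter_upwards [h.ae_la] with x hx
    have := (inner_bound hr' h.k0 h1 h2 hx).1.mono_set hball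
    refine this.congr (Eventually.of_forall fun z => ?_)
    simp only [Function.comp_apply, Psi_apply]
  · refine ((hint.mono_set hball2).const_mul (cB (2 * k * s))).mono' ?_ ?_
    · exact (hF.stronglyMeasurable.norm.integral_prod_right').aestronglyMeasurable
    · refine ae_restrict_of_ae ?_
      filter_upwards [h.ae_la] with x hx
      have hnn : ∀ z : ℂ, 0 ≤ Nm f (Fin.cons z x) ^ s := fun z =>
        Real.rpow_nonneg (Nm_nonneg f _) s
      have e : ∀ z : ℂ, ‖((fun v => Nm f v ^ s) ∘ (Psi n)) (x, z)‖ = Nm f (Fin.cons z x) ^ s := by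
        intro z
        simp only [Function.comp_apply, Psi_apply]
        rw [Real.norm_eq_abs, abs_of_nonneg (hnn z)]
      simp only [e]
      rw [Real.norm_eq_abs, abs_of_nonneg (integral_nonneg hnn)]
      refine (setIntegral_mono_set (inner_bound hr' h.k0 h1 h2 hx).1
        (Eventually.of_forall hnn) (Eventually.of_forall hball)).trans ?_
      exact (inner_bound hr' h.k0 h1 h2 hx).2

/-- Fubini -/
theorem int_phi {χ : (Fin n → ℂ) → ℝ} (hχ : XCut χ) {η : ℂ → ℝ} (hη : RCut η) {s : ℝ}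
    (hI : IntegrableOn (fun v => Nm f v ^ s) (Kb n)) :
    Integrable (fun x => (χ x : ℂ) * J η f s x) ∧
      ∫ v in Kb n, ((Nm f v ^ s : ℝ) : ℂ) * phi χ η v = ∫ x, (χ x : ℂ) * J η f s x := by
  have ht := phi_test (n := n) hχ hη
  have hKm : MeasurableSet (Kb n) := (Kb_compact n).measurableSet
  obtain ⟨B, hB0, hB⟩ := tbound (Kb_compact n) ht
  have h1 : IntegrableOn (fun v => ((Nm f v ^ s : ℝ) : ℂ) * phi χ η v) (Kb n) := by
    refine (hI.mul_const B).mono' ?_ (Eventually.of_forall fun v => ?_)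
    · exact ((Complex.measurable_ofReal.comp ((continuous_Nm f).measurable.pow_const s)).mul
        ht.1.continuous.measurable).aestronglyMeasurable
    · rw [norm_mul, Complex.norm_real, Real.norm_eq_abs,
        abs_of_nonneg (Real.rpow_nonneg (Nm_nonneg f _) s)]
      exact mul_le_mul_of_nonneg_left (hB v) (Real.rpow_nonneg (Nm_nonneg f _) s)
  have h2 : Integrable (fun v => ((Nm f v ^ s : ℝ) : ℂ) * phi χ η v) := by
    rw [← integrableOn_iff_integrable_of_support_subset (s := Kb n)]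
    · exact h1
    · intro v hv
      by_contra hcon
      exact hv (by simp only [tzero ht hcon, mul_zero])
  have h3 : Integrable ((fun v => ((Nm f v ^ s : ℝ) : ℂ) * phi χ η v) ∘ (Psi n)) :=
    ((Psi_mp n).integrable_comp_emb (Psi n).measurableEmbedding).2 h2
  have e : ∀ (x : Fin n → ℂ) (z : ℂ), ((fun v => ((Nm f v ^ s : ℝ) : ℂ) * phi χ η v) ∘ (Psi n))
      (x, z) = (χ x : ℂ) * ((η z : ℂ) * (Nm f (Fin.cons z x) : ℂ) ^ (s : ℂ)) := by
    intro x z
    simp only [Function.comp_apply, Psi_apply, Nm_real, phi, Fin.tail_cons, Fin.cons_zero]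
    ring
  have e2 : ∀ x, ∫ z, ((fun v => ((Nm f v ^ s : ℝ) : ℂ) * phi χ η v) ∘ (Psi n)) (x, z) =
      (χ x : ℂ) * J η f s x := by
    intro x
    simp only [e]
    rw [integral_const_mul]
    rfl
  constructor
  · have := h3.integral_prod_left
    simpa only [e2] using this
  · rw [← int_res ht hKm (fun v => ((Nm f v ^ s : ℝ) : ℂ)),
      ← (Psi_mp n).integral_comp' (fun v => ((Nm f v ^ s : ℝ) : ℂ) * phi χ η v)]
    have h4 := integral_prod _ h3
    simp only [e2] at h4
    exact h4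

end

end Pool.Agent.H74C
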