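import Pool.Agent.H74A.CDefs
import Pool.Agent.H74A.Neg2
import Pool.Agent.Y230.AR.Mult

set_option autoImplicit false
set_option linter.unusedSectionVars false
set_option linter.unusedVariables false

/-! # The root `-(n + 1) / d` if the vertex computes the log canonical threshold -/

namespace Pool.Agent.H74D

open MvPolynomial MeasureTheory Filter Topology Metric
open scoped Pointwise
open Pool.Agent.Y230.AR (Test Nf Nf_nonneg continuous_Nf arch_mult)
open Pool.Agent.W574.SM (IsFunctionalEq)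
open Pool.Agent.H74C

variable {n : ℕ} {ι : Type} [Fintype ι]

theorem Nf_smul (f : ι → MvPolynomial (Fin n) ℂ) (d : ℕ) (hf : ∀ j, (f j).IsHomogeneous d) (t : ℝ)
    (x : Fin n → ℂ) : Nf f (t • x) = |t| ^ (2 * d) * Nf f x := by
  unfold Nf
  rw [Finset.mul_sum]
  refine Finset.sum_congr rfl fun j _ => ?_
  rw [eval_smul_hom _ d (hf j), norm_mul, norm_pow, Complex.norm_real, Real.norm_eq_abs, mul_pow,
    ← pow_mul, mul_comm d 2]

theorem Nf_ae (f : ι → MvPolynomial (Fin n) ℂ) (hne : ∃ j, f j ≠ 0) :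
    ∀ᵐ x : Fin n → ℂ, 0 < Nf f x := by
  obtain ⟨j, hj⟩ := hne
  filter_upwards [ae_eval_ne (f j) hj] with x hx
  unfold Nf
  refine Finset.sum_pos' (fun j _ => by positivity) ⟨j, Finset.mem_univ j, ?_⟩
  have := norm_pos_iff.2 hx
  positivity

/-- integrability of the powers -/
theorem Nf_int (hn : 0 < n) (f : ι → MvPolynomial (Fin n) ℂ) (d : ℕ)
    (hf : ∀ j, (f j).IsHomogeneous d) {s : ℝ}
    (hs : IntegrableOn (fun x => Nf f x ^ s) (Shl n)) (hpos : 0 < (n : ℝ) + d * s) :
    IntegrableOn (fun x => Nf f x ^ s) (closedBall 0 1) := by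
  have hmeas : Measurable fun x => Nf f x ^ s := (continuous_Nf f).measurable.pow_const _
  have hnn : ∀ x, 0 ≤ Nf f x ^ s := fun x => Real.rpow_nonneg (Nf_nonneg f x) _
  refine ⟨hmeas.aestronglyMeasurable, ?_⟩
  rw [hasFiniteIntegral_iff_ofReal (Eventually.of_forall hnn)]
  refine lt_of_le_of_ne le_top ?_
  have hfr := finrank_pi_complex n
  refine Sh.shell_sum volume (by rw [hfr]; omega) (fun x => ENNReal.ofReal (Nf f x ^ s))
    (ENNReal.ofReal ((1 / 2 : ℝ) ^ (2 * d * s))) ?_ ?_ ?_
  · intro x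
    rw [← ENNReal.ofReal_mul (by positivity)]
    refine ENNReal.ofReal_le_ofReal (le_of_eq ?_)
    rw [Nf_smul f d hf, abs_of_pos (by norm_num : (0 : ℝ) < 1 / 2),
      Real.mul_rpow (by positivity) (Nf_nonneg f x), ← Real.rpow_natCast,
      ← Real.rpow_mul (by norm_num)]
    push_cast
    rfl
  · rw [← ENNReal.ofReal_mul (by positivity), ← ENNReal.ofReal_one]
    refine (ENNReal.ofReal_lt_ofReal_iff zero_lt_one).2 ?_
    rw [hfr, ← Real.rpow_natCast, ← Real.rpow_add (by norm_num)]
    refine Real.rpow_lt_one (by norm_num) (by norm_num) ?_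
    push_cast
    linarith
  · have h1 := hs.2
    rw [hasFiniteIntegral_iff_ofReal (Eventually.of_forall fun x =>
      Real.rpow_nonneg (Nf_nonneg f x) _)] at h1
    refine ne_of_lt (lt_of_le_of_lt ?_ h1)
    have hsub : Sh.Sl (Fin n → ℂ) 0 ⊆ Shl n := by
      rintro x ⟨h2, h3⟩
      simp only [zero_add, pow_one, pow_zero] at h2 h3
      exact ⟨h2.le, h3⟩
    exact lintegral_mono_set hsub

theorem chi_test {χ : (Fin n → ℂ) → ℝ} (hχ : XCut χ) :
    Test (closedBall (0 : Fin n → ℂ) (3 / 4)) (fun x => (χ x : ℂ)) := by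
  constructor
  · exact Complex.ofRealCLM.contDiff.comp hχ.smooth
  · refine closure_minimal ?_ isClosed_closedBall
    intro v hv
    rw [Function.mem_support] at hv
    rw [mem_closedBall_zero_iff]
    by_contra hcon
    push Not at hcon
    exact hv (by rw [hχ.zero _ hcon.le]; simp)

/-- **The root if the vertex computes the log canonical threshold.** -/
theorem light_root (hn : 0 < n) (f : ι → MvPolynomial (Fin n) ℂ) (d : ℕ) (hd : 0 < d)
    (hf : ∀ j, (f j).IsHomogeneous d) (hne : ∃ j, f j ≠ 0) (hl : LctGe f ((n : ℝ) / d))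
    (b : Polynomial ℂ) (hb : IsFunctionalEq f b) : b.eval ((-((n : ℝ) / d) : ℝ) : ℂ) = 0 := by
  classical
  obtain ⟨χ, hχ⟩ := exists_xcut n
  have hdR : (0 : ℝ) < d := by exact_mod_cast hd
  have hnR : (0 : ℝ) < n := by exact_mod_cast hn
  set s0 : ℝ := -((n : ℝ) / d) with hs0
  have hs00 : s0 < 0 := by
    have : 0 < (n : ℝ) / d := by positivity
    rw [hs0]; linarith
  have hds : (d : ℝ) * s0 = -n := by
    rw [hs0]
    field_simp
  have hI : ∀ s : ℝ, s0 < s → s < 0 → IntegrableOn (fun x => Nf f x ^ s) (closedBall 0 1) := by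
    intro s h1 h2
    refine Nf_int hn f d hf ?_ ?_
    · have := hl (-s) (by linarith) (by rw [hs0] at h1; linarith)
      rw [neg_neg] at this
      exact this
    · have : (d : ℝ) * s0 < d * s := mul_lt_mul_of_pos_left h1 hdR
      linarith
  have hK : IsCompact (closedBall (0 : Fin n → ℂ) (3 / 4)) := isCompact_closedBall _ _
  have hK1 : closedBall (0 : Fin n → ℂ) (3 / 4) ⊆ closedBall 0 1 :=
    closedBall_subset_closedBall (by norm_num)
  obtain ⟨M, hM⟩ := (isCompact_closedBall (0 : Fin n → ℂ) 1).exists_bound_of_continuousOn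
    (f := Nf f) (continuous_Nf f).continuousOn
  set M1 : ℝ := max 1 M with hM1
  have hM1' : 1 ≤ M1 := le_max_left _ _
  -- the shell
  set A : Set (Fin n → ℂ) := Sh.Sl (Fin n → ℂ) 1 with hA
  have hAm : MeasurableSet A := Sh.Sl_meas 1
  have hAsub : A ⊆ closedBall 0 (1 / 2) := by
    rintro x ⟨-, h2⟩
    rw [mem_closedBall_zero_iff]
    simpa using h2
  have hAμ : 0 < (volume A).toReal := by
    refine ENNReal.toReal_pos ?_ ?_
    · have hopen : IsOpen {x : Fin n → ℂ | (1 / 4 : ℝ) < ‖x‖ ∧ ‖x‖ < 1 / 2} :=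
        (isOpen_lt continuous_const continuous_norm).inter (isOpen_lt continuous_norm continuous_const)
      have hne2 : {x : Fin n → ℂ | (1 / 4 : ℝ) < ‖x‖ ∧ ‖x‖ < 1 / 2}.Nonempty := by
        have : Nonempty (Fin n) := ⟨⟨0, hn⟩⟩
        refine ⟨fun _ => ((3 / 8 : ℝ) : ℂ), ?_⟩
        have : ‖(fun _ : Fin n => ((3 / 8 : ℝ) : ℂ))‖ = 3 / 8 := by
          rw [pi_norm_const, Complex.norm_real, Real.norm_eq_abs, abs_of_pos (by norm_num)]
        constructor
        · rw [this]; norm_num
        · rw [this]; norm_num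
      have h1 := hopen.measure_pos volume hne2
      refine (lt_of_lt_of_le h1 (measure_mono ?_)).ne'
      rintro x ⟨h2, h3⟩
      refine ⟨?_, ?_⟩
      · norm_num
        linarith
      · norm_num
        linarith
    · exact ((measure_mono hAsub).trans_lt measure_closedBall_lt_top).ne
  set S0 : ℝ := (volume A).toReal * M1 ^ s0 with hS0
  have hS0p : 0 < S0 := mul_pos hAμ (Real.rpow_pos_of_pos (by linarith) _)
  have hL : 0 < Real.log 2 := Real.log_pos (by norm_num)
  have hmain := arch_mult hK f b hb χ (chi_test hχ) hχ.nonneg s0 hs00 1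
    (ae_restrict_of_ae (Nf_ae f hne)) (fun s h1 h2 => (hI s h1 h2).mono_set hK1)
    (S0 / (2 * d * Real.log 2)) 1 (by positivity) one_pos ?_
  · rw [pow_one, Polynomial.dvd_iff_isRoot, Polynomial.IsRoot.def] at hmain
    exact hmain
  intro s h1 h2 h3
  have hIs := hI s h1 h3
  have hnn : ∀ x, 0 ≤ Nf f x ^ s := fun x => Real.rpow_nonneg (Nf_nonneg f x) _
  have hIh : IntegrableOn (fun x => Nf f x ^ s) (closedBall 0 (1 / 2)) :=
    hIs.mono_set (closedBall_subset_closedBall (by norm_num))
  -- the lower bound by the half ball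
  have e1 : ∫ x in closedBall (0 : Fin n → ℂ) (1 / 2), Nf f x ^ s ≤
      ∫ x in closedBall (0 : Fin n → ℂ) (3 / 4), Nf f x ^ s * χ x := by
    have h4 : ∫ x in closedBall (0 : Fin n → ℂ) (1 / 2), Nf f x ^ s =
        ∫ x in closedBall (0 : Fin n → ℂ) (1 / 2), Nf f x ^ s * χ x := by
      refine setIntegral_congr_fun measurableSet_closedBall fun x hx => ?_
      rw [hχ.one x (by rw [mem_closedBall_zero_iff] at hx; exact hx), mul_one]
    rw [h4]
    refine setIntegral_mono_set ?_ (Eventually.of_forall fun x => mul_nonneg (hnn x) (hχ.nonneg x))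
      (Eventually.of_forall (closedBall_subset_closedBall (by norm_num)))
    refine (hIs.mono_set hK1).mono' ?_ (Eventually.of_forall fun x => ?_)
    · exact (((continuous_Nf f).measurable.pow_const _).mul
        hχ.smooth.continuous.measurable).aestronglyMeasurable
    · rw [norm_mul, Real.norm_eq_abs, Real.norm_eq_abs, abs_of_nonneg (hnn x),
        abs_of_nonneg (hχ.nonneg x)]
      exact mul_le_of_le_one_right (hnn x) (hχ.le_one x)
  -- self-similarity
  set θ : ℝ := (1 / 2 : ℝ) ^ (2 * n + 2 * d * s) with hθ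
  have e2 : ∫ x in closedBall (0 : Fin n → ℂ) (1 / 4), Nf f x ^ s =
      θ * ∫ x in closedBall (0 : Fin n → ℂ) (1 / 2), Nf f x ^ s := by
    have h4 := Measure.setIntegral_comp_smul_of_pos (volume : Measure (Fin n → ℂ))
      (fun x => Nf f x ^ s) (closedBall (0 : Fin n → ℂ) (1 / 2)) (by norm_num : (0 : ℝ) < 1 / 2)
    have h5 : (1 / 2 : ℝ) • closedBall (0 : Fin n → ℂ) (1 / 2) = closedBall 0 (1 / 4) := by
      rw [_root_.smul_closedBall _ _ (by norm_num), smul_zero, Real.norm_eq_abs,
        abs_of_pos (by norm_num : (0 : ℝ) < 1 / 2)]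
      norm_num
    rw [h5, finrank_pi_complex, smul_eq_mul] at h4
    have h6 : ∫ x in closedBall (0 : Fin n → ℂ) (1 / 2), Nf f ((1 / 2 : ℝ) • x) ^ s =
        (1 / 2 : ℝ) ^ (2 * d * s) * ∫ x in closedBall (0 : Fin n → ℂ) (1 / 2), Nf f x ^ s := by
      rw [← integral_const_mul]
      refine integral_congr_ae (Eventually.of_forall fun x => ?_)
      simp only
      rw [Nf_smul f d hf, abs_of_pos (by norm_num : (0 : ℝ) < 1 / 2),
        Real.mul_rpow (by positivity) (Nf_nonneg f x), ← Real.rpow_natCast,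
        ← Real.rpow_mul (by norm_num)]
      push_cast
      rfl
    rw [h6] at h4
    have h7 : (1 / 2 : ℝ) ^ (2 * n) ≠ 0 := by positivity
    have h8 : θ = (1 / 2 : ℝ) ^ (2 * n) * (1 / 2 : ℝ) ^ (2 * d * s) := by
      rw [hθ, Real.rpow_add (by norm_num), ← Real.rpow_natCast]
      push_cast
      rfl
    rw [h8, mul_assoc, h4, ← mul_assoc, mul_inv_cancel₀ h7, one_mul]
  have hAB : closedBall (0 : Fin n → ℂ) (1 / 2) = closedBall 0 (1 / 4) ∪ A := by
    ext x
    rw [Set.mem_union, mem_closedBall_zero_iff, mem_closedBall_zero_iff]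
    constructor
    · intro h
      by_cases h4 : ‖x‖ ≤ 1 / 4
      · exact Or.inl h4
      · push Not at h4
        refine Or.inr ⟨?_, ?_⟩
        · norm_num
          linarith
        · norm_num
          linarith
    · rintro (h | h)
      · linarith
      · have := h.2
        norm_num at this
        linarith
  have hdisj : Disjoint (closedBall (0 : Fin n → ℂ) (1 / 4)) A := by
    rw [Set.disjoint_left]
    intro x h4 h5
    rw [mem_closedBall_zero_iff] at h4
    have := h5.1
    norm_num at this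
    linarith
  have e3 : (∫ x in closedBall (0 : Fin n → ℂ) (1 / 2), Nf f x ^ s) * (1 - θ) =
      ∫ x in A, Nf f x ^ s := by
    have h4 : ∫ x in closedBall (0 : Fin n → ℂ) (1 / 2), Nf f x ^ s =
        (∫ x in closedBall (0 : Fin n → ℂ) (1 / 4), Nf f x ^ s) + ∫ x in A, Nf f x ^ s := by
      rw [hAB, setIntegral_union hdisj hAm
        (hIh.mono_set (closedBall_subset_closedBall (by norm_num))) (hIh.mono_set hAsub)]
    rw [e2] at h4
    linarith
  have e4 : S0 ≤ ∫ x in A, Nf f x ^ s := by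
    have h4 : ∫ x in A, M1 ^ s0 = S0 := by
      rw [setIntegral_const, smul_eq_mul, hS0]
      rfl
    rw [← h4]
    refine setIntegral_mono_ae_restrict (integrableOn_const
      ((measure_mono hAsub).trans_lt measure_closedBall_lt_top).ne) (hIh.mono_set hAsub) ?_
    filter_upwards [ae_restrict_of_ae (Nf_ae f hne), ae_restrict_mem hAm] with x hx hxA
    have h5 : Nf f x ≤ M1 := by
      have h6 := hM x ((hAsub.trans (closedBall_subset_closedBall (by norm_num))) hxA)
      rw [Real.norm_eq_abs] at h6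
      exact ((le_abs_self _).trans h6).trans (le_max_right _ _)
    calc M1 ^ s0 ≤ M1 ^ s := Real.rpow_le_rpow_of_exponent_le hM1' h1.le
      _ ≤ Nf f x ^ s := Real.rpow_le_rpow_of_nonpos hx h5 h3.le
  have e5 : 1 - θ ≤ 2 * d * Real.log 2 * (s - s0) := by
    have h4 : θ = Real.exp (-(2 * d * Real.log 2 * (s - s0))) := by
      rw [hθ, Real.rpow_def_of_pos (by norm_num)]
      congr 1
      rw [one_div, Real.log_inv]
      linear_combination (-2 * Real.log 2) * hds
    rw [h4]
    have := Real.add_one_le_exp (-(2 * d * Real.log 2 * (s - s0)))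
    linarith
  have hpos : 0 < s - s0 := by linarith
  have hI0 : 0 ≤ ∫ x in closedBall (0 : Fin n → ℂ) (1 / 2), Nf f x ^ s :=
    setIntegral_nonneg measurableSet_closedBall fun x _ => hnn x
  rw [pow_one]
  rw [div_le_iff₀ (by positivity)]
  calc S0 ≤ (∫ x in closedBall (0 : Fin n → ℂ) (1 / 2), Nf f x ^ s) * (1 - θ) := by
        rw [e3]; exact e4
    _ ≤ (∫ x in closedBall (0 : Fin n → ℂ) (1 / 2), Nf f x ^ s) *
        (2 * d * Real.log 2 * (s - s0)) := mul_le_mul_of_nonneg_left e5 hI0
    _ ≤ (∫ x in closedBall (0 : Fin n → ℂ) (3 / 4), Nf f x ^ s * χ x) *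
        (2 * d * Real.log 2 * (s - s0)) := mul_le_mul_of_nonneg_right e1 (by positivity)
    _ = _ := by ring

end Pool.Agent.H74D
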