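import Pool.Agent.H74A.Shell
import Pool.Agent.H74A.Base

set_option autoImplicit false
set_option linter.unusedSectionVars false
set_option linter.unusedVariables false

/-! # The divergence of the integral of `|a| ^ (-2)` near a zero of a polynomial -/

namespace Pool.Agent.H74C

open MvPolynomial MeasureTheory Filter Topology Complex Metric
open scoped ENNReal

/-- the function `|z| ^ (-2)` -/
noncomputable def iv (z : ℂ) : ℝ≥0∞ := (ENNReal.ofReal (‖z‖ ^ 2))⁻¹

theorem iv_pos (z : ℂ) : 0 < iv z := ENNReal.inv_pos.2 ENNReal.ofReal_ne_top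

theorem iv_mul {t : ℝ} (ht : 0 < t) (z : ℂ) : ENNReal.ofReal (t ^ 2) * iv (t * z) = iv z := by
  unfold iv
  rw [norm_mul, Complex.norm_real, Real.norm_eq_abs, abs_of_pos ht, mul_pow,
    ENNReal.ofReal_mul (by positivity), ENNReal.mul_inv (Or.inl ?_) (Or.inl ENNReal.ofReal_ne_top),
    ← mul_assoc, ENNReal.mul_inv_cancel ?_ ENNReal.ofReal_ne_top, one_mul]
  · exact (ENNReal.ofReal_pos.2 (by positivity)).ne'
  · exact (ENNReal.ofReal_pos.2 (by positivity)).ne'

theorem iv_meas : Measurable iv := by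
  unfold iv
  fun_prop

theorem iv_ball1 : ∫⁻ z in closedBall (0 : ℂ) 1, iv z = ⊤ := by
  by_contra h
  have hfr : Module.finrank ℝ ℂ = 2 := Complex.finrank_real_complex
  have h1 := Sh.vanish (volume : Measure ℂ) (by rw [hfr]; norm_num) iv iv h (by
    intro j x _
    rw [hfr, ← iv_mul (t := (1 / 2 : ℝ) ^ j) (by positivity) x, Complex.real_smul])
  rw [setLIntegral_eq_zero_iff measurableSet_closedBall iv_meas] at h1
  have h2 : (volume : Measure ℂ) (closedBall (0 : ℂ) 1) = 0 := by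
    refine measure_mono_null (t := {x | ¬(x ∈ closedBall (0 : ℂ) 1 → iv x = 0)}) ?_ h1
    intro x hx
    simp only [Set.mem_setOf_eq, Classical.not_imp]
    exact ⟨hx, (iv_pos x).ne'⟩
  have h3 : 0 < (volume : Measure ℂ) (closedBall (0 : ℂ) 1) := measure_closedBall_pos _ _ one_pos
  exact h3.ne' h2

theorem iv_ball {ρ : ℝ} (hρ : 0 < ρ) : ∫⁻ z in closedBall (0 : ℂ) ρ, iv z = ⊤ := by
  have hfr : Module.finrank ℝ ℂ = 2 := Complex.finrank_real_complex
  rw [Sh.slint_scale (volume : Measure ℂ) iv hρ (A := closedBall (0 : ℂ) 1)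
    measurableSet_closedBall measurableSet_closedBall, hfr,
    ← lintegral_const_mul' _ _ ENNReal.ofReal_ne_top]
  · have : ∀ x : ℂ, ENNReal.ofReal (ρ ^ 2) * iv (ρ • x) = iv x := fun x => by
      rw [Complex.real_smul]; exact iv_mul hρ x
    simp only [this]
    exact iv_ball1
  · intro x
    rw [mem_closedBall_zero_iff, mem_closedBall_zero_iff, norm_smul, Real.norm_eq_abs,
      abs_of_pos hρ]
    constructor
    · intro h; exact le_of_mul_le_mul_left (by linarith) hρ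
    · intro h; exact mul_le_of_le_one_right hρ.le h

/-- the divergence at a zero of a function of one variable -/
theorem one_div_zero {p : ℂ → ℂ} {R L : ℝ} (hL : 0 < L) {τ₀ : ℂ} (hτ : τ₀ ∈ ball (0 : ℂ) R)
    (hp : ∀ τ ∈ ball (0 : ℂ) R, ‖p τ‖ ≤ L * ‖τ - τ₀‖) :
    ∫⁻ τ in ball (0 : ℂ) R, iv (p τ) = ⊤ := by
  obtain ⟨ρ, hρ, hsub⟩ := Metric.nhds_basis_closedBall.mem_iff.1 (isOpen_ball.mem_nhds hτ)
  rw [eq_top_iff]
  have h1 : ∫⁻ τ in closedBall τ₀ ρ, iv (L * (τ - τ₀)) = ⊤ := by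
    have e1 : ∫⁻ τ in closedBall τ₀ ρ, iv (L * (τ - τ₀)) =
        ∫⁻ τ in closedBall (0 : ℂ) ρ, iv (L * τ) := by
      rw [← lintegral_indicator measurableSet_closedBall,
        ← lintegral_indicator measurableSet_closedBall]
      have e3 := lintegral_sub_right_eq_self (μ := (volume : Measure ℂ))
        ((closedBall (0 : ℂ) ρ).indicator fun τ : ℂ => iv (L * τ)) τ₀
      rw [← e3]
      refine lintegral_congr fun τ => ?_
      by_cases h : τ ∈ closedBall τ₀ ρ
      · have h' : τ - τ₀ ∈ closedBall (0 : ℂ) ρ := by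
          rw [mem_closedBall_zero_iff, ← dist_eq_norm]; exact h
        rw [Set.indicator_of_mem h, Set.indicator_of_mem h']
      · have h' : τ - τ₀ ∉ closedBall (0 : ℂ) ρ := by
          rw [mem_closedBall_zero_iff, ← dist_eq_norm]; exact h
        rw [Set.indicator_of_notMem h, Set.indicator_of_notMem h']
    rw [e1]
    have e2 : ∀ τ : ℂ, iv (L * τ) = ENNReal.ofReal (L ^ 2)⁻¹ * iv τ := by
      intro τ
      rw [← iv_mul hL τ, ← mul_assoc, ← ENNReal.ofReal_mul (by positivity),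
        inv_mul_cancel₀ (by positivity), ENNReal.ofReal_one, one_mul]
    simp only [e2]
    rw [lintegral_const_mul' _ _ ENNReal.ofReal_ne_top, iv_ball hρ, ENNReal.mul_top]
    exact (ENNReal.ofReal_pos.2 (by positivity)).ne'
  rw [← h1]
  refine (setLIntegral_mono' measurableSet_closedBall fun τ hτ => ?_).trans (lintegral_mono_set hsub)
  unfold iv
  rw [ENNReal.inv_le_inv]
  refine ENNReal.ofReal_le_ofReal ?_
  have := hp τ (hsub hτ)
  rw [norm_mul, Complex.norm_real, Real.norm_eq_abs, abs_of_pos hL]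
  gcongr

/-- zeros of the restrictions to near lines -/
theorem zero_near {E : Type} [NormedAddCommGroup E] [NormedSpace ℂ E] [FiniteDimensional ℂ E]
    (a : E → ℂ) (ha : Differentiable ℂ a) (x₀ v : E) (h0 : a x₀ = 0)
    (h1 : a (x₀ + v) ≠ 0) {ε₀ : ℝ} (hε₀ : 0 < ε₀) :
    ∃ r > 0, ∀ x ∈ ball x₀ r, ∃ τ : ℂ, ‖τ‖ < ε₀ ∧ a (x + τ • v) = 0 := by
  set φ : ℂ → ℂ := fun τ => a (x₀ + τ • v) with hφ
  have hlin : Differentiable ℂ fun τ : ℂ => x₀ + τ • v := by fun_prop
  have hφd : Differentiable ℂ φ := ha.comp hlin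
  have hφ0 : φ 0 = 0 := by simp only [hφ, zero_smul, add_zero, h0]
  have hφ1 : φ 1 ≠ 0 := by simpa only [hφ, one_smul] using h1
  -- isolated zeros
  have hiso : ∀ᶠ τ in 𝓝[≠] (0 : ℂ), φ τ ≠ 0 := by
    have han : AnalyticOnNhd ℂ φ Set.univ := hφd.differentiableOn.analyticOnNhd isOpen_univ
    rcases (han 0 (Set.mem_univ _)).eventually_eq_zero_or_eventually_ne_zero with h | h
    · exfalso
      have h2 := han.eqOn_zero_of_preconnected_of_eventuallyEq_zero isPreconnected_univ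
        (Set.mem_univ 0) h
      exact hφ1 (h2 (Set.mem_univ 1))
    · exact h
  rw [eventually_nhdsWithin_iff, Metric.eventually_nhds_iff] at hiso
  obtain ⟨ε₁, hε₁, hz⟩ := hiso
  set ε : ℝ := min ε₀ ε₁ / 2 with hε
  have hεp : 0 < ε := by rw [hε]; exact half_pos (lt_min hε₀ hε₁)
  have hεlt : ε < min ε₀ ε₁ := half_lt_self (lt_min hε₀ hε₁)
  have hε0 : ε < ε₀ := hεlt.trans_le (min_le_left _ _)
  have hε1 : ε < ε₁ := hεlt.trans_le (min_le_right _ _)
  have hsph : ∀ τ ∈ sphere (0 : ℂ) ε, φ τ ≠ 0 := by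
    intro τ hτ
    rw [mem_sphere_zero_iff_norm] at hτ
    refine hz (by rw [dist_zero_right]; linarith) ?_
    intro h
    rw [Set.mem_singleton_iff] at h
    rw [h, norm_zero] at hτ
    linarith
  obtain ⟨τ₁, hτ₁, hmin⟩ := (isCompact_sphere (0 : ℂ) ε).exists_isMinOn
    ((NormedSpace.sphere_nonempty (x := (0 : ℂ))).2 hεp.le) (f := fun τ => ‖φ τ‖)
    hφd.continuous.norm.continuousOn
  set δ : ℝ := ‖φ τ₁‖ with hδ
  have hδp : 0 < δ := norm_pos_iff.2 (hsph τ₁ hτ₁)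
  -- uniform continuity
  have hU : ∀ᶠ x in 𝓝 x₀, ∀ τ ∈ closedBall (0 : ℂ) ε, ‖a (x + τ • v) - φ τ‖ < δ / 2 := by
    have hc : Continuous fun q : E × ℂ => ‖a (q.1 + q.2 • v) - φ q.2‖ := by
      have h1 : Continuous fun q : E × ℂ => a (q.1 + q.2 • v) :=
        ha.continuous.comp (by fun_prop)
      exact (h1.sub (hφd.continuous.comp continuous_snd)).norm
    have h2 := (isCompact_closedBall (0 : ℂ) ε).eventually_forall_of_forall_eventually
      (x₀ := x₀) (P := fun x τ => ‖a (x + τ • v) - φ τ‖ < δ / 2) (by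
        intro τ _
        have h5 : ‖a (x₀ + τ • v) - φ τ‖ < δ / 2 := by
          have h4 : a (x₀ + τ • v) - φ τ = 0 := sub_self _
          rw [h4, norm_zero]; positivity
        have h3 := (hc.tendsto (x₀, τ)).eventually (gt_mem_nhds h5)
        exact h3)
    exact h2
  obtain ⟨r, hr, hball⟩ := Metric.eventually_nhds_iff.1 hU
  refine ⟨r, hr, fun x hx => ?_⟩
  have hx' := hball (mem_ball.1 hx)
  by_contra hcon
  push Not at hcon
  set p : ℂ → ℂ := fun τ => a (x + τ • v) with hp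
  have hpd : Differentiable ℂ p := ha.comp (by fun_prop)
  have hpne : ∀ τ ∈ closedBall (0 : ℂ) ε, p τ ≠ 0 := by
    intro τ hτ
    rw [mem_closedBall_zero_iff] at hτ
    exact hcon τ (by linarith)
  have hb : ∀ τ ∈ sphere (0 : ℂ) ε, δ / 2 ≤ ‖p τ‖ := by
    intro τ hτ
    have h1 := hx' τ (sphere_subset_closedBall hτ)
    have h2 : δ ≤ ‖φ τ‖ := hmin hτ
    have h3 : ‖φ τ‖ ≤ ‖p τ‖ + ‖p τ - φ τ‖ := by
      have := norm_sub_le (p τ) (p τ - φ τ)
      rwa [sub_sub_cancel] at this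
    linarith
  have h0' : ‖p 0‖ < δ / 2 := by
    have h1 := hx' 0 (mem_closedBall_self hεp.le)
    rwa [hφ0, sub_zero] at h1
  have hmax := Complex.norm_le_of_forall_mem_frontier_norm_le (f := fun τ => (p τ)⁻¹)
    (U := ball (0 : ℂ) ε) isBounded_ball (C := (δ / 2)⁻¹) (by
      refine DifferentiableOn.diffContOnCl ?_
      rw [closure_ball _ hεp.ne']
      exact hpd.differentiableOn.inv hpne) (by
      intro τ hτ
      rw [frontier_ball _ hεp.ne'] at hτ
      rw [norm_inv]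
      exact inv_anti₀ (by positivity) (hb τ hτ)) (z := 0) (by
      rw [closure_ball _ hεp.ne']; exact mem_closedBall_self hεp.le)
  simp only [norm_inv] at hmax
  have hp0 : 0 < ‖p 0‖ := norm_pos_iff.2 (hpne 0 (mem_closedBall_self hεp.le))
  have := (inv_le_inv₀ hp0 (by positivity)).1 hmax
  linarith

/-- **The divergence of the integral of `|a| ^ (-2)` near a zero.** -/
theorem div_zero {n : ℕ} (a : (Fin n → ℂ) → ℂ) (ha : Differentiable ℂ a) (x₀ v : Fin n → ℂ)
    (h0 : a x₀ = 0) (h1 : a (x₀ + v) ≠ 0) {U : Set (Fin n → ℂ)} (hUm : MeasurableSet U)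
    (hU : U ∈ 𝓝 x₀) : ∫⁻ x in U, iv (a x) = ⊤ := by
  obtain ⟨ρ, hρ, hsub⟩ := Metric.mem_nhds_iff.1 hU
  set ε₀ : ℝ := ρ / (2 * (‖v‖ + 1)) with hε₀
  have hvp : 0 < 2 * (‖v‖ + 1) := by positivity
  have hε : 0 < ε₀ := by positivity
  obtain ⟨r, hr, hz⟩ := zero_near a ha x₀ v h0 h1 hε
  set r' : ℝ := min r (ρ / 2) with hr'
  have hr'0 : 0 < r' := lt_min hr (by positivity)
  have hin : ∀ x ∈ ball x₀ r', ∀ τ ∈ ball (0 : ℂ) ε₀, x + τ • v ∈ U := by
    intro x hx τ hτ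
    apply hsub
    rw [mem_ball, dist_eq_norm] at hx ⊢
    rw [mem_ball_zero_iff] at hτ
    have e1 : ‖τ • v‖ ≤ ρ / 2 := by
      rw [norm_smul]
      calc ‖τ‖ * ‖v‖ ≤ ε₀ * (‖v‖ + 1) := by
            apply mul_le_mul hτ.le (by linarith) (norm_nonneg _) hε.le
        _ = ρ / 2 := by rw [hε₀]; field_simp
    calc ‖x + τ • v - x₀‖ = ‖(x - x₀) + τ • v‖ := by congr 1; abel
      _ ≤ ‖x - x₀‖ + ‖τ • v‖ := norm_add_le _ _
      _ < ρ / 2 + ρ / 2 := by
          have := min_le_right r (ρ / 2)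
          linarith
      _ = ρ := by ring
  have hinner : ∀ x ∈ ball x₀ r', ∫⁻ τ in ball (0 : ℂ) ε₀, iv (a (x + τ • v)) = ⊤ := by
    intro x hx
    obtain ⟨τ₀, hτ₀, hτ₀'⟩ := hz x (ball_subset_ball (min_le_left _ _) hx)
    set p : ℂ → ℂ := fun τ => a (x + τ • v) with hp
    have hpd : Differentiable ℂ p := ha.comp (by fun_prop)
    have hds : Continuous (dslope p τ₀) := by
      rw [← continuousOn_univ, continuousOn_dslope Filter.univ_mem]
      exact ⟨hpd.continuous.continuousOn, hpd τ₀⟩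
    obtain ⟨L, hL⟩ := (isCompact_closedBall (0 : ℂ) ε₀).exists_bound_of_continuousOn
      hds.continuousOn
    refine one_div_zero (L := max L 1) (τ₀ := τ₀) (by positivity)
      (by rw [mem_ball_zero_iff]; exact hτ₀) fun τ hτ => ?_
    have e1 := sub_smul_dslope p τ₀ τ
    have e2 : p τ = (τ - τ₀) * dslope p τ₀ τ := by
      rw [smul_eq_mul] at e1
      rw [e1]
      have : p τ₀ = 0 := hτ₀'
      rw [this, sub_zero]
    change ‖p τ‖ ≤ _
    rw [e2, norm_mul, mul_comm]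
    refine mul_le_mul_of_nonneg_right ?_ (norm_nonneg _)
    exact (hL τ (ball_subset_closedBall hτ)).trans (le_max_left _ _)
  have hmeas : Measurable fun q : ℂ × (Fin n → ℂ) => iv (a (q.2 + q.1 • v)) :=
    iv_meas.comp (ha.continuous.comp (by fun_prop)).measurable
  have hsw : ∫⁻ τ in ball (0 : ℂ) ε₀, ∫⁻ x in ball x₀ r', iv (a (x + τ • v)) =
      ∫⁻ x in ball x₀ r', ∫⁻ τ in ball (0 : ℂ) ε₀, iv (a (x + τ • v)) :=
    lintegral_lintegral_swap (f := fun τ x => iv (a (x + τ • v))) hmeas.aemeasurable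
  have e3 : ∫⁻ x in ball x₀ r', ∫⁻ τ in ball (0 : ℂ) ε₀, iv (a (x + τ • v)) = ⊤ := by
    rw [setLIntegral_congr_fun measurableSet_ball (g := fun _ => (⊤ : ℝ≥0∞)) hinner,
      setLIntegral_const]
    exact ENNReal.top_mul (measure_ball_pos _ _ hr'0).ne'
  have e4 : ∫⁻ τ in ball (0 : ℂ) ε₀, ∫⁻ x in ball x₀ r', iv (a (x + τ • v)) ≤
      ∫⁻ τ in ball (0 : ℂ) ε₀, ∫⁻ x in U, iv (a x) := by
    refine setLIntegral_mono' measurableSet_ball fun τ hτ => ?_
    rw [← lintegral_indicator measurableSet_ball, ← lintegral_indicator hUm]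
    have e5 := lintegral_add_right_eq_self (μ := (volume : Measure (Fin n → ℂ)))
      (U.indicator fun x => iv (a x)) (τ • v)
    rw [← e5]
    refine lintegral_mono fun x => ?_
    by_cases hx : x ∈ ball x₀ r'
    · rw [Set.indicator_of_mem hx, Set.indicator_of_mem (hin x hx τ hτ)]
    · rw [Set.indicator_of_notMem hx]
      exact zero_le
  rw [hsw, e3, top_le_iff, setLIntegral_const] at e4
  by_contra hne
  exact ENNReal.mul_ne_top hne measure_ball_lt_top.ne e4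

/-- **The divergence at the tangent cone of a point of multiplicity `d - 1`.** -/
theorem tang_div {n m : ℕ} (hn : 0 < n) (a c : (Fin n → ℂ) → ℂ) (ha : Differentiable ℂ a)
    (hc : Continuous c)
    (has : ∀ (t : ℝ) (x : Fin n → ℂ), a (t • x) = (t : ℂ) ^ m * a x)
    (hcs : ∀ (t : ℝ) (x : Fin n → ℂ), c (t • x) = (t : ℂ) ^ (m + 1) * c x)
    (hae : ∀ᵐ x, a x ≠ 0)
    (x₀ v : Fin n → ℂ) (h0 : a x₀ = 0) (h1 : a (x₀ + v) ≠ 0) (h2 : c x₀ ≠ 0) {β : ℝ}
    (hβ : β * ((m : ℝ) + 1) = n + 1) (hβ0 : 0 ≤ β) (hβ1 : β < 1) :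
    ∫⁻ x in {x | a x ≠ 0 ∧ 2 * ‖a x‖ ≤ ‖c x‖ ∧ ‖x‖ ≤ 1 / 2}, ENNReal.ofReal ((‖a x‖ ^ 2) ^ (-β)) = ⊤ := by
  have hx0 : x₀ ≠ 0 := by
    rintro rfl
    have := hcs 0 0
    rw [zero_smul, Complex.ofReal_zero, zero_pow (Nat.succ_ne_zero m), zero_mul] at this
    exact h2 this
  have hxn : 0 < ‖x₀‖ := norm_pos_iff.2 hx0
  -- normalization
  set t₀ : ℝ := 1 / (4 * ‖x₀‖) with ht₀
  have ht0 : 0 < t₀ := by positivity
  have ht0c : (t₀ : ℂ) ≠ 0 := Complex.ofReal_ne_zero.2 ht0.ne'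
  set y₀ : Fin n → ℂ := t₀ • x₀ with hy₀
  have hy1 : ‖y₀‖ = 1 / 4 := by
    rw [hy₀, norm_smul, Real.norm_eq_abs, abs_of_pos ht0, ht₀]
    field_simp
  have hya : a y₀ = 0 := by rw [hy₀, has, h0, mul_zero]
  have hyv : a (y₀ + t₀ • v) ≠ 0 := by
    rw [hy₀, ← smul_add, has]
    exact mul_ne_zero (pow_ne_zero _ ht0c) h1
  have hyc : c y₀ ≠ 0 := by
    rw [hy₀, hcs]
    exact mul_ne_zero (pow_ne_zero _ ht0c) h2
  set c₀ : ℝ := ‖c y₀‖ / 2 with hc₀
  have hc0 : 0 < c₀ := by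
    have := norm_pos_iff.2 hyc
    positivity
  have e1 : ∀ᶠ y in 𝓝 y₀, c₀ < ‖c y‖ := hc.norm.continuousAt.eventually (lt_mem_nhds (by
    rw [hc₀]; have := norm_pos_iff.2 hyc; linarith))
  have e2 : ∀ᶠ y in 𝓝 y₀, ‖a y‖ < c₀ / 2 := ha.continuous.norm.continuousAt.eventually
    (gt_mem_nhds (by change ‖a y₀‖ < c₀ / 2; rw [hya, norm_zero]; positivity))
  obtain ⟨ρ, hρ, hball⟩ := Metric.eventually_nhds_iff_ball.1 (e1.and e2)
  set ρ' : ℝ := min ρ (1 / 16) with hρ'
  have hρ0 : 0 < ρ' := lt_min hρ (by norm_num)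
  set A : Set (Fin n → ℂ) := ball y₀ ρ' with hA
  have hAc : ∀ y ∈ A, c₀ < ‖c y‖ ∧ ‖a y‖ < c₀ / 2 := fun y hy =>
    hball y (ball_subset_ball (min_le_left _ _) hy)
  have hAn : ∀ y ∈ A, 3 / 16 < ‖y‖ ∧ ‖y‖ < 5 / 16 := by
    intro y hy
    have h3 : ‖y - y₀‖ < 1 / 16 := by
      rw [hA, mem_ball, dist_eq_norm] at hy
      exact hy.trans_le (min_le_right _ _)
    have h4 := abs_lt.1 ((abs_norm_sub_norm_le y y₀).trans_lt h3)
    rw [hy1] at h4
    constructor <;> linarith [h4.1, h4.2]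
  have hAm : MeasurableSet A := measurableSet_ball
  have hdiv : ∫⁻ y in A, iv (a y) = ⊤ := by
    refine div_zero a ha y₀ ((t₀ : ℂ) • v) hya ?_ hAm (ball_mem_nhds _ hρ0)
    have : ((t₀ : ℂ) • v : Fin n → ℂ) = t₀ • v := by
      funext i
      simp
    rw [this]
    exact hyv
  set R : Set (Fin n → ℂ) := {x | a x ≠ 0 ∧ 2 * ‖a x‖ ≤ ‖c x‖ ∧ ‖x‖ ≤ 1 / 2} with hR
  have hRm : MeasurableSet R := by
    refine (isOpen_ne_fun ha.continuous continuous_const).measurableSet.inter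
      (MeasurableSet.inter ?_ ?_)
    · exact (isClosed_le (continuous_const.mul ha.continuous.norm) hc.norm).measurableSet
    · exact (isClosed_le continuous_norm continuous_const).measurableSet
  set g : (Fin n → ℂ) → ℝ≥0∞ := fun x => ENNReal.ofReal ((‖a x‖ ^ 2) ^ (-β)) with hg
  have hgm : Measurable g := by
    have : Measurable fun x => ‖a x‖ := ha.continuous.norm.measurable
    exact ((this.pow_const 2).pow_const (-β)).ennreal_ofReal
  set G : (Fin n → ℂ) → ℝ≥0∞ := R.indicator g with hG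
  have hGm : Measurable G := hgm.indicator hRm
  have hfr : Module.finrank ℝ (Fin n → ℂ) = 2 * n := by
    rw [Module.finrank_pi_fintype]
    simp [Complex.finrank_real_complex, mul_comm]
  -- the sets `2 ^ (-j) A`
  set B : ℕ → Set (Fin n → ℂ) := fun j => {x | ((2 : ℝ) ^ j) • x ∈ A} with hB
  have hBm : ∀ j, MeasurableSet (B j) := fun j =>
    (continuous_const_smul ((2 : ℝ) ^ j)).measurable hAm
  have hBd : Pairwise (Function.onFun Disjoint B) := by
    have key : ∀ i j : ℕ, i < j → Disjoint (B i) (B j) := by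
      intro i j hij
      rw [Set.disjoint_left]
      intro x h3 h4
      have h5 := (hAn _ h3).1
      have h6 := (hAn _ h4).2
      rw [norm_smul, Real.norm_eq_abs, abs_of_pos (by positivity)] at h5 h6
      have h7 : (2 : ℝ) ^ i * 2 ≤ 2 ^ j := by
        rw [← pow_succ]
        exact pow_le_pow_right₀ (by norm_num) hij
      have h8 : (2 : ℝ) ^ i * 2 * ‖x‖ ≤ 2 ^ j * ‖x‖ := by gcongr
      linarith
    intro i j hij
    rcases lt_or_gt_of_ne hij with h | h
    · exact key i j h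
    · exact (key j i h).symm
  have hstep : ∀ j, ∫⁻ x in B j, G x =
      ∫⁻ y in A, ENNReal.ofReal (((1 / 2 : ℝ) ^ j) ^ (2 * n)) * G (((1 / 2 : ℝ) ^ j) • y) := by
    intro j
    rw [Sh.slint_scale (volume : Measure (Fin n → ℂ)) G (t := (1 / 2 : ℝ) ^ j) (by positivity) hAm
      (hBm j), hfr, lintegral_const_mul' _ _ ENNReal.ofReal_ne_top]
    intro x
    change ((2 : ℝ) ^ j) • ((1 / 2 : ℝ) ^ j) • x ∈ A ↔ x ∈ A
    rw [smul_smul, ← mul_pow]
    norm_num
  have hsum : ∫⁻ y in A, ∑' j, ENNReal.ofReal (((1 / 2 : ℝ) ^ j) ^ (2 * n)) *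
      G (((1 / 2 : ℝ) ^ j) • y) ≤ ∫⁻ x, G x := by
    have hm : ∀ j : ℕ, AEMeasurable (fun y => ENNReal.ofReal (((1 / 2 : ℝ) ^ j) ^ (2 * n)) *
        G (((1 / 2 : ℝ) ^ j) • y)) (volume.restrict A) := fun j =>
      ((hGm.comp (measurable_const_smul ((1 / 2 : ℝ) ^ j))).const_mul _).aemeasurable
    rw [lintegral_tsum hm]
    calc _ = ∑' j, ∫⁻ x in B j, G x := by simp only [hstep]
      _ = ∫⁻ x in ⋃ j, B j, G x := (lintegral_iUnion hBm hBd _).symm
      _ ≤ _ := setLIntegral_le_lintegral _ _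
  have hm1 : (0 : ℝ) < (m : ℝ) + 1 := by positivity
  set κ : ℝ := 2 - 2 * β with hκ
  have hκ0 : 0 ≤ κ := by rw [hκ]; linarith
  have hlow : ∫⁻ y in A, ENNReal.ofReal ((c₀ / 4) ^ κ) * iv (a y) ≤
      ∫⁻ y in A, ∑' j, ENNReal.ofReal (((1 / 2 : ℝ) ^ j) ^ (2 * n)) *
        G (((1 / 2 : ℝ) ^ j) • y) := by
    refine lintegral_mono_ae ?_
    filter_upwards [ae_restrict_mem hAm, ae_restrict_of_ae hae] with y hy hay
    obtain ⟨hcy, hay2⟩ := hAc y hy
    have hap : 0 < ‖a y‖ := norm_pos_iff.2 hay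
    have hq : 1 ≤ ‖c y‖ / (2 * ‖a y‖) := by
      rw [le_div_iff₀ (by positivity)]
      linarith
    obtain ⟨j, hj1, hj2⟩ := exists_nat_pow_near hq (by norm_num : (1 : ℝ) < 2)
    refine le_trans ?_ (ENNReal.le_tsum j)
    set t : ℝ := (1 / 2 : ℝ) ^ j with ht
    have htp : 0 < t := by positivity
    have ht2 : t * 2 ^ j = 1 := by rw [ht, ← mul_pow]; norm_num
    have hmem : t • y ∈ R := by
      refine ⟨?_, ?_, ?_⟩
      · rw [has]
        exact mul_ne_zero (pow_ne_zero _ (Complex.ofReal_ne_zero.2 htp.ne')) hay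
      · rw [has, hcs, norm_mul, norm_mul, norm_pow, norm_pow, Complex.norm_real, Real.norm_eq_abs,
          abs_of_pos htp, pow_succ]
        have h3 : 2 * ‖a y‖ ≤ t * ‖c y‖ := by
          rw [le_div_iff₀ (by positivity)] at hj1
          calc 2 * ‖a y‖ = t * (2 ^ j * (2 * ‖a y‖)) := by rw [← mul_assoc, ht2, one_mul]
            _ ≤ t * ‖c y‖ := by gcongr
        calc 2 * (t ^ m * ‖a y‖) = t ^ m * (2 * ‖a y‖) := by ring
          _ ≤ t ^ m * (t * ‖c y‖) := by gcongr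
          _ = _ := by ring
      · rw [norm_smul, Real.norm_eq_abs, abs_of_pos htp]
        have h3 : t ≤ 1 := pow_le_one₀ (by norm_num) (by norm_num)
        have h4 := (hAn y hy).2
        have h5 := norm_nonneg y
        nlinarith
    rw [hG, Set.indicator_of_mem hmem, hg]
    simp only
    have hiv : iv (a y) = ENNReal.ofReal ((‖a y‖ ^ 2)⁻¹) := by
      unfold iv
      rw [ENNReal.ofReal_inv_of_pos (by positivity)]
    rw [hiv, ← ENNReal.ofReal_mul (by positivity), ← ENNReal.ofReal_mul (by positivity)]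
    refine ENNReal.ofReal_le_ofReal ?_
    rw [has, norm_mul, norm_pow, Complex.norm_real, Real.norm_eq_abs, abs_of_pos htp]
    -- everything in terms of real powers
    have hjr : (c₀ / 4) ≤ ‖a y‖ * (2 : ℝ) ^ j := by
      rw [div_lt_iff₀ (by positivity), pow_succ] at hj2
      nlinarith
    have h3 : (t ^ (2 * n)) * ((t ^ m * ‖a y‖) ^ 2) ^ (-β) =
        (t ^ (-κ)) * (‖a y‖ ^ (-(2 * β))) := by
      rw [← Real.rpow_natCast t (2 * n), mul_pow, Real.mul_rpow (by positivity) (by positivity),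
        ← pow_mul, ← Real.rpow_natCast t (m * 2), ← Real.rpow_mul htp.le, ← Real.rpow_natCast _ 2,
        ← Real.rpow_mul (norm_nonneg _), ← mul_assoc, ← Real.rpow_add htp]
      congr 2
      · rw [hκ]; push_cast; linarith
      · push_cast; ring
    rw [h3]
    have h4 : (‖a y‖ ^ 2)⁻¹ = ‖a y‖ ^ (-κ) * ‖a y‖ ^ (-(2 * β)) := by
      rw [← Real.rpow_add hap, ← Real.rpow_natCast, ← Real.rpow_neg (norm_nonneg _)]
      congr 1
      rw [hκ]; push_cast; ring
    rw [h4, ← mul_assoc]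
    refine mul_le_mul_of_nonneg_right ?_ (by positivity)
    have h5 : (c₀ / 4) ^ κ ≤ (‖a y‖ * (2 : ℝ) ^ j) ^ κ :=
      Real.rpow_le_rpow (by positivity) hjr hκ0
    have h6 : (2 : ℝ) ^ j = t⁻¹ := by
      rw [ht, ← inv_pow]
      norm_num
    calc (c₀ / 4) ^ κ * ‖a y‖ ^ (-κ) ≤ (‖a y‖ * (2 : ℝ) ^ j) ^ κ * ‖a y‖ ^ (-κ) := by gcongr
      _ = t ^ (-κ) := by
          rw [Real.mul_rpow (by positivity) (by positivity), h6, Real.inv_rpow htp.le,
            Real.rpow_neg htp.le, mul_right_comm, ← Real.rpow_add hap, add_neg_cancel,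
            Real.rpow_zero, one_mul]
  have hfin : ∫⁻ y in A, ENNReal.ofReal ((c₀ / 4) ^ κ) * iv (a y) = ⊤ := by
    rw [lintegral_const_mul' _ _ ENNReal.ofReal_ne_top, hdiv, ENNReal.mul_top]
    exact (ENNReal.ofReal_pos.2 (by positivity)).ne'
  rw [hfin, top_le_iff] at hlow
  rw [hlow, top_le_iff, hG, lintegral_indicator hRm] at hsum
  exact hsum

end Pool.Agent.H74C
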