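import Pool.Agent.H74A.Neg4
import Pool.Agent.H74A.Tang

set_option autoImplicit false
set_option linter.unusedSectionVars false
set_option linter.unusedVariables false

/-! # Points of multiplicity `d - 1`, and the theorem -/

namespace Pool.Agent.H74C

open MvPolynomial MeasureTheory Filter Topology Complex Metric
open Pool.Agent.H74A (pr pr_roots exists_roots cf cf_bound hol_int sym_cont)
open Pool.Agent.Y230.AR (Test)
open Pool.Agent.H628R4.TP (weylS IsBFunction)

theorem eta_int {η : ℂ → ℝ} (hη : Cut η) {p : ℝ} (hp : -2 < p) (hp0 : p ≤ 0) (r : ℂ) :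
    Integrable fun z => η z * ‖z - r‖ ^ p := by
  refine ((int_shift hp hp0 r).1.integrable_indicator measurableSet_ball).mono' ?_ ?_
  · exact (hη.cont.measurable.mul (by fun_prop)).aestronglyMeasurable
  · filter_upwards with z
    by_cases hz1 : z ∈ ball (0 : ℂ) 1
    · rw [Set.indicator_of_mem hz1, norm_mul, Real.norm_eq_abs, abs_of_nonneg (hη.nonneg z),
        Real.norm_eq_abs, abs_of_nonneg (Real.rpow_nonneg (norm_nonneg _) _)]
      exact mul_le_of_le_one_left (Real.rpow_nonneg (norm_nonneg _) _) (hη.le_one z)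
    · rw [Set.indicator_of_notMem hz1, hη.zero z (by
        rw [mem_ball_zero_iff, not_lt] at hz1; exact hz1)]
      simp

theorem eta_int0 {η : ℂ → ℝ} (hη : Cut η) : Integrable η := by
  have := eta_int hη (p := 0) (by norm_num) le_rfl 0
  simpa using this

/-- the lower bound of `H` for `k = 1` and a zero outside of the disc of radius 2 -/
theorem HR_low {η : ℂ → ℝ} (hη : RCut η) {β : ℝ} (h0 : 0 < β) (h1 : β < 1) :
    ∃ c : ℝ, 0 < c ∧ ∀ r : Fin 1 → ℂ, 2 ≤ ‖r 0‖ → c ≤ HR η 1 (-β) r := by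
  have hp : (-2 : ℝ) < -2 * β := by linarith
  have hp0 : -2 * β ≤ 0 := by linarith
  refine ⟨(∫ z, η z * ‖z - 0‖ ^ (-2 * β)) - ∫ z, η z, ?_, fun r hr => ?_⟩
  · rw [← integral_sub (eta_int hη.toCut hp hp0 0) (eta_int0 hη.toCut)]
    have hne : ∀ᵐ z : ℂ, z ≠ 0 := ae_ne1 0
    have hnn : 0 ≤ᵐ[volume] fun z => η z * ‖z - 0‖ ^ (-2 * β) - η z := by
      filter_upwards [hne] with z hz
      have h2 : η z * ‖z - 0‖ ^ (-2 * β) - η z = η z * (‖z - 0‖ ^ (-2 * β) - 1) := by ring
      change 0 ≤ η z * ‖z - 0‖ ^ (-2 * β) - η z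
      rw [h2, sub_zero]
      by_cases hz1 : ‖z‖ ≤ 1
      · refine mul_nonneg (hη.nonneg z) (sub_nonneg.2 ?_)
        exact Real.one_le_rpow_of_pos_of_le_one_of_nonpos (norm_pos_iff.2 hz) hz1 hp0
      · rw [hη.zero z (not_le.1 hz1).le, zero_mul]
    rw [integral_pos_iff_support_of_nonneg_ae hnn
      ((eta_int hη.toCut hp hp0 0).sub (eta_int0 hη.toCut))]
    have hsub : ball (0 : ℂ) (1 / 2) \ {0} ⊆
        Function.support fun z => η z * ‖z - 0‖ ^ (-2 * β) - η z := by
      rintro z ⟨hz, hz0⟩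
      rw [mem_ball_zero_iff] at hz
      rw [Function.mem_support, hη.one z hz.le, one_mul, sub_zero]
      have h3 : 1 < ‖z‖ ^ (-2 * β) :=
        Real.one_lt_rpow_of_pos_of_lt_one_of_neg (norm_pos_iff.2 hz0) (by linarith) (by linarith)
      linarith
    refine lt_of_lt_of_le ?_ (measure_mono hsub)
    have h4 : (volume : Measure ℂ) (ball (0 : ℂ) (1 / 2) \ {0}) = volume (ball (0 : ℂ) (1 / 2)) :=
      measure_diff_null (measure_singleton _)
    rw [h4]
    exact measure_ball_pos _ _ (by norm_num)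
  · have hkβ : -1 / ((1 : ℕ) : ℝ) < -β := by
      rw [Nat.cast_one, div_one]; linarith
    have e := Hk_eq hη.toCut one_pos (s := ((-β : ℝ) : ℂ)) (by simpa using hkβ)
      (by rw [Complex.ofReal_re]; linarith) r
    rw [Dk_ofReal, Pk_ofReal] at e
    simp only [Pk_ofReal] at e
    have e2 : HR η 1 (-β) r = DR η 1 (-β) r - ((∫ z, η z * ‖z - r 0‖ ^ (2 * (1 : ℕ) * (-β))) -
        ∫ z, η z * ‖z - 0‖ ^ (2 * (1 : ℕ) * (-β))) := by
      have e3 : Hk η 1 ((-β : ℝ) : ℂ) r = ((DR η 1 (-β) r -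
          ((∫ z, η z * ‖z - r 0‖ ^ (2 * (1 : ℕ) * (-β))) -
            ∫ z, η z * ‖z - 0‖ ^ (2 * (1 : ℕ) * (-β))) : ℝ) : ℂ) := by
        rw [e]
        simp
      unfold HR
      rw [e3, Complex.ofReal_re]
    have e4 : (2 : ℝ) * ((1 : ℕ) : ℝ) * (-β) = -2 * β := by push_cast; ring
    rw [e2, e4]
    have h2 : ∫ z, η z * ‖z - r 0‖ ^ (-2 * β) ≤ ∫ z, η z := by
      refine integral_mono (eta_int hη.toCut hp hp0 _) (eta_int0 hη.toCut) fun z => ?_
      simp only
      by_cases hz1 : ‖z‖ ≤ 1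
      · refine mul_le_of_le_one_right (hη.nonneg z) ?_
        refine Real.rpow_le_one_of_one_le_of_nonpos ?_ hp0
        have h3 := norm_sub_norm_le (r 0) z
        rw [norm_sub_rev] at h3
        linarith
      · rw [hη.zero z (not_le.1 hz1).le, zero_mul]
    have h3 := DR_nonneg hη.toCut one_pos (-β) r
    linarith

section

variable {n k m : ℕ} {f : MvPolynomial (Fin (n + 1)) ℂ}

/-- the values of a form of degree one in the first variable -/
theorem Dat.eval_one (h : Dat 1 m f) (z : ℂ) (x : Fin n → ℂ) :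
    MvPolynomial.eval (Fin.cons z x : Fin (n + 1) → ℂ) f =
      la f x * z + MvPolynomial.eval (Fin.cons 0 x : Fin (n + 1) → ℂ) f := by
  have h1 : ∀ w : ℂ, MvPolynomial.eval (Fin.cons w x : Fin (n + 1) → ℂ) f =
      MvPolynomial.eval x ((finSuccEquiv ℂ n f).coeff 0) + la f x * w := by
    intro w
    rw [MvPolynomial.eval_eq_eval_mv_eval',
      Polynomial.eval_eq_sum_range' (n := 2) (by
        refine lt_of_le_of_lt Polynomial.natDegree_map_le ?_
        rw [h.deg]; norm_num), Finset.sum_range_succ, Finset.sum_range_one, Polynomial.coeff_map,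
      Polynomial.coeff_map, pow_zero, mul_one, pow_one]
    have h2 : la f x = MvPolynomial.eval x ((finSuccEquiv ℂ n f).coeff 1) := by
      unfold la lc Polynomial.leadingCoeff
      rw [h.deg]
    rw [h2]
  rw [h1 z, h1 0, mul_zero, add_zero, add_comm]

theorem eval_differentiable {n : ℕ} (P : MvPolynomial (Fin n) ℂ) :
    Differentiable ℂ fun x : Fin n → ℂ => MvPolynomial.eval x P := fun x =>
  ((AnalyticOnNhd.eval_mvPolynomial (𝕜 := ℂ) P) x (Set.mem_univ x)).differentiableAt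

/-- **The divergence of `Q` for a point of multiplicity `d - 1`.** -/
theorem Hyp.div1 (H : Hyp 1 m f) (hne : ∃ (x : Fin n → ℂ) (z : ℂ), la f x = 0 ∧
      MvPolynomial.eval (Fin.cons z x : Fin (n + 1) → ℂ) f ≠ 0)
    {χ : (Fin n → ℂ) → ℝ} (hχ : XCut χ) {η : ℂ → ℝ} (hη : RCut η)
    (M δ : ℝ) (hδ : 0 < δ) :
    ∃ s : ℝ, -bet n 1 m < s ∧ s < -bet n 1 m + δ ∧ M ≤ ‖Qf χ η 1 f s‖ := by
  by_contra hcon
  push Not at hcon
  obtain ⟨r, hr0⟩ := H.dat.exists_rt
  have hr : IsRt 1 f r := hr0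
  have hfat := H.fatou hr hχ hη hδ hcon
  have hkb := H.kb
  have hb := H.bpos
  have hbe := H.beq
  set β := bet n 1 m with hβ
  rw [Nat.cast_one, one_mul] at hkb
  obtain ⟨c, hc, hlow⟩ := HR_low hη hb hkb
  obtain ⟨x₀, z₀, hx0, hz0⟩ := hne
  rw [H.dat.eval_one, hx0, zero_mul, zero_add] at hz0
  obtain ⟨v, hv⟩ : ∃ v : Fin n → ℂ, la f (x₀ + v) ≠ 0 := by
    obtain ⟨y, hy⟩ := (H.dat.ae_la).exists
    exact ⟨y - x₀, by rwa [add_sub_cancel]⟩
  set cc : (Fin n → ℂ) → ℂ := fun x => MvPolynomial.eval (Fin.cons 0 x : Fin (n + 1) → ℂ) f with hcc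
  have hccc : Continuous cc :=
    (MvPolynomial.continuous_eval f).comp (continuous_cons.comp (continuous_id.prodMk continuous_const))
  have hccs : ∀ (t : ℝ) (x : Fin n → ℂ), cc (t • x) = (t : ℂ) ^ (m + 1) * cc x := by
    intro t x
    have h1 := eval_smul_hom f _ H.dat.hom t (Fin.cons 0 x)
    rw [← cons_smul, mul_zero] at h1
    rw [hcc]
    simp only
    rw [h1, add_comm 1 m]
  have htop := tang_div H.n0 (la f) cc (eval_differentiable _) hccc H.dat.la_smul hccs H.dat.ae_la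
    x₀ v hx0 hv hz0 (β := β) (by rw [← hbe]; push_cast; ring) hb.le hkb
  set R : Set (Fin n → ℂ) := {x | la f x ≠ 0 ∧ 2 * ‖la f x‖ ≤ ‖cc x‖ ∧ ‖x‖ ≤ 1 / 2} with hR
  have hRm : MeasurableSet R := by
    refine (isOpen_ne_fun (continuous_la f) continuous_const).measurableSet.inter
      (MeasurableSet.inter ?_ ?_)
    · exact (isClosed_le (continuous_const.mul (continuous_la f).norm) hccc.norm).measurableSet
    · exact (isClosed_le continuous_norm continuous_const).measurableSet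
  have hle : ∫⁻ x in R, ENNReal.ofReal c * ENNReal.ofReal ((‖la f x‖ ^ 2) ^ (-β)) ≤
      ∫⁻ x, ENNReal.ofReal (χ x * (Na f x ^ (-β) * HR η 1 (-β) (r x))) := by
    refine le_trans ?_ (setLIntegral_le_lintegral R _)
    refine setLIntegral_mono' hRm fun x hx => ?_
    obtain ⟨h1, h2, h3⟩ := hx
    rw [hχ.one x h3, one_mul, ← ENNReal.ofReal_mul hc.le, mul_comm c]
    refine ENNReal.ofReal_le_ofReal ?_
    have h4 : 2 ≤ ‖r x 0‖ := by
      have h5 := hr.eval h1 0
      rw [Fin.prod_univ_one, zero_sub] at h5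
      have h6 : ‖cc x‖ = ‖la f x‖ * ‖r x 0‖ := by
        rw [hcc]
        simp only
        rw [h5, norm_mul, norm_neg]
      rw [h6] at h2
      have h7 := norm_pos_iff.2 h1
      nlinarith
    exact mul_le_mul_of_nonneg_left (hlow _ h4) (by positivity)
  rw [lintegral_const_mul' _ _ ENNReal.ofReal_ne_top, htop, ENNReal.mul_top
    (ENNReal.ofReal_pos.2 hc).ne', top_le_iff] at hle
  exact hfat hle

theorem Hyp.div (H : Hyp k m f) {χ : (Fin n → ℂ) → ℝ} (hχ : XCut χ) {η : ℂ → ℝ} (hη : RCut η)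
    (M δ : ℝ) (hδ : 0 < δ) :
    ∃ s : ℝ, -bet n k m < s ∧ s < -bet n k m + δ ∧ M ≤ ‖Qf χ η k f s‖ := by
  rcases H.nd with h | ⟨h1, h2⟩
  · exact H.div2 h hχ hη M δ hδ
  · subst h1
    exact H.div1 h2 hχ hη M δ hδ

/-- **Theorem (the root of forms with a point of high multiplicity).** -/
theorem neg_root (H : Hyp k m f) (b : Polynomial ℂ) (hb : IsBFunction f b) :
    b.eval ((-bet n k m : ℝ) : ℂ) = 0 := by
  obtain ⟨χ, hχ⟩ := exists_xcut n
  obtain ⟨η, hη⟩ := exists_rcut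
  have hk := H.kpos
  have hm := H.mpos
  have hkb := H.kb
  have hbp := H.bpos
  have hnb := H.nb
  set β := bet n k m with hβ
  have hkβ : -1 / (k : ℝ) < -β := by
    rw [div_lt_iff₀ hk]
    nlinarith
  have hstrip : {s : ℂ | -β < s.re ∧ s.re < 0} ⊆ {s : ℂ | -1 / (k : ℝ) < s.re ∧ s.re < 0} := by
    rintro s ⟨h1, h2⟩
    exact ⟨lt_trans hkβ h1, h2⟩
  have hpos : ∀ᵐ x ∂(volume.restrict (Kb n)), 0 < Nm f x := by
    refine ae_restrict_of_ae ?_
    filter_upwards [ae_eval_ne f H.dat.f_ne] with x hx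
    unfold Nm
    have := norm_pos_iff.2 hx
    positivity
  have hs1 : -β < -((n : ℝ) / m) := by
    rw [neg_lt_neg_iff, div_lt_iff₀ hm]
    linarith
  have hn0 : (0 : ℝ) < n := by exact_mod_cast H.n0
  obtain ⟨Cn, hCn⟩ := H.nn_bound hχ
  refine root_cont (Kb_compact n) f hpos b hb (phi_test hχ hη) (-β) (-((n : ℝ) / m))
    (by have := H.b3; linarith) hs1 (by have : 0 < (n : ℝ) / m := by positivity
                                        linarith)
    (ww n m) (fun s => Pk η k s 0 * nn χ f s) (Qf χ η k f) (ww_diff n m) H.ww_ne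
    (((Pk_hol hη.toCut H.dat.k0 0).mono hstrip).mul (H.nn_hol hχ)) (H.Qf_hol hχ hη) ?_
    (cB (2 * k * (-β)) * Cn) β hbp ?_ (H.div hχ hη)
  · intro s h1 h2
    have h3 : -1 / (k : ℝ) < s := by linarith
    have hI := H.dat.Nm_int h3 h2.le (H.Na_int h1 h2.le)
    refine ⟨hI, ?_⟩
    obtain ⟨i1, i2⟩ := int_phi (f := f) hχ hη hI
    obtain ⟨j1, j2⟩ := H.ww_nn hχ h1 h2.le
    rw [i2]
    have h4 : -β < (s : ℂ).re := by rw [Complex.ofReal_re]; linarith
    have h5 := H.qf_int hχ hη (s := (s : ℂ)) h4 (by rw [Complex.ofReal_re]; exact h2)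
    have h6 : ∫ x, (χ x : ℂ) * J η f s x =
        Pk η k s 0 * (∫ x, (χ x : ℂ) * (Na f x : ℂ) ^ (s : ℂ)) - Qf χ η k f s := by
      unfold Qf
      rw [← integral_const_mul, ← integral_sub (j1.const_mul _) h5]
      refine integral_congr_ae (Eventually.of_forall fun x => ?_)
      simp only
      unfold qf
      ring
    rw [h6, ← j2]
    ring
  · intro s h1 h2
    rw [norm_mul]
    have h3 := (Pk_int hη.toCut H.dat.k0 (s := (s : ℂ)) hkβ
      (by rw [Complex.ofReal_re]; exact h1.le) (by rw [Complex.ofReal_re]; linarith) 0).2.2.2.2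
    have h4 := hCn s (by rw [Complex.ofReal_re]; exact h1.le) (by rw [Complex.ofReal_re]; linarith)
    exact mul_le_mul h3 h4 (norm_nonneg _) ((norm_nonneg _).trans h3)

end

end Pool.Agent.H74C
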