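import Pool.Agent.H74A.CDefs
import Pool.Agent.H74A.Neg5
import Pool.Agent.Y230.PS.Auto
import Pool.Agent.Y229.LP2

set_option autoImplicit false
set_option linter.unusedSectionVars false
set_option linter.unusedVariables false

/-! # Linear changes of the coordinates -/

namespace Pool.Agent.H74D

open MvPolynomial MeasureTheory
open Pool.Agent.W574.SM Pool.Agent.Y230.PS
open Pool.Agent.H74C

variable {σ ι : Type} [Fintype σ] [Fintype ι]

theorem linSub_X (A : Matrix σ σ ℂ) (i : σ) : linSub A (X i) = ∑ j, C (A i j) * X j := aeval_X _ _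

theorem linSub_comp [DecidableEq σ] (A B : Matrix σ σ ℂ) (h : A * B = 1) :
    (linSub B).comp (linSub A) = AlgHom.id ℂ (MvPolynomial σ ℂ) := by
  apply MvPolynomial.algHom_ext
  intro i
  rw [AlgHom.comp_apply, linSub_X, map_sum, AlgHom.id_apply]
  simp only [map_mul, linSub_X, algHom_C, algebraMap_eq]
  have h1 : ∀ k, (A * B) i k = if i = k then (1 : ℂ) else 0 := by
    intro k
    rw [h, Matrix.one_apply]
  calc ∑ j, C (A i j) * ∑ k, C (B j k) * (X k : MvPolynomial σ ℂ) =
      ∑ k, (∑ j, C (A i j) * C (B j k)) * X k := by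
        simp only [Finset.mul_sum, Finset.sum_mul]
        rw [Finset.sum_comm]
        refine Finset.sum_congr rfl fun k _ => Finset.sum_congr rfl fun j _ => by ring
    _ = ∑ k, C ((A * B) i k) * X k := by
        refine Finset.sum_congr rfl fun k _ => ?_
        rw [Matrix.mul_apply, map_sum]
        simp only [map_mul]
    _ = X i := by
        simp only [h1]
        rw [Finset.sum_eq_single i]
        · simp
        · intro k _ hk
          rw [if_neg (Ne.symm hk)]
          simp
        · intro hi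
          exact absurd (Finset.mem_univ _) hi

/-- the automorphism -/
noncomputable def linE [DecidableEq σ] (A B : Matrix σ σ ℂ) (h : A * B = 1) (h' : B * A = 1) :
    MvPolynomial σ ℂ ≃ₐ[ℂ] MvPolynomial σ ℂ :=
  AlgEquiv.ofAlgHom (linSub A) (linSub B) (linSub_comp B A h') (linSub_comp A B h)

theorem pderiv_linSub (A : Matrix σ σ ℂ) (i : σ) (q : MvPolynomial σ ℂ) :
    pderiv i (linSub A q) = ∑ j, C (A j i) * linSub A (pderiv j q) := by
  classical
  induction q using MvPolynomial.induction_on with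
  | C a =>
    rw [algHom_C, algebraMap_eq, pderiv_C]
    simp
  | add q q' h h' =>
    rw [map_add, map_add, h, h', ← Finset.sum_add_distrib]
    refine Finset.sum_congr rfl fun j _ => ?_
    rw [map_add, map_add, mul_add]
  | mul_X q k h =>
    have h2 : pderiv i (linSub A (X k)) = C (A k i) := by
      rw [linSub_X, map_sum, Finset.sum_eq_single i]
      · rw [pderiv_C_mul, pderiv_X_self, mul_one]
      · intro j _ hj
        rw [pderiv_C_mul, pderiv_X_of_ne hj, mul_zero]
      · intro hi
        exact absurd (Finset.mem_univ _) hi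
    rw [map_mul, Derivation.leibniz, h, h2, smul_eq_mul, smul_eq_mul]
    have h3 : ∀ j, linSub A (pderiv j (q * X k)) =
        linSub A q * (if j = k then 1 else 0) + linSub A (X k) * linSub A (pderiv j q) := by
      intro j
      rw [Derivation.leibniz, smul_eq_mul, smul_eq_mul, map_add, map_mul, map_mul]
      congr 2
      by_cases hjk : j = k
      · rw [hjk, pderiv_X_self, if_pos rfl, map_one]
      · rw [pderiv_X_of_ne (Ne.symm hjk), if_neg hjk, map_zero]
    simp only [h3]
    have h4 : ∀ j, C (A j i) * (linSub A q * (if j = k then (1 : MvPolynomial σ ℂ) else 0) +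
        linSub A (X k) * linSub A (pderiv j q)) =
        (if j = k then C (A j i) * linSub A q else 0) +
          linSub A (X k) * (C (A j i) * linSub A (pderiv j q)) := by
      intro j
      split_ifs <;> ring
    simp only [h4]
    rw [Finset.sum_add_distrib, Finset.sum_ite_eq' Finset.univ k, if_pos (Finset.mem_univ _),
      ← Finset.mul_sum]
    ring

/-- the conjugate of an endomorphism -/
noncomputable def cj [DecidableEq σ] (A B : Matrix σ σ ℂ) (hAB : A * B = 1) (hBA : B * A = 1)
    (Q : Module.End ℂ (MvPolynomial σ ℂ)) : Module.End ℂ (MvPolynomial σ ℂ) :=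
  (linE A B hAB hBA).symm.toLinearMap ∘ₗ Q ∘ₗ (linE A B hAB hBA).toLinearMap

theorem cj_apply [DecidableEq σ] (A B : Matrix σ σ ℂ) (hAB : A * B = 1) (hBA : B * A = 1)
    (Q : Module.End ℂ (MvPolynomial σ ℂ)) (p : MvPolynomial σ ℂ) :
    cj A B hAB hBA Q p = linSub B (Q (linSub A p)) := rfl

theorem linSub_linSub [DecidableEq σ] (A B : Matrix σ σ ℂ) (h : A * B = 1) (p : MvPolynomial σ ℂ) :
    linSub B (linSub A p) = p :=
  congrArg (fun ψ : MvPolynomial σ ℂ →ₐ[ℂ] MvPolynomial σ ℂ => ψ p) (linSub_comp A B h)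

theorem cj_mulX [DecidableEq σ] (A B : Matrix σ σ ℂ) (hAB : A * B = 1) (hBA : B * A = 1) (i : σ) :
    cj A B hAB hBA (LinearMap.mulLeft ℂ (X i : MvPolynomial σ ℂ)) =
      ∑ j, B i j • LinearMap.mulLeft ℂ (X j : MvPolynomial σ ℂ) := by
  refine LinearMap.ext fun p => ?_
  rw [cj_apply, LinearMap.mulLeft_apply, map_mul, linSub_linSub A B hAB, linSub_X,
    LinearMap.sum_apply, Finset.sum_mul]
  refine Finset.sum_congr rfl fun j _ => ?_
  rw [LinearMap.smul_apply, LinearMap.mulLeft_apply, ← C_mul', mul_assoc]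

theorem cj_pderiv [DecidableEq σ] (A B : Matrix σ σ ℂ) (hAB : A * B = 1) (hBA : B * A = 1) (i : σ) :
    cj A B hAB hBA ((pderiv i : Derivation ℂ (MvPolynomial σ ℂ) (MvPolynomial σ ℂ)) :
      MvPolynomial σ ℂ →ₗ[ℂ] MvPolynomial σ ℂ) =
      ∑ j, A j i • ((pderiv j : Derivation ℂ (MvPolynomial σ ℂ) (MvPolynomial σ ℂ)) :
        MvPolynomial σ ℂ →ₗ[ℂ] MvPolynomial σ ℂ) := by
  refine LinearMap.ext fun p => ?_
  rw [cj_apply]
  change linSub B (pderiv i (linSub A p)) = _
  rw [pderiv_linSub, map_sum, LinearMap.sum_apply]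
  refine Finset.sum_congr rfl fun j _ => ?_
  rw [map_mul, linSub_linSub A B hAB, algHom_C, algebraMap_eq, LinearMap.smul_apply, C_mul']
  rfl

theorem cj_mem [DecidableEq σ] (A B : Matrix σ σ ℂ) (hAB : A * B = 1) (hBA : B * A = 1)
    (Q : Module.End ℂ (MvPolynomial σ ℂ)) (hQ : Q ∈ weyl σ) : cj A B hAB hBA Q ∈ weyl σ := by
  induction hQ using Algebra.adjoin_induction with
  | mem Q h =>
    rcases h with ⟨i, rfl⟩ | ⟨i, rfl⟩
    · beta_reduce
      rw [cj_mulX]
      exact sum_mem fun j _ => (weyl σ).smul_mem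
        (Algebra.subset_adjoin (Or.inl ⟨j, rfl⟩)) _
    · beta_reduce
      rw [cj_pderiv]
      exact sum_mem fun j _ => (weyl σ).smul_mem
        (Algebra.subset_adjoin (Or.inr ⟨j, rfl⟩)) _
  | algebraMap r =>
    have h : cj A B hAB hBA (algebraMap ℂ _ r) = algebraMap ℂ _ r := by
      refine LinearMap.ext fun p => ?_
      rw [cj_apply, Module.algebraMap_end_apply, Module.algebraMap_end_apply, map_smul,
        linSub_linSub A B hAB]
    rw [h]
    exact (weyl σ).algebraMap_mem r
  | add Q Q' _ _ h h' =>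
    have h2 : cj A B hAB hBA (Q + Q') = cj A B hAB hBA Q + cj A B hAB hBA Q' := by
      refine LinearMap.ext fun p => ?_
      rw [LinearMap.add_apply, cj_apply, cj_apply, cj_apply, LinearMap.add_apply, map_add]
    rw [h2]
    exact (weyl σ).add_mem h h'
  | mul Q Q' _ _ h h' =>
    have h2 : cj A B hAB hBA (Q * Q') = cj A B hAB hBA Q * cj A B hAB hBA Q' := by
      refine LinearMap.ext fun p => ?_
      rw [Module.End.mul_apply, cj_apply, cj_apply, cj_apply, Module.End.mul_apply,
        linSub_linSub B A hBA]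
    rw [h2]
    exact (weyl σ).mul_mem h h'

theorem linE_conj [DecidableEq σ] (A B : Matrix σ σ ℂ) (hAB : A * B = 1) (hBA : B * A = 1)
    (Q : Module.End ℂ (MvPolynomial σ ℂ)) (hQ : Q ∈ weyl σ) : ∃ R : weyl σ, ∀ p,
      (R : Module.End ℂ (MvPolynomial σ ℂ)) p = (linE A B hAB hBA).symm (Q (linE A B hAB hBA p)) :=
  ⟨⟨_, cj_mem A B hAB hBA Q hQ⟩, fun _ => rfl⟩

/-- functional equations are invariant under linear changes of the coordinates -/
theorem functionalEq_lin [DecidableEq σ] (A B : Matrix σ σ ℂ) (hAB : A * B = 1) (hBA : B * A = 1)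
    (f : ι → MvPolynomial σ ℂ) (b : Polynomial ℂ) (hb : IsFunctionalEq f b) :
    IsFunctionalEq (fun j => linSub A (f j)) b := by
  classical
  refine functionalEq_auto (linE B A hBA hAB) (linE_conj B A hBA hAB) _ b ?_
  have : (fun j => linE B A hBA hAB (linSub A (f j))) = f := by
    funext j
    exact congrArg (fun ψ : MvPolynomial σ ℂ →ₐ[ℂ] MvPolynomial σ ℂ => ψ (f j))
      (linSub_comp A B hAB)
  rw [this]
  exact hb

theorem linSub_hom (A : Matrix σ σ ℂ) (q : MvPolynomial σ ℂ) (d : ℕ) (hq : q.IsHomogeneous d) :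
    (linSub A q).IsHomogeneous d := by
  have h := hq.aeval (fun i => ∑ j, C (A i j) * X j : σ → MvPolynomial σ ℂ) (n := 1) fun i =>
    IsHomogeneous.sum _ _ _ fun j _ => (isHomogeneous_C_mul_X _ _)
  rw [one_mul] at h
  exact h

/-- **The root of forms with a heavy point.** -/
theorem heavy_root {n : ℕ} (d : ℕ) (f : MvPolynomial (Fin (n + 1)) ℂ)
    (hf : f.IsHomogeneous d) (h : HeavyPoint d f) (b : Polynomial ℂ)
    (hb : IsFunctionalEq (fun _ : Fin 1 => f) b) :
    b.eval ((-(((n : ℝ) + 1) / d) : ℝ) : ℂ) = 0 := by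
  classical
  obtain ⟨hn, A, B, k, hAB, hBA, hk2, hkd, hdeg, hl, hnd⟩ := h
  have hb' := Pool.Agent.Y229.isB_of_single _ b (functionalEq_lin A B hAB hBA _ b hb)
  have hkd' : k ≤ d := by
    have : k ≤ k * (n + 1) := Nat.le_mul_of_pos_right _ (Nat.succ_pos _)
    omega
  obtain ⟨m, rfl⟩ := Nat.exists_eq_add_of_le hkd'
  have hbet : bet n k m = ((n : ℝ) + 1) / ((k + m : ℕ) : ℝ) := by
    unfold bet
    push_cast
    rfl
  have H : Hyp k m (linSub A f) := by
    refine ⟨⟨by omega, linSub_hom A f _ hf, hdeg⟩, hn, hkd, ?_, ?_⟩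
    swap
    · rcases hnd with ⟨x, z₁, z₂, hz, hx, h1, h2⟩ | ⟨h1, x, z, hx, hz⟩
      · exact Or.inl ⟨x, z₁, z₂, hx, hz, h1, h2⟩
      · exact Or.inr ⟨h1, x, z, hx, hz⟩
    intro p hp0 hp
    have h3 := hl (p / 2) (by linarith) (by
      rw [hbet] at hp
      rw [mul_div_assoc]
      linarith)
    refine h3.congr_fun (fun y _ => ?_) ?_
    · simp only [Finset.univ_unique, Finset.sum_singleton]
      change (‖la (linSub A f) y‖ ^ 2) ^ (-(p / 2)) = ‖la (linSub A f) y‖ ^ (-p)
      rw [← Real.rpow_natCast, ← Real.rpow_mul (norm_nonneg _)]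
      congr 1
      push_cast
      ring
    · exact (isClosed_le continuous_const continuous_norm).measurableSet.inter
        (isClosed_le continuous_norm continuous_const).measurableSet
  have := neg_root H b hb'
  rw [hbet] at this
  exact this

theorem heavy_ne {n : ℕ} (d : ℕ) (f : MvPolynomial (Fin (n + 1)) ℂ) (h : HeavyPoint d f) :
    f ≠ 0 := by
  obtain ⟨-, A, B, k, -, -, hk2, -, hdeg, -⟩ := h
  rintro rfl
  rw [map_zero, map_zero, Polynomial.natDegree_zero] at hdeg
  omega

end Pool.Agent.H74D
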