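import Pool.Agent.H74A.Adj
import Pool.Agent.Y230.AR.Series

set_option autoImplicit false
set_option linter.unusedSectionVars false
set_option linter.unusedVariables false

/-! # Mellin transforms on a region -/

namespace Pool.Agent.H74A

open MvPolynomial MeasureTheory Filter Topology Complex
open Pool.Agent.Y230.AR (SerG exists_serG)
open Pool.Agent.H628R4.TP (weylS IsBFunction)

theorem poly_le_exp (T : Polynomial ℂ) (δ : ℝ) (hδ : 0 < δ) : ∃ K : ℝ, 0 ≤ K ∧ ∀ z : ℂ,
    ‖T.eval z‖ ≤ K * Real.exp (δ * ‖z‖) := by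
  induction T using Polynomial.induction_on' with
  | add p q hp hq =>
    obtain ⟨K, hK, h1⟩ := hp
    obtain ⟨L, hL, h2⟩ := hq
    refine ⟨K + L, by positivity, fun m => ?_⟩
    rw [Polynomial.eval_add]
    refine (norm_add_le _ _).trans ?_
    rw [add_mul]
    exact add_le_add (h1 m) (h2 m)
  | monomial n c =>
    refine ⟨‖c‖ * (n.factorial / δ ^ n), by positivity, fun z => ?_⟩
    rw [Polynomial.eval_monomial, norm_mul, norm_pow, mul_assoc]
    refine mul_le_mul_of_nonneg_left ?_ (norm_nonneg c)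
    have h1 := Real.pow_div_factorial_le_exp (δ * ‖z‖) (by positivity) n
    rw [div_le_iff₀ (by positivity), mul_pow] at h1
    rw [div_mul_eq_mul_div, le_div_iff₀ (by positivity)]
    calc _ = δ ^ n * ‖z‖ ^ n := by ring
      _ ≤ _ := h1
      _ = _ := by ring

theorem gamma_int (a N : ℝ) (ha : 0 < a) (hN : 0 < N) :
    IntegrableOn (fun τ : ℝ => τ ^ (a - 1) * Real.exp (-(τ * N) / 2)) (Set.Ioi 0) ∧
    ∫ τ : ℝ in Set.Ioi 0, τ ^ (a - 1) * Real.exp (-(τ * N) / 2) =
      2 ^ a * Real.Gamma a * N ^ (-a) := by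
  have hN2 : 0 < N / 2 := by positivity
  have h1 : ∀ τ : ℝ, -(τ * N) / 2 = -(N / 2 * τ) := by intro τ; ring
  simp only [h1]
  constructor
  · have h2 := Real.GammaIntegral_convergent (s := a) ha
    have h3 := (integrableOn_Ioi_comp_mul_left_iff (fun x : ℝ => Real.exp (-x) * x ^ (a - 1)) 0
      hN2).2 (by rw [mul_zero]; exact h2)
    refine ((h3.const_mul ((1 / (N / 2)) ^ (a - 1)))).congr ?_
    filter_upwards [ae_restrict_mem measurableSet_Ioi] with τ hτ
    rw [Real.mul_rpow hN2.le (le_of_lt hτ), one_div, Real.inv_rpow hN2.le]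
    have : ((N / 2) ^ (a - 1)) ≠ 0 := (Real.rpow_pos_of_pos hN2 _).ne'
    field_simp
  · rw [Real.integral_rpow_mul_exp_neg_mul_Ioi ha hN2, one_div, Real.inv_rpow hN2.le,
      Real.div_rpow hN.le (by norm_num), Real.rpow_neg hN.le]
    have h4 : (2 : ℝ) ^ a ≠ 0 := (Real.rpow_pos_of_pos (by norm_num) _).ne'
    have h5 : N ^ a ≠ 0 := (Real.rpow_pos_of_pos hN _).ne'
    field_simp

variable {σ : Type} [Fintype σ] [DecidableEq σ]

/-- the exponential kernel -/
noncomputable def ker (T : Polynomial ℂ) (N : ℕ) (F : (σ → ℝ) → ℝ) (τ : ℝ) (x : σ → ℝ) : ℂ :=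
  (F x : ℂ) ^ N * (T.eval (-(τ * F x : ℂ)) * exp (-(τ * F x : ℂ)))

/-- Sums under the integral sign. -/
theorem hasSum_ker {K Ω : Set (σ → ℝ)} (hK : IsCompact K) (hΩ : MeasurableSet Ω)
    {F : (σ → ℝ) → ℝ} (hFc : Continuous F) {B T : Polynomial ℂ} (hT : SerG B T) (N : ℕ) (τ : ℝ)
    {φ : (σ → ℝ) → ℂ} (hφ : Test K φ) :
    HasSum (fun n : ℕ => (-(τ : ℂ)) ^ n / (n.factorial : ℂ) * (B.eval (n : ℂ) *
      ∫ x in Ω, (F x : ℂ) ^ (N + n) * φ x)) (∫ x in Ω, ker T N F τ x * φ x) := by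
  obtain ⟨M, hM⟩ := hK.exists_bound_of_continuousOn (f := F) hFc.continuousOn
  have hM' : ∀ x ∈ K, ‖F x‖ ≤ |M| := fun x hx => (hM x hx).trans (le_abs_self M)
  set G : ℕ → (σ → ℝ) → ℂ := fun n x =>
    (F x : ℂ) ^ N * ((-(τ * F x : ℂ)) ^ n / (n.factorial : ℂ) * B.eval (n : ℂ)) with hG
  have hGc : ∀ n, Continuous (G n) := by
    intro n
    have : Continuous fun x => (F x : ℂ) := Complex.continuous_ofReal.comp hFc
    exact (this.pow N).mul ((((continuous_const.mul this).neg.pow n).div_const _).mul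
      continuous_const)
  have hs := ((hT.1 ((|τ| * |M| : ℝ) : ℂ)).summable.norm).mul_left (|M| ^ N)
  have h1 : HasSum (fun n => ∫ x in Ω, G n x * φ x) (∫ x in Ω, ker T N F τ x * φ x) := by
    refine hasSum_integral_of_dominated_convergence (fun n x => |M| ^ N *
      ‖(((|τ| * |M| : ℝ) : ℂ)) ^ n / (n.factorial : ℂ) * B.eval (n : ℂ)‖ * ‖φ x‖)
      (fun n => ((hGc n).mul hφ.1.continuous).aestronglyMeasurable) ?_ ?_ ?_ ?_
    · intro n
      refine Filter.Eventually.of_forall fun x => ?_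
      rw [norm_mul]
      by_cases hx : x ∈ K
      · refine mul_le_mul_of_nonneg_right ?_ (norm_nonneg _)
        rw [hG]
        simp only
        have hx' := hM' x hx
        rw [norm_mul, norm_pow, Complex.norm_real, norm_mul, norm_mul]
        refine mul_le_mul (pow_le_pow_left₀ (norm_nonneg _) hx' _) ?_ (by positivity)
          (by positivity)
        refine mul_le_mul_of_nonneg_right ?_ (norm_nonneg _)
        rw [norm_div, norm_div]
        refine div_le_div_of_nonneg_right ?_ (norm_nonneg _)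
        rw [norm_pow, norm_pow, norm_neg, norm_mul, Complex.norm_real, Complex.norm_real,
          Complex.norm_real]
        refine pow_le_pow_left₀ (by positivity) ?_ _
        rw [Real.norm_eq_abs τ, Real.norm_eq_abs (|τ| * |M|), abs_mul, abs_abs, abs_abs]
        exact mul_le_mul_of_nonneg_left hx' (abs_nonneg τ)
      · rw [hφ.zero hx]
        simp
    · exact Filter.Eventually.of_forall fun x => hs.mul_right _
    · have h2 : (fun x => ∑' n : ℕ, |M| ^ N *
          ‖(((|τ| * |M| : ℝ) : ℂ)) ^ n / (n.factorial : ℂ) * B.eval (n : ℂ)‖ * ‖φ x‖) =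
          fun x => (∑' n : ℕ, |M| ^ N *
          ‖(((|τ| * |M| : ℝ) : ℂ)) ^ n / (n.factorial : ℂ) * B.eval (n : ℂ)‖) * ‖φ x‖ := by
        funext x
        rw [tsum_mul_right]
      rw [h2]
      refine Integrable.const_mul ?_ _
      exact (Continuous.integrable_of_hasCompactSupport hφ.1.continuous (hφ.compact hK)).norm.restrict
    · refine Filter.Eventually.of_forall fun x => HasSum.mul_right _ ?_
      exact (hT.1 (-(τ * F x : ℂ))).mul_left ((F x : ℂ) ^ N)
  refine h1.congr_fun fun n => ?_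
  rw [← integral_const_mul, ← integral_const_mul]
  refine integral_congr_ae (Filter.Eventually.of_forall fun x => ?_)
  simp only [hG]
  rw [neg_pow (τ * F x : ℂ), mul_pow, neg_pow (τ : ℂ)]
  ring

/-- **The Mellin transform.** -/
theorem mellin {K Ω : Set (σ → ℝ)} (hK : IsCompact K) (hΩ : MeasurableSet Ω)
    {F : (σ → ℝ) → ℝ} (hFc : Continuous F) (hpos : ∀ x ∈ Ω, 0 < F x)
    {B T : Polynomial ℂ} (hT : SerG B T) (N : ℕ) (a : ℝ) (ha : 0 < a)
    {φ : (σ → ℝ) → ℂ} (hφ : Test K φ)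
    (hI : IntegrableOn (fun x => F x ^ ((N : ℝ) - a)) (Ω ∩ K)) :
    IntegrableOn (fun τ : ℝ => ((τ ^ (a - 1) : ℝ) : ℂ) * ∫ x in Ω, ker T N F τ x * φ x)
      (Set.Ioi 0) ∧
    ∫ τ : ℝ in Set.Ioi 0, ((τ ^ (a - 1) : ℝ) : ℂ) * ∫ x in Ω, ker T N F τ x * φ x =
      B.eval (-(a : ℂ)) * (Real.Gamma a * ∫ x in Ω, ((F x ^ ((N : ℝ) - a) : ℝ) : ℂ) * φ x) := by
  set μ := (volume : Measure (σ → ℝ)).restrict Ω with hμ
  set ν := (volume : Measure ℝ).restrict (Set.Ioi 0) with hν
  obtain ⟨KT, hKT0, hKT⟩ := poly_le_exp T (1 / 2) (by norm_num)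
  obtain ⟨Bφ, hBφ⟩ := (hφ.compact hK).exists_bound_of_continuous hφ.1.continuous
  have hTb : ∀ τ : ℝ, 0 ≤ τ → ∀ x ∈ Ω, ‖T.eval (-(τ * F x : ℂ)) * exp (-(τ * F x : ℂ))‖ ≤
      KT * Real.exp (-(τ * F x) / 2) := by
    intro τ hτ x hx
    have hN0 := (hpos x hx).le
    have e1 : -(τ * F x : ℂ) = ((-(τ * F x) : ℝ) : ℂ) := by push_cast; rfl
    rw [norm_mul, e1, Complex.norm_exp, Complex.ofReal_re]
    refine (mul_le_mul_of_nonneg_right (hKT _) (Real.exp_pos _).le).trans ?_
    rw [mul_assoc, ← Real.exp_add, Complex.norm_real, Real.norm_eq_abs, abs_neg,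
      abs_of_nonneg (by positivity)]
    refine mul_le_mul_of_nonneg_left (Real.exp_le_exp.2 ?_) hKT0
    linarith
  have hmem : ∀ᵐ x ∂μ, x ∈ Ω := ae_restrict_mem hΩ
  have hpowI : Integrable (fun x => ‖φ x‖ * F x ^ ((N : ℝ) - a)) μ := by
    have h1 : IntegrableOn (fun x => ‖φ x‖ * F x ^ ((N : ℝ) - a)) (Ω ∩ K) := by
      refine Integrable.bdd_mul (c := Bφ) hI hφ.1.continuous.norm.aestronglyMeasurable ?_
      refine Eventually.of_forall fun x => ?_
      rw [norm_norm]
      exact hBφ x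
    rw [hμ]
    have h2 : IntegrableOn (fun x => ‖φ x‖ * F x ^ ((N : ℝ) - a)) (Ω \ K) := by
      refine (integrableOn_zero (s := Ω \ K)).congr_fun (fun x hx => ?_) (hΩ.diff hK.measurableSet)
      rw [hφ.zero hx.2, norm_zero, zero_mul]
    have h3 := h1.union h2
    rwa [Set.inter_union_sdiff] at h3
  set G : (σ → ℝ) × ℝ → ℂ := fun p => ((p.2 ^ (a - 1) : ℝ) : ℂ) * (ker T N F p.2 p.1 * φ p.1)
    with hG
  have hGm : Measurable G := by
    have h1 : Measurable fun p : (σ → ℝ) × ℝ => T.eval (-(p.2 * F p.1 : ℂ)) := by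
      refine T.continuous.measurable.comp ?_
      have := hFc.measurable
      fun_prop
    have h2 := hφ.1.continuous.measurable
    have h3 := hFc.measurable
    rw [hG]
    unfold ker
    fun_prop
  have hdom : Integrable (fun p : (σ → ℝ) × ℝ => (KT * (‖φ p.1‖ * F p.1 ^ N)) * (p.2 ^ (a - 1) *
      Real.exp (-(p.2 * F p.1) / 2))) (μ.prod ν) := by
    have hm : Measurable (fun p : (σ → ℝ) × ℝ => (KT * (‖φ p.1‖ * F p.1 ^ N)) * (p.2 ^ (a - 1) *
        Real.exp (-(p.2 * F p.1) / 2))) := by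
      have h1 := hFc.measurable
      have h2 := hφ.1.continuous.measurable
      fun_prop
    rw [integrable_prod_iff hm.aestronglyMeasurable]
    constructor
    · filter_upwards [hmem] with x hx
      exact (gamma_int a _ ha (hpos x hx)).1.const_mul _
    · refine (hpowI.const_mul (KT * (2 ^ a * Real.Gamma a))).congr ?_
      filter_upwards [hmem] with x hx
      have hx0 := hpos x hx
      have h2 : ∀ τ ∈ Set.Ioi (0 : ℝ), ‖(KT * (‖φ x‖ * F x ^ N)) *
          (τ ^ (a - 1) * Real.exp (-(τ * F x) / 2))‖ =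
          (KT * (‖φ x‖ * F x ^ N)) * (τ ^ (a - 1) * Real.exp (-(τ * F x) / 2)) := by
        intro τ hτ
        rw [Real.norm_eq_abs, abs_of_nonneg]
        have h3 : 0 ≤ τ ^ (a - 1) := Real.rpow_nonneg (le_of_lt hτ) _
        have h4 := (Real.exp_pos (-(τ * F x) / 2)).le
        positivity
      rw [setIntegral_congr_fun measurableSet_Ioi h2, integral_const_mul, (gamma_int a _ ha hx0).2,
        sub_eq_add_neg, Real.rpow_add hx0, Real.rpow_natCast]
      ring
  have hnu : ∀ᵐ p ∂(μ.prod ν), p.1 ∈ Ω ∧ p.2 ∈ Set.Ioi (0 : ℝ) := by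
    have h2 : μ.prod ν = (volume.prod volume).restrict (Ω ×ˢ Set.Ioi (0 : ℝ)) := by
      rw [hν, hμ, Measure.prod_restrict]
    rw [h2]
    filter_upwards [ae_restrict_mem (hΩ.prod measurableSet_Ioi)] with p hp
    exact hp
  have hGi : Integrable G (μ.prod ν) := by
    refine hdom.mono' hGm.aestronglyMeasurable ?_
    filter_upwards [hnu] with p hp
    have hp0 : (0 : ℝ) < p.2 := hp.2
    have hx0 := hpos p.1 hp.1
    rw [hG]
    simp only
    unfold ker
    rw [norm_mul, norm_mul, norm_mul, norm_pow, Complex.norm_real, Complex.norm_real,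
      Real.norm_eq_abs, Real.norm_eq_abs, abs_of_nonneg (Real.rpow_nonneg hp0.le _),
      abs_of_pos hx0]
    calc _ ≤ p.2 ^ (a - 1) * (F p.1 ^ N * (KT * Real.exp (-(p.2 * F p.1) / 2)) * ‖φ p.1‖) := by
          have h4 := hTb p.2 hp0.le p.1 hp.1
          have h5 : 0 ≤ p.2 ^ (a - 1) := Real.rpow_nonneg hp0.le _
          gcongr
      _ = _ := by ring
  have e0 : ∀ τ, ∫ x, G (x, τ) ∂μ = ((τ ^ (a - 1) : ℝ) : ℂ) * ∫ x in Ω, ker T N F τ x * φ x := by
    intro τ
    rw [hG]
    simp only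
    rw [integral_const_mul]
  constructor
  · have h1 := hGi.integral_prod_right
    refine h1.congr (Eventually.of_forall fun τ => ?_)
    exact e0 τ
  · have h1 : ∫ τ, ∫ x, G (x, τ) ∂μ ∂ν = ∫ x, ∫ τ, G (x, τ) ∂ν ∂μ :=
      (integral_integral_swap hGi).symm
    simp only [e0] at h1
    rw [h1]
    have h2 : ∀ᵐ x ∂μ, ∫ τ, G (x, τ) ∂ν = B.eval (-(a : ℂ)) * ((Real.Gamma a : ℂ) *
        (((F x ^ ((N : ℝ) - a) : ℝ) : ℂ) * φ x)) := by
      filter_upwards [hmem] with x hx
      have hx0 := hpos x hx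
      have h3 : ∀ τ, G (x, τ) = ((F x : ℂ) ^ N * φ x) * (((τ ^ (a - 1) : ℝ) : ℂ) *
          (T.eval (-(τ * F x : ℂ)) * exp (-(τ * F x : ℂ)))) := by
        intro τ
        rw [hG]
        simp only
        unfold ker
        ring
      simp only [h3]
      rw [integral_const_mul, hT.2 a _ ha hx0, one_div, Real.inv_rpow hx0.le, sub_eq_add_neg,
        Real.rpow_add hx0, Real.rpow_natCast, Real.rpow_neg hx0.le]
      push_cast
      ring
    rw [integral_congr_ae h2, integral_const_mul, integral_const_mul]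

end Pool.Agent.H74A
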