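import Pool.Agent.H74A.Mellin

set_option autoImplicit false
set_option linter.unusedSectionVars false
set_option linter.unusedVariables false

/-! # From moments to Mellin transforms -/

namespace Pool.Agent.H74A.M

open MeasureTheory Filter Topology Complex
open Pool.Agent.Y230.AR (SerG exists_serG)
open Pool.Agent.H74A (poly_le_exp gamma_int)

variable {α : Type} [MeasurableSpace α] {μ : Measure α} [IsFiniteMeasure μ]

/-- the exponential kernel -/
noncomputable def ker (T : Polynomial ℂ) (F : α → ℝ) (τ : ℝ) (x : α) : ℂ :=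
  T.eval (-(τ * F x : ℂ)) * exp (-(τ * F x : ℂ))

theorem ker_meas (T : Polynomial ℂ) {F : α → ℝ} (hF : Measurable F) (τ : ℝ) :
    Measurable (ker T F τ) := by
  have h1 : Measurable fun x : α => T.eval (-(τ * F x : ℂ)) := by
    refine T.continuous.measurable.comp ?_
    fun_prop
  unfold ker
  fun_prop

/-- Sums under the integral sign. -/
theorem hasSum_ker {F : α → ℝ} (hF : Measurable F) {M : ℝ} (hM : ∀ᵐ x ∂μ, |F x| ≤ M)
    {B T : Polynomial ℂ} (hT : SerG B T) (τ : ℝ)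
    {φ : α → ℂ} (hφ : Integrable φ μ) :
    HasSum (fun n : ℕ => (-(τ : ℂ)) ^ n / (n.factorial : ℂ) * (B.eval (n : ℂ) *
      ∫ x, (F x : ℂ) ^ n * φ x ∂μ)) (∫ x, ker T F τ x * φ x ∂μ) := by
  set G : ℕ → α → ℂ := fun n x =>
    ((-(τ * F x : ℂ)) ^ n / (n.factorial : ℂ) * B.eval (n : ℂ)) with hG
  have hGm : ∀ n, Measurable (G n) := by
    intro n
    rw [hG]
    fun_prop
  have hs := ((hT.1 ((|τ| * |M| : ℝ) : ℂ)).summable.norm)
  have hGb : ∀ n x, |F x| ≤ M → ‖G n x‖ ≤ ‖(((|τ| * |M| : ℝ) : ℂ)) ^ n / (n.factorial : ℂ) * B.eval (n : ℂ)‖ := by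
    intro n x hx
    rw [hG]
    simp only
    rw [norm_mul, norm_mul]
    refine mul_le_mul_of_nonneg_right ?_ (norm_nonneg _)
    rw [norm_div, norm_div]
    refine div_le_div_of_nonneg_right ?_ (norm_nonneg _)
    rw [norm_pow, norm_pow, norm_neg, norm_mul, Complex.norm_real, Complex.norm_real,
      Complex.norm_real]
    refine pow_le_pow_left₀ (by positivity) ?_ _
    rw [Real.norm_eq_abs τ, Real.norm_eq_abs (|τ| * |M|), abs_mul, abs_abs, abs_abs]
    exact mul_le_mul_of_nonneg_left (hx.trans (le_abs_self M)) (abs_nonneg τ)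
  have h1 : HasSum (fun n => ∫ x, G n x * φ x ∂μ) (∫ x, ker T F τ x * φ x ∂μ) := by
    refine hasSum_integral_of_dominated_convergence (fun n x =>
      ‖(((|τ| * |M| : ℝ) : ℂ)) ^ n / (n.factorial : ℂ) * B.eval (n : ℂ)‖ * ‖φ x‖)
      (fun n => (hGm n).aestronglyMeasurable.mul hφ.aestronglyMeasurable) ?_ ?_ ?_ ?_
    · intro n
      filter_upwards [hM] with x hx
      rw [norm_mul]
      exact mul_le_mul_of_nonneg_right (hGb n x hx) (norm_nonneg _)
    · exact Filter.Eventually.of_forall fun x => hs.mul_right _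
    · have h2 : (fun x => ∑' n : ℕ,
          ‖(((|τ| * |M| : ℝ) : ℂ)) ^ n / (n.factorial : ℂ) * B.eval (n : ℂ)‖ * ‖φ x‖) =
          fun x => (∑' n : ℕ,
          ‖(((|τ| * |M| : ℝ) : ℂ)) ^ n / (n.factorial : ℂ) * B.eval (n : ℂ)‖) * ‖φ x‖ := by
        funext x
        rw [tsum_mul_right]
      rw [h2]
      exact hφ.norm.const_mul _
    · refine Filter.Eventually.of_forall fun x => HasSum.mul_right _ ?_
      exact (hT.1 (-(τ * F x : ℂ)))
  refine h1.congr_fun fun n => ?_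
  rw [← integral_const_mul, ← integral_const_mul]
  refine integral_congr_ae (Filter.Eventually.of_forall fun x => ?_)
  simp only [hG]
  rw [neg_pow (τ * F x : ℂ), mul_pow, neg_pow (τ : ℂ)]
  ring

/-- **The Mellin transform.** -/
theorem mellin {F : α → ℝ} (hFm : Measurable F) (hpos : ∀ᵐ x ∂μ, 0 < F x)
    {B T : Polynomial ℂ} (hT : SerG B T) (a : ℝ) (ha : 0 < a)
    {φ : α → ℂ} (hφ : AEStronglyMeasurable φ μ)
    (hI : Integrable (fun x => ‖φ x‖ * F x ^ (-a)) μ) :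
    IntegrableOn (fun τ : ℝ => ((τ ^ (a - 1) : ℝ) : ℂ) * ∫ x, ker T F τ x * φ x ∂μ)
      (Set.Ioi 0) ∧
    ∫ τ : ℝ in Set.Ioi 0, ((τ ^ (a - 1) : ℝ) : ℂ) * ∫ x, ker T F τ x * φ x ∂μ =
      B.eval (-(a : ℂ)) * (Real.Gamma a * ∫ x, ((F x ^ (-a) : ℝ) : ℂ) * φ x ∂μ) := by
  set ν := (volume : Measure ℝ).restrict (Set.Ioi 0) with hν
  obtain ⟨KT, hKT0, hKT⟩ := poly_le_exp T (1 / 2) (by norm_num)
  have hTb : ∀ τ : ℝ, 0 ≤ τ → ∀ x, 0 < F x → ‖T.eval (-(τ * F x : ℂ)) * exp (-(τ * F x : ℂ))‖ ≤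
      KT * Real.exp (-(τ * F x) / 2) := by
    intro τ hτ x hx
    have hN0 := hx.le
    have e1 : -(τ * F x : ℂ) = ((-(τ * F x) : ℝ) : ℂ) := by push_cast; rfl
    rw [norm_mul, e1, Complex.norm_exp, Complex.ofReal_re]
    refine (mul_le_mul_of_nonneg_right (hKT _) (Real.exp_pos _).le).trans ?_
    rw [mul_assoc, ← Real.exp_add, Complex.norm_real, Real.norm_eq_abs, abs_neg,
      abs_of_nonneg (by positivity)]
    refine mul_le_mul_of_nonneg_left (Real.exp_le_exp.2 ?_) hKT0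
    linarith
  obtain ⟨φ', hφ'm, hφ'e⟩ := hφ
  set G : α × ℝ → ℂ := fun p => ((p.2 ^ (a - 1) : ℝ) : ℂ) * (ker T F p.2 p.1 * φ' p.1)
    with hG
  have hGm : Measurable G := by
    have h1 : Measurable fun p : α × ℝ => T.eval (-(p.2 * F p.1 : ℂ)) := by
      refine T.continuous.measurable.comp ?_
      fun_prop
    have h2 := hφ'm.measurable
    rw [hG]
    unfold ker
    fun_prop
  have hI' : Integrable (fun x => ‖φ' x‖ * F x ^ (-a)) μ := by
    refine hI.congr ?_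
    filter_upwards [hφ'e] with x hx
    rw [hx]
  have hdom : Integrable (fun p : α × ℝ => (KT * ‖φ' p.1‖) * (p.2 ^ (a - 1) *
      Real.exp (-(p.2 * F p.1) / 2))) (μ.prod ν) := by
    have hm : Measurable (fun p : α × ℝ => (KT * ‖φ' p.1‖) * (p.2 ^ (a - 1) *
        Real.exp (-(p.2 * F p.1) / 2))) := by
      have h2 := hφ'm.measurable
      fun_prop
    rw [integrable_prod_iff hm.aestronglyMeasurable]
    constructor
    · filter_upwards [hpos] with x hx
      exact (gamma_int a _ ha hx).1.const_mul _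
    · refine (hI'.const_mul (KT * (2 ^ a * Real.Gamma a))).congr ?_
      filter_upwards [hpos] with x hx0
      have h2 : ∀ τ ∈ Set.Ioi (0 : ℝ), ‖(KT * ‖φ' x‖) *
          (τ ^ (a - 1) * Real.exp (-(τ * F x) / 2))‖ =
          (KT * ‖φ' x‖) * (τ ^ (a - 1) * Real.exp (-(τ * F x) / 2)) := by
        intro τ hτ
        rw [Real.norm_eq_abs, abs_of_nonneg]
        have h3 : 0 ≤ τ ^ (a - 1) := Real.rpow_nonneg (le_of_lt hτ) _
        have h4 := (Real.exp_pos (-(τ * F x) / 2)).le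
        positivity
      rw [setIntegral_congr_fun measurableSet_Ioi h2, integral_const_mul, (gamma_int a _ ha hx0).2]
      ring
  have hnu : ∀ᵐ p ∂(μ.prod ν), 0 < F p.1 ∧ p.2 ∈ Set.Ioi (0 : ℝ) := by
    have h1 : ∀ᵐ p ∂(μ.prod ν), 0 < F p.1 := by
      have := (Measure.quasiMeasurePreserving_fst (μ := μ) (ν := ν)).ae hpos
      exact this
    have h2 : ∀ᵐ p ∂(μ.prod ν), p.2 ∈ Set.Ioi (0 : ℝ) := by
      have := (Measure.quasiMeasurePreserving_snd (μ := μ) (ν := ν)).ae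
        (ae_restrict_mem measurableSet_Ioi : ∀ᵐ t ∂ν, t ∈ Set.Ioi (0 : ℝ))
      exact this
    filter_upwards [h1, h2] with p hp1 hp2
    exact ⟨hp1, hp2⟩
  have hGi : Integrable G (μ.prod ν) := by
    refine hdom.mono' hGm.aestronglyMeasurable ?_
    filter_upwards [hnu] with p hp
    have hp0 : (0 : ℝ) < p.2 := hp.2
    have hx0 := hp.1
    rw [hG]
    simp only
    unfold ker
    rw [norm_mul, norm_mul, Complex.norm_real,
      Real.norm_eq_abs, abs_of_nonneg (Real.rpow_nonneg hp0.le _)]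
    calc _ ≤ p.2 ^ (a - 1) * ((KT * Real.exp (-(p.2 * F p.1) / 2)) * ‖φ' p.1‖) := by
          have h4 := hTb p.2 hp0.le p.1 hx0
          have h5 : 0 ≤ p.2 ^ (a - 1) := Real.rpow_nonneg hp0.le _
          gcongr
      _ = _ := by ring
  have e0 : ∀ τ, ∫ x, G (x, τ) ∂μ = ((τ ^ (a - 1) : ℝ) : ℂ) * ∫ x, ker T F τ x * φ x ∂μ := by
    intro τ
    rw [hG]
    simp only
    rw [integral_const_mul]
    congr 1
    refine integral_congr_ae ?_
    filter_upwards [hφ'e] with x hx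
    rw [hx]
  constructor
  · have h1 := hGi.integral_prod_right
    refine h1.congr (Eventually.of_forall fun τ => ?_)
    exact e0 τ
  · have h1 : ∫ τ, ∫ x, G (x, τ) ∂μ ∂ν = ∫ x, ∫ τ, G (x, τ) ∂ν ∂μ :=
      (integral_integral_swap hGi).symm
    simp only [e0] at h1
    rw [h1]
    have h2 : ∀ᵐ x ∂μ, ∫ τ, G (x, τ) ∂ν = B.eval (-(a : ℂ)) * ((Real.Gamma a : ℂ) *
        (((F x ^ (-a) : ℝ) : ℂ) * φ x)) := by
      filter_upwards [hpos, hφ'e] with x hx0 hxe
      have h3 : ∀ τ, G (x, τ) = (φ' x) * (((τ ^ (a - 1) : ℝ) : ℂ) *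
          (T.eval (-(τ * F x : ℂ)) * exp (-(τ * F x : ℂ)))) := by
        intro τ
        rw [hG]
        simp only
        unfold ker
        ring
      simp only [h3]
      rw [integral_const_mul, hT.2 a _ ha hx0, one_div, Real.inv_rpow hx0.le,
        Real.rpow_neg hx0.le, hxe]
      push_cast
      ring
    rw [integral_congr_ae h2, integral_const_mul, integral_const_mul]

/-- **Moment identities become identities for the real powers.** -/
theorem mom_ident {F : α → ℝ} (hFm : Measurable F) (hpos : ∀ᵐ x ∂μ, 0 < F x) {M : ℝ}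
    (hM : ∀ᵐ x ∂μ, |F x| ≤ M) (b : Polynomial ℂ) (S : Finset ℕ) (φ : α → ℂ) (ψ : ℕ → α → ℂ)
    (hφ : Integrable φ μ) (hψ : ∀ m, Integrable (ψ m) μ)
    (h : ∀ n : ℕ, b.eval (n : ℂ) * ∫ x, (F x : ℂ) ^ n * φ x ∂μ =
      ∑ m ∈ S, (n : ℂ) ^ m * ∫ x, (F x : ℂ) ^ n * ψ m x ∂μ)
    (s : ℝ) (hs : s < 0) (hI : Integrable (fun x => ‖φ x‖ * F x ^ s) μ)
    (hI' : ∀ m, Integrable (fun x => ‖ψ m x‖ * F x ^ s) μ) :
    b.eval (s : ℂ) * ∫ x, ((F x ^ s : ℝ) : ℂ) * φ x ∂μ =
      ∑ m ∈ S, (s : ℂ) ^ m * ∫ x, ((F x ^ s : ℝ) : ℂ) * ψ m x ∂μ := by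
  obtain ⟨T, hT⟩ := exists_serG b
  choose U hU using fun m : ℕ => exists_serG ((Polynomial.X : Polynomial ℂ) ^ m)
  have e2 : ∀ τ : ℝ, ∫ x, ker T F τ x * φ x ∂μ =
      ∑ m ∈ S, ∫ x, ker (U m) F τ x * ψ m x ∂μ := by
    intro τ
    have h1 := hasSum_ker hFm hM hT τ hφ
    have h2 : HasSum (fun n : ℕ => ∑ m ∈ S, (-(τ : ℂ)) ^ n / (n.factorial : ℂ) *
        (((Polynomial.X : Polynomial ℂ) ^ m).eval (n : ℂ) *
          ∫ x, (F x : ℂ) ^ n * ψ m x ∂μ))
        (∑ m ∈ S, ∫ x, ker (U m) F τ x * ψ m x ∂μ) :=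
      hasSum_sum fun m _ => hasSum_ker hFm hM (hU m) τ (hψ m)
    refine h1.unique ?_
    refine h2.congr_fun fun n => ?_
    rw [← Finset.mul_sum]
    congr 1
    rw [h n]
    refine Finset.sum_congr rfl fun m _ => ?_
    rw [Polynomial.eval_pow, Polynomial.eval_X]
  set a : ℝ := -s with ha
  have ha0 : 0 < a := by rw [ha]; linarith
  have hNa : -a = s := by rw [ha]; ring
  obtain ⟨-, m2⟩ := mellin hFm hpos hT a ha0 hφ.aestronglyMeasurable (by rw [hNa]; exact hI)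
  have m3 := fun m => mellin hFm hpos (hU m) a ha0 (hψ m).aestronglyMeasurable
    (by rw [hNa]; exact hI' m)
  simp only [e2, Finset.mul_sum] at m2
  rw [integral_finsetSum _ (fun m _ => (m3 m).1), Finset.sum_congr rfl fun m _ => (m3 m).2] at m2
  have h6 : -(a : ℂ) = (s : ℂ) := by rw [ha]; push_cast; ring
  simp only [hNa, h6, Polynomial.eval_pow, Polynomial.eval_X] at m2
  have hΓ : (Real.Gamma a : ℂ) ≠ 0 := by
    exact_mod_cast (Real.Gamma_pos_of_pos ha0).ne'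
  apply mul_left_cancel₀ hΓ
  rw [Finset.mul_sum]
  calc _ = b.eval (s : ℂ) * ((Real.Gamma a : ℂ) * ∫ x, ((F x ^ s : ℝ) : ℂ) * φ x ∂μ) := by ring
    _ = _ := m2.symm
    _ = _ := Finset.sum_congr rfl fun m _ => by ring

end Pool.Agent.H74A.M
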