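import Pool.Agent.H74A.Ord2

set_option autoImplicit false
set_option linter.unusedSectionVars false
set_option linter.unusedVariables false

/-! # Local integrability and the multiplicity -/

namespace Pool.Agent.H74S

open MvPolynomial MeasureTheory Filter Topology Complex Metric
open Pool.Agent.H74D Pool.Agent.H74C
open Pool.Agent.H74A (pr pr_roots pr_eq_of_cf cf cf_cont cf_proper)
open scoped ENNReal

/-- the translated integrals -/
theorem pw_shift {c : ℝ} (hc0 : 0 ≤ c) (z₀ r : ℂ) (ε : ℝ) :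
    ∫⁻ z in closedBall z₀ ε, pw c (z - r) ≤
      (∫⁻ z in closedBall (0 : ℂ) 1, pw c z) + volume (closedBall z₀ ε) := by
  have h1 : ∀ z : ℂ, pw c (z - r) ≤ (closedBall (0 : ℂ) 1).indicator (pw c) (z - r) + 1 := by
    intro z
    by_cases hz : z - r ∈ closedBall (0 : ℂ) 1
    · rw [Set.indicator_of_mem hz]
      exact le_self_add
    · rw [Set.indicator_of_notMem hz, zero_add]
      rw [mem_closedBall_zero_iff, not_le] at hz
      unfold pw
      rw [← ENNReal.ofReal_one]
      refine ENNReal.ofReal_le_ofReal ?_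
      exact Real.rpow_le_one_of_one_le_of_nonpos (by nlinarith [norm_nonneg (z - r)]) (by linarith)
  calc ∫⁻ z in closedBall z₀ ε, pw c (z - r) ≤
      ∫⁻ z in closedBall z₀ ε, ((closedBall (0 : ℂ) 1).indicator (pw c) (z - r) + 1) :=
        lintegral_mono fun z => h1 z
    _ = (∫⁻ z in closedBall z₀ ε, (closedBall (0 : ℂ) 1).indicator (pw c) (z - r)) +
        volume (closedBall z₀ ε) := by
        have hm : Measurable fun z : ℂ => (closedBall (0 : ℂ) 1).indicator (pw c) (z - r) :=
          ((pw_meas c).indicator measurableSet_closedBall).comp (measurable_id.sub_const r)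
        rw [lintegral_add_left hm, setLIntegral_const, one_mul]
    _ ≤ _ := by
        refine add_le_add ?_ le_rfl
        refine (setLIntegral_le_lintegral _ _).trans (le_of_eq ?_)
        rw [lintegral_sub_right_eq_self (μ := (volume : Measure ℂ))
          ((closedBall (0 : ℂ) 1).indicator (pw c)) r, lintegral_indicator measurableSet_closedBall]

theorem prod_le_sum {ι : Type} [Fintype ι] [DecidableEq ι] (S : Finset ι) (t : ι → ℝ)
    (ht : ∀ i, 0 ≤ t i) (m : ℕ) (hS : S.card ≤ m) : ∏ i ∈ S, t i ≤ 1 + ∑ i, t i ^ m := by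
  have hnn : 0 ≤ ∑ i, t i ^ m := Finset.sum_nonneg fun i _ => pow_nonneg (ht i) m
  by_cases h : ∀ i ∈ S, t i ≤ 1
  · have := Finset.prod_le_one (fun i _ => ht i) h
    linarith
  · push Not at h
    obtain ⟨i₀, hi₀, hlt⟩ := h
    obtain ⟨i₁, hi₁, hmax⟩ := S.exists_max_image t ⟨i₀, hi₀⟩
    have h1 : 1 < t i₁ := hlt.trans_le (hmax i₀ hi₀)
    have h2 : ∏ i ∈ S, t i ≤ t i₁ ^ S.card := by
      rw [← Finset.prod_const]
      exact Finset.prod_le_prod (fun i _ => ht i) hmax
    have h3 : t i₁ ^ S.card ≤ t i₁ ^ m := pow_le_pow_right₀ h1.le hS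
    have h4 : t i₁ ^ m ≤ ∑ i, t i ^ m :=
      Finset.single_le_sum (f := fun i => t i ^ m) (fun i _ => pow_nonneg (ht i) m)
        (Finset.mem_univ i₁)
    linarith

open Classical in
/-- the bound for polynomials with few zeros in a disc -/
theorem prod_bound {d m : ℕ} {c : ℝ} (hc0 : 0 ≤ c) (hcm : c * m < 1) (z₀ : ℂ) {ε : ℝ} (hε : 0 < ε)
    (hε1 : ε ≤ 1) : ∃ K : ℝ≥0∞, K ≠ ⊤ ∧ ∀ r : Fin d → ℂ,
      (Finset.univ.filter fun i => r i ∈ closedBall z₀ ε).card ≤ m →
      ∫⁻ z in closedBall z₀ (ε / 2), ENNReal.ofReal (∏ i, (‖z - r i‖ ^ 2) ^ (-c)) ≤ K := by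
  classical
  set L : ℝ := ((ε / 2) ^ 2) ^ (-c) with hL
  have hL1 : 1 ≤ L := by
    refine Real.one_le_rpow_of_pos_of_le_one_of_nonpos (by positivity) ?_ (by linarith)
    nlinarith
  set K1 : ℝ≥0∞ := (∫⁻ z in closedBall (0 : ℂ) 1, pw (c * m) z) + volume (closedBall z₀ (ε / 2))
    with hK1
  have hK1t : K1 ≠ ⊤ := ENNReal.add_ne_top.2 ⟨pw_ball hcm one_pos, measure_closedBall_lt_top.ne⟩
  refine ⟨ENNReal.ofReal (L ^ d) * (volume (closedBall z₀ (ε / 2)) + d * K1), ?_, ?_⟩
  · refine ENNReal.mul_ne_top ENNReal.ofReal_ne_top (ENNReal.add_ne_top.2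
      ⟨measure_closedBall_lt_top.ne, ENNReal.mul_ne_top (ENNReal.natCast_ne_top d) hK1t⟩)
  · intro r hr
    set S := Finset.univ.filter fun i => r i ∈ closedBall z₀ ε with hS
    have hae : ∀ᵐ z : ℂ, ∀ i, z ≠ r i := by
      rw [ae_all_iff]
      intro i
      have h : (volume : Measure ℂ) {r i} = 0 := measure_singleton _
      exact compl_mem_ae_iff.2 h
    have hpt : ∀ z ∈ closedBall z₀ (ε / 2), (∀ i, z ≠ r i) →
        ENNReal.ofReal (∏ i, (‖z - r i‖ ^ 2) ^ (-c)) ≤
          ENNReal.ofReal (L ^ d) * (1 + ∑ i, pw (c * m) (z - r i)) := by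
      intro z hz hzr
      have ht : ∀ i, 0 ≤ (‖z - r i‖ ^ 2) ^ (-c) := fun i => by positivity
      have h1 : ∏ i ∈ S, (‖z - r i‖ ^ 2) ^ (-c) ≤ 1 + ∑ i, ((‖z - r i‖ ^ 2) ^ (-c)) ^ m :=
        prod_le_sum S _ ht m hr
      have h2 : ∏ i ∈ Sᶜ, (‖z - r i‖ ^ 2) ^ (-c) ≤ L ^ d := by
        calc ∏ i ∈ Sᶜ, (‖z - r i‖ ^ 2) ^ (-c) ≤ ∏ i ∈ Sᶜ, L := by
              refine Finset.prod_le_prod (fun i _ => ht i) fun i hi => ?_
              rw [Finset.mem_compl, hS, Finset.mem_filter, not_and] at hi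
              have h3 := hi (Finset.mem_univ i)
              rw [mem_closedBall, not_le, dist_eq_norm] at h3
              rw [mem_closedBall, dist_eq_norm] at hz
              have h4 : ε / 2 ≤ ‖z - r i‖ := by
                have h5 := norm_sub_le_norm_sub_add_norm_sub (r i) z z₀
                rw [norm_sub_rev (r i) z] at h5
                linarith
              exact Real.rpow_le_rpow_of_nonpos (by positivity) (by gcongr) (by linarith)
          _ = L ^ Sᶜ.card := Finset.prod_const L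
          _ ≤ L ^ d := pow_le_pow_right₀ hL1 (by
              have := Finset.card_le_univ Sᶜ
              rwa [Fintype.card_fin] at this)
      have h3 : ∏ i, (‖z - r i‖ ^ 2) ^ (-c) ≤
          L ^ d * (1 + ∑ i, ((‖z - r i‖ ^ 2) ^ (-c)) ^ m) := by
        rw [← Finset.prod_mul_prod_compl S, mul_comm]
        exact mul_le_mul h2 h1 (Finset.prod_nonneg fun i _ => ht i) (by positivity)
      refine (ENNReal.ofReal_le_ofReal h3).trans (le_of_eq ?_)
      rw [ENNReal.ofReal_mul (by positivity), ENNReal.ofReal_add zero_le_one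
        (Finset.sum_nonneg fun i _ => pow_nonneg (ht i) m), ENNReal.ofReal_one,
        ENNReal.ofReal_sum_of_nonneg fun i _ => pow_nonneg (ht i) m]
      congr 2
      refine Finset.sum_congr rfl fun i _ => ?_
      unfold pw
      rw [← Real.rpow_natCast, ← Real.rpow_mul (by positivity)]
      congr 2
      ring
    calc ∫⁻ z in closedBall z₀ (ε / 2), ENNReal.ofReal (∏ i, (‖z - r i‖ ^ 2) ^ (-c)) ≤
        ∫⁻ z in closedBall z₀ (ε / 2),
          ENNReal.ofReal (L ^ d) * (1 + ∑ i, pw (c * m) (z - r i)) := by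
          refine setLIntegral_mono_ae' measurableSet_closedBall ?_
          filter_upwards [hae] with z h1 hz
          exact hpt z hz h1
      _ = ENNReal.ofReal (L ^ d) * (volume (closedBall z₀ (ε / 2)) +
          ∑ i, ∫⁻ z in closedBall z₀ (ε / 2), pw (c * m) (z - r i)) := by
          rw [lintegral_const_mul' _ _ ENNReal.ofReal_ne_top, lintegral_add_left measurable_const,
            setLIntegral_const, one_mul, lintegral_finsetSum]
          intro i _
          exact (pw_meas _).comp (measurable_id.sub_const (r i))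
      _ ≤ _ := by
          refine mul_le_mul' le_rfl (add_le_add le_rfl ?_)
          calc ∑ i, ∫⁻ z in closedBall z₀ (ε / 2), pw (c * m) (z - r i) ≤ ∑ i : Fin d, K1 :=
                Finset.sum_le_sum fun i _ => pw_shift (by positivity) z₀ (r i) (ε / 2)
            _ = d * K1 := by
                rw [Finset.sum_const, Finset.card_univ, Fintype.card_fin, nsmul_eq_mul]

section

variable {n d : ℕ} {F : MvPolynomial (Fin (n + 1)) ℂ}

theorem la_const (h : Dat d 0 F) (x : Fin n → ℂ) : la F x = la F 0 ∧ la F x ≠ 0 := by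
  have h1 : ∀ x, la F x = la F 0 := by
    intro x
    have := h.la_smul 0 x
    rw [zero_smul, pow_zero, one_mul] at this
    exact this.symm
  refine ⟨h1 x, ?_⟩
  obtain ⟨y, hy⟩ := h.ae_la.exists
  rw [h1 x, ← h1 y]
  exact hy

/-- **Local integrability, with the multiplicity of a zero on a line.** -/
theorem mult_loc (h : Dat d 0 F) {c : ℝ} (hc0 : 0 ≤ c) {m : ℕ} (hcm : c * m < 1) (z₀ : ℂ)
    (x₀ : Fin n → ℂ)
    (hmul : ((finSuccEquiv ℂ n F).map (eval x₀)).rootMultiplicity z₀ ≤ m) :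
    ∃ U ∈ 𝓝 (Fin.cons z₀ x₀ : Fin (n + 1) → ℂ), ∫⁻ x in U, pw c (eval x F) ≠ ⊤ := by
  classical
  obtain ⟨r, hr0⟩ := h.exists_rt
  have hr : IsRt d F r := hr0
  have hla : ∀ x, la F x ≠ 0 := fun x => (la_const h x).2
  -- the coefficients are continuous
  have hg : Continuous fun x => cf (r x) := by
    refine continuous_pi fun j => ?_
    have h1 : (fun x => cf (r x) j) = fun x => eval x ((finSuccEquiv ℂ n F).coeff j) / la F x := by
      funext x
      rw [hr.coeff (hla x), mul_div_cancel_left₀ _ (hla x)]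
      rfl
    rw [h1]
    exact (MvPolynomial.continuous_eval _).div (continuous_la F) hla
  -- the radius
  have hcount : (Finset.univ.filter fun i => r x₀ i = z₀).card ≤ m := by
    refine le_trans (le_of_eq ?_) hmul
    rw [← Polynomial.count_roots, hr x₀ (hla x₀), Polynomial.roots_C_mul _ (hla x₀), pr_roots,
      Multiset.count_map]
    simp only [eq_comm (a := z₀)]
    rfl
  obtain ⟨ε, hε, hε1, hεr⟩ : ∃ ε : ℝ, 0 < ε ∧ ε ≤ 1 ∧ ∀ i, r x₀ i ≠ z₀ → ε < ‖r x₀ i - z₀‖ := by
    have h1 : ∀ i, ∃ ε : ℝ, 0 < ε ∧ ε ≤ 1 ∧ (r x₀ i ≠ z₀ → ε < ‖r x₀ i - z₀‖) := by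
      intro i
      by_cases hi : r x₀ i = z₀
      · exact ⟨1, one_pos, le_rfl, fun h => absurd hi h⟩
      · have hp : 0 < ‖r x₀ i - z₀‖ := norm_pos_iff.2 (sub_ne_zero.2 hi)
        exact ⟨min 1 (‖r x₀ i - z₀‖ / 2), lt_min one_pos (by positivity), min_le_left _ _,
          fun _ => (min_le_right _ _).trans_lt (by linarith)⟩
    choose e he1 he2 he3 using h1
    have hd : 0 < d := h.k0
    have : Nonempty (Fin d) := ⟨⟨0, hd⟩⟩
    obtain ⟨i₀, -, hmin⟩ := Finset.univ.exists_min_image e Finset.univ_nonempty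
    exact ⟨e i₀, he1 i₀, he2 i₀, fun i hi => (hmin i (Finset.mem_univ i)).trans_lt (he3 i hi)⟩
  -- the bad configurations
  set Bad : Set (Fin d → ℂ) := ⋃ S ∈ {S : Finset (Fin d) | m < S.card},
    {ρ | ∀ i ∈ S, ρ i ∈ closedBall z₀ ε} with hBad
  have hBadc : IsClosed Bad := by
    refine Set.Finite.isClosed_biUnion (Set.toFinite _) fun S _ => ?_
    have : {ρ : Fin d → ℂ | ∀ i ∈ S, ρ i ∈ closedBall z₀ ε} =
        ⋂ i ∈ S, (fun ρ : Fin d → ℂ => ρ i) ⁻¹' closedBall z₀ ε := by
      ext ρ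
      simp
    rw [this]
    exact isClosed_biInter fun i _ => isClosed_closedBall.preimage (continuous_apply i)
  have hcfB : IsClosed (cf '' Bad) := (cf_proper d).isClosedMap _ hBadc
  have hnot : cf (r x₀) ∉ cf '' Bad := by
    rintro ⟨ρ, hρ, hcf⟩
    have h1 := pr_eq_of_cf hcf
    have h2 : Finset.univ.val.map ρ = Finset.univ.val.map (r x₀) := by
      rw [← pr_roots, ← pr_roots, h1]
    rw [hBad, Set.mem_iUnion₂] at hρ
    obtain ⟨S, hS, hρS⟩ := hρ
    have h3 : S.card ≤ (Finset.univ.filter fun i => ρ i ∈ closedBall z₀ ε).card :=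
      Finset.card_le_card fun i hi => Finset.mem_filter.2 ⟨Finset.mem_univ i, hρS i hi⟩
    have h4 : ∀ ρ : Fin d → ℂ, (Finset.univ.filter fun i => ρ i ∈ closedBall z₀ ε).card =
        ((Finset.univ.val.map ρ).filter fun z => z ∈ closedBall z₀ ε).card := by
      intro ρ
      rw [Multiset.filter_map, Multiset.card_map]
      rfl
    rw [h4, h2, ← h4] at h3
    have h5 : (Finset.univ.filter fun i => r x₀ i ∈ closedBall z₀ ε).card ≤
        (Finset.univ.filter fun i => r x₀ i = z₀).card := by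
      refine Finset.card_le_card fun i hi => ?_
      rw [Finset.mem_filter] at hi ⊢
      refine ⟨hi.1, ?_⟩
      by_contra hne
      have h6 := hεr i hne
      have h7 := hi.2
      rw [mem_closedBall, dist_eq_norm] at h7
      linarith
    have h6 : m < S.card := hS
    omega
  have hV : ∀ᶠ x in 𝓝 x₀, (Finset.univ.filter fun i => r x i ∈ closedBall z₀ ε).card ≤ m := by
    filter_upwards [hg.continuousAt.preimage_mem_nhds (hcfB.isOpen_compl.mem_nhds hnot)] with x hx
    by_contra hcon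
    push Not at hcon
    apply hx
    refine ⟨r x, ?_, rfl⟩
    rw [hBad, Set.mem_iUnion₂]
    exact ⟨_, hcon, fun i hi => (Finset.mem_filter.1 hi).2⟩
  obtain ⟨δ₁, hδ₁, hball⟩ := Metric.nhds_basis_closedBall.mem_iff.1 hV
  obtain ⟨K, hK, hbound⟩ := prod_bound (d := d) hc0 hcm z₀ hε hε1
  set δ : ℝ := min δ₁ (ε / 2) with hδ
  have hδ0 : 0 < δ := lt_min hδ₁ (by positivity)
  set C : ℝ≥0∞ := ENNReal.ofReal ((‖la F 0‖ ^ 2) ^ (-c)) * K with hC
  have hCt : C ≠ ⊤ := ENNReal.mul_ne_top ENNReal.ofReal_ne_top hK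
  have hfib : ∀ x ∈ closedBall x₀ δ, ∫⁻ z in closedBall z₀ δ,
      pw c (eval (Fin.cons z x : Fin (n + 1) → ℂ) F) ≤ C := by
    intro x hx
    have h1 := hbound (r x) (hball (closedBall_subset_closedBall (min_le_left _ _) hx))
    have h2 : ∀ z : ℂ, pw c (eval (Fin.cons z x : Fin (n + 1) → ℂ) F) =
        ENNReal.ofReal ((‖la F 0‖ ^ 2) ^ (-c)) *
          ENNReal.ofReal (∏ i, (‖z - r x i‖ ^ 2) ^ (-c)) := by
      intro z
      unfold pw
      rw [hr.eval (hla x), (la_const h x).1, norm_mul, mul_pow,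
        Real.mul_rpow (by positivity) (by positivity), ENNReal.ofReal_mul (by positivity),
        norm_prod, ← Finset.prod_pow, Real.finsetProd_rpow _ _ fun i _ => by positivity]
    simp only [h2]
    rw [lintegral_const_mul' _ _ ENNReal.ofReal_ne_top]
    exact mul_le_mul' le_rfl ((lintegral_mono_set
      (closedBall_subset_closedBall (min_le_right _ _))).trans h1)
  refine ⟨closedBall (Fin.cons z₀ x₀) δ, closedBall_mem_nhds _ hδ0, ?_⟩
  have hmp := volume_preserving_piFinSuccAbove (fun _ : Fin (n + 1) => ℂ) 0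
  have hmeas : Measurable fun y : Fin (n + 1) → ℂ => pw c (eval y F) :=
    (pw_meas c).comp (MvPolynomial.continuous_eval F).measurable
  have hins : Measurable fun p : ℂ × (Fin n → ℂ) =>
      ((0 : Fin (n + 1)).insertNth p.1 p.2 : Fin (n + 1) → ℂ) :=
    (MeasurableEquiv.piFinSuccAbove (fun _ : Fin (n + 1) => ℂ) 0).symm.measurable
  set G : (Fin (n + 1) → ℂ) → ℝ≥0∞ :=
    (closedBall (Fin.cons z₀ x₀) δ).indicator fun y => pw c (eval y F) with hG
  have hGm : Measurable G := hmeas.indicator measurableSet_closedBall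
  have hGi : Measurable fun p : ℂ × (Fin n → ℂ) =>
      G ((0 : Fin (n + 1)).insertNth p.1 p.2) := hGm.comp hins
  have e1 : ∫⁻ y in closedBall (Fin.cons z₀ x₀) δ, pw c (eval y F) =
      ∫⁻ p : ℂ × (Fin n → ℂ), G ((0 : Fin (n + 1)).insertNth p.1 p.2) := by
    rw [← lintegral_indicator measurableSet_closedBall]
    exact (hmp.symm.lintegral_comp hGm).symm
  rw [e1, Measure.volume_eq_prod, lintegral_prod_symm' _ hGi]
  have hbi : ∀ (z : ℂ) (x : Fin n → ℂ), (Fin.cons z x : Fin (n + 1) → ℂ) ∈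
      closedBall (Fin.cons z₀ x₀ : Fin (n + 1) → ℂ) δ → z ∈ closedBall z₀ δ ∧
      x ∈ closedBall x₀ δ := by
    intro z x hzx
    rw [mem_closedBall, dist_pi_le_iff hδ0.le] at hzx
    refine ⟨by simpa using hzx 0, ?_⟩
    rw [mem_closedBall, dist_pi_le_iff hδ0.le]
    intro i
    simpa using hzx i.succ
  refine ne_of_lt (lt_of_le_of_lt (b := ∫⁻ x in closedBall x₀ δ, C) ?_ ?_)
  · rw [← lintegral_indicator measurableSet_closedBall]
    refine lintegral_mono fun x => ?_
    by_cases hx : x ∈ closedBall x₀ δ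
    · rw [Set.indicator_of_mem hx]
      refine le_trans ?_ (hfib x hx)
      rw [← lintegral_indicator measurableSet_closedBall]
      refine lintegral_mono fun z => ?_
      rw [Fin.insertNth_zero']
      by_cases hy : (Fin.cons z x : Fin (n + 1) → ℂ) ∈ closedBall (Fin.cons z₀ x₀) δ
      · rw [hG, Set.indicator_of_mem hy, Set.indicator_of_mem (hbi z x hy).1]
      · rw [hG, Set.indicator_of_notMem hy]
        exact zero_le
    · rw [Set.indicator_of_notMem hx]
      have e2 : ∀ z : ℂ, G ((0 : Fin (n + 1)).insertNth z x) = 0 := by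
        intro z
        rw [Fin.insertNth_zero', hG, Set.indicator_of_notMem]
        intro hy
        exact hx (hbi z x hy).2
      simp only [e2, lintegral_zero, le_refl]
  · rw [setLIntegral_const]
    exact ENNReal.mul_lt_top hCt.lt_top measure_closedBall_lt_top

end

end Pool.Agent.H74S
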