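import Pool.Agent.H74A.MultLoc

set_option autoImplicit false
set_option linter.unusedSectionVars false
set_option linter.unusedVariables false

/-! # Local integrability and the multiplicity: the general direction -/

namespace Pool.Agent.H74S

open MvPolynomial MeasureTheory Filter Topology Complex Metric
open Pool.Agent.H74D Pool.Agent.H74C
open scoped ENNReal

/-- the matrix with the first column `v` -/
noncomputable def mA {n : ℕ} (v : Fin (n + 1) → ℂ) : Matrix (Fin (n + 1)) (Fin (n + 1)) ℂ :=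
  Matrix.of fun i j => if j = 0 then v i else if i = j then 1 else 0

/-- its inverse -/
noncomputable def mB {n : ℕ} (v : Fin (n + 1) → ℂ) : Matrix (Fin (n + 1)) (Fin (n + 1)) ℂ :=
  Matrix.of fun i j => if j = 0 then (if i = 0 then (v 0)⁻¹ else -v i * (v 0)⁻¹) else
    if i = j then 1 else 0

theorem mAB {n : ℕ} (v : Fin (n + 1) → ℂ) (hv : v 0 ≠ 0) : mA v * mB v = 1 := by
  ext i l
  rw [Matrix.mul_apply, Fin.sum_univ_succ]
  unfold mA mB
  simp only [Matrix.of_apply, if_true, Fin.succ_ne_zero, if_false]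
  refine Fin.cases ?_ (fun i => ?_) i
  · refine Fin.cases ?_ (fun l => ?_) l
    · simp [Fin.succ_ne_zero, (Fin.succ_ne_zero _).symm, hv]
    · simp [Fin.succ_ne_zero, (Fin.succ_ne_zero _).symm, hv]
  · refine Fin.cases ?_ (fun l => ?_) l
    · simp [Fin.succ_ne_zero, (Fin.succ_ne_zero _).symm, hv, Fin.succ_inj]
    · simp [Fin.succ_ne_zero, (Fin.succ_ne_zero _).symm, hv, Fin.succ_inj, Matrix.one_apply]

theorem mBA {n : ℕ} (v : Fin (n + 1) → ℂ) (hv : v 0 ≠ 0) : mB v * mA v = 1 :=
  _root_.mul_eq_one_comm.1 (mAB v hv)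

theorem mA_vec {n : ℕ} (v : Fin (n + 1) → ℂ) :
    (mA v).mulVec (Fin.cons 1 0 : Fin (n + 1) → ℂ) = v := by
  funext i
  unfold Matrix.mulVec dotProduct mA
  rw [Fin.sum_univ_succ]
  simp

section

variable {n k m d : ℕ} {f : MvPolynomial (Fin (n + 1)) ℂ}

theorem exists_dir (hn : 0 < n) (hf : f ≠ 0) : ∃ v : Fin (n + 1) → ℂ, v 0 ≠ 0 ∧ eval v f ≠ 0 ∧
    eval (Fin.tail v) (lc f) ≠ 0 := by
  have hl : lc f ≠ 0 := by
    unfold lc
    rw [Polynomial.leadingCoeff_ne_zero]
    intro h0
    exact hf ((finSuccEquiv ℂ n).injective (by rw [h0, map_zero]))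
  have hl' : (rename Fin.succ (lc f) : MvPolynomial (Fin (n + 1)) ℂ) ≠ 0 := by
    intro h0
    exact hl (rename_injective _ (Fin.succ_injective _) (by rw [h0, map_zero]))
  obtain ⟨v, hv⟩ := (ae_eval_ne (X 0 * f * rename Fin.succ (lc f))
    (mul_ne_zero (mul_ne_zero (X_ne_zero 0) hf) hl')).exists
  rw [map_mul, map_mul, eval_X] at hv
  refine ⟨v, fun h => hv (by rw [h, zero_mul, zero_mul]), fun h => hv (by rw [h, mul_zero, zero_mul]),
    fun h => hv ?_⟩
  have h1 := eval_rename (R := ℂ) Fin.succ v (lc f)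
  have h2 : v ∘ Fin.succ = Fin.tail v := rfl
  rw [h1, h2, h, mul_zero]

/-- in the new coordinates the form is monic, up to a constant -/
theorem dat_new (hd : 0 < d) (hf : f.IsHomogeneous d) (v : Fin (n + 1) → ℂ) (hv : eval v f ≠ 0) :
    Dat d 0 (linSub (mA v) f) := by
  have hF := linSub_hom (mA v) f d hf
  have hle : (finSuccEquiv ℂ n (linSub (mA v) f)).natDegree ≤ d := by
    rw [natDegree_finSuccEquiv]
    exact (degreeOf_le_totalDegree _ 0).trans hF.totalDegree_le
  refine ⟨hd, hF, le_antisymm hle (Polynomial.le_natDegree_of_ne_zero fun h0 => hv ?_)⟩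
  have h1 : eval (Fin.cons 1 0 : Fin (n + 1) → ℂ) (linSub (mA v) f) = eval v f := by
    rw [eval_linSub, mA_vec]
  rw [← h1, MvPolynomial.eval_eq_eval_mv_eval',
    Polynomial.eval_eq_sum_range' (n := d + 1) (by
      refine lt_of_le_of_lt Polynomial.natDegree_map_le ?_
      omega)]
  refine Finset.sum_eq_zero fun j hj => ?_
  rw [Finset.mem_range] at hj
  rw [Polynomial.coeff_map]
  by_cases hjd : j = d
  · rw [hjd, h0, map_zero, zero_mul]
  · have h2 : ((finSuccEquiv ℂ n (linSub (mA v) f)).coeff j).IsHomogeneous (d - j) :=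
      hF.finSuccEquiv_coeff_isHomogeneous j (d - j) (by omega)
    have h3 := eval_smul_hom _ _ h2 0 0
    rw [smul_zero, Complex.ofReal_zero, zero_pow (by omega), zero_mul] at h3
    rw [h3, zero_mul]

/-- **Local integrability at a point of multiplicity `m`.** -/
theorem mult_ord (hn : 0 < n) (hd : 0 < d) (hf : f.IsHomogeneous d) (hf0 : f ≠ 0)
    (hk : (finSuccEquiv ℂ n f).natDegree = k) (hkm : d = k + m) {c : ℝ} (hc0 : 0 ≤ c)
    (hcm : c * m < 1) :
    ∃ U ∈ 𝓝 (Fin.cons 1 0 : Fin (n + 1) → ℂ), ∫⁻ x in U, pw c (eval x f) ≠ ⊤ := by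
  obtain ⟨v, hv0, hvf, hva⟩ := exists_dir hn hf0
  have hD := dat_new hd hf v hvf
  set w : Fin (n + 1) → ℂ := (mB v).mulVec (Fin.cons 1 0) with hw
  have hAw : (mA v).mulVec w = Fin.cons 1 0 := by
    rw [hw, Matrix.mulVec_mulVec, mAB v hv0, Matrix.one_mulVec]
  have hmul : ((finSuccEquiv ℂ n (linSub (mA v) f)).map (eval (Fin.tail w))).rootMultiplicity (w 0) ≤
      m := by
    set Q : Polynomial ℂ := ∑ j ∈ Finset.range (k + 1),
      Polynomial.C (eval (Fin.tail v) ((finSuccEquiv ℂ n f).coeff j)) *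
        (1 + Polynomial.C (v 0) * Polynomial.X) ^ j * Polynomial.X ^ (k - j) with hQ
    have hcomp : ((finSuccEquiv ℂ n (linSub (mA v) f)).map (eval (Fin.tail w))).comp
        (Polynomial.X + Polynomial.C (w 0)) = Q * (Polynomial.X - Polynomial.C 0) ^ m := by
      refine Polynomial.funext fun τ => ?_
      rw [Polynomial.eval_comp, Polynomial.eval_add, Polynomial.eval_X, Polynomial.eval_C,
        ← MvPolynomial.eval_eq_eval_mv_eval', eval_linSub]
      have h1 : (mA v).mulVec (Fin.cons (τ + w 0) (Fin.tail w) : Fin (n + 1) → ℂ) =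
          Fin.cons (1 + τ * v 0) (τ • Fin.tail v) := by
        have h2 : (Fin.cons (τ + w 0) (Fin.tail w) : Fin (n + 1) → ℂ) =
            w + τ • (Fin.cons 1 0 : Fin (n + 1) → ℂ) := by
          funext i
          refine Fin.cases ?_ (fun i => ?_) i
          · simp [add_comm]
          · simp [Fin.tail]
        rw [h2, Matrix.mulVec_add, Matrix.mulVec_smul, hAw, mA_vec]
        funext i
        refine Fin.cases ?_ (fun i => ?_) i
        · simp
        · simp [Fin.tail]
      rw [h1, MvPolynomial.eval_eq_eval_mv_eval',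
        Polynomial.eval_eq_sum_range' (n := k + 1) (by
          refine lt_of_le_of_lt Polynomial.natDegree_map_le ?_
          omega)]
      rw [Polynomial.eval_mul, hQ, Polynomial.eval_finsetSum, Finset.sum_mul]
      refine Finset.sum_congr rfl fun j hj => ?_
      rw [Finset.mem_range] at hj
      have h3 : ((finSuccEquiv ℂ n f).coeff j).IsHomogeneous (k - j + m) :=
        hf.finSuccEquiv_coeff_isHomogeneous j (k - j + m) (by omega)
      have h4 : eval (τ • Fin.tail v) ((finSuccEquiv ℂ n f).coeff j) =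
          τ ^ (k - j + m) * eval (Fin.tail v) ((finSuccEquiv ℂ n f).coeff j) := eval_hom _ _ h3 _ _
      rw [Polynomial.coeff_map, h4]
      simp only [Polynomial.eval_mul, Polynomial.eval_pow, Polynomial.eval_add, Polynomial.eval_C,
        Polynomial.eval_X, Polynomial.eval_one, Polynomial.eval_sub, sub_zero]
      rw [pow_add]
      ring
    have hQ0 : Q.eval 0 ≠ 0 := by
      rw [hQ, Polynomial.eval_finsetSum, Finset.sum_eq_single k]
      · simp only [Polynomial.eval_mul, Polynomial.eval_pow, Polynomial.eval_add, Polynomial.eval_C,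
          Polynomial.eval_X, Polynomial.eval_one, mul_zero, add_zero, one_pow, mul_one,
          Nat.sub_self, pow_zero]
        unfold lc Polynomial.leadingCoeff at hva
        rw [hk] at hva
        exact hva
      · intro j hj hjk
        rw [Finset.mem_range] at hj
        simp only [Polynomial.eval_mul, Polynomial.eval_pow, Polynomial.eval_X]
        rw [zero_pow (by omega), mul_zero]
      · intro h
        exact absurd (Finset.self_mem_range_succ k) h
    have hQne : Q ≠ 0 := by
      rintro h0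
      rw [h0, Polynomial.eval_zero] at hQ0
      exact hQ0 rfl
    rw [Polynomial.rootMultiplicity_eq_rootMultiplicity, hcomp,
      Polynomial.rootMultiplicity_mul_X_sub_C_pow hQne, Polynomial.rootMultiplicity_eq_zero hQ0,
      zero_add]
  have h1 := mult_loc hD hc0 hcm (w 0) (Fin.tail w) hmul
  rw [Fin.cons_self_tail] at h1
  have h2 := lin_local (mA v) (mB v) (mAB v hv0) (mBA v hv0) f c w h1
  rwa [hAw] at h2

end

end Pool.Agent.H74S
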