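import Pool.Agent.H74A.Neg3

set_option autoImplicit false
set_option linter.unusedSectionVars false
set_option linter.unusedVariables false

/-! # The root `-(n + 1) / d` for forms with a point of high multiplicity -/

namespace Pool.Agent.H74C

open MvPolynomial MeasureTheory Filter Topology Complex Metric
open Pool.Agent.H74A (pr pr_roots exists_roots cf cf_bound hol_int sym_cont)
open Pool.Agent.Y230.AR (Test)
open Pool.Agent.H628R4.TP (weylS IsBFunction)

/-- the small cut off function -/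
noncomputable def eta2 (η : ℂ → ℝ) (w : ℂ) : ℝ := η ((2 : ℝ) • w)

theorem norm_two (w : ℂ) : ‖(2 : ℝ) • w‖ = 2 * ‖w‖ := by
  rw [norm_smul, Real.norm_eq_abs, abs_of_pos (by norm_num : (0 : ℝ) < 2)]

theorem eta2_cut {η : ℂ → ℝ} (hη : RCut η) : Cut (eta2 η) := by
  refine ⟨hη.cont.comp (continuous_const_smul _), fun z => hη.nonneg _, fun z => hη.le_one _,
    fun z hz => hη.zero' _ ?_⟩
  rw [norm_two]
  linarith

theorem DR_scale2 {η : ℂ → ℝ} (hη : RCut η) {k : ℕ} (hk : 0 < k) {s : ℝ}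
    (h1 : -1 / (k : ℝ) < s) (h2 : s ≤ 0) (r : Fin k → ℂ) {t : ℝ} (ht : 0 < t) (ht1 : t ≤ 1) :
    t ^ (2 + 2 * k * s) * DR (eta2 η) k s r ≤ DR η k s (fun i => t * r i) := by
  refine le_trans ?_ (DR_scale hη.toSCut hk h1 h2 r ht ht1)
  refine mul_le_mul_of_nonneg_left ?_ (by positivity)
  have hI := eta_qr_int (eta2_cut hη) hk h1 h2 r
  have e : DR (eta2 η) k s r = ∫ z in ball (0 : ℂ) (1 / 2), eta2 η z * qr k s r z := by
    unfold DR
    refine (setIntegral_eq_integral_of_forall_compl_eq_zero fun z hz => ?_).symm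
    rw [mem_ball_zero_iff, not_lt] at hz
    unfold eta2
    rw [hη.zero' _ (by rw [norm_two]; linarith), zero_mul]
  rw [e]
  unfold Ek
  refine setIntegral_mono_on hI.integrableOn (qr_int hk h1 h2 r) measurableSet_ball fun z _ => ?_
  exact mul_le_of_le_one_left (qr_nonneg hk s r z) ((eta2_cut hη).le_one z)

theorem eq_of_dist' {ρ : ℝ} (hρ : 0 < ρ) {a b : ℂ} (h : ∀ w ∈ ball (0 : ℂ) ρ, ‖w - a‖ = ‖w - b‖) :
    a = b := by
  by_contra hne
  have h0 : ‖a‖ = ‖b‖ := by
    have := h 0 (mem_ball_self hρ)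
    simpa using this
  have hd : 0 < ‖a - b‖ := norm_pos_iff.2 (sub_ne_zero.2 hne)
  set ε : ℝ := ρ / (2 * ‖a - b‖) with hε
  have hε0 : 0 < ε := by positivity
  have h1 := h (ε • (a - b)) (by
    rw [mem_ball_zero_iff, norm_smul, Real.norm_eq_abs, abs_of_pos hε0, hε]
    have : ρ / (2 * ‖a - b‖) * ‖a - b‖ = ρ / 2 := by
      field_simp
    rw [this]
    linarith)
  have h2 := norm_sub_sq_real (ε • (a - b)) a
  have h3 := norm_sub_sq_real (ε • (a - b)) b
  rw [h1] at h2
  rw [real_inner_smul_left] at h2 h3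
  have h4 : inner ℝ (a - b) a - inner ℝ (a - b) b = ‖a - b‖ ^ 2 := by
    rw [← inner_sub_right, real_inner_self_eq_norm_sq]
  have h5 : ε * ‖a - b‖ ^ 2 = 0 := by
    rw [← h4]
    rw [h0] at h2
    linarith
  have : 0 < ε * ‖a - b‖ ^ 2 := by positivity
  linarith

theorem DR_zero {η : ℂ → ℝ} (hη : RCut η) {k : ℕ} (hk : 0 < k) {s : ℝ} (h1 : -1 / (k : ℝ) < s)
    (h2 : s < 0) (r : Fin k → ℂ) (h : DR (eta2 η) k s r ≤ 0) : ∀ i j, r i = r j := by
  have hk' : (0 : ℝ) < k := by exact_mod_cast hk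
  have hI := eta_qr_int (eta2_cut hη) hk h1 h2.le r
  have h0 : DR (eta2 η) k s r = 0 := le_antisymm h (DR_nonneg (eta2_cut hη) hk s r)
  unfold DR at h0
  rw [integral_eq_zero_iff_of_nonneg (fun z => mul_nonneg ((eta2_cut hη).nonneg z)
    (qr_nonneg hk s r z)) hI] at h0
  intro i j
  refine eq_of_dist' (by norm_num : (0 : ℝ) < 1 / 4) ?_
  have h3 : (fun w => ‖w - r i‖) =ᵐ[volume.restrict (ball (0 : ℂ) (1 / 4))]
      fun w => ‖w - r j‖ := by
    filter_upwards [ae_restrict_of_ae h0, ae_restrict_mem measurableSet_ball] with w hw hwb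
    have hw1 : eta2 η w = 1 := by
      unfold eta2
      refine hη.one _ ?_
      rw [norm_two]
      rw [mem_ball_zero_iff] at hwb
      linarith
    have hw' : ∏ i, ‖w - r i‖ ^ (2 * s) = (1 / (k : ℝ)) * ∑ i, ‖w - r i‖ ^ (2 * k * s) := by
      have : eta2 η w * qr k s r w = 0 := hw
      rw [hw1, one_mul] at this
      unfold qr at this
      linarith
    have h4 := (Real.geom_mean_eq_arith_mean_weighted_iff_of_pos Finset.univ
      (fun _ : Fin k => 1 / (k : ℝ)) (fun i => ‖w - r i‖ ^ (2 * k * s)) (fun i _ => by positivity)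
      (by rw [Finset.sum_const, Finset.card_univ, Fintype.card_fin, nsmul_eq_mul]; field_simp)
      (fun i _ => Real.rpow_nonneg (norm_nonneg _) _)).1 (by
        rw [← Finset.mul_sum, ← hw']
        refine Finset.prod_congr rfl fun i _ => ?_
        rw [← Real.rpow_mul (norm_nonneg _)]
        congr 1
        field_simp) i (Finset.mem_univ _) j (Finset.mem_univ _)
    have hne : 2 * (k : ℝ) * s ≠ 0 := by
      have : 2 * (k : ℝ) * s < 0 := mul_neg_of_pos_of_neg (by positivity) h2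
      exact this.ne
    exact (Real.rpow_left_inj (norm_nonneg _) (norm_nonneg _) hne).1 h4
  exact Measure.eqOn_open_of_ae_eq h3 isOpen_ball (by fun_prop) (by fun_prop)

section

variable {n k m : ℕ} {f : MvPolynomial (Fin (n + 1)) ℂ}

theorem DR_meas (h : Dat k m f) {r : (Fin n → ℂ) → Fin k → ℂ} (hr : IsRt k f r) {η : ℂ → ℝ}
    (hη : Cut η) {s : ℝ} (h1 : -1 / (k : ℝ) < s) (h2 : s ≤ 0) :
    AEMeasurable fun x => DR η k s (r x) := by
  have h3 : AEStronglyMeasurable (fun x : Fin n → ℂ => (((1 / (k : ℂ)) * ∑ i, Pk η k s (r x i)) -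
      ((Na f x : ℂ) ^ (s : ℂ))⁻¹ * J η f s x).re) := by
    have h4 : AEStronglyMeasurable (fun x : Fin n → ℂ => ∑ i, Pk η k s (r x i)) :=
      hr.sum_meas h (fun w => Pk η k s w) (Pk_cont hη h.k0 (by simpa using h1) (by simpa using h2))
    have h5 : Measurable fun x : Fin n → ℂ => (Na f x : ℂ) ^ (s : ℂ) :=
      (Complex.measurable_ofReal.comp (continuous_Na f).measurable).pow_const _
    exact Complex.continuous_re.comp_aestronglyMeasurable ((h4.const_mul _).sub
      (h5.inv.aestronglyMeasurable.mul (J_meas hη.cont f s).aestronglyMeasurable))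
  refine h3.aemeasurable.congr ?_
  filter_upwards [h.ae_la] with x hx
  have hN : (Na f x : ℂ) ^ (s : ℂ) ≠ 0 := by
    rw [← Complex.ofReal_cpow (Na_nonneg f x), Complex.ofReal_ne_zero]
    exact (Real.rpow_pos_of_pos (Na_pos hx) s).ne'
  rw [hr.J_eq hx, ← mul_assoc, inv_mul_cancel₀ hN, one_mul,
    (Gk_eq hη h.k0 (s := (s : ℂ)) (by simpa using h1) (by simpa using h2) (r x)).2,
    sub_sub_cancel, Dk_ofReal, Complex.ofReal_re]

/-- the limit of the integrals -/
theorem Hyp.fatou (H : Hyp k m f) {r : (Fin n → ℂ) → Fin k → ℂ} (hr : IsRt k f r)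
    {χ : (Fin n → ℂ) → ℝ} (hχ : XCut χ) {η : ℂ → ℝ} (hη : RCut η) {M δ : ℝ} (hδ : 0 < δ)
    (hM : ∀ s : ℝ, -bet n k m < s → s < -bet n k m + δ → ‖Qf χ η k f s‖ < M) :
    ∫⁻ x, ENNReal.ofReal (χ x * (Na f x ^ (-bet n k m) * HR η k (-bet n k m) (r x))) ≠ ⊤ := by
  have hk := H.kpos
  have hkb := H.kb
  have hb := H.bpos
  set β := bet n k m with hβ
  have hkβ : -1 / (k : ℝ) < -β := by
    rw [div_lt_iff₀ hk]
    nlinarith
  set δ' : ℝ := min δ β with hδ'
  have hδ'0 : 0 < δ' := lt_min hδ hb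
  set sj : ℕ → ℝ := fun j => -β + δ' / ((j : ℝ) + 2) with hsj
  have hs1 : ∀ j, -β < sj j := by
    intro j
    have : 0 < δ' / ((j : ℝ) + 2) := by positivity
    simp only [hsj]
    linarith
  have hs2 : ∀ j, sj j < -β + δ' := by
    intro j
    have : δ' / ((j : ℝ) + 2) < δ' := by
      rw [div_lt_iff₀ (by positivity)]
      have : (0 : ℝ) ≤ j := Nat.cast_nonneg j
      nlinarith
    simp only [hsj]
    linarith
  have hs3 : ∀ j, sj j < 0 := by
    intro j
    have h1 := hs2 j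
    have h2 : δ' ≤ β := min_le_right _ _
    linarith
  have hs4 : ∀ j, sj j < -β + δ := by
    intro j
    have h1 := hs2 j
    have h2 : δ' ≤ δ := min_le_left _ _
    linarith
  have hlim : Tendsto sj atTop (𝓝 (-β)) := by
    have h1 : Tendsto (fun j : ℕ => δ' / ((j : ℝ) + 2)) atTop (𝓝 0) := by
      refine Tendsto.const_div_atTop ?_ _
      exact tendsto_atTop_add_const_right _ _ tendsto_natCast_atTop_atTop
    have h2 := h1.const_add (-β)
    rwa [add_zero] at h2
  -- the real part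
  have hre : ∀ s : ℝ, -β ≤ s → s < 0 → ∀ x, la f x ≠ 0 →
      (qf χ η k f s x).re = χ x * (Na f x ^ s * HR η k s (r x)) := by
    intro s h1 h2 x hx
    rw [qf_eq hr hx, (Hk_ofReal hη H.dat.k0 (lt_of_lt_of_le hkβ h1) h2.le (r x)).1,
      ← Complex.ofReal_cpow (Na_nonneg f x), ← Complex.ofReal_mul, ← Complex.ofReal_mul,
      Complex.ofReal_re]
  have hHR : ∀ s : ℝ, -β ≤ s → s < 0 → ∀ x, DR η k s (r x) ≤ HR η k s (r x) ∧
      0 ≤ HR η k s (r x) := by
    intro s h1 h2 x
    have h3 := (Hk_ofReal hη H.dat.k0 (lt_of_lt_of_le hkβ h1) h2.le (r x)).2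
    exact ⟨h3, (DR_nonneg hη.toCut H.dat.k0 s (r x)).trans h3⟩
  set G : ℝ → (Fin n → ℂ) → ENNReal := fun s x => ENNReal.ofReal (qf χ η k f s x).re with hG
  have hGm : ∀ j, AEMeasurable (G (sj j)) := by
    intro j
    exact (Complex.continuous_re.comp_aestronglyMeasurable
      (qf_meas hχ hη (sj j : ℂ))).aemeasurable.ennreal_ofReal
  have hGb : ∀ j, ∫⁻ x, G (sj j) x ≤ ENNReal.ofReal M := by
    intro j
    have hI := H.qf_int hχ hη (s := (sj j : ℂ)) (by simpa using hs1 j) (by simpa using hs3 j)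
    have hIr : Integrable fun x => (qf χ η k f (sj j : ℂ) x).re := hI.re
    have hnn : 0 ≤ᵐ[volume] fun x => (qf χ η k f (sj j : ℂ) x).re := by
      filter_upwards [H.dat.ae_la] with x hx
      rw [hre _ (hs1 j).le (hs3 j) x hx]
      exact mul_nonneg (hχ.nonneg x) (mul_nonneg (Real.rpow_nonneg (Na_nonneg f x) _)
        (hHR _ (hs1 j).le (hs3 j) x).2)
    rw [hG]
    simp only
    rw [← ofReal_integral_eq_lintegral_ofReal hIr hnn]
    refine ENNReal.ofReal_le_ofReal ?_
    have h1 : ∫ x, (qf χ η k f (sj j : ℂ) x).re = (Qf χ η k f (sj j)).re := integral_re hI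
    rw [h1]
    exact (Complex.re_le_norm _).trans (hM _ (hs1 j) (hs4 j)).le
  have hF : ∫⁻ x, liminf (fun j => G (sj j) x) atTop ≤ ENNReal.ofReal M := by
    refine (lintegral_liminf_le' hGm).trans ?_
    exact (liminf_le_liminf (Eventually.of_forall hGb)).trans (le_of_eq (liminf_const _))
  refine ne_of_lt (lt_of_le_of_lt (lintegral_mono_ae ?_) (lt_of_le_of_lt hF ENNReal.ofReal_lt_top))
  filter_upwards [H.dat.ae_la] with x hx
  have hcont : Tendsto (fun j => G (sj j) x) atTop (𝓝 (G (-β) x)) := by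
    rw [hG]
    simp only
    refine ENNReal.tendsto_ofReal ((Complex.continuous_re.tendsto _).comp ?_)
    have h1 : ContinuousAt (fun s : ℂ => qf χ η k f s x) ((-β : ℝ) : ℂ) := by
      have h2 : (fun s : ℂ => qf χ η k f s x) =
          fun s => (χ x : ℂ) * ((Na f x : ℂ) ^ s * Hk η k s (r x)) := by
        funext s
        exact qf_eq hr hx χ η s
      rw [h2]
      have h0 : (Na f x : ℂ) ≠ 0 := Complex.ofReal_ne_zero.2 (Na_pos hx).ne'
      refine ContinuousAt.mul continuousAt_const (ContinuousAt.mul ?_ ?_)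
      · exact (differentiableAt_id.const_cpow (Or.inl h0)).continuousAt
      · refine ((Hk_hol hη.toCut H.dat.k0 (r x)).differentiableAt
          ((strip_open _ _).mem_nhds ?_)).continuousAt
        refine ⟨?_, ?_⟩
        · rw [Complex.ofReal_re]; exact hkβ
        · rw [Complex.ofReal_re]; linarith
    exact h1.tendsto.comp ((Complex.continuous_ofReal.tendsto (-β)).comp hlim)
  rw [hcont.liminf_eq, hG]
  simp only
  rw [hre _ le_rfl (by linarith) x hx]

theorem Hyp.fatouD (H : Hyp k m f) {r : (Fin n → ℂ) → Fin k → ℂ} (hr : IsRt k f r)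
    {χ : (Fin n → ℂ) → ℝ} (hχ : XCut χ) {η : ℂ → ℝ} (hη : RCut η) {M δ : ℝ} (hδ : 0 < δ)
    (hM : ∀ s : ℝ, -bet n k m < s → s < -bet n k m + δ → ‖Qf χ η k f s‖ < M) :
    ∫⁻ x, ENNReal.ofReal (χ x * (Na f x ^ (-bet n k m) * DR η k (-bet n k m) (r x))) ≠ ⊤ := by
  have hk := H.kpos
  have hkb := H.kb
  have hb := H.bpos
  have hkβ : -1 / (k : ℝ) < -bet n k m := by
    rw [div_lt_iff₀ hk]
    nlinarith
  refine ne_of_lt (lt_of_le_of_lt (lintegral_mono fun x => ?_)
    (H.fatou hr hχ hη hδ hM).lt_top)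
  exact ENNReal.ofReal_le_ofReal (mul_le_mul_of_nonneg_left (mul_le_mul_of_nonneg_left
    (Hk_ofReal hη H.dat.k0 hkβ (by linarith) (r x)).2
    (Real.rpow_nonneg (Na_nonneg f x) _)) (hχ.nonneg x))

/-- the identity which characterizes a single zero -/
theorem IsRt.single {r : (Fin n → ℂ) → Fin k → ℂ} (hr : IsRt k f r) (hk : 0 < k)
    {x : Fin n → ℂ} (hx : la f x ≠ 0) (h : ∀ i j, r x i = r x j) (z : ℂ) :
    (k : ℂ) ^ k * la f x ^ (k - 1) * MvPolynomial.eval (Fin.cons z x : Fin (n + 1) → ℂ) f =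
      ((k : ℂ) * la f x * z + MvPolynomial.eval x ((finSuccEquiv ℂ n f).coeff (k - 1))) ^ k := by
  set ρ := r x ⟨0, hk⟩ with hρ
  have h1 : ∀ i, r x i = ρ := fun i => h i _
  have h2 : pr (r x) = (Polynomial.X - Polynomial.C ρ) ^ k := by
    unfold pr
    simp only [h1]
    rw [Finset.prod_const, Finset.card_univ, Fintype.card_fin]
  have hco : ((Polynomial.X - Polynomial.C ρ) ^ k : Polynomial ℂ).coeff (k - 1) =
      (-ρ) ^ (k - (k - 1)) * (k.choose (k - 1) : ℂ) := by
    rw [sub_eq_add_neg, ← Polynomial.C_neg, Polynomial.coeff_X_add_C_pow]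
  rw [hr.eval hx, hr.coeff hx, h2, hco]
  simp only [h1]
  rw [Finset.prod_const, Finset.card_univ, Fintype.card_fin]
  have h3 : k - (k - 1) = 1 := by omega
  have h4 : k.choose (k - 1) = k := by
    rw [← Nat.choose_symm (by omega : k - 1 ≤ k), h3, Nat.choose_one_right]
  rw [h3, h4, pow_one]
  have h5 : (k : ℂ) * la f x * z + la f x * (-ρ * (k : ℂ)) = (k : ℂ) * la f x * (z - ρ) := by ring
  rw [h5, mul_pow, mul_pow]
  have h6 : la f x ^ k = la f x ^ (k - 1) * la f x := by
    rw [← pow_succ]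
    congr 1
    omega
  rw [h6]
  ring

/-- **The divergence of `Q`.** -/
theorem Hyp.div2 (H : Hyp k m f) (htwo : ∃ (x : Fin n → ℂ) (z₁ z₂ : ℂ), la f x ≠ 0 ∧ z₁ ≠ z₂ ∧
      MvPolynomial.eval (Fin.cons z₁ x : Fin (n + 1) → ℂ) f = 0 ∧
      MvPolynomial.eval (Fin.cons z₂ x : Fin (n + 1) → ℂ) f = 0)
    {χ : (Fin n → ℂ) → ℝ} (hχ : XCut χ) {η : ℂ → ℝ} (hη : RCut η)
    (M δ : ℝ) (hδ : 0 < δ) :
    ∃ s : ℝ, -bet n k m < s ∧ s < -bet n k m + δ ∧ M ≤ ‖Qf χ η k f s‖ := by
  by_contra hcon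
  push Not at hcon
  obtain ⟨r, hr0⟩ := H.dat.exists_rt
  have hr : IsRt k f r := hr0
  have hfat := H.fatouD hr hχ hη hδ hcon
  have hk := H.kpos
  have hkb := H.kb
  have hb := H.bpos
  have hbe := H.beq
  set β := bet n k m with hβ
  have hkβ : -1 / (k : ℝ) < -β := by
    rw [div_lt_iff₀ hk]
    nlinarith
  have hfr := finrank_pi_complex n
  set g : (Fin n → ℂ) → ENNReal := fun x =>
    ENNReal.ofReal (χ x * (Na f x ^ (-β) * DR η k (-β) (r x))) with hg
  set U : Set (Fin n → ℂ) := {x | la f x ≠ 0 ∧ ‖x‖ ≤ 1 / 2} with hU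
  have hUm : MeasurableSet U :=
    (isOpen_ne_fun (continuous_la f) continuous_const).measurableSet.inter
      (isClosed_le continuous_norm continuous_const).measurableSet
  set h : (Fin n → ℂ) → ENNReal := U.indicator fun x =>
    ENNReal.ofReal (Na f x ^ (-β) * DR (eta2 η) k (-β) (r x)) with hh
  have hg1 : ∫⁻ x in closedBall (0 : Fin n → ℂ) 1, g x ≠ ⊤ :=
    ne_of_lt (lt_of_le_of_lt (setLIntegral_le_lintegral _ _) hfat.lt_top)
  have hv := Sh.vanish volume (by rw [hfr]; have := H.n0; omega) g h hg1 (by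
    intro j x hx
    by_cases hxU : x ∈ U
    · rw [hh, Set.indicator_of_mem hxU]
      set t : ℝ := (1 / 2) ^ j with ht
      have ht0 : 0 < t := by positivity
      have ht1 : t ≤ 1 := pow_le_one₀ (by norm_num) (by norm_num)
      have hlat : la f (t • x) ≠ 0 := by
        rw [H.dat.la_smul]
        exact mul_ne_zero (pow_ne_zero _ (Complex.ofReal_ne_zero.2 ht0.ne')) hxU.1
      have hnt : ‖t • x‖ ≤ 1 / 2 := by
        rw [norm_smul, Real.norm_eq_abs, abs_of_pos ht0]
        calc t * ‖x‖ ≤ 1 * (1 / 2) := mul_le_mul ht1 hxU.2 (norm_nonneg _) zero_le_one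
          _ = _ := one_mul _
      rw [hg]
      simp only
      rw [hχ.one _ hnt, one_mul, ← ENNReal.ofReal_mul (by positivity), hfr]
      refine ENNReal.ofReal_le_ofReal ?_
      rw [DR_congr (hr.scale H.dat hxU.1 ht0)]
      have h1 := DR_scale2 hη H.dat.k0 hkβ (by linarith) (r x) ht0 ht1
      have h2 : Na f (t • x) ^ (-β) = t ^ (-(2 * m * β)) * Na f x ^ (-β) := by
        unfold Na
        rw [H.dat.la_smul, norm_mul, norm_pow, Complex.norm_real, Real.norm_eq_abs,
          abs_of_pos ht0, mul_pow, Real.mul_rpow (by positivity) (by positivity), ← pow_mul,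
          ← Real.rpow_natCast, ← Real.rpow_mul ht0.le]
        congr 2
        push_cast
        ring
      have h3 : t ^ (2 * n) * t ^ (-(2 * m * β)) * t ^ (2 + 2 * k * (-β)) = 1 := by
        rw [← Real.rpow_natCast, ← Real.rpow_add ht0, ← Real.rpow_add ht0]
        have : ((2 * n : ℕ) : ℝ) + -(2 * m * β) + (2 + 2 * k * (-β)) = 0 := by
          push_cast
          linarith
        rw [this, Real.rpow_zero]
      have hN : 0 ≤ Na f x ^ (-β) := Real.rpow_nonneg (Na_nonneg f x) _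
      calc Na f x ^ (-β) * DR (eta2 η) k (-β) (r x) =
          (t ^ (2 * n) * t ^ (-(2 * m * β)) * t ^ (2 + 2 * k * (-β))) *
            (Na f x ^ (-β) * DR (eta2 η) k (-β) (r x)) := by rw [h3, one_mul]
        _ = t ^ (2 * n) * (t ^ (-(2 * m * β)) * Na f x ^ (-β) *
            (t ^ (2 + 2 * k * (-β)) * DR (eta2 η) k (-β) (r x))) := by ring
        _ ≤ t ^ (2 * n) * (t ^ (-(2 * m * β)) * Na f x ^ (-β) *
            DR η k (-β) (fun i => t * r x i)) := by gcongr
        _ = _ := by rw [h2]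
    · rw [hh, Set.indicator_of_notMem hxU]
      exact zero_le)
  have hDm := DR_meas H.dat hr (eta2_cut hη) hkβ (by linarith)
  have hhm : AEMeasurable h := by
    refine AEMeasurable.indicator ?_ hUm
    exact (((continuous_Na f).measurable.pow_const _).aemeasurable.mul hDm).ennreal_ofReal
  have hz : ∀ᵐ x ∂(volume.restrict (ball (0 : Fin n → ℂ) (1 / 2))), ∀ i j, r x i = r x j := by
    rw [lintegral_eq_zero_iff' hhm.restrict] at hv
    have hv2 : ∀ᵐ x ∂(volume.restrict (ball (0 : Fin n → ℂ) (1 / 2))), h x = 0 :=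
      ae_restrict_of_ae_restrict_of_subset ((ball_subset_closedBall).trans
        (closedBall_subset_closedBall (by norm_num))) hv
    filter_upwards [hv2, ae_restrict_of_ae H.dat.ae_la, ae_restrict_mem measurableSet_ball] with x
      h1 h2 h3
    rw [mem_ball_zero_iff] at h3
    have hxU : x ∈ U := ⟨h2, h3.le⟩
    rw [hh, Set.indicator_of_mem hxU, ENNReal.ofReal_eq_zero] at h1
    have hN : 0 < Na f x ^ (-β) := Real.rpow_pos_of_pos (Na_pos h2) _
    have h4 : DR (eta2 η) k (-β) (r x) ≤ 0 := by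
      by_contra h5
      push Not at h5
      have := mul_pos hN h5
      linarith
    exact DR_zero hη H.dat.k0 hkβ (by linarith) (r x) h4
  -- the polynomial identity
  have hid : ∀ z : ℂ, ∀ x ∈ ball (0 : Fin n → ℂ) (1 / 2),
      (k : ℂ) ^ k * la f x ^ (k - 1) * MvPolynomial.eval (Fin.cons z x : Fin (n + 1) → ℂ) f =
      ((k : ℂ) * la f x * z + MvPolynomial.eval x ((finSuccEquiv ℂ n f).coeff (k - 1))) ^ k := by
    intro z
    have hcz : Continuous fun x : Fin n → ℂ => (Fin.cons z x : Fin (n + 1) → ℂ) :=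
      continuous_cons.comp (continuous_id.prodMk continuous_const)
    have hc1 : Continuous fun x : Fin n → ℂ =>
        (k : ℂ) ^ k * la f x ^ (k - 1) * MvPolynomial.eval (Fin.cons z x : Fin (n + 1) → ℂ) f :=
      (continuous_const.mul ((continuous_la f).pow _)).mul
        ((MvPolynomial.continuous_eval f).comp hcz)
    have hc2 : Continuous fun x : Fin n → ℂ => ((k : ℂ) * la f x * z +
        MvPolynomial.eval x ((finSuccEquiv ℂ n f).coeff (k - 1))) ^ k :=
      (((continuous_const.mul (continuous_la f)).mul continuous_const).add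
        (MvPolynomial.continuous_eval _)).pow _
    refine Measure.eqOn_open_of_ae_eq (μ := (volume : Measure (Fin n → ℂ))) ?_ isOpen_ball
      hc1.continuousOn hc2.continuousOn
    filter_upwards [hz, ae_restrict_of_ae H.dat.ae_la] with x h1 h2
    exact hr.single H.dat.k0 h2 h1 z
  obtain ⟨x, z₁, z₂, hx, hz12, hz1, hz2⟩ := htwo
  set t : ℝ := 1 / (4 * (‖x‖ + 1)) with ht
  have ht0 : 0 < t := by positivity
  have htc : (t : ℂ) ≠ 0 := Complex.ofReal_ne_zero.2 ht0.ne'
  have hball : t • x ∈ ball (0 : Fin n → ℂ) (1 / 2) := by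
    rw [mem_ball_zero_iff, norm_smul, Real.norm_eq_abs, abs_of_pos ht0, ht, div_mul_eq_mul_div,
      one_mul, div_lt_iff₀ (by positivity)]
    have := norm_nonneg x
    linarith
  have hlat : la f (t • x) ≠ 0 := by
    rw [H.dat.la_smul]
    exact mul_ne_zero (pow_ne_zero _ htc) hx
  have key : ∀ z : ℂ, MvPolynomial.eval (Fin.cons z x : Fin (n + 1) → ℂ) f = 0 →
      (k : ℂ) * la f (t • x) * (t * z) +
        MvPolynomial.eval (t • x) ((finSuccEquiv ℂ n f).coeff (k - 1)) = 0 := by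
    intro z hz
    have h1 := hid (t * z) (t • x) hball
    rw [cons_smul, eval_smul_hom _ _ H.dat.hom, hz, mul_zero, mul_zero] at h1
    exact (pow_eq_zero_iff H.dat.k0.ne').1 h1.symm
  have e1 := key z₁ hz1
  have e2 := key z₂ hz2
  have hkc : (k : ℂ) ≠ 0 := Nat.cast_ne_zero.2 H.dat.k0.ne'
  have e3 : (k : ℂ) * la f (t • x) * t * (z₁ - z₂) = 0 := by linear_combination e1 - e2
  rcases mul_eq_zero.1 e3 with e4 | e4
  · exact mul_ne_zero (mul_ne_zero hkc hlat) htc e4
  · exact hz12 (sub_eq_zero.1 e4)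

end

end Pool.Agent.H74C
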