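import Pool.Agent.H74A.Alg
import Pool.Agent.H74A.Neg4

set_option autoImplicit false
set_option linter.unusedSectionVars false
set_option linter.unusedVariables false

/-! # The forms `(x_0 + l) ^ k g` -/

namespace Pool.Agent.H74S

open MvPolynomial MeasureTheory Filter Topology Complex
open Pool.Agent.H74D Pool.Agent.H74C
open Pool.Agent.H74A (pr pr_roots exists_roots)

theorem eval_succ {n : ℕ} (q : MvPolynomial (Fin n) ℂ) (z : ℂ) (x : Fin n → ℂ) :
    eval (Fin.cons z x : Fin (n + 1) → ℂ) (rename Fin.succ q) = eval x q := by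
  rw [eval_rename]
  congr 1

/-- Either there are two different zeros on a line, or a line in the tangent cone which is not
contained in the hypersurface (`k = 1`), or the form is `(x_0 + l) ^ k g`. -/
theorem nd_or {n k m : ℕ} {F : MvPolynomial (Fin (n + 2 + 1)) ℂ} (hd : Dat k m F)
    (hs : SmoothCone (lc F)) :
    ((∃ (x : Fin (n + 2) → ℂ) (z₁ z₂ : ℂ), la F x ≠ 0 ∧ z₁ ≠ z₂ ∧
        MvPolynomial.eval (Fin.cons z₁ x : Fin (n + 2 + 1) → ℂ) F = 0 ∧
        MvPolynomial.eval (Fin.cons z₂ x : Fin (n + 2 + 1) → ℂ) F = 0) ∨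
      (k = 1 ∧ ∃ (x : Fin (n + 2) → ℂ) (z : ℂ), la F x = 0 ∧
        MvPolynomial.eval (Fin.cons z x : Fin (n + 2 + 1) → ℂ) F ≠ 0)) ∨
    ∃ l g : MvPolynomial (Fin (n + 2)) ℂ,
      F = (X 0 + rename Fin.succ l) ^ k * rename Fin.succ g := by
  by_contra hcon
  push Not at hcon
  obtain ⟨⟨htwo, hone⟩, hno⟩ := hcon
  obtain ⟨r, hr0⟩ := hd.exists_rt
  have hr : IsRt k F r := hr0
  have hk := hd.k0
  have hkc : (k : ℂ) ≠ 0 := Nat.cast_ne_zero.2 hk.ne'
  have heq : ∀ x, la F x ≠ 0 → ∀ i j, r x i = r x j := by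
    intro x hx i j
    by_contra hij
    have hz : ∀ i, MvPolynomial.eval (Fin.cons (r x i) x : Fin (n + 2 + 1) → ℂ) F = 0 := by
      intro i
      rw [hr.eval hx, Finset.prod_eq_zero (Finset.mem_univ i) (sub_self _), mul_zero]
    exact htwo x (r x i) (r x j) hx hij (hz i) (hz j)
  set a := lc F with ha
  set c₁ := (finSuccEquiv ℂ (n + 2) F).coeff (k - 1) with hc₁
  have ha0 : a ≠ 0 := smooth_ne _ hs
  have hA0 : (rename Fin.succ a : MvPolynomial (Fin (n + 2 + 1)) ℂ) ≠ 0 := by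
    intro h0
    exact ha0 (rename_injective _ (Fin.succ_injective _) (by rw [h0, map_zero]))
  have hid : C ((k : ℂ) ^ k) * rename Fin.succ a ^ (k - 1) * F =
      (C (k : ℂ) * rename Fin.succ a * X 0 + rename Fin.succ c₁) ^ k := by
    rw [← sub_eq_zero]
    have h1 : rename Fin.succ a * (C ((k : ℂ) ^ k) * rename Fin.succ a ^ (k - 1) * F -
        (C (k : ℂ) * rename Fin.succ a * X 0 + rename Fin.succ c₁) ^ k) = 0 := by
      refine MvPolynomial.funext fun v => ?_
      rw [← Fin.cons_self_tail v]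
      set x := Fin.tail v with hx
      set z := v 0 with hz
      simp only [map_mul, map_sub, map_pow, map_add, eval_C, eval_X, eval_succ, Fin.cons_zero,
        map_zero]
      by_cases h2 : eval x a = 0
      · rw [h2, zero_mul]
      · have h3 := hr.single hk (x := x) h2 (heq x h2) z
        have h4 : la F x = eval x a := rfl
        rw [h4] at h3
        rw [h3, sub_self, mul_zero]
    exact (mul_eq_zero.1 h1).resolve_left hA0
  have hvan : ∀ x : Fin (n + 2) → ℂ, eval x a = 0 → eval x c₁ = 0 := by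
    intro x hx
    have h1 := congrArg (eval (Fin.cons 0 x : Fin (n + 2 + 1) → ℂ)) hid
    simp only [map_mul, map_pow, map_add, eval_C, eval_X, eval_succ, Fin.cons_zero, hx] at h1
    rw [mul_zero, zero_add] at h1
    by_cases h2 : k = 1
    · have h3 := hone h2 x 0 hx
      rw [h3, mul_zero] at h1
      exact (pow_eq_zero_iff hk.ne').1 h1.symm
    · rw [zero_pow (by omega), mul_zero, zero_mul] at h1
      exact (pow_eq_zero_iff hk.ne').1 h1.symm
  obtain ⟨l', hl'⟩ := dvd_of_smooth a c₁ hs hvan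
  refine hno (C ((k : ℂ)⁻¹) * l') a ?_
  have h2 : (C (k : ℂ) * rename Fin.succ a * X 0 + rename Fin.succ c₁ :
      MvPolynomial (Fin (n + 2 + 1)) ℂ) =
      rename Fin.succ a * (C (k : ℂ) * (X 0 + rename Fin.succ (C ((k : ℂ)⁻¹) * l'))) := by
    rw [hl', map_mul, map_mul, rename_C]
    have h3 : (C (k : ℂ) * (C ((k : ℂ)⁻¹) * rename Fin.succ l') :
        MvPolynomial (Fin (n + 2 + 1)) ℂ) = rename Fin.succ l' := by
      rw [← mul_assoc, ← C_mul, mul_inv_cancel₀ hkc, C_1, one_mul]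
    rw [mul_add (C (k : ℂ)), h3]
    ring
  rw [h2, mul_pow, mul_pow] at hid
  have h4 : (rename Fin.succ a : MvPolynomial (Fin (n + 2 + 1)) ℂ) ^ k =
      rename Fin.succ a ^ (k - 1) * rename Fin.succ a := by
    rw [← pow_succ]
    congr 1
    omega
  have h5 : (C ((k : ℂ) ^ k) * rename Fin.succ a ^ (k - 1) : MvPolynomial (Fin (n + 2 + 1)) ℂ) ≠ 0 :=
    mul_ne_zero (by rw [Ne, C_eq_zero]; exact pow_ne_zero _ hkc) (pow_ne_zero _ hA0)
  refine mul_left_cancel₀ h5 ?_
  rw [hid, h4, C_pow]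
  ring

end Pool.Agent.H74S
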