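import Mathlib

set_option autoImplicit false
set_option linter.unusedSectionVars false
set_option linter.unusedVariables false

/-! # Homogeneous functions and integrals -/

namespace Pool.Agent.H74C.Sh

open MeasureTheory Filter Topology Metric Module ENNReal
open scoped Pointwise

variable {E : Type} [NormedAddCommGroup E] [NormedSpace ℝ E] [FiniteDimensional ℝ E]
  [MeasurableSpace E] [BorelSpace E] (μ : Measure E) [μ.IsAddHaarMeasure]

theorem lint_scale (g : E → ℝ≥0∞) {t : ℝ} (ht : 0 < t) :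
    ∫⁻ x, g x ∂μ = ENNReal.ofReal (t ^ finrank ℝ E) * ∫⁻ x, g (t • x) ∂μ := by
  have hemb : MeasurableEmbedding (fun x : E => t • x) :=
    (Homeomorph.smulOfNeZero t ht.ne').measurableEmbedding
  have h1 : ∫⁻ x, g (t • x) ∂μ = ∫⁻ x, g x ∂(Measure.map (t • ·) μ) :=
    (hemb.lintegral_map g).symm
  rw [h1, Measure.map_addHaar_smul μ ht.ne', lintegral_smul_measure, smul_eq_mul, ← mul_assoc,
    ← ENNReal.ofReal_mul (by positivity), abs_of_pos (by positivity), mul_inv_cancel₀ (by positivity),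
    ENNReal.ofReal_one, one_mul]

theorem slint_scale (g : E → ℝ≥0∞) {t : ℝ} (ht : 0 < t) {A B : Set E} (hA : MeasurableSet A)
    (hB : MeasurableSet B) (hAB : ∀ x, t • x ∈ B ↔ x ∈ A) :
    ∫⁻ x in B, g x ∂μ = ENNReal.ofReal (t ^ finrank ℝ E) * ∫⁻ x in A, g (t • x) ∂μ := by
  rw [← lintegral_indicator hB, lint_scale μ _ ht, ← lintegral_indicator hA]
  congr 1
  refine lintegral_congr fun x => ?_
  by_cases hx : x ∈ A
  · rw [Set.indicator_of_mem hx, Set.indicator_of_mem ((hAB x).2 hx)]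
  · rw [Set.indicator_of_notMem hx, Set.indicator_of_notMem (fun h => hx ((hAB x).1 h))]

/-- the shells -/
def Sl (E : Type) [NormedAddCommGroup E] (j : ℕ) : Set E :=
  {x | (1 / 2 : ℝ) ^ (j + 1) < ‖x‖ ∧ ‖x‖ ≤ (1 / 2) ^ j}

theorem Sl_meas (j : ℕ) : MeasurableSet (Sl E j) :=
  (measurableSet_lt measurable_const measurable_norm).inter
    (measurableSet_le measurable_norm measurable_const)

theorem Sl_half (j : ℕ) (x : E) : (1 / 2 : ℝ) • x ∈ Sl E (j + 1) ↔ x ∈ Sl E j := by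
  unfold Sl
  simp only [Set.mem_setOf_eq, norm_smul, Real.norm_eq_abs]
  rw [abs_of_pos (by norm_num : (0 : ℝ) < 1 / 2), pow_succ (1 / 2 : ℝ) (j + 1), pow_succ (1 / 2 : ℝ) j]
  constructor
  · rintro ⟨h1, h2⟩
    constructor <;> linarith
  · rintro ⟨h1, h2⟩
    constructor <;> linarith

theorem cover (x : E) (hx : x ≠ 0) (h1 : ‖x‖ ≤ 1) : ∃ j, x ∈ Sl E j := by
  have hp : 0 < ‖x‖ := norm_pos_iff.2 hx
  obtain ⟨j, h2, h3⟩ := exists_nat_pow_near_of_lt_one hp h1 (by norm_num : (0 : ℝ) < 1 / 2)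
    (by norm_num)
  exact ⟨j, h2, h3⟩

/-- **Integrability of homogeneous functions.** -/
theorem shell_sum (hE : 0 < finrank ℝ E) (g : E → ℝ≥0∞) (c : ℝ≥0∞)
    (hg : ∀ x, g ((1 / 2 : ℝ) • x) ≤ c * g x)
    (hlt : ENNReal.ofReal ((1 / 2 : ℝ) ^ finrank ℝ E) * c < 1)
    (h0 : ∫⁻ x in Sl E 0, g x ∂μ ≠ ⊤) : ∫⁻ x in closedBall (0 : E) 1, g x ∂μ ≠ ⊤ := by
  set ρ : ℝ≥0∞ := ENNReal.ofReal ((1 / 2 : ℝ) ^ finrank ℝ E) * c with hρ
  have hnt : Nontrivial E := Module.nontrivial_of_finrank_pos hE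
  have hstep : ∀ j, ∫⁻ x in Sl E j, g x ∂μ ≤ ρ ^ j * ∫⁻ x in Sl E 0, g x ∂μ := by
    intro j
    induction j with
    | zero => simp
    | succ j ih =>
      rw [slint_scale μ g (by norm_num : (0 : ℝ) < 1 / 2) (Sl_meas j) (Sl_meas (j + 1))
        (Sl_half j)]
      calc _ ≤ ENNReal.ofReal ((1 / 2 : ℝ) ^ finrank ℝ E) * ∫⁻ x in Sl E j, c * g x ∂μ := by
            gcongr with x
            exact hg x
        _ ≤ ENNReal.ofReal ((1 / 2 : ℝ) ^ finrank ℝ E) * (c * ∫⁻ x in Sl E j, g x ∂μ) := by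
            by_cases hc : c = ⊤
            · have h1 : (0 : ℝ≥0∞) < ENNReal.ofReal ((1 / 2 : ℝ) ^ finrank ℝ E) :=
                ENNReal.ofReal_pos.2 (by positivity)
              rw [hρ, hc, ENNReal.mul_top h1.ne'] at hlt
              simp at hlt
            · rw [lintegral_const_mul' _ _ hc]
        _ = ρ * ∫⁻ x in Sl E j, g x ∂μ := by rw [hρ, mul_assoc]
        _ ≤ ρ * (ρ ^ j * ∫⁻ x in Sl E 0, g x ∂μ) := by gcongr
        _ = _ := by rw [pow_succ]; ring
  have hsub : closedBall (0 : E) 1 ⊆ {0} ∪ ⋃ j, Sl E j := by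
    intro x hx
    by_cases h : x = 0
    · exact Or.inl h
    · rw [mem_closedBall_zero_iff] at hx
      obtain ⟨j, hj⟩ := cover x h hx
      exact Or.inr (Set.mem_iUnion.2 ⟨j, hj⟩)
  refine ne_of_lt ?_
  calc ∫⁻ x in closedBall (0 : E) 1, g x ∂μ ≤ ∫⁻ x in {0} ∪ ⋃ j, Sl E j, g x ∂μ :=
        lintegral_mono_set hsub
    _ ≤ ∫⁻ x in {0}, g x ∂μ + ∫⁻ x in ⋃ j, Sl E j, g x ∂μ := lintegral_union_le _ _ _
    _ = ∫⁻ x in ⋃ j, Sl E j, g x ∂μ := by
        rw [setLIntegral_measure_zero _ _ (measure_singleton _), zero_add]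
    _ ≤ ∑' j, ∫⁻ x in Sl E j, g x ∂μ := lintegral_iUnion_le _ _
    _ ≤ ∑' j, ρ ^ j * ∫⁻ x in Sl E 0, g x ∂μ := ENNReal.tsum_le_tsum hstep
    _ = (1 - ρ)⁻¹ * ∫⁻ x in Sl E 0, g x ∂μ := by
        rw [ENNReal.tsum_mul_right, ENNReal.tsum_geometric]
    _ < ⊤ := by
        refine ENNReal.mul_lt_top ?_ h0.lt_top
        rw [ENNReal.inv_lt_top]
        exact tsub_pos_of_lt hlt

/-- **The divergence of homogeneous integrals.** -/
theorem vanish (hE : 0 < finrank ℝ E) (g h : E → ℝ≥0∞)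
    (hg : ∫⁻ x in closedBall (0 : E) 1, g x ∂μ ≠ ⊤)
    (hgh : ∀ (j : ℕ), ∀ x ∈ closedBall (0 : E) 1,
      h x ≤ ENNReal.ofReal (((1 / 2 : ℝ) ^ j) ^ finrank ℝ E) * g (((1 / 2 : ℝ) ^ j) • x)) :
    ∫⁻ x in closedBall (0 : E) 1, h x ∂μ = 0 := by
  have hb : ∀ j : ℕ, ∀ x : E, ((1 / 2 : ℝ) ^ j) • x ∈ closedBall (0 : E) ((1 / 2) ^ j) ↔
      x ∈ closedBall (0 : E) 1 := by
    intro j x
    rw [mem_closedBall_zero_iff, mem_closedBall_zero_iff, norm_smul, Real.norm_eq_abs,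
      abs_of_pos (by positivity)]
    constructor
    · intro h
      by_contra hc
      push Not at hc
      have : (0 : ℝ) < (1 / 2) ^ j := by positivity
      nlinarith
    · intro h
      exact mul_le_of_le_one_right (by positivity) h
  have h1 : ∀ j : ℕ, ∫⁻ x in closedBall (0 : E) 1, h x ∂μ ≤
      ∫⁻ x in closedBall (0 : E) ((1 / 2) ^ j), g x ∂(μ.restrict (closedBall (0 : E) 1)) := by
    intro j
    rw [Measure.restrict_restrict measurableSet_closedBall]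
    have hinter : closedBall (0 : E) ((1 / 2) ^ j) ∩ closedBall 0 1 = closedBall 0 ((1 / 2) ^ j) :=
      Set.inter_eq_left.2 (closedBall_subset_closedBall (pow_le_one₀ (by norm_num) (by norm_num)))
    rw [hinter, slint_scale μ g (by positivity : (0 : ℝ) < (1 / 2) ^ j) measurableSet_closedBall
      measurableSet_closedBall (hb j), ← lintegral_const_mul' _ _ ENNReal.ofReal_ne_top]
    exact setLIntegral_mono' measurableSet_closedBall fun x hx => hgh j x hx
  have h2 : Tendsto (fun j : ℕ => ∫⁻ x in closedBall (0 : E) ((1 / 2) ^ j), g x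
      ∂(μ.restrict (closedBall (0 : E) 1))) atTop (𝓝 0) := by
    refine tendsto_setLIntegral_zero hg ?_
    have h3 : ∀ j : ℕ, (μ.restrict (closedBall (0 : E) 1)) (closedBall (0 : E) ((1 / 2) ^ j)) ≤
        ENNReal.ofReal (((1 / 2 : ℝ) ^ finrank ℝ E) ^ j) * μ (ball (0 : E) 1) := by
      intro j
      refine (Measure.restrict_apply_le _ _).trans ?_
      rw [Measure.addHaar_closedBall μ 0 (by positivity), ← pow_mul, ← pow_mul, mul_comm j]
    refine tendsto_of_tendsto_of_tendsto_of_le_of_le tendsto_const_nhds ?_ (fun j => zero_le) h3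
    have h4 : Tendsto (fun j : ℕ => ENNReal.ofReal (((1 / 2 : ℝ) ^ finrank ℝ E) ^ j)) atTop
        (𝓝 (ENNReal.ofReal 0)) := by
      refine ENNReal.tendsto_ofReal ?_
      refine tendsto_pow_atTop_nhds_zero_of_lt_one (by positivity) ?_
      exact pow_lt_one₀ (by norm_num) (by norm_num) hE.ne'
    rw [ENNReal.ofReal_zero] at h4
    have h5 := ENNReal.Tendsto.mul_const (b := μ (ball (0 : E) 1)) h4
      (Or.inr (measure_ball_lt_top).ne)
    rwa [zero_mul] at h5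
  exact le_antisymm (ge_of_tendsto' h2 h1) zero_le

end Pool.Agent.H74C.Sh
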