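import Pool.Agent.H74A.Base
import Pool.Agent.H74A.Shell

set_option autoImplicit false
set_option linter.unusedSectionVars false
set_option linter.unusedVariables false

/-! # Integrals in the first variable -/

namespace Pool.Agent.H74C

open MvPolynomial MeasureTheory Filter Topology Complex Metric
open Pool.Agent.H74A (pr pr_roots exists_roots cf cf_bound hol_int sym_cont)

/-- the norm of the leading coefficient -/
noncomputable def Na {n : ℕ} (f : MvPolynomial (Fin (n + 1)) ℂ) (x : Fin n → ℂ) : ℝ := ‖la f x‖ ^ 2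

/-- the integral in the first variable -/
noncomputable def J {n : ℕ} (η : ℂ → ℝ) (f : MvPolynomial (Fin (n + 1)) ℂ) (s : ℂ)
    (x : Fin n → ℂ) : ℂ := ∫ z, (η z : ℂ) * (Nm f (Fin.cons z x) : ℂ) ^ s

section

variable {n k m : ℕ} {f : MvPolynomial (Fin (n + 1)) ℂ}

theorem Na_nonneg (f : MvPolynomial (Fin (n + 1)) ℂ) (x : Fin n → ℂ) : 0 ≤ Na f x := by
  unfold Na; positivity

theorem Na_pos {x : Fin n → ℂ} (hx : la f x ≠ 0) : 0 < Na f x := by
  unfold Na
  have := norm_pos_iff.2 hx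
  positivity

theorem continuous_Na (f : MvPolynomial (Fin (n + 1)) ℂ) : Continuous (Na f) :=
  (continuous_la f).norm.pow 2

theorem prod_cpow {ι : Type} (S : Finset ι) (a : ι → ℝ) (ha : ∀ i, 0 ≤ a i) (s : ℂ) :
    ((∏ i ∈ S, a i : ℝ) : ℂ) ^ s = ∏ i ∈ S, (a i : ℂ) ^ s := by
  classical
  induction S using Finset.induction_on with
  | empty => simp
  | insert i S hi ih =>
    rw [Finset.prod_insert hi, Finset.prod_insert hi, Complex.ofReal_mul,
      Complex.mul_cpow_ofReal_nonneg (ha i) (Finset.prod_nonneg fun j _ => ha j), ih]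

theorem sq_cpow {a : ℝ} (ha : 0 ≤ a) (s : ℂ) : ((a ^ 2 : ℝ) : ℂ) ^ s = (a : ℂ) ^ (2 * s) := by
  rcases ha.eq_or_lt with h | h
  · rw [← h]
    by_cases hs : s = 0
    · simp [hs]
    · simp only [ne_eq, OfNat.ofNat_ne_zero, not_false_eq_true, zero_pow, Complex.ofReal_zero]
      rw [Complex.zero_cpow hs, Complex.zero_cpow (mul_ne_zero two_ne_zero hs)]
  · have e : ((a ^ 2 : ℝ) : ℂ) = (a : ℂ) ^ (2 : ℂ) := by
      push_cast
      norm_cast
    rw [e, ← Complex.cpow_mul]
    · rw [← Complex.ofReal_log h.le]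
      have : ((Real.log a : ℝ) : ℂ) * 2 = ((Real.log a * 2 : ℝ) : ℂ) := by push_cast; ring
      rw [this, Complex.ofReal_im]
      exact neg_lt_zero.2 Real.pi_pos
    · rw [← Complex.ofReal_log h.le]
      have : ((Real.log a : ℝ) : ℂ) * 2 = ((Real.log a * 2 : ℝ) : ℂ) := by push_cast; ring
      rw [this, Complex.ofReal_im]
      exact Real.pi_pos.le

theorem IsRt.Nm_cons {r : (Fin n → ℂ) → Fin k → ℂ} (hr : IsRt k f r) {x : Fin n → ℂ}
    (hx : la f x ≠ 0) (z : ℂ) : Nm f (Fin.cons z x) = Na f x * ∏ i, ‖z - r x i‖ ^ 2 := by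
  unfold Nm Na
  rw [hr.eval hx, norm_mul, norm_prod, mul_pow, Finset.prod_pow]

theorem IsRt.Nm_cpow {r : (Fin n → ℂ) → Fin k → ℂ} (hr : IsRt k f r) {x : Fin n → ℂ}
    (hx : la f x ≠ 0) (z : ℂ) (s : ℂ) :
    (Nm f (Fin.cons z x) : ℂ) ^ s = (Na f x : ℂ) ^ s * ∏ i, (‖z - r x i‖ : ℂ) ^ (2 * s) := by
  rw [hr.Nm_cons hx, Complex.ofReal_mul, Complex.mul_cpow_ofReal_nonneg (Na_nonneg f x)
    (Finset.prod_nonneg fun i _ => by positivity), prod_cpow _ _ fun i => by positivity]
  congr 1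
  exact Finset.prod_congr rfl fun i _ => sq_cpow (norm_nonneg _) s

theorem IsRt.J_eq {r : (Fin n → ℂ) → Fin k → ℂ} (hr : IsRt k f r) {x : Fin n → ℂ}
    (hx : la f x ≠ 0) (η : ℂ → ℝ) (s : ℂ) : J η f s x = (Na f x : ℂ) ^ s * Gk η k s (r x) := by
  unfold J Gk
  rw [← integral_const_mul]
  refine integral_congr_ae (Eventually.of_forall fun z => ?_)
  simp only
  rw [hr.Nm_cpow hx]
  ring

theorem continuous_cons : Continuous fun p : (Fin n → ℂ) × ℂ => (Fin.cons p.2 p.1 : Fin (n + 1) → ℂ) := by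
  refine continuous_pi fun i => ?_
  refine Fin.cases ?_ (fun i => ?_) i
  · simp only [Fin.cons_zero]; fun_prop
  · simp only [Fin.cons_succ]; fun_prop

theorem kern_meas {η : ℂ → ℝ} (hη : Continuous η) (f : MvPolynomial (Fin (n + 1)) ℂ) (s : ℂ) :
    Measurable fun p : (Fin n → ℂ) × ℂ => (η p.2 : ℂ) * (Nm f (Fin.cons p.2 p.1) : ℂ) ^ s := by
  have h1 : Measurable fun p : (Fin n → ℂ) × ℂ => (η p.2 : ℂ) :=
    Complex.measurable_ofReal.comp (hη.measurable.comp measurable_snd)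
  have h2 : Measurable fun p : (Fin n → ℂ) × ℂ => (Nm f (Fin.cons p.2 p.1) : ℂ) :=
    Complex.measurable_ofReal.comp ((continuous_Nm f).comp continuous_cons).measurable
  exact h1.mul (h2.pow_const s)

theorem J_meas {η : ℂ → ℝ} (hη : Continuous η) (f : MvPolynomial (Fin (n + 1)) ℂ) (s : ℂ) :
    StronglyMeasurable fun x => J η f s x :=
  (kern_meas hη f s).stronglyMeasurable.integral_prod_right

/-- the shell -/
def Shl (n : ℕ) : Set (Fin n → ℂ) := {x | 1 / 2 ≤ ‖x‖ ∧ ‖x‖ ≤ 1}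

theorem finrank_pi_complex (n : ℕ) : Module.finrank ℝ (Fin n → ℂ) = 2 * n := by
  rw [Module.finrank_pi_fintype]
  simp [mul_comm]

/-- integrability of the powers of the leading coefficient -/
theorem Dat.pow_int (h : Dat k m f) (hn : 0 < n) {p q : ℝ} (hp : 0 ≤ p) (hq : 0 ≤ q)
    (hs : IntegrableOn (fun x => ‖la f x‖ ^ (-p)) (Shl n)) (hpos : 0 < 2 * n - m * p + q) :
    IntegrableOn (fun x => ‖la f x‖ ^ (-p) * ‖x‖ ^ q) (closedBall 0 1) := by
  have hmeas : Measurable fun x => ‖la f x‖ ^ (-p) * ‖x‖ ^ q :=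
    ((continuous_la f).norm.measurable.pow_const _).mul (measurable_norm.pow_const _)
  have hnn : ∀ x, 0 ≤ ‖la f x‖ ^ (-p) * ‖x‖ ^ q := fun x =>
    mul_nonneg (Real.rpow_nonneg (norm_nonneg _) _) (Real.rpow_nonneg (norm_nonneg _) _)
  refine ⟨hmeas.aestronglyMeasurable, ?_⟩
  rw [hasFiniteIntegral_iff_ofReal (Eventually.of_forall hnn)]
  refine lt_of_le_of_ne le_top ?_
  have hfr := finrank_pi_complex n
  refine Sh.shell_sum volume (by rw [hfr]; omega) (fun x => ENNReal.ofReal (‖la f x‖ ^ (-p) * ‖x‖ ^ q))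
    (ENNReal.ofReal ((1 / 2 : ℝ) ^ (q - m * p))) ?_ ?_ ?_
  · intro x
    rw [← ENNReal.ofReal_mul (by positivity)]
    refine ENNReal.ofReal_le_ofReal (le_of_eq ?_)
    rw [h.la_smul, norm_mul, norm_pow, norm_smul, Complex.norm_real, Real.norm_eq_abs,
      abs_of_pos (by norm_num : (0 : ℝ) < 1 / 2), Real.mul_rpow (by positivity) (norm_nonneg _),
      Real.mul_rpow (by positivity) (norm_nonneg _), ← Real.rpow_natCast, ← Real.rpow_mul (by norm_num),
      Real.rpow_sub (by norm_num), mul_neg, Real.rpow_neg (by norm_num)]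
    have : (1 / 2 : ℝ) ^ ((m : ℝ) * p) ≠ 0 := (Real.rpow_pos_of_pos (by norm_num) _).ne'
    field_simp
  · rw [← ENNReal.ofReal_mul (by positivity), ← ENNReal.ofReal_one]
    refine (ENNReal.ofReal_lt_ofReal_iff zero_lt_one).2 ?_
    rw [hfr, ← Real.rpow_natCast, ← Real.rpow_add (by norm_num)]
    refine Real.rpow_lt_one (by norm_num) (by norm_num) ?_
    push_cast
    linarith
  · have h1 := hs.2
    rw [hasFiniteIntegral_iff_ofReal (Eventually.of_forall fun x =>
      Real.rpow_nonneg (norm_nonneg _) _)] at h1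
    refine ne_of_lt (lt_of_le_of_lt ?_ h1)
    have hsub : Sh.Sl (Fin n → ℂ) 0 ⊆ Shl n := by
      rintro x ⟨h2, h3⟩
      simp only [zero_add, pow_one, pow_zero] at h2 h3
      exact ⟨h2.le, h3⟩
    refine (setLIntegral_mono' (Sh.Sl_meas 0) fun x hx => ?_).trans (lintegral_mono_set hsub)
    refine ENNReal.ofReal_le_ofReal ?_
    refine mul_le_of_le_one_right (Real.rpow_nonneg (norm_nonneg _) _) ?_
    exact Real.rpow_le_one (norm_nonneg _) (hsub hx).2 hq

/-- measurability of symmetric functions of the zeros -/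
theorem IsRt.sum_meas (h : Dat k m f) {r : (Fin n → ℂ) → Fin k → ℂ} (hr : IsRt k f r)
    (T : ℂ → ℂ) (hT : Continuous T) : AEStronglyMeasurable fun x => ∑ i, T (r x i) := by
  set S : Set (Fin n → ℂ) := {x | la f x ≠ 0} with hS
  have hSo : IsOpen S := isOpen_ne_fun (continuous_la f) continuous_const
  have hc : ContinuousOn (fun x => ∑ i, T (r x i)) S := by
    rw [continuousOn_iff_continuous_restrict]
    refine sym_cont (X := S) (fun x => r x.1) (fun j => ?_) T hT
    have e : ∀ x : S, (pr (r x.1)).coeff j =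
        MvPolynomial.eval x.1 ((finSuccEquiv ℂ n f).coeff j) / la f x.1 := by
      intro x
      rw [hr.coeff x.2, mul_div_cancel_left₀ _ x.2]
    simp only [e]
    refine Continuous.div ((MvPolynomial.continuous_eval _).comp continuous_subtype_val)
      ((continuous_la f).comp continuous_subtype_val) fun x => x.2
  have h1 := hc.aestronglyMeasurable (μ := volume) hSo.measurableSet
  have h2 : ∀ᵐ x : Fin n → ℂ, x ∈ S := h.ae_la
  rwa [Measure.restrict_eq_self_of_ae_mem h2] at h1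

end

end Pool.Agent.H74C
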