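import Pool.Agent.H74A.Neg2

set_option autoImplicit false
set_option linter.unusedSectionVars false
set_option linter.unusedVariables false

/-! # The analytic continuation -/

namespace Pool.Agent.H74C

open MvPolynomial MeasureTheory Filter Topology Complex Metric
open Pool.Agent.H74A (pr pr_roots exists_roots cf cf_bound hol_int sym_cont)
open Pool.Agent.Y230.AR (Test)
open Pool.Agent.H628R4.TP (weylS IsBFunction)

/-- the number `(n + 1) / d` -/
noncomputable def bet (n k m : ℕ) : ℝ := ((n : ℝ) + 1) / ((k : ℝ) + m)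

/-- the hypotheses -/
structure Hyp {n : ℕ} (k m : ℕ) (f : MvPolynomial (Fin (n + 1)) ℂ) : Prop where
  dat : Dat k m f
  n0 : 0 < n
  lt : k * (n + 1) < k + m
  lc : ∀ p : ℝ, 0 ≤ p → p < 2 - 2 * ((k : ℝ) - 1) * bet n k m →
    IntegrableOn (fun x => ‖la f x‖ ^ (-p)) (Shl n)
  nd : (∃ (x : Fin n → ℂ) (z₁ z₂ : ℂ), la f x ≠ 0 ∧ z₁ ≠ z₂ ∧
      MvPolynomial.eval (Fin.cons z₁ x : Fin (n + 1) → ℂ) f = 0 ∧
      MvPolynomial.eval (Fin.cons z₂ x : Fin (n + 1) → ℂ) f = 0) ∨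
    (k = 1 ∧ ∃ (x : Fin n → ℂ) (z : ℂ), la f x = 0 ∧
      MvPolynomial.eval (Fin.cons z x : Fin (n + 1) → ℂ) f ≠ 0)

section

variable {n k m : ℕ} {f : MvPolynomial (Fin (n + 1)) ℂ}

theorem Hyp.kpos (H : Hyp k m f) : (0 : ℝ) < k := by
  exact_mod_cast H.dat.k0

theorem Hyp.dpos (H : Hyp k m f) : (0 : ℝ) < (k : ℝ) + m := by
  have := H.kpos
  positivity

theorem Hyp.mpos (H : Hyp k m f) : (0 : ℝ) < m := by
  have h1 := H.lt
  have h2 := H.dat.k0
  have h3 : k ≤ k * (n + 1) := Nat.le_mul_of_pos_right _ (Nat.succ_pos _)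
  exact_mod_cast (by omega : 0 < m)

theorem Hyp.bpos (H : Hyp k m f) : 0 < bet n k m := by
  have := H.dpos
  unfold bet
  positivity

theorem Hyp.beq (H : Hyp k m f) : bet n k m * ((k : ℝ) + m) = n + 1 := by
  unfold bet
  rw [div_mul_cancel₀ _ H.dpos.ne']

theorem Hyp.kb (H : Hyp k m f) : (k : ℝ) * bet n k m < 1 := by
  unfold bet
  rw [mul_div_assoc', div_lt_one H.dpos]
  exact_mod_cast H.lt

theorem Hyp.mb (H : Hyp k m f) : (n : ℝ) * k < m := by
  have h1 := H.lt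
  have h2 : n * k < m := by nlinarith
  exact_mod_cast h2

theorem Hyp.b3 (H : Hyp k m f) : bet n k m < (n : ℝ) / m + 1 / 2 := by
  have hm := H.mpos
  have hd := H.dpos
  have hk := H.kpos
  have hmb := H.mb
  have hn : (1 : ℝ) ≤ n := by exact_mod_cast H.n0
  have hk1 : (1 : ℝ) ≤ k := by exact_mod_cast H.dat.k0
  have h1 : (1 : ℝ) < m := by nlinarith
  have h2 : (n : ℝ) / m + 1 / 2 - bet n k m = ((m : ℝ) * (k + m) / 2 + n * (k + m) - (n + 1) * m) /
      (m * (k + m)) := by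
    unfold bet
    field_simp
    ring
  have h3 : 0 < (n : ℝ) / m + 1 / 2 - bet n k m := by
    rw [h2]
    refine div_pos ?_ (by positivity)
    have h4 : (0 : ℝ) < m * (k + m - 2) / 2 := by
      have : (0 : ℝ) < k + m - 2 := by linarith
      positivity
    nlinarith [mul_pos (lt_of_lt_of_le one_pos hn) hk]
  linarith

theorem Hyp.nb (H : Hyp k m f) : (n : ℝ) < m * bet n k m := by
  have h1 := H.beq
  have h2 := H.kb
  nlinarith

/-- the integrand of `Q` -/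
noncomputable def qf (χ : (Fin n → ℂ) → ℝ) (η : ℂ → ℝ) (k : ℕ) (f : MvPolynomial (Fin (n + 1)) ℂ)
    (s : ℂ) (x : Fin n → ℂ) : ℂ := (χ x : ℂ) * ((Na f x : ℂ) ^ s * Pk η k s 0 - J η f s x)

theorem qf_eq {r : (Fin n → ℂ) → Fin k → ℂ} (hr : IsRt k f r) {x : Fin n → ℂ} (hx : la f x ≠ 0)
    (χ : (Fin n → ℂ) → ℝ) (η : ℂ → ℝ) (s : ℂ) :
    qf χ η k f s x = (χ x : ℂ) * ((Na f x : ℂ) ^ s * Hk η k s (r x)) := by
  unfold qf Hk
  rw [hr.J_eq hx]
  ring

theorem qf_meas {χ : (Fin n → ℂ) → ℝ} (hχ : XCut χ) {η : ℂ → ℝ} (hη : RCut η) (s : ℂ) :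
    AEStronglyMeasurable (qf χ η k f s) := by
  unfold qf
  have h1 : Measurable fun x : Fin n → ℂ => (χ x : ℂ) :=
    Complex.measurable_ofReal.comp hχ.smooth.continuous.measurable
  have h2 : Measurable fun x : Fin n → ℂ => (Na f x : ℂ) ^ s * Pk η k s 0 :=
    ((Complex.measurable_ofReal.comp (continuous_Na f).measurable).pow_const s).mul_const _
  exact (h1.mul (h2.sub (J_meas hη.cont f s).measurable)).aestronglyMeasurable

theorem ae_ne_zero' (hn : 0 < n) : ∀ᵐ x : Fin n → ℂ, x ≠ 0 := by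
  have : Nonempty (Fin n) := ⟨⟨0, hn⟩⟩
  have h : (volume : Measure (Fin n → ℂ)) {0} = 0 := measure_singleton _
  exact compl_mem_ae_iff.2 h

/-- the domination of the integrand of `Q` -/
theorem Hyp.qf_dom (H : Hyp k m f) {χ : (Fin n → ℂ) → ℝ} (hχ : XCut χ) {η : ℂ → ℝ} (hη : RCut η)
    {σ₁ σ₂ Λ : ℝ} (h1 : -bet n k m < σ₁) (h12 : σ₁ ≤ σ₂) (h2 : σ₂ < 0) (hΛ : 0 ≤ Λ) :
    ∃ B : (Fin n → ℂ) → ℝ, Integrable B ∧ ∀ᵐ x : Fin n → ℂ, ∀ s : ℂ, σ₁ ≤ s.re → s.re ≤ σ₂ →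
      ‖s‖ ≤ Λ → ‖qf χ η k f s x‖ ≤ B x := by
  obtain ⟨r, hr⟩ := H.dat.exists_rt
  have hr' : IsRt k f r := hr
  have hk := H.kpos
  have hm := H.mpos
  have hkb := H.kb
  have hb := H.bpos
  have hbe := H.beq
  set β := bet n k m with hβ
  have hk1 : -1 / (k : ℝ) < σ₁ := by
    rw [div_lt_iff₀ hk]
    nlinarith
  obtain ⟨C1, hC1, hH⟩ := Hk_bound hη.toSCut H.dat.k0 hk1 h12 h2 hΛ
  obtain ⟨C2, hC2, hR⟩ := hr'.bound H.dat
  obtain ⟨M, hM⟩ := (isCompact_closedBall (0 : Fin n → ℂ) 1).exists_bound_of_continuousOn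
    (f := Na f) (continuous_Na f).continuousOn
  set τ : ℝ := 2 - 2 * k * β with hτ
  have hτ0 : 0 ≤ τ := by rw [hτ]; nlinarith
  have hτ1 : τ ≤ 2 + 2 * k * σ₁ := by
    rw [hτ]
    nlinarith
  set C : ℝ := C1 * (max 1 M) ^ (σ₂ - σ₁) * C2 ^ τ with hC
  have hC0 : 0 ≤ C := by positivity
  set B : (Fin n → ℂ) → ℝ := (closedBall (0 : Fin n → ℂ) 1).indicator
    fun x => C * (‖la f x‖ ^ (-(τ - 2 * σ₁)) * ‖x‖ ^ (((m : ℝ) + 1) * τ)) with hB
  have hpi : IntegrableOn (fun x => ‖la f x‖ ^ (-(τ - 2 * σ₁)) * ‖x‖ ^ (((m : ℝ) + 1) * τ))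
      (closedBall 0 1) := by
    refine H.dat.pow_int H.n0 (by linarith) (by positivity) (H.lc _ (by linarith) ?_) ?_
    · rw [hτ]
      nlinarith
    · have : 0 < m * (β + σ₁) := by
        apply mul_pos hm
        linarith
      rw [hτ]
      nlinarith
  have hpi2 : IntegrableOn (fun x => C * (‖la f x‖ ^ (-(τ - 2 * σ₁)) * ‖x‖ ^ (((m : ℝ) + 1) * τ)))
      (closedBall 0 1) := hpi.const_mul C
  refine ⟨B, hpi2.integrable_indicator measurableSet_closedBall, ?_⟩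
  filter_upwards [H.dat.ae_la, ae_ne_zero' H.n0] with x hx hx0 s hs1 hs2 hsΛ
  rw [qf_eq hr' hx]
  by_cases hx1 : x ∈ closedBall (0 : Fin n → ℂ) 1
  · rw [hB, Set.indicator_of_mem hx1, norm_mul, norm_mul, Complex.norm_real, Real.norm_eq_abs,
      abs_of_nonneg (hχ.nonneg x), cpn (Na_pos hx)]
    have hla : 0 < ‖la f x‖ := norm_pos_iff.2 hx
    have hxn : 0 < ‖x‖ := norm_pos_iff.2 hx0
    have hRp : 0 < C2 * (‖x‖ ^ (m + 1) / ‖la f x‖) := by positivity
    have hH1 := hH s hs1 hs2 hsΛ _ hRp (r x) (hR x hx hx0) τ hτ0 hτ1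
    have hN1 : Na f x ^ s.re ≤ (max 1 M) ^ (σ₂ - σ₁) * Na f x ^ σ₁ := by
      refine rpow_le_max (Na_pos hx) ?_ hs1 (by linarith)
      have := hM x hx1
      rw [Real.norm_eq_abs] at this
      exact (le_abs_self _).trans this
    have hN2 : Na f x ^ σ₁ = ‖la f x‖ ^ (2 * σ₁) := by
      unfold Na
      rw [← Real.rpow_natCast, ← Real.rpow_mul hla.le]
      norm_num
    have hR2 : (C2 * (‖x‖ ^ (m + 1) / ‖la f x‖)) ^ τ =
        C2 ^ τ * (‖x‖ ^ (((m : ℝ) + 1) * τ) * ‖la f x‖ ^ (-τ)) := by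
      rw [Real.mul_rpow hC2.le (by positivity), Real.div_rpow (by positivity) hla.le,
        ← Real.rpow_natCast, ← Real.rpow_mul hxn.le, Real.rpow_neg hla.le]
      push_cast
      rw [div_eq_mul_inv]
    calc χ x * (Na f x ^ s.re * ‖Hk η k s (r x)‖) ≤
        1 * (((max 1 M) ^ (σ₂ - σ₁) * ‖la f x‖ ^ (2 * σ₁)) *
          (C1 * (C2 ^ τ * (‖x‖ ^ (((m : ℝ) + 1) * τ) * ‖la f x‖ ^ (-τ))))) := by
          rw [← hN2, ← hR2]
          have a1 : 0 ≤ Na f x ^ s.re := Real.rpow_nonneg (Na_nonneg f x) _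
          have a2 : 0 ≤ Na f x ^ σ₁ := Real.rpow_nonneg (Na_nonneg f x) _
          refine mul_le_mul (hχ.le_one x) (mul_le_mul hN1 hH1 (norm_nonneg _) ?_) ?_ zero_le_one
          · positivity
          · positivity
      _ = _ := by
          rw [hC, show -(τ - 2 * σ₁) = 2 * σ₁ + -τ by ring, Real.rpow_add hla]
          ring
  · rw [hB, Set.indicator_of_notMem hx1, hχ.zero x (by
      rw [mem_closedBall_zero_iff, not_le] at hx1; linarith)]
    simp

/-- the function `Q` -/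
noncomputable def Qf (χ : (Fin n → ℂ) → ℝ) (η : ℂ → ℝ) (k : ℕ) (f : MvPolynomial (Fin (n + 1)) ℂ)
    (s : ℂ) : ℂ := ∫ x, qf χ η k f s x

theorem Hyp.Qf_hol (H : Hyp k m f) {χ : (Fin n → ℂ) → ℝ} (hχ : XCut χ) {η : ℂ → ℝ} (hη : RCut η) :
    DifferentiableOn ℂ (Qf χ η k f) {s | -bet n k m < s.re ∧ s.re < 0} := by
  obtain ⟨r, hr⟩ := H.dat.exists_rt
  have hr' : IsRt k f r := hr
  have hk := H.kpos
  have hkb := H.kb
  have hstrip : {s : ℂ | -bet n k m < s.re ∧ s.re < 0} ⊆ {s : ℂ | -1 / (k : ℝ) < s.re ∧ s.re < 0} := by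
    rintro s ⟨h1, h2⟩
    refine ⟨?_, h2⟩
    rw [div_lt_iff₀ hk]
    nlinarith
  refine hol_int (strip_open _ _) (fun s x => qf χ η k f s x) ?_ ?_ ?_
  · filter_upwards [H.dat.ae_la] with x hx
    have h0 : (Na f x : ℂ) ≠ 0 := Complex.ofReal_ne_zero.2 (Na_pos hx).ne'
    have h1 : DifferentiableOn ℂ (fun s => (χ x : ℂ) * ((Na f x : ℂ) ^ s * Hk η k s (r x)))
        {s | -bet n k m < s.re ∧ s.re < 0} := by
      refine DifferentiableOn.const_mul (DifferentiableOn.mul ?_ ?_) _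
      · intro s _
        exact (differentiableAt_id.const_cpow (Or.inl h0)).differentiableWithinAt
      · exact (Hk_hol hη.toCut H.dat.k0 (r x)).mono hstrip
    exact h1.congr fun s hs => qf_eq hr' hx χ η s
  · intro s _
    exact qf_meas hχ hη s
  · intro s hs
    obtain ⟨ε, hε, hsub, σ₁, σ₂, h1, h2, h3, h4⟩ := strip_ball hs
    obtain ⟨B, hB, hBb⟩ := H.qf_dom hχ hη h1 h2 h3 (Λ := ‖s‖ + ε) (by positivity)
    refine ⟨ε, hε, hsub, B, hB, ?_⟩
    filter_upwards [hBb] with x hx s' hs'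
    obtain ⟨a1, a2, a3⟩ := h4 s' hs'
    exact hx s' a1 a2 a3

theorem Hyp.qf_int (H : Hyp k m f) {χ : (Fin n → ℂ) → ℝ} (hχ : XCut χ) {η : ℂ → ℝ} (hη : RCut η)
    {s : ℂ} (h1 : -bet n k m < s.re) (h2 : s.re < 0) : Integrable (qf χ η k f s) := by
  obtain ⟨B, hB, hBb⟩ := H.qf_dom hχ hη h1 le_rfl h2 (norm_nonneg s)
  refine hB.mono' (qf_meas hχ hη s) ?_
  filter_upwards [hBb] with x hx
  exact hx s le_rfl le_rfl le_rfl

/-- the integral over the shell -/
noncomputable def nn (χ : (Fin n → ℂ) → ℝ) (f : MvPolynomial (Fin (n + 1)) ℂ) (s : ℂ) : ℂ :=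
  ∫ x, ((χ x - χ ((2 : ℝ) • x) : ℝ) : ℂ) * (Na f x : ℂ) ^ s

theorem Hyp.nn_dom (H : Hyp k m f) {χ : (Fin n → ℂ) → ℝ} (hχ : XCut χ) :
    ∃ B : (Fin n → ℂ) → ℝ, Integrable B ∧ ∀ᵐ x : Fin n → ℂ, ∀ s : ℂ, -bet n k m ≤ s.re → s.re ≤ 0 →
      ‖((χ x - χ ((2 : ℝ) • x) : ℝ) : ℂ) * (Na f x : ℂ) ^ s‖ ≤ B x := by
  have hk := H.kpos
  have hm := H.mpos
  have hkb := H.kb
  have hb := H.bpos
  set β := bet n k m with hβ
  obtain ⟨M, hM⟩ := (isCompact_closedBall (0 : Fin n → ℂ) 1).exists_bound_of_continuousOn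
    (f := Na f) (continuous_Na f).continuousOn
  set p : ℝ := 2 * β with hp
  set q : ℝ := m * p with hq
  have hq0 : 0 ≤ q := by rw [hq, hp]; positivity
  set C : ℝ := (max 1 M) ^ β * 4 ^ q with hC
  have hC0 : 0 ≤ C := by positivity
  have hpi : IntegrableOn (fun x => ‖la f x‖ ^ (-p) * ‖x‖ ^ q) (closedBall 0 1) := by
    refine H.dat.pow_int H.n0 (by positivity) hq0 (H.lc _ (by positivity) ?_) ?_
    · rw [hp]
      nlinarith
    · rw [hq]
      have : (0 : ℝ) < n := by exact_mod_cast H.n0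
      linarith
  have hpi2 : IntegrableOn (fun x => C * (‖la f x‖ ^ (-p) * ‖x‖ ^ q)) (closedBall 0 1) :=
    hpi.const_mul C
  refine ⟨(closedBall (0 : Fin n → ℂ) 1).indicator fun x => C * (‖la f x‖ ^ (-p) * ‖x‖ ^ q),
    hpi2.integrable_indicator measurableSet_closedBall, ?_⟩
  filter_upwards [H.dat.ae_la] with x hx s hs1 hs2
  have hnn : 0 ≤ (closedBall (0 : Fin n → ℂ) 1).indicator
      (fun x => C * (‖la f x‖ ^ (-p) * ‖x‖ ^ q)) x := by
    refine Set.indicator_nonneg (fun x _ => ?_) x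
    have := Real.rpow_nonneg (norm_nonneg (la f x)) (-p)
    have := Real.rpow_nonneg (norm_nonneg x) q
    positivity
  have hn2 : ‖(2 : ℝ) • x‖ = 2 * ‖x‖ := by
    rw [norm_smul, Real.norm_eq_abs, abs_of_pos (by norm_num : (0 : ℝ) < 2)]
  by_cases hx1 : x ∈ closedBall (0 : Fin n → ℂ) 1
  · by_cases hx2 : ‖x‖ ≤ 1 / 4
    · rw [hχ.one x (by linarith), hχ.one ((2 : ℝ) • x) (by rw [hn2]; linarith)]
      simpa using hnn
    · push Not at hx2
      rw [Set.indicator_of_mem hx1, norm_mul, Complex.norm_real, Real.norm_eq_abs, cpn (Na_pos hx)]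
      have hla : 0 < ‖la f x‖ := norm_pos_iff.2 hx
      have hd : |χ x - χ ((2 : ℝ) • x)| ≤ 1 := by
        rw [abs_le]
        have a1 := hχ.nonneg x
        have a2 := hχ.le_one x
        have a3 := hχ.nonneg ((2 : ℝ) • x)
        have a4 := hχ.le_one ((2 : ℝ) • x)
        constructor <;> linarith
      have hN1 : Na f x ^ s.re ≤ (max 1 M) ^ β * Na f x ^ (-β) := by
        refine rpow_le_max (Na_pos hx) ?_ hs1 (by linarith)
        have := hM x hx1
        rw [Real.norm_eq_abs] at this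
        exact (le_abs_self _).trans this
      have hN2 : Na f x ^ (-β) = ‖la f x‖ ^ (-p) := by
        unfold Na
        rw [← Real.rpow_natCast, ← Real.rpow_mul hla.le, hp]
        congr 1
        push_cast
        ring
      have h4 : 1 ≤ 4 ^ q * ‖x‖ ^ q := by
        rw [← Real.mul_rpow (by norm_num) (norm_nonneg _)]
        exact Real.one_le_rpow (by linarith) hq0
      calc |χ x - χ ((2 : ℝ) • x)| * Na f x ^ s.re ≤
          1 * ((max 1 M) ^ β * ‖la f x‖ ^ (-p)) := by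
            rw [← hN2]
            gcongr
            exact Real.rpow_nonneg (Na_nonneg f x) _
        _ ≤ ((max 1 M) ^ β * ‖la f x‖ ^ (-p)) * (4 ^ q * ‖x‖ ^ q) := by
            rw [one_mul]
            exact le_mul_of_one_le_right (by positivity) h4
        _ = _ := by rw [hC]; ring
  · rw [mem_closedBall_zero_iff, not_le] at hx1
    rw [hχ.zero x (by linarith), hχ.zero ((2 : ℝ) • x) (by rw [hn2]; linarith)]
    simpa using hnn

theorem nn_meas {χ : (Fin n → ℂ) → ℝ} (hχ : XCut χ) (f : MvPolynomial (Fin (n + 1)) ℂ) (s : ℂ) :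
    AEStronglyMeasurable fun x => ((χ x - χ ((2 : ℝ) • x) : ℝ) : ℂ) * (Na f x : ℂ) ^ s := by
  have h0 : Measurable fun x : Fin n → ℂ => (χ x - χ ((2 : ℝ) • x) : ℝ) :=
    hχ.smooth.continuous.measurable.sub
      (hχ.smooth.continuous.comp (continuous_const_smul (2 : ℝ))).measurable
  have h2 : Measurable fun x : Fin n → ℂ => (Na f x : ℂ) ^ s :=
    (Complex.measurable_ofReal.comp (continuous_Na f).measurable).pow_const s
  exact ((Complex.measurable_ofReal.comp h0).mul h2).aestronglyMeasurable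

theorem Hyp.nn_hol (H : Hyp k m f) {χ : (Fin n → ℂ) → ℝ} (hχ : XCut χ) :
    DifferentiableOn ℂ (nn χ f) {s | -bet n k m < s.re ∧ s.re < 0} := by
  obtain ⟨B, hB, hBb⟩ := H.nn_dom hχ
  refine hol_int (strip_open _ _) (fun s x => ((χ x - χ ((2 : ℝ) • x) : ℝ) : ℂ) * (Na f x : ℂ) ^ s)
    ?_ (fun s _ => nn_meas hχ f s) ?_
  · filter_upwards [H.dat.ae_la] with x hx s _
    have h0 : (Na f x : ℂ) ≠ 0 := Complex.ofReal_ne_zero.2 (Na_pos hx).ne'
    exact ((differentiableAt_id.const_cpow (Or.inl h0)).const_mul _).differentiableWithinAt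
  · intro s hs
    obtain ⟨ε, hε, hsub, σ₁, σ₂, h1, h2, h3, h4⟩ := strip_ball hs
    refine ⟨ε, hε, hsub, B, hB, ?_⟩
    filter_upwards [hBb] with x hx s' hs'
    exact hx s' (hsub hs').1.le (hsub hs').2.le

theorem Hyp.nn_bound (H : Hyp k m f) {χ : (Fin n → ℂ) → ℝ} (hχ : XCut χ) :
    ∃ C : ℝ, ∀ s : ℂ, -bet n k m ≤ s.re → s.re ≤ 0 → ‖nn χ f s‖ ≤ C := by
  obtain ⟨B, hB, hBb⟩ := H.nn_dom hχ
  refine ⟨∫ x, B x, fun s h1 h2 => ?_⟩
  refine norm_integral_le_of_norm_le hB ?_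
  filter_upwards [hBb] with x hx
  exact hx s h1 h2

/-- the integrability of the powers of `a` -/
theorem Hyp.Na_int (H : Hyp k m f) {s : ℝ} (h1 : -((n : ℝ) / m) < s) (h2 : s ≤ 0) :
    IntegrableOn (fun x => Na f x ^ s) (closedBall 0 1) := by
  have hm := H.mpos
  have hk := H.kpos
  have hb := H.bpos
  have hkb := H.kb
  have hnb := H.nb
  have hs : -bet n k m < s := by
    refine lt_trans ?_ h1
    rw [neg_lt_neg_iff, div_lt_iff₀ hm]
    linarith
  have hs2 : -(n : ℝ) < m * s := by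
    rw [← neg_div, div_lt_iff₀ hm] at h1
    linarith
  have h3 : IntegrableOn (fun x => ‖la f x‖ ^ (-(-2 * s)) * ‖x‖ ^ (0 : ℝ)) (closedBall 0 1) := by
    refine H.dat.pow_int H.n0 (by linarith) le_rfl (H.lc _ (by linarith) ?_) ?_
    · nlinarith
    · nlinarith
  refine h3.congr_fun (fun x _ => ?_) measurableSet_closedBall
  simp only [Real.rpow_zero, mul_one, Na]
  rw [← Real.rpow_natCast, ← Real.rpow_mul (norm_nonneg _)]
  congr 1
  push_cast
  ring

/-- the factor `w` -/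
noncomputable def ww (n m : ℕ) (s : ℂ) : ℂ := 1 - (2 : ℂ) ^ (-(2 * (n : ℂ) + 2 * m * s))

theorem ww_diff (n m : ℕ) : Differentiable ℂ (ww n m) := by
  unfold ww
  intro s
  refine DifferentiableAt.const_sub ?_ _
  refine DifferentiableAt.const_cpow ?_ (Or.inl two_ne_zero)
  fun_prop

theorem ww_real (n m : ℕ) (s : ℝ) :
    ww n m s = ((1 - (2 : ℝ) ^ (-(2 * (n : ℝ) + 2 * m * s)) : ℝ) : ℂ) := by
  unfold ww
  push_cast
  rw [Complex.ofReal_cpow (by norm_num)]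
  push_cast
  rfl

theorem Hyp.ww_ne (H : Hyp k m f) : ww n m ((-bet n k m : ℝ) : ℂ) ≠ 0 := by
  rw [ww_real, Complex.ofReal_ne_zero, sub_ne_zero]
  have hnb := H.nb
  have h : (1 : ℝ) < (2 : ℝ) ^ (-(2 * (n : ℝ) + 2 * m * (-bet n k m))) := by
    refine Real.one_lt_rpow (by norm_num) ?_
    linarith
  exact h.ne

theorem Hyp.ww_nn (H : Hyp k m f) {χ : (Fin n → ℂ) → ℝ} (hχ : XCut χ) {s : ℝ}
    (h1 : -((n : ℝ) / m) < s) (h2 : s ≤ 0) :
    Integrable (fun x => (χ x : ℂ) * (Na f x : ℂ) ^ (s : ℂ)) ∧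
    ww n m s * ∫ x, (χ x : ℂ) * (Na f x : ℂ) ^ (s : ℂ) = nn χ f s := by
  have hI := H.Na_int h1 h2
  have hint : Integrable (fun x => (χ x : ℂ) * (Na f x : ℂ) ^ (s : ℂ)) := by
    refine (hI.integrable_indicator measurableSet_closedBall).mono' ?_ ?_
    · have h0 : Measurable fun x : Fin n → ℂ => (χ x : ℂ) :=
        Complex.measurable_ofReal.comp hχ.smooth.continuous.measurable
      have h2 : Measurable fun x : Fin n → ℂ => (Na f x : ℂ) ^ (s : ℂ) :=
        (Complex.measurable_ofReal.comp (continuous_Na f).measurable).pow_const _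
      exact (h0.mul h2).aestronglyMeasurable
    · refine Eventually.of_forall fun x => ?_
      by_cases hx1 : x ∈ closedBall (0 : Fin n → ℂ) 1
      · rw [Set.indicator_of_mem hx1, norm_mul, ← Complex.ofReal_cpow (Na_nonneg f x),
          Complex.norm_real, Complex.norm_real, Real.norm_eq_abs, Real.norm_eq_abs,
          abs_of_nonneg (hχ.nonneg x), abs_of_nonneg (Real.rpow_nonneg (Na_nonneg f x) s)]
        exact mul_le_of_le_one_left (Real.rpow_nonneg (Na_nonneg f x) s) (hχ.le_one x)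
      · rw [Set.indicator_of_notMem hx1, hχ.zero x (by
          rw [mem_closedBall_zero_iff, not_le] at hx1; linarith)]
        simp
  refine ⟨hint, ?_⟩
  have hfr := finrank_pi_complex n
  -- the scaled integral
  set g : (Fin n → ℂ) → ℂ := fun y => (χ y : ℂ) * (Na f ((1 / 2 : ℝ) • y) : ℂ) ^ (s : ℂ) with hg
  have hNs : ∀ y : Fin n → ℂ, (Na f ((1 / 2 : ℝ) • y) : ℂ) ^ (s : ℂ) =
      (((2 : ℝ) ^ (-(2 * (m : ℝ) * s)) : ℝ) : ℂ) * (Na f y : ℂ) ^ (s : ℂ) := by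
    intro y
    rw [← Complex.ofReal_cpow (Na_nonneg f _), ← Complex.ofReal_cpow (Na_nonneg f _),
      ← Complex.ofReal_mul]
    congr 1
    unfold Na
    rw [H.dat.la_smul, norm_mul, norm_pow, Complex.norm_real, Real.norm_eq_abs,
      abs_of_pos (by norm_num : (0 : ℝ) < 1 / 2), mul_pow, Real.mul_rpow (by positivity) (by positivity)]
    congr 1
    rw [← pow_mul, ← Real.rpow_natCast, ← Real.rpow_mul (by norm_num), one_div, Real.inv_rpow (by norm_num),
      ← Real.rpow_neg (by norm_num)]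
    congr 1
    push_cast
    ring
  have e1 : ∀ x : Fin n → ℂ, g ((2 : ℝ) • x) = (χ ((2 : ℝ) • x) : ℂ) * (Na f x : ℂ) ^ (s : ℂ) := by
    intro x
    rw [hg]
    simp only
    rw [smul_smul]
    norm_num
  have e2 : ∫ x, (χ ((2 : ℝ) • x) : ℂ) * (Na f x : ℂ) ^ (s : ℂ) =
      (((2 : ℝ) ^ (-(2 * (n : ℝ) + 2 * m * s)) : ℝ) : ℂ) *
        ∫ x, (χ x : ℂ) * (Na f x : ℂ) ^ (s : ℂ) := by
    simp only [← e1]
    rw [Measure.integral_comp_smul, hfr, hg]
    simp only [hNs]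
    have e3 : ∀ y : Fin n → ℂ, (χ y : ℂ) * ((((2 : ℝ) ^ (-(2 * (m : ℝ) * s)) : ℝ) : ℂ) *
        (Na f y : ℂ) ^ (s : ℂ)) = (((2 : ℝ) ^ (-(2 * (m : ℝ) * s)) : ℝ) : ℂ) *
          ((χ y : ℂ) * (Na f y : ℂ) ^ (s : ℂ)) := fun y => by ring
    simp only [e3]
    rw [integral_const_mul, abs_of_pos (by positivity), Complex.real_smul, ← mul_assoc,
      ← Complex.ofReal_mul]
    congr 2
    rw [neg_add, Real.rpow_add (by norm_num), Real.rpow_neg (by norm_num) (2 * (n : ℝ))]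
    congr 2
    rw [← Real.rpow_natCast]
    congr 1
    push_cast
    ring
  have hint2 : Integrable (fun x => (χ ((2 : ℝ) • x) : ℂ) * (Na f x : ℂ) ^ (s : ℂ)) := by
    have h3 : Integrable g := by
      rw [hg]
      simp only [hNs]
      refine (hint.const_mul (((2 : ℝ) ^ (-(2 * (m : ℝ) * s)) : ℝ) : ℂ)).congr
        (Eventually.of_forall fun y => ?_)
      simp only
      ring
    have h4 := (integrable_comp_smul_iff volume g (two_ne_zero (α := ℝ))).2 h3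
    refine h4.congr (Eventually.of_forall fun x => ?_)
    exact e1 x
  unfold nn
  have e4 : ∀ x : Fin n → ℂ, ((χ x - χ ((2 : ℝ) • x) : ℝ) : ℂ) * (Na f x : ℂ) ^ (s : ℂ) =
      (χ x : ℂ) * (Na f x : ℂ) ^ (s : ℂ) - (χ ((2 : ℝ) • x) : ℂ) * (Na f x : ℂ) ^ (s : ℂ) := by
    intro x
    push_cast
    ring
  simp only [e4]
  rw [integral_sub hint hint2, e2, ww_real]
  push_cast
  ring

end

end Pool.Agent.H74C
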