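import Pool.Agent.H74A.Smooth
import Pool.Agent.H74A.Base
import Pool.Agent.H74A.Shell
import Pool.Agent.H74A.Lin

set_option autoImplicit false
set_option linter.unusedSectionVars false
set_option linter.unusedVariables false

/-! # Ordinary singularities -/

namespace Pool.Agent.H74S

open MvPolynomial MeasureTheory Filter Topology Complex Metric
open Pool.Agent.H74D Pool.Agent.H74C
open scoped ENNReal

theorem pder {N : ℕ} (P : MvPolynomial (Fin (N + 1)) ℂ) (i : Fin (N + 1)) (y : Fin N → ℂ) (z : ℂ) :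
    HasDerivAt (fun z : ℂ => eval (i.insertNth z y : Fin (N + 1) → ℂ) P)
      (eval (i.insertNth z y : Fin (N + 1) → ℂ) (pderiv i P)) z := by
  induction P using MvPolynomial.induction_on with
  | C a =>
    simp only [eval_C, pderiv_C, map_zero]
    exact hasDerivAt_const _ _
  | add p q hp hq =>
    simp only [map_add]
    exact hp.add hq
  | mul_X p j hp =>
    simp only [map_mul, eval_X, Derivation.leibniz, smul_eq_mul, map_add, pderiv_X]
    have h1 : HasDerivAt (fun z : ℂ => (i.insertNth z y : Fin (N + 1) → ℂ) j)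
        (eval (i.insertNth z y : Fin (N + 1) → ℂ)
          (Pi.single (M := fun _ : Fin (N + 1) => MvPolynomial (Fin (N + 1)) ℂ) i 1 j)) z := by
      rcases Fin.eq_self_or_eq_succAbove i j with h | ⟨j', h⟩
      · subst h
        simp only [Fin.insertNth_apply_same, Pi.single_eq_same, map_one]
        exact hasDerivAt_id z
      · subst h
        simp only [Fin.insertNth_apply_succAbove]
        rw [Pi.single_eq_of_ne (Fin.succAbove_ne i j'), map_zero]
        exact hasDerivAt_const _ _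
    have h2 := hp.fun_mul h1
    refine h2.congr_deriv ?_
    ring

/-- the constant family -/
noncomputable def polyFam {N : ℕ} (g : MvPolynomial (Fin (N + 1)) ℂ) : Fam Unit N where
  F := fun _ y => eval y g
  D := fun i _ y => eval y (pderiv i g)
  hF := (MvPolynomial.continuous_eval g).comp continuous_snd
  hD := fun i => (MvPolynomial.continuous_eval _).comp continuous_snd
  hd := fun _ i y z => pder g i y z

theorem shl_compact (n : ℕ) : IsCompact {x : Fin n → ℂ | 1 / 2 ≤ ‖x‖ ∧ ‖x‖ ≤ 1} := by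
  have h : {x : Fin n → ℂ | 1 / 2 ≤ ‖x‖ ∧ ‖x‖ ≤ 1} = closedBall 0 1 ∩ {x | 1 / 2 ≤ ‖x‖} := by
    ext x
    simp [and_comm]
  rw [h]
  exact (isCompact_closedBall _ _).inter_right (isClosed_le continuous_const continuous_norm)

theorem lct_of_pw {N : ℕ} (g : MvPolynomial (Fin N) ℂ) (c₀ : ℝ)
    (h : ∀ c : ℝ, 0 ≤ c → c < c₀ →
      ∫⁻ y in {x : Fin N → ℂ | 1 / 2 ≤ ‖x‖ ∧ ‖x‖ ≤ 1}, pw c (eval y g) ≠ ⊤) :
    LctGe (fun _ : Fin 1 => g) c₀ := by
  intro c hc0 hc1
  simp only [Finset.univ_unique, Finset.sum_singleton]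
  refine ⟨?_, ?_⟩
  · exact (((MvPolynomial.continuous_eval g).norm.pow 2).measurable.pow_const _).aestronglyMeasurable
  · rw [hasFiniteIntegral_iff_ofReal (Eventually.of_forall fun z => by positivity)]
    exact (h c hc0 hc1).lt_top

/-- smooth cones have the log canonical threshold one outside of the origin -/
theorem lct_smooth {N : ℕ} (g : MvPolynomial (Fin (N + 1)) ℂ) (hg : SmoothCone g) (c₀ : ℝ)
    (hc : c₀ ≤ 1) : LctGe (fun _ : Fin 1 => g) c₀ := by
  refine lct_of_pw g c₀ fun c hc0 hc1 => ?_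
  obtain ⟨V, hV, C, hC, hb⟩ := (polyFam g).cpt hc0 (hc1.trans_le hc) () (shl_compact (N + 1))
    (fun y hy => by
      by_cases h : eval y g = 0
      · refine Or.inr (hg y ?_ h)
        rintro rfl
        have := hy.1
        rw [norm_zero] at this
        norm_num at this
      · exact Or.inl h)
  exact ne_of_lt (lt_of_le_of_lt (hb () (mem_of_mem_nhds hV)) hC.lt_top)

section

variable {n k m : ℕ} {f : MvPolynomial (Fin (n + 1 + 1)) ℂ}

/-- the family of the rescaled functions near the point `(1 : 0 : ... : 0)` -/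
noncomputable def cFam (k : ℕ) (f : MvPolynomial (Fin (n + 1 + 1)) ℂ) : Fam (ℂ × ℂ) n where
  F := fun w y => ∑ j ∈ Finset.range (k + 1), w.1 ^ j * w.2 ^ (k - j) *
    eval y ((finSuccEquiv ℂ (n + 1) f).coeff j)
  D := fun i w y => ∑ j ∈ Finset.range (k + 1), w.1 ^ j * w.2 ^ (k - j) *
    eval y (pderiv i ((finSuccEquiv ℂ (n + 1) f).coeff j))
  hF := by
    refine continuous_finsetSum _ fun j _ => ?_
    exact (((continuous_fst.comp continuous_fst).pow j).mul
      ((continuous_snd.comp continuous_fst).pow (k - j))).mul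
      ((MvPolynomial.continuous_eval _).comp continuous_snd)
  hD := fun i => by
    refine continuous_finsetSum _ fun j _ => ?_
    exact (((continuous_fst.comp continuous_fst).pow j).mul
      ((continuous_snd.comp continuous_fst).pow (k - j))).mul
      ((MvPolynomial.continuous_eval _).comp continuous_snd)
  hd := fun w i y z => by
    refine HasDerivAt.fun_sum fun j _ => ?_
    exact (pder _ i y z).const_mul _

theorem cFam_zero (hk : (finSuccEquiv ℂ (n + 1) f).natDegree = k) (x₀ : ℂ) (y : Fin (n + 1) → ℂ) :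
    (cFam k f).F (x₀, 0) y = x₀ ^ k * la f y := by
  change ∑ j ∈ Finset.range (k + 1), x₀ ^ j * 0 ^ (k - j) *
    eval y ((finSuccEquiv ℂ (n + 1) f).coeff j) = _
  rw [Finset.sum_eq_single k]
  · rw [Nat.sub_self, pow_zero, mul_one]
    unfold la lc Polynomial.leadingCoeff
    rw [hk]
  · intro j hj hjk
    rw [Finset.mem_range] at hj
    rw [zero_pow (by omega), mul_zero, zero_mul]
  · intro h
    exact absurd (Finset.self_mem_range_succ k) h

theorem cFam_zeroD (hk : (finSuccEquiv ℂ (n + 1) f).natDegree = k) (i : Fin (n + 1)) (x₀ : ℂ)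
    (y : Fin (n + 1) → ℂ) :
    (cFam k f).D i (x₀, 0) y = x₀ ^ k * eval y (pderiv i (lc f)) := by
  change ∑ j ∈ Finset.range (k + 1), x₀ ^ j * 0 ^ (k - j) *
    eval y (pderiv i ((finSuccEquiv ℂ (n + 1) f).coeff j)) = _
  rw [Finset.sum_eq_single k]
  · rw [Nat.sub_self, pow_zero, mul_one]
    unfold lc Polynomial.leadingCoeff
    rw [hk]
  · intro j hj hjk
    rw [Finset.mem_range] at hj
    rw [zero_pow (by omega), mul_zero, zero_mul]
  · intro h
    exact absurd (Finset.self_mem_range_succ k) h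

theorem cFam_scale (hf : f.IsHomogeneous (k + m)) (hk : (finSuccEquiv ℂ (n + 1) f).natDegree = k)
    (x₀ : ℂ) (ρ : ℝ) (y : Fin (n + 1) → ℂ) :
    eval (Fin.cons x₀ (ρ • y) : Fin (n + 1 + 1) → ℂ) f = (ρ : ℂ) ^ m * (cFam k f).F (x₀, ρ) y := by
  rw [MvPolynomial.eval_eq_eval_mv_eval',
    Polynomial.eval_eq_sum_range' (n := k + 1) (by
      refine lt_of_le_of_lt Polynomial.natDegree_map_le ?_
      rw [hk]; omega)]
  change _ = (ρ : ℂ) ^ m * ∑ j ∈ Finset.range (k + 1), x₀ ^ j * (ρ : ℂ) ^ (k - j) *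
    eval y ((finSuccEquiv ℂ (n + 1) f).coeff j)
  rw [Finset.mul_sum]
  refine Finset.sum_congr rfl fun j hj => ?_
  rw [Finset.mem_range] at hj
  have h1 : ((finSuccEquiv ℂ (n + 1) f).coeff j).IsHomogeneous (k - j + m) :=
    hf.finSuccEquiv_coeff_isHomogeneous j (k - j + m) (by omega)
  rw [Polynomial.coeff_map, eval_smul_hom _ _ h1, pow_add]
  ring

/-- the integral over the balls -/
theorem ball_bound {g : (Fin (n + 1) → ℂ) → ℝ≥0∞} {C : ℝ≥0∞} (hC : C ≠ ⊤) {δ : ℝ} (hδ : 0 < δ)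
    (J : ℕ) (h : ∀ j : ℕ, ∫⁻ y in Sh.Sl (Fin (n + 1) → ℂ) (J + j), g y ≤
      ENNReal.ofReal (((1 / 2 : ℝ) ^ δ) ^ (J + j)) * C) :
    ∫⁻ y in closedBall (0 : Fin (n + 1) → ℂ) ((1 / 2) ^ J), g y ≤
      (∑' j : ℕ, ENNReal.ofReal (((1 / 2 : ℝ) ^ δ) ^ (J + j))) * C := by
  have hsub : closedBall (0 : Fin (n + 1) → ℂ) ((1 / 2) ^ J) ⊆
      {0} ∪ ⋃ j, Sh.Sl (Fin (n + 1) → ℂ) (J + j) := by
    intro x hx
    by_cases h0 : x = 0
    · exact Or.inl h0
    · rw [mem_closedBall_zero_iff] at hx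
      have h1 : ‖x‖ ≤ 1 := hx.trans (pow_le_one₀ (by norm_num) (by norm_num))
      obtain ⟨i, hi1, hi2⟩ := Sh.cover x h0 h1
      have hJi : J ≤ i := by
        by_contra hcon
        push Not at hcon
        have h2 : (1 / 2 : ℝ) ^ J ≤ (1 / 2) ^ (i + 1) :=
          pow_le_pow_of_le_one (by norm_num) (by norm_num) hcon
        linarith
      obtain ⟨j, rfl⟩ := Nat.exists_eq_add_of_le hJi
      exact Or.inr (Set.mem_iUnion.2 ⟨j, hi1, hi2⟩)
  calc ∫⁻ y in closedBall (0 : Fin (n + 1) → ℂ) ((1 / 2) ^ J), g y ≤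
      ∫⁻ x in {0} ∪ ⋃ j, Sh.Sl (Fin (n + 1) → ℂ) (J + j), g x := lintegral_mono_set hsub
    _ ≤ (∫⁻ x in {0}, g x) + ∫⁻ x in ⋃ j, Sh.Sl (Fin (n + 1) → ℂ) (J + j), g x :=
        lintegral_union_le _ _ _
    _ = ∫⁻ x in ⋃ j, Sh.Sl (Fin (n + 1) → ℂ) (J + j), g x := by
        rw [setLIntegral_measure_zero _ _ (measure_singleton _), zero_add]
    _ ≤ ∑' j, ∫⁻ x in Sh.Sl (Fin (n + 1) → ℂ) (J + j), g x := lintegral_iUnion_le _ _
    _ ≤ ∑' j, ENNReal.ofReal (((1 / 2 : ℝ) ^ δ) ^ (J + j)) * C := ENNReal.tsum_le_tsum h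
    _ = _ := ENNReal.tsum_mul_right

theorem tsum_fin {δ : ℝ} (hδ : 0 < δ) (J : ℕ) :
    ∑' j : ℕ, ENNReal.ofReal (((1 / 2 : ℝ) ^ δ) ^ (J + j)) ≠ ⊤ := by
  have h1 : (1 / 2 : ℝ) ^ δ < 1 := Real.rpow_lt_one (by norm_num) (by norm_num) hδ
  have h0 : (0 : ℝ) ≤ (1 / 2 : ℝ) ^ δ := by positivity
  have hs : Summable fun j : ℕ => ((1 / 2 : ℝ) ^ δ) ^ (J + j) := by
    have := (summable_geometric_of_lt_one h0 h1).mul_left (((1 / 2 : ℝ) ^ δ) ^ J)
    refine this.congr fun j => ?_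
    rw [pow_add]
  rw [← ENNReal.ofReal_tsum_of_nonneg (fun j => by positivity) hs]
  exact ENNReal.ofReal_ne_top

/-- **Local integrability at an ordinary singular point.** -/
theorem ord_local (hf : f.IsHomogeneous (k + m)) (hk : (finSuccEquiv ℂ (n + 1) f).natDegree = k)
    (ha : SmoothCone (lc f)) {c : ℝ} (hc0 : 0 ≤ c) (hc1 : c < 1) (hcm : c * m < (n : ℝ) + 1) :
    ∃ U ∈ 𝓝 (Fin.cons 1 0 : Fin (n + 1 + 1) → ℂ), ∫⁻ x in U, pw c (eval x f) ≠ ⊤ := by
  obtain ⟨V, hV, C, hC, hb⟩ := (cFam k f).cpt hc0 hc1 ((1 : ℂ), (0 : ℂ)) (shl_compact (n + 1))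
    (fun y hy => by
      by_cases h : eval y (lc f) = 0
      · refine Or.inr ?_
        obtain ⟨i, hi⟩ := ha y (by
          rintro rfl
          have := hy.1
          rw [norm_zero] at this
          norm_num at this) h
        refine ⟨i, ?_⟩
        rw [cFam_zeroD hk, one_pow, one_mul]
        exact hi
      · refine Or.inl ?_
        rw [cFam_zero hk, one_pow, one_mul]
        exact h)
  rw [nhds_prod_eq, Filter.mem_prod_iff] at hV
  obtain ⟨V1, hV1, V2, hV2, hV12⟩ := hV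
  obtain ⟨ε, hε, hball1⟩ := Metric.nhds_basis_closedBall.mem_iff.1 hV1
  obtain ⟨ε₂, hε₂, hball2⟩ := Metric.mem_nhds_iff.1 hV2
  obtain ⟨J, hJ⟩ := exists_pow_lt_of_lt_one hε₂ (by norm_num : (1 / 2 : ℝ) < 1)
  set δ : ℝ := 2 * ((n : ℝ) + 1) - 2 * (c * m) with hδ
  have hδ0 : 0 < δ := by rw [hδ]; linarith
  have hfr : Module.finrank ℝ (Fin (n + 1) → ℂ) = 2 * (n + 1) := by
    rw [Module.finrank_pi_fintype]
    simp [Complex.finrank_real_complex, mul_comm]
  have hsl0 : Sh.Sl (Fin (n + 1) → ℂ) 0 ⊆ {x | 1 / 2 ≤ ‖x‖ ∧ ‖x‖ ≤ 1} := by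
    rintro x ⟨h1, h2⟩
    simp only [zero_add, pow_one, pow_zero] at h1 h2
    exact ⟨h1.le, h2⟩
  have hslj : ∀ (j : ℕ) (x : Fin (n + 1) → ℂ), ((1 / 2 : ℝ) ^ j) • x ∈ Sh.Sl (Fin (n + 1) → ℂ) j ↔
      x ∈ Sh.Sl (Fin (n + 1) → ℂ) 0 := by
    intro j x
    unfold Sh.Sl
    have hp : (0 : ℝ) < (1 / 2) ^ j := by positivity
    simp only [Set.mem_ofPred_eq, norm_smul, Real.norm_eq_abs, abs_of_pos hp, zero_add,
      pow_zero, pow_succ, one_mul]
    constructor
    · rintro ⟨h1, h2⟩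
      exact ⟨lt_of_mul_lt_mul_left h1 hp.le, le_of_mul_le_mul_left (by linarith) hp⟩
    · rintro ⟨h1, h2⟩
      exact ⟨mul_lt_mul_of_pos_left h1 hp, mul_le_of_le_one_right hp.le h2⟩
  have hstep : ∀ x₀ ∈ closedBall (1 : ℂ) ε, ∀ j : ℕ, J ≤ j →
      ∫⁻ y in Sh.Sl (Fin (n + 1) → ℂ) j, pw c (eval (Fin.cons x₀ y : Fin (n + 1 + 1) → ℂ) f) ≤
        ENNReal.ofReal (((1 / 2 : ℝ) ^ δ) ^ j) * C := by
    intro x₀ hx₀ j hj
    set t : ℝ := (1 / 2 : ℝ) ^ j with ht
    have htp : 0 < t := by positivity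
    rw [Sh.slint_scale (volume : Measure (Fin (n + 1) → ℂ)) _ htp (Sh.Sl_meas 0) (Sh.Sl_meas j)
      (hslj j), hfr]
    have h1 : ∀ y : Fin (n + 1) → ℂ,
        pw c (eval (Fin.cons x₀ (t • y) : Fin (n + 1 + 1) → ℂ) f) =
          ENNReal.ofReal (t ^ (-(2 * (c * m)))) * pw c ((cFam k f).F (x₀, t) y) := by
      intro y
      rw [cFam_scale hf hk]
      unfold pw
      rw [norm_mul, norm_pow, Complex.norm_real, Real.norm_eq_abs, abs_of_pos htp, mul_pow,
        Real.mul_rpow (by positivity) (by positivity), ENNReal.ofReal_mul (by positivity),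
        ← pow_mul, ← Real.rpow_natCast, ← Real.rpow_mul htp.le]
      congr 3
      push_cast
      ring
    simp only [h1]
    rw [lintegral_const_mul' _ _ ENNReal.ofReal_ne_top, ← mul_assoc,
      ← ENNReal.ofReal_mul (by positivity)]
    refine mul_le_mul' (le_of_eq ?_) ?_
    · congr 1
      rw [← Real.rpow_natCast, ← Real.rpow_add htp, ht, ← Real.rpow_natCast, ← Real.rpow_mul (by norm_num),
        ← Real.rpow_natCast, ← Real.rpow_mul (by norm_num)]
      congr 1
      rw [hδ]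
      push_cast
      ring
    · refine (lintegral_mono_set hsl0).trans (hb _ (hV12 ⟨hball1 hx₀, hball2 ?_⟩))
      rw [mem_ball_zero_iff, Complex.norm_real, Real.norm_eq_abs, abs_of_pos htp]
      exact lt_of_le_of_lt (pow_le_pow_of_le_one (by norm_num) (by norm_num) hj) hJ
  set C' : ℝ≥0∞ := (∑' j : ℕ, ENNReal.ofReal (((1 / 2 : ℝ) ^ δ) ^ (J + j))) * C with hC'
  have hC't : C' ≠ ⊤ := ENNReal.mul_ne_top (tsum_fin hδ0 J) hC
  have hfib : ∀ x₀ ∈ closedBall (1 : ℂ) ε,
      ∫⁻ y in closedBall (0 : Fin (n + 1) → ℂ) ((1 / 2) ^ J),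
        pw c (eval (Fin.cons x₀ y : Fin (n + 1 + 1) → ℂ) f) ≤ C' := fun x₀ hx₀ =>
    ball_bound hC hδ0 J fun j => hstep x₀ hx₀ (J + j) (Nat.le_add_right _ _)
  set ε' : ℝ := min ε ((1 / 2) ^ J) with hε'
  have hε'0 : 0 < ε' := lt_min hε (by positivity)
  refine ⟨closedBall (Fin.cons 1 0) ε', closedBall_mem_nhds _ hε'0, ?_⟩
  have hmp := volume_preserving_piFinSuccAbove (fun _ : Fin (n + 1 + 1) => ℂ) 0
  have hmeas : Measurable fun y : Fin (n + 1 + 1) → ℂ => pw c (eval y f) :=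
    (pw_meas c).comp (MvPolynomial.continuous_eval f).measurable
  have hins : Measurable fun p : ℂ × (Fin (n + 1) → ℂ) =>
      ((0 : Fin (n + 1 + 1)).insertNth p.1 p.2 : Fin (n + 1 + 1) → ℂ) :=
    (MeasurableEquiv.piFinSuccAbove (fun _ : Fin (n + 1 + 1) => ℂ) 0).symm.measurable
  set G : (Fin (n + 1 + 1) → ℂ) → ℝ≥0∞ :=
    (closedBall (Fin.cons 1 0) ε').indicator fun y => pw c (eval y f) with hG
  have hGm : Measurable G := hmeas.indicator measurableSet_closedBall
  have hGi : Measurable fun p : ℂ × (Fin (n + 1) → ℂ) =>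
      G ((0 : Fin (n + 1 + 1)).insertNth p.1 p.2) := hGm.comp hins
  have e1 : ∫⁻ y in closedBall (Fin.cons 1 0) ε', pw c (eval y f) =
      ∫⁻ p : ℂ × (Fin (n + 1) → ℂ), G ((0 : Fin (n + 1 + 1)).insertNth p.1 p.2) := by
    rw [← lintegral_indicator measurableSet_closedBall]
    exact (hmp.symm.lintegral_comp hGm).symm
  rw [e1, Measure.volume_eq_prod, lintegral_prod _ hGi.aemeasurable]
  refine ne_of_lt (lt_of_le_of_lt (b := ∫⁻ x₀ in closedBall (1 : ℂ) ε, C') ?_ ?_)
  · rw [← lintegral_indicator measurableSet_closedBall]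
    refine lintegral_mono fun x₀ => ?_
    by_cases hx : x₀ ∈ closedBall (1 : ℂ) ε
    · rw [Set.indicator_of_mem hx]
      refine le_trans ?_ (hfib x₀ hx)
      rw [← lintegral_indicator measurableSet_closedBall]
      refine lintegral_mono fun y => ?_
      by_cases hy : ((0 : Fin (n + 1 + 1)).insertNth x₀ y : Fin (n + 1 + 1) → ℂ) ∈
          closedBall (Fin.cons 1 0) ε'
      · have h2 := (ball_insert 0 _ ε' x₀ y hy hε'0.le).2
        have h3 : y ∈ closedBall (0 : Fin (n + 1) → ℂ) ((1 / 2) ^ J) :=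
          closedBall_subset_closedBall (min_le_right _ _) h2
        rw [hG, Set.indicator_of_mem hy, Set.indicator_of_mem h3, Fin.insertNth_zero']
      · rw [hG, Set.indicator_of_notMem hy]
        exact zero_le
    · rw [Set.indicator_of_notMem hx]
      have e2 : ∀ y : Fin (n + 1) → ℂ, G ((0 : Fin (n + 1 + 1)).insertNth x₀ y) = 0 := by
        intro y
        rw [hG, Set.indicator_of_notMem]
        intro hy
        have h2 := (ball_insert 0 _ ε' x₀ y hy hε'0.le).1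
        exact hx (closedBall_subset_closedBall (min_le_left _ _) h2)
      simp only [e2, lintegral_zero, le_refl]
  · rw [setLIntegral_const]
    exact ENNReal.mul_lt_top hC't.lt_top measure_closedBall_lt_top

end

end Pool.Agent.H74S
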