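import Pool.Agent.H74A.Ord

set_option autoImplicit false
set_option linter.unusedSectionVars false
set_option linter.unusedVariables false

/-! # Ordinary singularities: the log canonical threshold -/

namespace Pool.Agent.H74S

open MvPolynomial MeasureTheory Filter Topology Complex Metric
open Pool.Agent.H74D Pool.Agent.H74C
open scoped ENNReal

theorem eval_linSub {σ : Type} [Fintype σ] (A : Matrix σ σ ℂ) (q : MvPolynomial σ ℂ) (x : σ → ℂ) :
    eval x (linSub A q) = eval (A.mulVec x) q := by
  induction q using MvPolynomial.induction_on with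
  | C a => rw [algHom_C, algebraMap_eq, eval_C, eval_C]
  | add p q hp hq => rw [map_add, map_add, map_add, hp, hq]
  | mul_X p j hp =>
    rw [map_mul, map_mul, map_mul, hp, eval_X, linSub_X, map_sum]
    congr 1
    unfold Matrix.mulVec dotProduct
    refine Finset.sum_congr rfl fun i _ => ?_
    rw [map_mul, eval_C, eval_X]

/-- transfer of local integrability by a linear change of the coordinates -/
theorem lin_local {N : ℕ} (A B : Matrix (Fin N) (Fin N) ℂ) (hAB : A * B = 1) (hBA : B * A = 1)
    (f : MvPolynomial (Fin N) ℂ) (c : ℝ) (v : Fin N → ℂ)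
    (h : ∃ U ∈ 𝓝 v, ∫⁻ x in U, pw c (eval x (linSub A f)) ≠ ⊤) :
    ∃ U ∈ 𝓝 (A.mulVec v), ∫⁻ x in U, pw c (eval x f) ≠ ⊤ := by
  obtain ⟨U, hU, hfin⟩ := h
  obtain ⟨ε, hε, hball⟩ := Metric.nhds_basis_closedBall.mem_iff.1 hU
  set T : (Fin N → ℂ) →ₗ[ℝ] (Fin N → ℂ) := A.mulVecLin.restrictScalars ℝ with hT
  set T' : (Fin N → ℂ) →ₗ[ℝ] (Fin N → ℂ) := B.mulVecLin.restrictScalars ℝ with hT'
  have hTT : T.comp T' = LinearMap.id := by
    refine LinearMap.ext fun x => ?_
    change A.mulVec (B.mulVec x) = x
    rw [Matrix.mulVec_mulVec, hAB, Matrix.one_mulVec]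
  have hTT' : ∀ x, T' (T x) = x := fun x => by
    change B.mulVec (A.mulVec x) = x
    rw [Matrix.mulVec_mulVec, hBA, Matrix.one_mulVec]
  have hdet : LinearMap.det T ≠ 0 := by
    intro h0
    have h1 : LinearMap.det (T.comp T') = 1 := by rw [hTT, LinearMap.det_id]
    rw [LinearMap.det_comp, h0, zero_mul] at h1
    exact zero_ne_one h1
  have hTc : Continuous T := LinearMap.continuous_of_finiteDimensional T
  have hTc' : Continuous T' := LinearMap.continuous_of_finiteDimensional T'
  refine ⟨T' ⁻¹' closedBall v ε, ?_, ?_⟩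
  · have h1 : T' (A.mulVec v) = v := hTT' v
    refine hTc'.continuousAt.preimage_mem_nhds ?_
    rw [h1]
    exact closedBall_mem_nhds v hε
  · have hm : MeasurableSet (T' ⁻¹' closedBall v ε) := hTc'.measurable measurableSet_closedBall
    have hmap := Measure.map_linearMap_addHaar_eq_smul_addHaar (volume : Measure (Fin N → ℂ)) hdet
    have hmeas : Measurable fun x : Fin N → ℂ => pw c (eval x f) :=
      (pw_meas c).comp (MvPolynomial.continuous_eval f).measurable
    have e1 := setLIntegral_map (μ := (volume : Measure (Fin N → ℂ))) (g := T) hm hmeas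
      hTc.measurable
    rw [hmap, Measure.restrict_smul, lintegral_smul_measure] at e1
    have e2 : T ⁻¹' (T' ⁻¹' closedBall v ε) = closedBall v ε := by
      ext x
      rw [Set.mem_preimage, Set.mem_preimage, hTT']
    rw [e2] at e1
    intro htop
    rw [htop, smul_eq_mul, ENNReal.mul_top] at e1
    · apply hfin
      rw [eq_top_iff]
      calc (⊤ : ℝ≥0∞) = ∫⁻ x in closedBall v ε, pw c (eval (T x) f) := e1
        _ = ∫⁻ x in closedBall v ε, pw c (eval x (linSub A f)) := by
            refine lintegral_congr fun x => ?_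
            rw [eval_linSub]
            rfl
        _ ≤ _ := lintegral_mono_set hball
    · refine (ENNReal.ofReal_pos.2 ?_).ne'
      exact abs_pos.2 (inv_ne_zero hdet)

end Pool.Agent.H74S
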