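import Pool.Agent.H74A.MultRoot

set_option autoImplicit false
set_option linter.unusedSectionVars false
set_option linter.unusedVariables false

/-! # The log canonical threshold -/

namespace Pool.Agent.H74S

open MvPolynomial MeasureTheory Filter Topology Complex Metric
open Pool.Agent.H74D Pool.Agent.H74C
open scoped ENNReal

theorem linSub_ne {N : ℕ} (A B : Matrix (Fin N) (Fin N) ℂ) (hAB : A * B = 1)
    (f : MvPolynomial (Fin N) ℂ) (hf : f ≠ 0) : linSub A f ≠ 0 := by
  intro h0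
  apply hf
  rw [← linSub_linSub A B hAB f, h0, map_zero]

/-- **The log canonical threshold of forms with ordinary singularities.** -/
theorem lct_ord {n : ℕ} (f : MvPolynomial (Fin (n + 1 + 1)) ℂ) (d : ℕ) (hd : 0 < d)
    (hf : f.IsHomogeneous d) (hf0 : f ≠ 0) (c₀ : ℝ) (hc : c₀ ≤ 1)
    (h : ∀ P : Fin (n + 1 + 1) → ℂ, P ≠ 0 → ∃ (A B : Matrix (Fin (n + 1 + 1)) (Fin (n + 1 + 1)) ℂ),
      A * B = 1 ∧ B * A = 1 ∧ (∀ i, A i 0 = P i) ∧
      ((SmoothCone (finSuccEquiv ℂ (n + 1) (linSub A f)).leadingCoeff ∧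
        c₀ * ((d : ℝ) - (finSuccEquiv ℂ (n + 1) (linSub A f)).natDegree) ≤ n + 1) ∨
        c₀ * ((d : ℝ) - (finSuccEquiv ℂ (n + 1) (linSub A f)).natDegree) ≤ 1))
    (hle : ∀ A : Matrix (Fin (n + 1 + 1)) (Fin (n + 1 + 1)) ℂ,
      (finSuccEquiv ℂ (n + 1) (linSub A f)).natDegree ≤ d) :
    LctGe (fun _ : Fin 1 => f) c₀ := by
  refine lct_of_pw f c₀ fun c hc0 hc1 => ?_
  have hloc : ∀ P ∈ {x : Fin (n + 1 + 1) → ℂ | 1 / 2 ≤ ‖x‖ ∧ ‖x‖ ≤ 1},
      ∃ U ∈ 𝓝 P, ∫⁻ x in U, pw c (eval x f) ≠ ⊤ := by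
    intro P hP
    have hP0 : P ≠ 0 := by
      rintro rfl
      have := hP.1
      rw [norm_zero] at this
      norm_num at this
    obtain ⟨A, B, hAB, hBA, hAP, hS⟩ := h P hP0
    set k := (finSuccEquiv ℂ (n + 1) (linSub A f)).natDegree with hk
    obtain ⟨m, hm⟩ := Nat.exists_eq_add_of_le (hle A)
    have h1 : (linSub A f).IsHomogeneous (k + m) := by
      rw [← hm]
      exact linSub_hom A f d hf
    have hmr : (d : ℝ) - k = m := by
      rw [hm]
      push_cast
      ring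
    rw [hmr] at hS
    have h2 : ∃ U ∈ 𝓝 (A.mulVec (Fin.cons 1 0 : Fin (n + 1 + 1) → ℂ)),
        ∫⁻ x in U, pw c (eval x f) ≠ ⊤ := by
      refine lin_local A B hAB hBA f c _ ?_
      rcases hS with ⟨hS, hdeg⟩ | hdeg
      · have hcm : c * m < (n : ℝ) + 1 := by
          rcases Nat.eq_zero_or_pos m with h0 | h0
          · rw [h0, Nat.cast_zero, mul_zero]
            positivity
          · have h0' : (0 : ℝ) < m := by exact_mod_cast h0
            nlinarith
        exact ord_local h1 hk.symm hS hc0 (hc1.trans_le hc) hcm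
      · have hcm : c * m < 1 := by
          rcases Nat.eq_zero_or_pos m with h0 | h0
          · rw [h0, Nat.cast_zero, mul_zero]
            exact one_pos
          · have h0' : (0 : ℝ) < m := by exact_mod_cast h0
            nlinarith
        exact mult_ord (Nat.succ_pos n) hd (linSub_hom A f d hf) (linSub_ne A B hAB f hf0) hk.symm
          hm hc0 hcm
    have h3 : A.mulVec (Fin.cons 1 0 : Fin (n + 1 + 1) → ℂ) = P := by
      funext i
      unfold Matrix.mulVec dotProduct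
      rw [Fin.sum_univ_succ]
      simp [hAP]
    rwa [h3] at h2
  have hK := shl_compact (n + 1 + 1)
  refine hK.induction_on (p := fun S => ∫⁻ x in S, pw c (eval x f) ≠ ⊤) (by simp) ?_ ?_ ?_
  · intro S T hST hT
    exact ne_of_lt (lt_of_le_of_lt (lintegral_mono_set hST) hT.lt_top)
  · intro S T hS hT
    exact ne_of_lt (lt_of_le_of_lt (lintegral_union_le _ _ _) (ENNReal.add_lt_top.2
      ⟨hS.lt_top, hT.lt_top⟩))
  · intro P hP
    obtain ⟨U, hU, hfin⟩ := hloc P hP
    exact ⟨U, mem_nhdsWithin_of_mem_nhds hU, hfin⟩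

end Pool.Agent.H74S
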