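import Pool.Agent.H74A.Ord3
import Pool.Agent.H74A.Nd
import Pool.Agent.H74A.Light

set_option autoImplicit false
set_option linter.unusedSectionVars false
set_option linter.unusedVariables false

/-! # The root of the forms with ordinary singularities -/

namespace Pool.Agent.H74S

open MvPolynomial MeasureTheory Filter Topology Complex
open Pool.Agent.H74D Pool.Agent.H74C
open Pool.Agent.W574.SM (IsFunctionalEq)

theorem deg_le {n : ℕ} (f : MvPolynomial (Fin (n + 1)) ℂ) (d : ℕ) (hf : f.IsHomogeneous d) :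
    (finSuccEquiv ℂ n f).natDegree ≤ d := by
  rw [natDegree_finSuccEquiv]
  exact (degreeOf_le_totalDegree f 0).trans hf.totalDegree_le

theorem eq_rename {n : ℕ} (F : MvPolynomial (Fin (n + 1)) ℂ)
    (h : (finSuccEquiv ℂ n F).natDegree = 0) :
    F = rename Fin.succ ((finSuccEquiv ℂ n F).coeff 0) := by
  refine MvPolynomial.funext fun v => ?_
  rw [← Fin.cons_self_tail v, eval_succ, MvPolynomial.eval_eq_eval_mv_eval',
    Polynomial.eq_C_of_natDegree_eq_zero h]
  simp

theorem ordinary_ne {n : ℕ} (d : ℕ) (f : MvPolynomial (Fin (n + 1)) ℂ) (h : OrdinaryAbove d f) :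
    f ≠ 0 := by
  obtain ⟨hn, hnd, hall, -⟩ := h
  obtain ⟨n', rfl⟩ := Nat.exists_eq_add_of_le' hn
  rintro rfl
  obtain ⟨A, B, -, -, -, h4⟩ := hall (Pi.single 0 1) (by
    intro h0
    have := congrFun h0 0
    rw [Pi.single_eq_same] at this
    exact one_ne_zero this)
  rw [map_zero, map_zero, Polynomial.leadingCoeff_zero, Polynomial.natDegree_zero,
    Nat.sub_zero] at h4
  rcases h4 with h4 | h4
  · exact smooth_ne _ h4 rfl
  · nlinarith

/-- **The root of the forms with ordinary singularities.** -/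
theorem ordinary_root {n : ℕ} (d : ℕ) (f : MvPolynomial (Fin (n + 1)) ℂ)
    (hf : f.IsHomogeneous d) (h : OrdinaryAbove d f) (b : Polynomial ℂ)
    (hb : IsFunctionalEq (fun _ : Fin 1 => f) b) :
    b.eval ((-(((n : ℝ) + 1) / d) : ℝ) : ℂ) = 0 := by
  classical
  obtain ⟨hn, hnd, hall, hno⟩ := h
  obtain ⟨n', rfl⟩ := Nat.exists_eq_add_of_le' hn
  have hd0 : 0 < d := by omega
  have hdR : (0 : ℝ) < d := by exact_mod_cast hd0
  have hndR : ((n' + 2 : ℕ) : ℝ) + 1 ≤ d := by exact_mod_cast hnd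
  have hne : f ≠ 0 := by
    rintro rfl
    obtain ⟨A, B, -, -, -, h4⟩ := hall (Pi.single 0 1) (by
      intro h0
      have := congrFun h0 0
      rw [Pi.single_eq_same] at this
      exact one_ne_zero this)
    rw [map_zero, map_zero, Polynomial.leadingCoeff_zero, Polynomial.natDegree_zero,
      Nat.sub_zero] at h4
    rcases h4 with h4 | h4
    · exact smooth_ne _ h4 rfl
    · nlinarith
  by_cases hcase : ∀ P : Fin (n' + 2 + 1) → ℂ, P ≠ 0 →
      ∃ (A B : Matrix (Fin (n' + 2 + 1)) (Fin (n' + 2 + 1)) ℂ),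
      A * B = 1 ∧ B * A = 1 ∧ (∀ i, A i 0 = P i) ∧
      ((SmoothCone (finSuccEquiv ℂ (n' + 2) (linSub A f)).leadingCoeff ∧
        d ≤ (n' + 2 + 1) * (finSuccEquiv ℂ (n' + 2) (linSub A f)).natDegree) ∨
        (n' + 2 + 1) * (d - (finSuccEquiv ℂ (n' + 2) (linSub A f)).natDegree) ≤ d)
  · -- the vertex computes the log canonical threshold
    have hl : LctGe (fun _ : Fin 1 => f) (((n' + 2 + 1 : ℕ) : ℝ) / d) := by
      refine lct_ord (n := n' + 1) f d hd0 hf hne _ ?_ ?_ fun A => deg_le _ d (linSub_hom A f d hf)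
      · rw [div_le_one hdR]
        push_cast at hndR ⊢
        linarith
      · intro P hP
        obtain ⟨A, B, h1, h2, h3, h4⟩ := hcase P hP
        refine ⟨A, B, h1, h2, h3, ?_⟩
        rcases h4 with ⟨h4, h5⟩ | h5
        · refine Or.inl ⟨h4, ?_⟩
          have h6 : (d : ℝ) ≤ ((n' : ℝ) + 2 + 1) *
              ((finSuccEquiv ℂ (n' + 2) (linSub A f)).natDegree : ℝ) := by exact_mod_cast h5
          rw [div_mul_eq_mul_div, div_le_iff₀ hdR]
          push_cast
          nlinarith
        · refine Or.inr ?_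
          have h7 := deg_le _ d (linSub_hom A f d hf)
          obtain ⟨m, hm⟩ := Nat.exists_eq_add_of_le h7
          have h8 : d - (finSuccEquiv ℂ (n' + 2) (linSub A f)).natDegree = m := by omega
          rw [h8] at h5
          have h6 : ((n' : ℝ) + 2 + 1) * (m : ℝ) ≤ d := by exact_mod_cast h5
          have h9 : (d : ℝ) - ((finSuccEquiv ℂ (n' + 2) (linSub A f)).natDegree : ℝ) = m := by
            have : (d : ℝ) = ((finSuccEquiv ℂ (n' + 2) (linSub A f)).natDegree : ℝ) + m := by
              exact_mod_cast hm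
            linarith
          have h10 : ((finSuccEquiv ℂ (n' + 1 + 1) (linSub A f)).natDegree : ℝ) =
            ((finSuccEquiv ℂ (n' + 2) (linSub A f)).natDegree : ℝ) := rfl
          rw [h10, h9, div_mul_eq_mul_div, div_le_iff₀ hdR]
          push_cast
          linarith
    have h1 := light_root (Nat.succ_pos _) (fun _ : Fin 1 => f) d hd0 (fun _ => hf) ⟨0, hne⟩ hl b hb
    have h2 : (((n' + 2 + 1 : ℕ) : ℝ)) = ((n' + 2 : ℕ) : ℝ) + 1 := by push_cast; ring
    rw [h2] at h1
    exact h1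
  · push Not at hcase
    obtain ⟨P, hP, hcase⟩ := hcase
    obtain ⟨A, B, hAB, hBA, hAP, hs'⟩ := hall P hP
    obtain ⟨hc1, hc2⟩ := hcase A B hAB hBA hAP
    have hs : SmoothCone (finSuccEquiv ℂ (n' + 2) (linSub A f)).leadingCoeff := by
      rcases hs' with hs | hs
      · exact hs
      · exact absurd hc2 (not_lt.2 hs)
    have hlt := hc1 hs
    set F := linSub A f with hF
    set k := (finSuccEquiv ℂ (n' + 2) F).natDegree with hk
    have hFh : F.IsHomogeneous d := linSub_hom A f d hf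
    have hkd : k ≤ d := deg_le F d hFh
    rcases Nat.eq_zero_or_pos k with h0 | h0
    · exfalso
      apply hno
      refine ⟨A, B, 0, 0, (finSuccEquiv ℂ (n' + 2) F).coeff 0, hAB, hBA, ?_⟩
      rw [pow_zero, one_mul]
      exact eq_rename F (hk ▸ h0)
    · obtain ⟨m, hm⟩ := Nat.exists_eq_add_of_le hkd
      have hdat : Dat k m F := ⟨h0, by rw [← hm]; exact hFh, hk.symm⟩
      rcases nd_or hdat hs with hnd' | ⟨l, g, hlg⟩
      · refine heavy_root d f hf ⟨by omega, A, B, k, hAB, hBA, h0, by rw [mul_comm]; exact hlt,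
          hk.symm, ?_, ?_⟩ b hb
        · refine lct_smooth (N := n' + 1) _ hs _ ?_
          have h1 : (1 : ℝ) ≤ k := by exact_mod_cast h0
          have h2 : 0 ≤ ((k : ℝ) - 1) * (((n' + 2 : ℕ) : ℝ) + 1) / d := by
            have : (0 : ℝ) ≤ (k : ℝ) - 1 := by linarith
            positivity
          linarith
        · rcases hnd' with ⟨x, z₁, z₂, h1, h2, h3, h4⟩ | ⟨h1, x, z, h2, h3⟩
          · exact Or.inl ⟨x, z₁, z₂, h2, h1, h3, h4⟩
          · exact Or.inr ⟨h1, x, z, h2, h3⟩
      · exact absurd ⟨A, B, k, l, g, hAB, hBA, hlg⟩ hno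

end Pool.Agent.H74S
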