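import Pool.Agent.H74A.Lin
import Pool.Agent.H74A.Root

set_option autoImplicit false
set_option linter.unusedSectionVars false
set_option linter.unusedVariables false

/-! # The root `-(n + 1) / d` for real forms with a light region -/

namespace Pool.Agent.H74D

open MvPolynomial MeasureTheory Filter Topology Metric
open scoped Pointwise
open Pool.Agent.W574.SM
open Pool.Agent.H74C

theorem eval_smul_homR {σ : Type} [Fintype σ] (q : MvPolynomial σ ℝ) (d : ℕ)
    (hq : q.IsHomogeneous d) (a : ℝ) (y : σ → ℝ) :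
    MvPolynomial.eval (a • y) q = a ^ d * MvPolynomial.eval y q := by
  rw [MvPolynomial.eval_eq', MvPolynomial.eval_eq', Finset.mul_sum]
  refine Finset.sum_congr rfl fun m hm => ?_
  have h1 : ∏ i, ((a • y) i) ^ m i = a ^ d * ∏ i, y i ^ m i := by
    simp only [Pi.smul_apply, smul_eq_mul, mul_pow]
    rw [Finset.prod_mul_distrib, Finset.prod_pow_eq_pow_sum]
    congr 2
    have h2 := hq (MvPolynomial.mem_support_iff.1 hm)
    rw [Finsupp.weight_apply, Finsupp.sum_fintype _ _ (by simp)] at h2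
    simpa using h2
  rw [h1]
  ring

theorem ev_mapR {σ : Type} [Fintype σ] [DecidableEq σ] (F : MvPolynomial σ ℝ) (x : σ → ℝ) :
    Pool.Agent.H74A.ev (map (algebraMap ℝ ℂ) F) x = ((MvPolynomial.eval x F : ℝ) : ℂ) := by
  unfold Pool.Agent.H74A.ev
  rw [MvPolynomial.eval_map]
  have h : (fun i => (x i : ℂ)) = fun i => algebraMap ℝ ℂ (x i) := rfl
  have h2 := MvPolynomial.eval₂_comp_left (algebraMap ℝ ℂ) (RingHom.id ℝ) x F
  rw [h, ← MvPolynomial.eval₂_id]
  exact h2.symm

theorem exists_rhoR (n : ℕ) : ∃ ρ : (Fin n → ℝ) → ℝ, (∀ x, 0 ≤ ρ x) ∧ (∀ x, ρ x ≤ 1) ∧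
    (∀ x, ‖x‖ ≤ 1 / 2 → ρ x = 1) ∧
    Pool.Agent.H74A.Test (closedBall (0 : Fin n → ℝ) 1) (fun x => (ρ x : ℂ)) := by
  set b : ContDiffBump (0 : Fin n → ℝ) := ⟨1 / 2, 3 / 4, by norm_num, by norm_num⟩ with hb
  refine ⟨b, fun x => ContDiffBump.nonneg b, fun x => ContDiffBump.le_one b, ?_, ?_, ?_⟩
  · intro x hx
    refine b.one_of_mem_closedBall ?_
    rw [mem_closedBall, dist_zero_right]
    exact hx
  · exact Complex.ofRealCLM.contDiff.comp b.contDiff
  · refine closure_minimal ?_ isClosed_closedBall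
    intro v hv
    rw [Function.mem_support] at hv
    rw [mem_closedBall_zero_iff]
    by_contra hcon
    push Not at hcon
    refine hv ?_
    rw [b.zero_of_le_dist (by rw [dist_zero_right]; change (3 / 4 : ℝ) ≤ _; linarith)]
    simp

/-- **The root of real forms with a light region.** -/
theorem region_rootR {n : ℕ} (d : ℕ) (hd : 0 < d) (F : MvPolynomial (Fin (n + 1)) ℝ)
    (hF : F.IsHomogeneous d) (Ω : Set (Fin (n + 1) → ℝ)) (hO : IsOpen Ω) (hne : Ω.Nonempty)
    (hcone : ∀ t : ℝ, 0 < t → ∀ x ∈ Ω, t • x ∈ Ω) (hpos : ∀ x ∈ Ω, 0 < eval x F)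
    (hfr : ∀ x ∈ frontier Ω, eval x F = 0)
    (hint : ∀ c : ℝ, 0 ≤ c → c < ((n : ℝ) + 1) / d → IntegrableOn
      (fun x : Fin (n + 1) → ℝ => eval x F ^ (-c)) (Ω ∩ {x | 1 / 2 ≤ ‖x‖ ∧ ‖x‖ ≤ 1}))
    (b : Polynomial ℂ) (hb : Pool.Agent.H628R4.TP.IsBFunction (map (algebraMap ℝ ℂ) F) b) :
    b.eval ((-(((n : ℝ) + 1) / d) : ℝ) : ℂ) = 0 := by
  classical
  obtain ⟨ρ, hρ0, hρ1, hρone, hρT⟩ := exists_rhoR (n + 1)
  have hdR : (0 : ℝ) < d := by exact_mod_cast hd
  set s0 : ℝ := -(((n : ℝ) + 1) / d) with hs0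
  have hs00 : s0 < 0 := by
    have : 0 < ((n : ℝ) + 1) / d := by positivity
    rw [hs0]; linarith
  have hds : (d : ℝ) * s0 = -(n + 1) := by
    rw [hs0]
    field_simp
  have hfin : Module.finrank ℝ (Fin (n + 1) → ℝ) = n + 1 := by simp
  have hOm : MeasurableSet Ω := hO.measurableSet
  have hFc : Continuous fun x : Fin (n + 1) → ℝ => eval x F := MvPolynomial.continuous_eval F
  have hmem : ∀ x : Fin (n + 1) → ℝ, (1 / 2 : ℝ) • x ∈ Ω ↔ x ∈ Ω := by
    intro x
    constructor
    · intro h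
      have := hcone 2 (by norm_num) _ h
      rw [smul_smul] at this
      norm_num at this
      exact this
    · exact hcone _ (by norm_num) x
  have hI : ∀ s : ℝ, s0 < s → s < 0 → IntegrableOn (fun x => eval x F ^ s) (Ω ∩ closedBall 0 1) := by
    intro s h1 h2
    have hmeas : Measurable fun x : Fin (n + 1) → ℝ => eval x F ^ s := hFc.measurable.pow_const _
    refine ⟨hmeas.aestronglyMeasurable, ?_⟩
    have hae : 0 ≤ᵐ[volume.restrict (Ω ∩ closedBall 0 1)] fun x : Fin (n + 1) → ℝ => eval x F ^ s := by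
      filter_upwards [ae_restrict_mem (hOm.inter measurableSet_closedBall)] with x hx
      exact Real.rpow_nonneg (hpos x hx.1).le _
    rw [hasFiniteIntegral_iff_ofReal hae]
    set g : (Fin (n + 1) → ℝ) → ENNReal := Ω.indicator fun x => ENNReal.ofReal (eval x F ^ s) with hg
    have e1 : ∫⁻ x in Ω ∩ closedBall 0 1, ENNReal.ofReal (eval x F ^ s) =
        ∫⁻ x in closedBall (0 : Fin (n + 1) → ℝ) 1, g x := by
      rw [hg, setLIntegral_indicator hOm]
    rw [e1]
    refine lt_of_le_of_ne le_top ?_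
    refine Sh.shell_sum volume (by rw [hfin]; omega) g (ENNReal.ofReal ((1 / 2 : ℝ) ^ (d * s))) ?_ ?_ ?_
    · intro x
      by_cases hx : x ∈ Ω
      · rw [hg, Set.indicator_of_mem hx, Set.indicator_of_mem ((hmem x).2 hx),
          ← ENNReal.ofReal_mul (by positivity)]
        refine ENNReal.ofReal_le_ofReal (le_of_eq ?_)
        rw [eval_smul_homR F d hF, Real.mul_rpow (by positivity) (hpos x hx).le,
          ← Real.rpow_natCast, ← Real.rpow_mul (by norm_num)]
      · rw [hg, Set.indicator_of_notMem hx, Set.indicator_of_notMem (fun h => hx ((hmem x).1 h))]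
        exact zero_le
    · rw [← ENNReal.ofReal_mul (by positivity), ← ENNReal.ofReal_one]
      refine (ENNReal.ofReal_lt_ofReal_iff zero_lt_one).2 ?_
      rw [hfin, ← Real.rpow_natCast, ← Real.rpow_add (by norm_num)]
      refine Real.rpow_lt_one (by norm_num) (by norm_num) ?_
      have : (d : ℝ) * s0 < d * s := mul_lt_mul_of_pos_left h1 hdR
      push_cast
      linarith
    · have h3 := (hint (-s) (by linarith) (by rw [hs0] at h1; linarith)).2
      rw [neg_neg] at h3
      have hSm : MeasurableSet {x : Fin (n + 1) → ℝ | 1 / 2 ≤ ‖x‖ ∧ ‖x‖ ≤ 1} :=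
        (isClosed_le continuous_const continuous_norm).measurableSet.inter
          (isClosed_le continuous_norm continuous_const).measurableSet
      have hae2 : 0 ≤ᵐ[volume.restrict (Ω ∩ {x : Fin (n + 1) → ℝ | 1 / 2 ≤ ‖x‖ ∧ ‖x‖ ≤ 1})]
          fun x : Fin (n + 1) → ℝ => eval x F ^ s := by
        filter_upwards [ae_restrict_mem (hOm.inter hSm)] with x hx
        exact Real.rpow_nonneg (hpos x hx.1).le _
      rw [hasFiniteIntegral_iff_ofReal hae2] at h3
      refine ne_of_lt (lt_of_le_of_lt ?_ h3)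
      have hsub : Ω ∩ Sh.Sl (Fin (n + 1) → ℝ) 0 ⊆
          Ω ∩ {x : Fin (n + 1) → ℝ | 1 / 2 ≤ ‖x‖ ∧ ‖x‖ ≤ 1} := by
        rintro x ⟨hxO, h2, h3⟩
        simp only [zero_add, pow_one, pow_zero] at h2 h3
        exact ⟨hxO, h2.le, h3⟩
      rw [hg, setLIntegral_indicator hOm]
      exact lintegral_mono_set hsub
  -- the shell
  set A : Set (Fin (n + 1) → ℝ) := Ω ∩ Sh.Sl (Fin (n + 1) → ℝ) 1 with hA
  have hAm : MeasurableSet A := hOm.inter (Sh.Sl_meas 1)
  have hAsub : A ⊆ Ω ∩ closedBall 0 (1 / 2) := by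
    rintro x ⟨h1, -, h2⟩
    refine ⟨h1, ?_⟩
    rw [mem_closedBall_zero_iff]
    simpa using h2
  have hball : ∀ r : ℝ, r ≤ 1 → Ω ∩ closedBall (0 : Fin (n + 1) → ℝ) r ⊆ Ω ∩ closedBall 0 1 :=
    fun r hr => Set.inter_subset_inter_right _ (closedBall_subset_closedBall hr)
  have hAμt : volume A ≠ ⊤ :=
    ((measure_mono (hAsub.trans Set.inter_subset_right)).trans_lt measure_closedBall_lt_top).ne
  have hAμ : 0 < (volume A).toReal := by
    refine ENNReal.toReal_pos ?_ hAμt
    have hopen : IsOpen (Ω ∩ {x : Fin (n + 1) → ℝ | (1 / 4 : ℝ) < ‖x‖ ∧ ‖x‖ < 1 / 2}) :=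
      hO.inter ((isOpen_lt continuous_const continuous_norm).inter
        (isOpen_lt continuous_norm continuous_const))
    have hne2 : (Ω ∩ {x : Fin (n + 1) → ℝ | (1 / 4 : ℝ) < ‖x‖ ∧ ‖x‖ < 1 / 2}).Nonempty := by
      obtain ⟨x, hx⟩ := hne
      have hx0 : x ≠ 0 := by
        rintro rfl
        have h1 := hpos 0 hx
        have h2 := eval_smul_homR F d hF 0 0
        rw [smul_zero, zero_pow hd.ne', zero_mul] at h2
        linarith
      have hp : 0 < ‖x‖ := norm_pos_iff.2 hx0
      refine ⟨(3 / (8 * ‖x‖)) • x, hcone _ (by positivity) x hx, ?_⟩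
      have : ‖(3 / (8 * ‖x‖)) • x‖ = 3 / 8 := by
        rw [norm_smul, Real.norm_eq_abs, abs_of_pos (by positivity)]
        field_simp
      constructor
      · rw [this]; norm_num
      · rw [this]; norm_num
    have h1 := hopen.measure_pos volume hne2
    refine (lt_of_lt_of_le h1 (measure_mono ?_)).ne'
    rintro x ⟨hxO, h2, h3⟩
    refine ⟨hxO, ?_, ?_⟩
    · norm_num
      linarith
    · norm_num
      linarith
  obtain ⟨M, hM⟩ := (isCompact_closedBall (0 : Fin (n + 1) → ℝ) 1).exists_bound_of_continuousOn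
    (f := fun x => eval x F) hFc.continuousOn
  set M1 : ℝ := max 1 M with hM1
  have hM1' : 1 ≤ M1 := le_max_left _ _
  set S0 : ℝ := (volume A).toReal * M1 ^ s0 with hS0
  have hS0p : 0 < S0 := mul_pos hAμ (Real.rpow_pos_of_pos (by linarith) _)
  have hL : 0 < Real.log 2 := Real.log_pos (by norm_num)
  -- the lower bound
  have hlow : ∀ s : ℝ, s0 < s → s < 0 →
      S0 ≤ (∫ x in Ω, eval x F ^ s * ρ x) * (d * Real.log 2 * (s - s0)) := by
    intro s h1 h3
    have hIs := hI s h1 h3
    have hnn : ∀ x ∈ Ω, 0 ≤ eval x F ^ s := fun x hx => Real.rpow_nonneg (hpos x hx).le _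
    have hIh : IntegrableOn (fun x => eval x F ^ s) (Ω ∩ closedBall 0 (1 / 2)) :=
      hIs.mono_set (hball _ (by norm_num))
    have hρm : Measurable ρ := by
      have := hρT.1.continuous
      have h7 : ρ = fun x => ((ρ x : ℂ)).re := by
        funext x; rw [Complex.ofReal_re]
      rw [h7]
      exact (Complex.continuous_re.comp this).measurable
    have h5 : IntegrableOn (fun x => eval x F ^ s * ρ x) (Ω ∩ closedBall 0 1) := by
      refine hIs.mono' ?_ ?_
      · exact ((hFc.measurable.pow_const _).mul hρm).aestronglyMeasurable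
      · filter_upwards [ae_restrict_mem (hOm.inter measurableSet_closedBall)] with x hx
        rw [norm_mul, Real.norm_eq_abs, Real.norm_eq_abs, abs_of_nonneg (hnn x hx.1),
          abs_of_nonneg (hρ0 x)]
        exact mul_le_of_le_one_right (hnn x hx.1) (hρ1 x)
    have e0 : ∫ x in Ω, eval x F ^ s * ρ x = ∫ x in Ω ∩ closedBall 0 1, eval x F ^ s * ρ x := by
      refine setIntegral_eq_of_subset_of_forall_diff_eq_zero hOm Set.inter_subset_left ?_
      rintro x ⟨hx1, hx2⟩
      have hx3 : x ∉ closedBall (0 : Fin (n + 1) → ℝ) 1 := fun h => hx2 ⟨hx1, h⟩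
      have hx4 : (ρ x : ℂ) = 0 := by
        by_contra h
        exact hx3 (hρT.2 (subset_tsupport _ h))
      rw [Complex.ofReal_eq_zero.1 hx4, mul_zero]
    have e1 : ∫ x in Ω ∩ closedBall 0 (1 / 2), eval x F ^ s ≤ ∫ x in Ω, eval x F ^ s * ρ x := by
      have h4 : ∫ x in Ω ∩ closedBall 0 (1 / 2), eval x F ^ s =
          ∫ x in Ω ∩ closedBall 0 (1 / 2), eval x F ^ s * ρ x := by
        refine setIntegral_congr_fun (hOm.inter measurableSet_closedBall) fun x hx => ?_
        rw [hρone x (by have := hx.2; rw [mem_closedBall_zero_iff] at this; exact this), mul_one]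
      rw [h4, e0]
      refine setIntegral_mono_set h5 ?_ (Eventually.of_forall (hball _ (by norm_num)))
      filter_upwards [ae_restrict_mem (hOm.inter measurableSet_closedBall)] with x hx
      exact mul_nonneg (hnn x hx.1) (hρ0 x)
    -- self-similarity
    set θ : ℝ := (1 / 2 : ℝ) ^ ((n : ℝ) + 1 + d * s) with hθ
    have e2 : ∫ x in Ω ∩ closedBall 0 (1 / 4), eval x F ^ s =
        θ * ∫ x in Ω ∩ closedBall 0 (1 / 2), eval x F ^ s := by
      have h4 := Measure.setIntegral_comp_smul_of_pos (volume : Measure (Fin (n + 1) → ℝ))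
        (fun x => eval x F ^ s) (Ω ∩ closedBall 0 (1 / 2)) (by norm_num : (0 : ℝ) < 1 / 2)
      have h5 : (1 / 2 : ℝ) • (Ω ∩ closedBall (0 : Fin (n + 1) → ℝ) (1 / 2)) =
          Ω ∩ closedBall 0 (1 / 4) := by
        ext x
        rw [Set.mem_smul_set_iff_inv_smul_mem₀ (by norm_num), Set.mem_inter_iff, Set.mem_inter_iff,
          mem_closedBall_zero_iff, mem_closedBall_zero_iff, norm_smul]
        have h8 : ‖(1 / 2 : ℝ)⁻¹‖ = 2 := by norm_num
        rw [h8]
        have h9 : (1 / 2 : ℝ)⁻¹ • x ∈ Ω ↔ x ∈ Ω := by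
          rw [← hmem, smul_smul]
          norm_num
        rw [h9]
        constructor
        · rintro ⟨h1, h2⟩
          exact ⟨h1, by linarith⟩
        · rintro ⟨h1, h2⟩
          exact ⟨h1, by linarith⟩
      rw [h5, hfin, smul_eq_mul] at h4
      have h6 : ∫ x in Ω ∩ closedBall 0 (1 / 2), eval ((1 / 2 : ℝ) • x) F ^ s =
          (1 / 2 : ℝ) ^ (d * s) * ∫ x in Ω ∩ closedBall 0 (1 / 2), eval x F ^ s := by
        rw [← integral_const_mul]
        refine setIntegral_congr_fun (hOm.inter measurableSet_closedBall) fun x hx => ?_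
        rw [eval_smul_homR F d hF, Real.mul_rpow (by positivity) (hpos x hx.1).le,
          ← Real.rpow_natCast, ← Real.rpow_mul (by norm_num)]
      rw [h6] at h4
      have h7 : (1 / 2 : ℝ) ^ (n + 1) ≠ 0 := by positivity
      have h8 : θ = (1 / 2 : ℝ) ^ (n + 1) * (1 / 2 : ℝ) ^ (d * s) := by
        rw [hθ, Real.rpow_add (by norm_num), ← Real.rpow_natCast]
        push_cast
        rfl
      rw [h8, mul_assoc, h4, ← mul_assoc, mul_inv_cancel₀ h7, one_mul]
    have hAB : Ω ∩ closedBall 0 (1 / 2) = (Ω ∩ closedBall 0 (1 / 4)) ∪ A := by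
      ext x
      simp only [Set.mem_union, Set.mem_inter_iff, mem_closedBall_zero_iff, hA]
      constructor
      · rintro ⟨h0, h⟩
        by_cases h4 : ‖x‖ ≤ 1 / 4
        · exact Or.inl ⟨h0, h4⟩
        · push Not at h4
          refine Or.inr ⟨h0, ?_, ?_⟩
          · norm_num
            linarith
          · norm_num
            linarith
      · rintro (h | h)
        · exact ⟨h.1, by linarith [h.2]⟩
        · refine ⟨h.1, ?_⟩
          have := h.2.2
          norm_num at this
          linarith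
    have hdisj : Disjoint (Ω ∩ closedBall 0 (1 / 4)) A := by
      rw [Set.disjoint_left]
      rintro x ⟨-, h4⟩ ⟨-, h5⟩
      rw [mem_closedBall_zero_iff] at h4
      have := h5.1
      norm_num at this
      linarith
    have e3 : (∫ x in Ω ∩ closedBall 0 (1 / 2), eval x F ^ s) * (1 - θ) =
        ∫ x in A, eval x F ^ s := by
      have h4 : ∫ x in Ω ∩ closedBall 0 (1 / 2), eval x F ^ s =
          (∫ x in Ω ∩ closedBall 0 (1 / 4), eval x F ^ s) + ∫ x in A, eval x F ^ s := by
        rw [hAB, setIntegral_union hdisj hAm (hIs.mono_set (hball _ (by norm_num)))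
          (hIh.mono_set hAsub)]
      rw [e2] at h4
      linarith
    have e4 : S0 ≤ ∫ x in A, eval x F ^ s := by
      have h4 : ∫ x in A, M1 ^ s0 = S0 := by
        rw [setIntegral_const, smul_eq_mul, hS0]
        rfl
      rw [← h4]
      refine setIntegral_mono_on (integrableOn_const hAμt) (hIh.mono_set hAsub) hAm fun x hxA => ?_
      have h5 : eval x F ≤ M1 := by
        have h6 := hM x ((hball _ (by norm_num)) (hAsub hxA)).2
        rw [Real.norm_eq_abs] at h6
        exact ((le_abs_self _).trans h6).trans (le_max_right _ _)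
      calc M1 ^ s0 ≤ M1 ^ s := Real.rpow_le_rpow_of_exponent_le hM1' h1.le
        _ ≤ eval x F ^ s := Real.rpow_le_rpow_of_nonpos (hpos x hxA.1) h5 h3.le
    have e5 : 1 - θ ≤ d * Real.log 2 * (s - s0) := by
      have h4 : θ = Real.exp (-(d * Real.log 2 * (s - s0))) := by
        rw [hθ, Real.rpow_def_of_pos (by norm_num)]
        congr 1
        rw [one_div, Real.log_inv]
        linear_combination (-Real.log 2) * hds
      rw [h4]
      have := Real.add_one_le_exp (-(d * Real.log 2 * (s - s0)))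
      linarith
    have hI0 : 0 ≤ ∫ x in Ω ∩ closedBall 0 (1 / 2), eval x F ^ s :=
      setIntegral_nonneg (hOm.inter measurableSet_closedBall) fun x hx => hnn x hx.1
    have hposs : 0 < s - s0 := by linarith
    calc S0 ≤ (∫ x in Ω ∩ closedBall 0 (1 / 2), eval x F ^ s) * (1 - θ) := by
          rw [e3]; exact e4
      _ ≤ (∫ x in Ω ∩ closedBall 0 (1 / 2), eval x F ^ s) * (d * Real.log 2 * (s - s0)) :=
          mul_le_mul_of_nonneg_left e5 hI0
      _ ≤ _ := mul_le_mul_of_nonneg_right e1 (by positivity)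
  have hB : Pool.Agent.H74A.Bdry (map (algebraMap ℝ ℂ) F) Ω := by
    refine ⟨hO, fun x hx => ?_⟩
    rw [ev_mapR, hfr x hx]
    simp
  refine Pool.Agent.H74A.root_real hB (isCompact_closedBall (0 : Fin (n + 1) → ℝ) 1)
    (F := fun x => eval x F) (fun x => ev_mapR F x) hpos hb hρT s0 ?_ ?_
  · intro s hs
    by_cases h3 : s < 0
    · exact hI s hs h3
    · push Not at h3
      have h4 : Continuous fun x : Fin (n + 1) → ℝ => eval x F ^ s :=
        hFc.rpow_const fun _ => Or.inr h3
      exact (h4.continuousOn.integrableOn_compact (isCompact_closedBall 0 1)).mono_set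
        Set.inter_subset_right
  · intro M δ hδ
    set c : ℝ := S0 / (d * Real.log 2 * (|M| + 1)) with hc
    have hc0 : 0 < c := by positivity
    set ε : ℝ := min (min (δ / 2) (-s0 / 2)) c with hε
    have hε0 : 0 < ε := lt_min (lt_min (by linarith) (by linarith)) hc0
    have h1 : ε ≤ δ / 2 := (min_le_left _ _).trans (min_le_left _ _)
    have h2 : ε ≤ -s0 / 2 := (min_le_left _ _).trans (min_le_right _ _)
    have h3 : ε ≤ c := min_le_right _ _
    refine ⟨s0 + ε, by linarith, by linarith, ?_⟩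
    have h4 := hlow (s0 + ε) (by linarith) (by linarith)
    rw [add_sub_cancel_left] at h4
    set I := ∫ x in Ω, eval x F ^ (s0 + ε) * ρ x with hIdef
    have h5 : 0 < I := by
      by_contra h6
      push Not at h6
      have : I * (d * Real.log 2 * ε) ≤ 0 := mul_nonpos_of_nonpos_of_nonneg h6 (by positivity)
      linarith
    have h6 : S0 ≤ I * (d * Real.log 2 * c) := h4.trans (by gcongr)
    have h7 : d * Real.log 2 * c = S0 / (|M| + 1) := by
      rw [hc]
      field_simp
    rw [h7, mul_div_assoc', le_div_iff₀ (by positivity)] at h6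
    have h8 : |M| + 1 ≤ I := by
      have : S0 * (|M| + 1) ≤ S0 * I := by linarith
      exact le_of_mul_le_mul_left this hS0p
    have := le_abs_self M
    linarith

theorem region_root {n : ℕ} (d : ℕ) (hd : 0 < d) (f : MvPolynomial (Fin (n + 1)) ℂ)
    (hf : f.IsHomogeneous d) (h : LightRegion d f) (b : Polynomial ℂ)
    (hb : IsFunctionalEq (fun _ : Fin 1 => f) b) :
    b.eval ((-(((n : ℝ) + 1) / d) : ℝ) : ℂ) = 0 := by
  classical
  obtain ⟨A, B, F, Ω, hAB, hBA, hF, hO, hne, hcone, hpos, hfr, hint⟩ := h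
  have hb' := Pool.Agent.Y229.isB_of_single _ b (functionalEq_lin A B hAB hBA _ b hb)
  rw [hF] at hb'
  have hFh : F.IsHomogeneous d := by
    have h1 := linSub_hom A f d hf
    rw [hF] at h1
    intro m hm
    apply h1
    rw [coeff_map]
    exact (map_ne_zero_iff _ (algebraMap ℝ ℂ).injective).2 hm
  exact region_rootR d hd F hFh Ω hO hne hcone hpos hfr hint b hb'

theorem region_ne {n : ℕ} (d : ℕ) (f : MvPolynomial (Fin (n + 1)) ℂ) (h : LightRegion d f) :
    f ≠ 0 := by
  obtain ⟨A, B, F, Ω, -, -, hF, -, ⟨x, hx⟩, -, hpos, -⟩ := h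
  rintro rfl
  rw [map_zero] at hF
  have h0 : F = 0 := by
    apply map_injective (algebraMap ℝ ℂ) (algebraMap ℝ ℂ).injective
    rw [← hF, map_zero]
  have := hpos x hx
  rw [h0, map_zero] at this
  exact lt_irrefl _ this

end Pool.Agent.H74D
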