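import Pool.Agent.H74A.Fib
import Pool.Agent.H74A.CDefs

set_option autoImplicit false
set_option linter.unusedSectionVars false
set_option linter.unusedVariables false

/-! # Families of functions with smooth zero sets -/

namespace Pool.Agent.H74S

open MvPolynomial MeasureTheory Filter Topology Complex Metric
open scoped ENNReal

/-- the power `|z| ^ (-2 c)` -/
noncomputable def pw (c : ℝ) (z : ℂ) : ℝ≥0∞ := ENNReal.ofReal ((‖z‖ ^ 2) ^ (-c))

theorem pw_meas (c : ℝ) : Measurable (pw c) := by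
  unfold pw
  fun_prop

theorem pw_ball {c : ℝ} (hc : c < 1) {ρ : ℝ} (hρ : 0 < ρ) :
    ∫⁻ z in closedBall (0 : ℂ) ρ, pw c z ≠ ⊤ := by
  have h1 := (Pool.Agent.H74C.pow_ball (p := -2 * c) (ρ := 2 * ρ) (by linarith) (by linarith)).1
  have h2 : IntegrableOn (fun z : ℂ => (‖z‖ ^ 2) ^ (-c)) (closedBall 0 ρ) := by
    refine (h1.mono_set ?_).congr_fun (fun z _ => ?_) measurableSet_closedBall
    · intro z hz
      rw [mem_closedBall_zero_iff] at hz
      rw [mem_ball_zero_iff]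
      linarith
    · simp only
      rw [← Real.rpow_natCast, ← Real.rpow_mul (norm_nonneg _)]
      congr 1
      push_cast
      ring
  have h3 := h2.2
  rw [hasFiniteIntegral_iff_ofReal (Eventually.of_forall fun z => by positivity)] at h3
  exact h3.ne

theorem pw_anti {c : ℝ} (hc : 0 ≤ c) {z : ℂ} {a : ℝ} (ha : 0 < a) (h : a ≤ ‖z‖) :
    pw c z ≤ ENNReal.ofReal ((a ^ 2) ^ (-c)) := by
  unfold pw
  refine ENNReal.ofReal_le_ofReal (Real.rpow_le_rpow_of_nonpos (by positivity) ?_ (by linarith))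
  gcongr

/-- the uniform bound for functions of one variable -/
theorem disc_bound {c : ℝ} (hc : 0 ≤ c) (q q' : ℂ → ℂ) {l : ℂ} (hl : l ≠ 0)
    (t₀ : ℂ) {ε : ℝ} (hε : 0 < ε) (hd : ∀ t ∈ closedBall t₀ ε, HasDerivAt q (q' t) t)
    (hb : ∀ t ∈ closedBall t₀ ε, ‖q' t - l‖ ≤ ‖l‖ / 2) :
    ∫⁻ t in closedBall t₀ ε, pw c (q t) ≤
      ENNReal.ofReal (((‖l‖ / 4) ^ 2) ^ (-c)) * ∫⁻ t in closedBall (0 : ℂ) (2 * ε), pw c t := by
  have hlp : 0 < ‖l‖ := norm_pos_iff.2 hl
  have hqc : ContinuousOn q (closedBall t₀ ε) := fun t ht =>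
    (hd t ht).continuousAt.continuousWithinAt
  have hlip : ∀ t ∈ closedBall t₀ ε, ∀ t' ∈ closedBall t₀ ε, ‖l‖ / 2 * ‖t - t'‖ ≤ ‖q t - q t'‖ := by
    intro t ht t' ht'
    have h1 := (convex_closedBall t₀ ε).norm_image_sub_le_of_norm_hasDerivWithin_le
      (f := fun t => q t - l * t) (f' := fun t => q' t - l) (C := ‖l‖ / 2) (x := t') (y := t)
      (fun x hx => by
        have h2 := (hd x hx).sub ((hasDerivAt_id x).const_mul l)
        rw [mul_one] at h2
        exact h2.hasDerivWithinAt) hb ht' ht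
    have h3 : l * (t - t') = (q t - q t') - ((q t - l * t) - (q t' - l * t')) := by ring
    have h4 : ‖l‖ * ‖t - t'‖ ≤ ‖q t - q t'‖ + ‖l‖ / 2 * ‖t - t'‖ := by
      rw [← norm_mul, h3]
      refine (norm_sub_le _ _).trans ?_
      gcongr
    linarith
  obtain ⟨ts, hts, hmin⟩ := (isCompact_closedBall t₀ ε).exists_isMinOn
    ⟨t₀, mem_closedBall_self hε.le⟩ (f := fun t => ‖q t‖) hqc.norm
  have hlow : ∀ t ∈ closedBall t₀ ε, ‖l‖ / 4 * ‖t - ts‖ ≤ ‖q t‖ := by
    intro t ht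
    have h1 := hlip t ht ts hts
    have h2 : ‖q ts‖ ≤ ‖q t‖ := hmin ht
    have h3 := norm_sub_le (q t) (q ts)
    linarith
  have hae : ∀ᵐ t : ℂ, t ≠ ts := by
    have h : (volume : Measure ℂ) {ts} = 0 := measure_singleton _
    exact compl_mem_ae_iff.2 h
  calc ∫⁻ t in closedBall t₀ ε, pw c (q t) ≤
      ∫⁻ t in closedBall t₀ ε, ENNReal.ofReal (((‖l‖ / 4) ^ 2) ^ (-c)) * pw c (t - ts) := by
        refine setLIntegral_mono_ae' measurableSet_closedBall ?_
        filter_upwards [hae] with t h1 ht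
        have h2 : 0 < ‖t - ts‖ := norm_pos_iff.2 (sub_ne_zero.2 h1)
        refine (pw_anti hc (by positivity) (hlow t ht)).trans (le_of_eq ?_)
        unfold pw
        rw [← ENNReal.ofReal_mul (by positivity), mul_pow,
          Real.mul_rpow (by positivity) (by positivity)]
    _ = ENNReal.ofReal (((‖l‖ / 4) ^ 2) ^ (-c)) * ∫⁻ t in closedBall t₀ ε, pw c (t - ts) :=
        lintegral_const_mul' _ _ ENNReal.ofReal_ne_top
    _ ≤ _ := by
        refine mul_le_mul' le_rfl ?_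
        rw [← lintegral_indicator measurableSet_closedBall,
          ← lintegral_indicator measurableSet_closedBall]
        have e3 := lintegral_sub_right_eq_self (μ := (volume : Measure ℂ))
          ((closedBall (0 : ℂ) (2 * ε)).indicator fun t : ℂ => pw c t) ts
        rw [← e3]
        refine lintegral_mono fun t => ?_
        by_cases ht : t ∈ closedBall t₀ ε
        · have h' : t - ts ∈ closedBall (0 : ℂ) (2 * ε) := by
            rw [mem_closedBall_zero_iff, ← dist_eq_norm]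
            have h5 := dist_triangle_right t ts t₀
            rw [mem_closedBall] at ht hts
            linarith
          rw [Set.indicator_of_mem ht, Set.indicator_of_mem h']
        · rw [Set.indicator_of_notMem ht]
          exact zero_le

/-- families of functions of `N + 1` variables with their partial derivatives -/
structure Fam (W : Type) [TopologicalSpace W] (N : ℕ) where
  F : W → (Fin (N + 1) → ℂ) → ℂ
  D : Fin (N + 1) → W → (Fin (N + 1) → ℂ) → ℂ
  hF : Continuous (Function.uncurry F)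
  hD : ∀ i, Continuous (Function.uncurry (D i))
  hd : ∀ (w : W) (i : Fin (N + 1)) (y : Fin N → ℂ) (z : ℂ),
    HasDerivAt (fun z : ℂ => F w (i.insertNth z y)) (D i w (i.insertNth z y)) z

section

variable {W : Type} [TopologicalSpace W] {N : ℕ}

theorem ball_insert (i : Fin (N + 1)) (y₀ : Fin (N + 1) → ℂ) (ε : ℝ) (z : ℂ)
    (y : Fin N → ℂ) (h : (i.insertNth z y : Fin (N + 1) → ℂ) ∈ closedBall y₀ ε) (hε : 0 ≤ ε) :
    z ∈ closedBall (y₀ i) ε ∧ y ∈ closedBall (i.removeNth y₀) ε := by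
  rw [mem_closedBall, dist_pi_le_iff hε] at h
  constructor
  · have := h i
    rwa [Fin.insertNth_apply_same] at this
  · rw [mem_closedBall, dist_pi_le_iff hε]
    intro j
    have := h (i.succAbove j)
    rwa [Fin.insertNth_apply_succAbove] at this

theorem insert_ball (i : Fin (N + 1)) (y₀ : Fin (N + 1) → ℂ) (ε : ℝ) (z : ℂ)
    (y : Fin N → ℂ) (h1 : z ∈ closedBall (y₀ i) ε) (h2 : y ∈ closedBall (i.removeNth y₀) ε)
    (hε : 0 ≤ ε) : (i.insertNth z y : Fin (N + 1) → ℂ) ∈ closedBall y₀ ε := by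
  rw [mem_closedBall, dist_pi_le_iff hε]
  intro j
  rcases Fin.eq_self_or_eq_succAbove i j with h | ⟨j', h⟩
  · rw [h, Fin.insertNth_apply_same]
    exact h1
  · rw [h, Fin.insertNth_apply_succAbove]
    rw [mem_closedBall, dist_pi_le_iff hε] at h2
    exact h2 j'

/-- the local estimate -/
theorem Fam.loc (A : Fam W N) {c : ℝ} (hc0 : 0 ≤ c) (hc1 : c < 1) (w₀ : W) (y₀ : Fin (N + 1) → ℂ)
    (h : A.F w₀ y₀ ≠ 0 ∨ ∃ i, A.D i w₀ y₀ ≠ 0) :
    ∃ V ∈ 𝓝 w₀, ∃ S ∈ 𝓝 y₀, ∃ C : ℝ≥0∞, C ≠ ⊤ ∧ ∀ w ∈ V, ∫⁻ y in S, pw c (A.F w y) ≤ C := by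
  rcases h with h | ⟨i, h⟩
  · have hp := norm_pos_iff.2 h
    have h1 : ∀ᶠ p : W × (Fin (N + 1) → ℂ) in 𝓝 (w₀, y₀), ‖A.F w₀ y₀‖ / 2 < ‖A.F p.1 p.2‖ :=
      (A.hF.norm.tendsto (w₀, y₀)).eventually (lt_mem_nhds (by
        change ‖A.F w₀ y₀‖ / 2 < ‖A.F w₀ y₀‖
        linarith))
    rw [nhds_prod_eq, Filter.eventually_prod_iff] at h1
    obtain ⟨pa, hpa, pb, hpb, hab⟩ := h1
    obtain ⟨ε, hε, hball⟩ := Metric.nhds_basis_closedBall.mem_iff.1 hpb
    refine ⟨{w | pa w}, hpa, closedBall y₀ ε, closedBall_mem_nhds _ hε,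
      ENNReal.ofReal (((‖A.F w₀ y₀‖ / 2) ^ 2) ^ (-c)) * volume (closedBall y₀ ε),
      ENNReal.mul_ne_top ENNReal.ofReal_ne_top measure_closedBall_lt_top.ne, fun w hw => ?_⟩
    rw [← setLIntegral_const]
    refine setLIntegral_mono' measurableSet_closedBall fun y hy => ?_
    exact pw_anti hc0 (by positivity) (hab hw (hball hy)).le
  · set l := A.D i w₀ y₀ with hl
    have hp := norm_pos_iff.2 h
    have hcd : Continuous fun p : W × (Fin (N + 1) → ℂ) => ‖A.D i p.1 p.2 - l‖ :=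
      ((A.hD i).sub continuous_const).norm
    have h1 : ∀ᶠ p : W × (Fin (N + 1) → ℂ) in 𝓝 (w₀, y₀), ‖A.D i p.1 p.2 - l‖ < ‖l‖ / 2 := by
      have h2 : ‖A.D i w₀ y₀ - l‖ < ‖l‖ / 2 := by
        rw [← hl, sub_self, norm_zero]
        positivity
      exact (hcd.tendsto (w₀, y₀)).eventually (gt_mem_nhds h2)
    rw [nhds_prod_eq, Filter.eventually_prod_iff] at h1
    obtain ⟨pa, hpa, pb, hpb, hab⟩ := h1
    obtain ⟨ε, hε, hball⟩ := Metric.nhds_basis_closedBall.mem_iff.1 hpb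
    set K : ℝ≥0∞ := ENNReal.ofReal (((‖l‖ / 4) ^ 2) ^ (-c)) *
      ∫⁻ t in closedBall (0 : ℂ) (2 * ε), pw c t with hK
    have hKt : K ≠ ⊤ := ENNReal.mul_ne_top ENNReal.ofReal_ne_top (pw_ball hc1 (by positivity))
    refine ⟨{w | pa w}, hpa, closedBall y₀ ε, closedBall_mem_nhds _ hε,
      K * volume (closedBall (i.removeNth y₀) ε),
      ENNReal.mul_ne_top hKt measure_closedBall_lt_top.ne, fun w hw => ?_⟩
    have hmp := volume_preserving_piFinSuccAbove (fun _ : Fin (N + 1) => ℂ) i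
    have hmeas : Measurable fun y : Fin (N + 1) → ℂ => pw c (A.F w y) :=
      (pw_meas c).comp (A.hF.comp (Continuous.prodMk_right w)).measurable
    have hins : Measurable fun p : ℂ × (Fin N → ℂ) => (i.insertNth p.1 p.2 : Fin (N + 1) → ℂ) :=
      (MeasurableEquiv.piFinSuccAbove (fun _ : Fin (N + 1) => ℂ) i).symm.measurable
    set G : (Fin (N + 1) → ℂ) → ℝ≥0∞ := (closedBall y₀ ε).indicator fun y => pw c (A.F w y) with hG
    have hGm : Measurable G := hmeas.indicator measurableSet_closedBall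
    have e1 : ∫⁻ y in closedBall y₀ ε, pw c (A.F w y) =
        ∫⁻ p : ℂ × (Fin N → ℂ), G (i.insertNth p.1 p.2) := by
      rw [← lintegral_indicator measurableSet_closedBall]
      exact (hmp.symm.lintegral_comp hGm).symm
    have hGi : Measurable fun p : ℂ × (Fin N → ℂ) => G (i.insertNth p.1 p.2) := hGm.comp hins
    rw [e1, Measure.volume_eq_prod, lintegral_prod_symm' _ hGi, ← setLIntegral_const,
      ← lintegral_indicator measurableSet_closedBall]
    refine lintegral_mono fun y => ?_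
    by_cases hy : y ∈ closedBall (i.removeNth y₀) ε
    · rw [Set.indicator_of_mem hy]
      have e2 : ∫⁻ z : ℂ, G (i.insertNth z y) ≤
          ∫⁻ z in closedBall (y₀ i) ε, pw c (A.F w (i.insertNth z y)) := by
        rw [← lintegral_indicator measurableSet_closedBall]
        refine lintegral_mono fun z => ?_
        by_cases hz : (i.insertNth z y : Fin (N + 1) → ℂ) ∈ closedBall y₀ ε
        · rw [hG, Set.indicator_of_mem hz, Set.indicator_of_mem (ball_insert i y₀ ε z y hz hε.le).1]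
        · rw [hG, Set.indicator_of_notMem hz]
          exact zero_le
      refine e2.trans ?_
      refine disc_bound hc0 (fun z => A.F w (i.insertNth z y)) (fun z => A.D i w (i.insertNth z y))
        h (y₀ i) hε (fun z _ => A.hd w i y z) fun z hz => ?_
      exact (hab hw (hball (insert_ball i y₀ ε z y hz hy hε.le))).le
    · rw [Set.indicator_of_notMem hy]
      have e2 : ∀ z : ℂ, G (i.insertNth z y) = 0 := by
        intro z
        rw [hG, Set.indicator_of_notMem]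
        intro hz
        exact hy (ball_insert i y₀ ε z y hz hε.le).2
      simp only [e2, lintegral_zero, le_refl]

/-- the estimate on compact sets -/
theorem Fam.cpt (A : Fam W N) {c : ℝ} (hc0 : 0 ≤ c) (hc1 : c < 1) (w₀ : W)
    {K : Set (Fin (N + 1) → ℂ)} (hK : IsCompact K)
    (h : ∀ y ∈ K, A.F w₀ y ≠ 0 ∨ ∃ i, A.D i w₀ y ≠ 0) :
    ∃ V ∈ 𝓝 w₀, ∃ C : ℝ≥0∞, C ≠ ⊤ ∧ ∀ w ∈ V, ∫⁻ y in K, pw c (A.F w y) ≤ C := by
  refine hK.induction_on (p := fun S => ∃ V ∈ 𝓝 w₀, ∃ C : ℝ≥0∞, C ≠ ⊤ ∧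
    ∀ w ∈ V, ∫⁻ y in S, pw c (A.F w y) ≤ C) ?_ ?_ ?_ ?_
  · exact ⟨Set.univ, Filter.univ_mem, 0, ENNReal.zero_ne_top, fun w _ => by simp⟩
  · rintro S T hST ⟨V, hV, C, hC, hb⟩
    exact ⟨V, hV, C, hC, fun w hw => (lintegral_mono_set hST).trans (hb w hw)⟩
  · rintro S T ⟨V, hV, C, hC, hb⟩ ⟨V', hV', C', hC', hb'⟩
    refine ⟨V ∩ V', Filter.inter_mem hV hV', C + C', ENNReal.add_ne_top.2 ⟨hC, hC'⟩, fun w hw => ?_⟩
    exact (lintegral_union_le _ _ _).trans (add_le_add (hb w hw.1) (hb' w hw.2))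
  · intro y hy
    obtain ⟨V, hV, S, hS, C, hC, hb⟩ := A.loc hc0 hc1 w₀ y (h y hy)
    exact ⟨S, mem_nhdsWithin_of_mem_nhds hS, V, hV, C, hC, hb⟩

end

end Pool.Agent.H74S
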