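import Pool.Agent.H74A.VGDefs
import Pool.Agent.H74A.Light
import Pool.Agent.H74A.Lin
import Pool.Agent.H74A.Region
import Pool.Agent.H74A.OrdRoot
import Pool.Agent.Y230.PS.Last

set_option autoImplicit false
set_option linter.unusedSectionVars false
set_option linter.unusedVariables false

/-! # Germs of hypersurfaces with cones over forms: the theorem -/

namespace Pool.Agent.H74D

open MvPolynomial Pool.Agent.W574.SM Pool.Agent.N103.V Pool.Agent.N127.TW
open Pool.Agent.H628R4.TP (IsBFunction IsLocalBFunction)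
open Pool.Agent.Y229.RE (trans trans_local)
open Pool.Agent.Y229.PS (formal_of_local IsFormalBFunction local_of_formal formal_of_unit coordB)
open Pool.Agent.W574.RO (functionalEq_mul functionalEq_equiv mulf)

/-- the root of a form -/
theorem form_root {n : ℕ} (d : ℕ) (hd : 0 < d) (f : MvPolynomial (Fin (n + 1)) ℂ)
    (hf : f.IsHomogeneous d) (hf0 : f ≠ 0) (hv : FormRoot d f) (b : Polynomial ℂ)
    (hb : IsFunctionalEq (fun _ : Fin 1 => f) b) : b.eval (-((n : ℂ) + 1) / (d : ℂ)) = 0 := by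
  classical
  have hcast : (-((n : ℂ) + 1) / (d : ℂ)) = ((-(((n : ℝ) + 1) / d) : ℝ) : ℂ) := by
    push_cast
    ring
  rcases hv with h | h | hl | h
  · rw [hcast]
    exact Pool.Agent.H74S.ordinary_root d f hf h b hb
  · rw [hcast]
    exact heavy_root d f hf h b hb
  · have h1 := light_root (Nat.succ_pos n) (fun _ : Fin 1 => f) d hd (fun _ => hf) ⟨0, hf0⟩
      (by push_cast; exact hl) b hb
    rw [hcast]
    push_cast at h1 ⊢
    exact h1
  · rw [hcast]
    exact region_root d hd f hf h b hb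

/-- variables which do not occur may be dropped -/
theorem fe_drop {σ κ : Type} (f : MvPolynomial σ ℂ) (b : Polynomial ℂ)
    (hb : IsFunctionalEq (fun _ : Fin 1 => (rename Sum.inl f : MvPolynomial (σ ⊕ κ) ℂ)) b) :
    IsFunctionalEq (fun _ : Fin 1 => f) b := by
  classical
  refine functionalEq_mul (fun _ : Fin 1 => f) (fun _ : Fin 1 => (1 : MvPolynomial κ ℂ))
    ⟨0, one_ne_zero⟩ b ?_
  refine functionalEq_equiv (Equiv.refl (σ ⊕ κ)) (Equiv.prodUnique (Fin 1) (Fin 1)) _
    (fun _ : Fin 1 => (rename Sum.inl f : MvPolynomial (σ ⊕ κ) ℂ)) (fun j => ?_) b hb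
  change rename Sum.inl f = rename (Equiv.refl (σ ⊕ κ))
    (rename Sum.inl f * rename Sum.inr (1 : MvPolynomial κ ℂ))
  rw [map_one, mul_one]
  simp [rename_rename]

theorem fe_emb {σ σ' : Type} (ε : σ ↪ σ') (f : MvPolynomial σ ℂ) (b : Polynomial ℂ)
    (hb : IsFunctionalEq (fun _ : Fin 1 => rename ε f) b) :
    IsFunctionalEq (fun _ : Fin 1 => f) b := by
  classical
  set E : σ ⊕ {i : σ' // i ∉ Set.range ε} ≃ σ' :=
    (Equiv.sumCongr (Equiv.ofInjective ε ε.injective) (Equiv.refl _)).trans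
      (Equiv.Set.sumCompl (Set.range ε)) with hE
  have h1 : ∀ i : σ, E (Sum.inl i) = ε i := fun i => by
    rw [hE]
    exact Equiv.Set.sumCompl_apply_inl _ _
  refine fe_drop (κ := {i : σ' // i ∉ Set.range ε}) f b ?_
  refine functionalEq_equiv E (Equiv.refl (Fin 1)) _ (fun _ : Fin 1 => rename ε f)
    (fun j => ?_) b hb
  change rename ε f = rename E (rename Sum.inl f)
  rw [rename_rename]
  have : (E ∘ Sum.inl : σ → σ') = ε := funext h1
  rw [this]

namespace FormData

variable {N : ℕ} (C : FormData N)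

theorem F_hom : C.F.IsHomogeneous C.d := C.hf.rename_isHomogeneous

theorem F_ne : C.F ≠ 0 := fun h => C.hf0 (rename_injective C.ε C.ε.injective (by
  rw [map_zero]
  exact h))

theorem isB_of_germ {g : MvPowerSeries (Fin N) ℂ} (hg : BecomesAt g C.F) {b : Polynomial ℂ}
    (hb : IsFormalBFunction g b) : IsBFunction C.F b := by
  obtain ⟨ε', φ, u, hφ, hφ0, hu, h3⟩ := hg
  obtain ⟨u, rfl⟩ := hu
  have h4 : IsLocalBFunction (rename ε' C.F) b := by
    refine local_of_formal (formal_of_unit (Units.inv_mul u) ?_)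
    rw [← h3]
    exact coordB hφ hφ0 hb
  have hne : rename ε' C.F ≠ 0 := by
    intro h5
    exact C.F_ne (rename_injective ε' ε'.injective (by rw [h5, map_zero]))
  exact isB_of_rename ε' _ b (Pool.Agent.W574.MO.global_of_local _ hne C.d
    (C.F_hom.rename_isHomogeneous) b h4)

/-- the factor of the exceptional divisor -/
theorem tfac_reg {b : Polynomial ℂ} (hb : IsBFunction C.F b) (e : ℕ) {s₀ : ℂ}
    (hne : b.eval s₀ ≠ 0) (hc : s₀ ≠ -((C.n : ℂ) + 1) / C.d ∨ FormRoot C.d C.f) :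
    tfac e C.d (C.n + 1) ∈ Reg s₀ := by
  classical
  unfold tfac
  split_ifs with hed
  · refine fac_mem C.d (C.n + 1) s₀ fun h0 => ?_
    have hdc : (C.d : ℂ) ≠ 0 := Nat.cast_ne_zero.2 C.hd.ne'
    have h1 : s₀ = -((C.n : ℂ) + 1) / C.d := by
      rw [eq_div_iff hdc]
      push_cast at h0
      linear_combination h0
    rcases hc with hc | hc
    · exact hc h1
    · apply hne
      rw [h1]
      exact form_root C.d C.hd C.f C.hf C.hf0 hc b
        (fe_emb C.ε C.f b (Pool.Agent.Y230.PS.single_of_isB _ b hb))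
  · exact Subring.zero_mem _

end FormData

/-- The zeta functions of these germs are regular at `s₀` if `b(s₀) ≠ 0`. -/
theorem VGerm.reg {N : ℕ} {e : ℕ} (he : 1 ≤ e) {s₀ : ℂ} {g : MvPowerSeries (Fin N) ℂ}
    {z : RatFunc ℂ} (h : VGerm e s₀ g z) {b : Polynomial ℂ} (hne : b.eval s₀ ≠ 0) :
    IsFormalBFunction g b → z ∈ Reg s₀ := by
  induction h with
  | susp g σ F Z hg hZ => exact fun hb => germ_reg hZ hg hb he hne
  | form g C hg hc l p z χ₀ χ hz ih =>
    intro hb
    have hG := C.isB_of_germ hg hb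
    refine Subring.mul_mem _ (C.tfac_reg hG e hne hc) (sum_reg z (fun i => ?_) χ₀ χ)
    exact ih i (formal_of_local (trans_local (p i) hG))

/-- **The global theorem.** -/
theorem vgerm_global {N : ℕ} (G : MvPolynomial (Fin N) ℂ) (b : Polynomial ℂ)
    (hb : IsBFunction G b) (e : ℕ) (he : 1 ≤ e) (s₀ : ℂ) (l : ℕ) (p : Fin l → Fin N → ℂ)
    (z : Fin l → RatFunc ℂ)
    (hz : ∀ i, VGerm e s₀ (trans (p i) G : MvPowerSeries (Fin N) ℂ) (z i)) (χ₀ : ℤ)
    (χ : Fin l → ℤ) (hs₀ : ((χ₀ : RatFunc ℂ) + ∑ i, (χ i : RatFunc ℂ) * z i).denom.eval s₀ = 0) :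
    b.eval s₀ = 0 := by
  by_contra hne
  exact Reg_denom s₀ _ (sum_reg z (fun i => (hz i).reg he hne
    (formal_of_local (trans_local (p i) hb))) χ₀ χ) hs₀

/-- **The local theorem.** -/
theorem vgerm_local {N : ℕ} {g : MvPowerSeries (Fin N) ℂ} (b : Polynomial ℂ)
    (hb : IsFormalBFunction g b) (e : ℕ) (he : 1 ≤ e) (s₀ : ℂ) (z : RatFunc ℂ)
    (hz : VGerm e s₀ g z) (hs₀ : z.denom.eval s₀ = 0) : b.eval s₀ = 0 := by
  by_contra hne
  exact Reg_denom s₀ _ (hz.reg he hne hb) hs₀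

end Pool.Agent.H74D
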