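import Pool.Agent.H74A.CDefs
import Pool.Agent.N127.TW.Cone

set_option autoImplicit false

/-! # Germs of hypersurfaces with cones over forms -/

namespace Pool.Agent.H74D

open MvPolynomial Pool.Agent.W574.SM Pool.Agent.N103.V Pool.Agent.N127.TW
open Pool.Agent.Y229.RE (trans)

/-- The conditions on the form `f` of degree `d` in `x_0, ..., x_n` under which `-(n + 1) / d` is a
root of its Bernstein-Sato polynomial:
* (O) the points of the projective hypersurface `f = 0` of multiplicity larger than `d / (n + 1)` are
  ordinary (`OrdinaryAbove`);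
* (H) the projective hypersurface has a heavy point (`HeavyPoint`);
* (L) the log canonical threshold of `f` outside of the origin is at least `(n + 1) / d`;
* (R) the form `f` has a light real region (`LightRegion`). -/
def FormRoot {n : ℕ} (d : ℕ) (f : MvPolynomial (Fin (n + 1)) ℂ) : Prop :=
  OrdinaryAbove d f ∨ HeavyPoint d f ∨ LctGe (fun _ : Fin 1 => f) (((n : ℝ) + 1) / d) ∨
    LightRegion d f

/-- A form `f ≠ 0` of degree `d > 0` in the variables `x_0, ..., x_n`, which are some (numbered by `ε`)
of `N` variables. -/
structure FormData (N : ℕ) where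
  /-- `x = (x_0, ..., x_n)` -/
  n : ℕ
  /-- the degree -/
  d : ℕ
  /-- the form -/
  f : MvPolynomial (Fin (n + 1)) ℂ
  /-- the numbering of the variables -/
  ε : Fin (n + 1) ↪ Fin N
  hd : 0 < d
  hf : f.IsHomogeneous d
  hf0 : f ≠ 0

/-- the form as a polynomial in `N` variables -/
noncomputable def FormData.F {N : ℕ} (C : FormData N) : MvPolynomial (Fin N) ℂ := rename C.ε C.f

/-- Germs `g` with their `e`-th twisted local topological zeta functions `z` (`e ≥ 1`; for `e = 1` these
are the local topological zeta functions), for a complex number `s₀`: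

* `susp`: `g` becomes, in formal coordinates and up to a unit, a polynomial of the class `𝓢`, whose
  twisted zeta functions are the `Z e` (`SusZeta`); in particular, `g` may be an arbitrary germ in two
  variables, or a suspension of it;
* `form`: `g` becomes, in formal coordinates and up to a unit, a form `f(x_0, ..., x_n)` of degree `d`
  (`FormData`; `n + 1 ≤ N`); then `z = [e ∣ d] / (d s + n + 1) * (χ_0 + ∑_i χ_i z_i)`, where the `z_i` are
  zeta functions of the germs of `f` at points `p_i`, which are again of the forms described here,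
  and the `χ`s are integers. Here we ask that `s₀ ≠ -(n + 1) / d`, or that `FormRoot d f` holds.

For `form`, blow up the space `x = 0`. The exceptional divisor is `ℙ^n × ℂ^κ`, with `N = d` and
`ν = n + 1`; near a point `(Q, c)` the pull-back of `f` is `t ^ d f(q)`, where `t = 0` is the equation
of the exceptional divisor and `q ≠ 0` is a point of the line `Q`. Over the origin we have `c = 0`, the
`p_i` are points `(q_i, 0)`, and the `χ_i` are the Euler characteristics of the sets of points `Q` of
`ℙ^n` where the zeta function of the germ at `(q, 0)` is `z_i` (`χ_0`: where the function is not zero). -/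
inductive VGerm {N : ℕ} (e : ℕ) (s₀ : ℂ) : MvPowerSeries (Fin N) ℂ → RatFunc ℂ → Prop
  /-- suspensions -/
  | susp (g : MvPowerSeries (Fin N) ℂ) (σ : Type) (F : MvPolynomial σ ℂ) (Z : ℕ → RatFunc ℂ)
      (hg : BecomesAt g F) (hZ : SusZeta σ F 0 Z) : VGerm e s₀ g (Z e)
  /-- forms -/
  | form (g : MvPowerSeries (Fin N) ℂ) (C : FormData N) (hg : BecomesAt g C.F)
      (hc : s₀ ≠ -((C.n : ℂ) + 1) / C.d ∨ FormRoot C.d C.f) (l : ℕ) (p : Fin l → Fin N → ℂ)
      (z : Fin l → RatFunc ℂ) (χ₀ : ℤ) (χ : Fin l → ℤ)
      (hz : ∀ i, VGerm e s₀ (trans (p i) C.F : MvPowerSeries (Fin N) ℂ) (z i)) :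
      VGerm e s₀ g (tfac e C.d (C.n + 1) *
        ((χ₀ : RatFunc ℂ) + ∑ i, (χ i : RatFunc ℂ) * z i))

end Pool.Agent.H74D
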